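import Pool.Agent.PN4.Defs
import Pool.Agent.Helper43.PLap.Scale

set_option autoImplicit false

open MvPolynomial

namespace Pool.PN4

noncomputable section

@[simp] lemma mk_zero (a b c e : ℕ) : mk a b c e 0 = a := rfl
@[simp] lemma mk_one (a b c e : ℕ) : mk a b c e 1 = b := rfl
@[simp] lemma mk_two (a b c e : ℕ) : mk a b c e 2 = c := rfl
@[simp] lemma mk_three (a b c e : ℕ) : mk a b c e 3 = e := rfl

lemma mk_self (d : Fin 4 →₀ ℕ) : mk (d 0) (d 1) (d 2) (d 3) = d := by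
  ext i; fin_cases i <;> rfl

lemma ext4 {d d' : Fin 4 →₀ ℕ} (h0 : d 0 = d' 0) (h1 : d 1 = d' 1) (h2 : d 2 = d' 2)
    (h3 : d 3 = d' 3) : d = d' := by
  rw [← mk_self d, ← mk_self d', h0, h1, h2, h3]

lemma wt_four (ω : Fin 4 → ℕ) (d : Fin 4 →₀ ℕ) :
    wt ω d = ω 0 * d 0 + ω 1 * d 1 + ω 2 * d 2 + ω 3 * d 3 := by
  simp [wt, Fin.sum_univ_four]

lemma wt_two (ω : Fin 2 → ℕ) (d : Fin 2 →₀ ℕ) : wt ω d = ω 0 * d 0 + ω 1 * d 1 := by
  simp [wt, Fin.sum_univ_two]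

lemma coeff_ini {n : ℕ} (ω : Fin n → ℕ) (W : ℕ) (u : MvPolynomial (Fin n) ℂ) (d : Fin n →₀ ℕ) :
    coeff d (ini ω W u) = if wt ω d = W then coeff d u else 0 := by
  classical
  unfold ini
  rw [coeff_sum]
  simp only [coeff_monomial]
  rw [Finset.sum_ite_eq']
  by_cases h : wt ω d = W
  · by_cases h2 : d ∈ u.support
    · rw [if_pos (by simp [h, mem_support_iff.mp h2]), if_pos h]
    · rw [if_neg (by simp [notMem_support_iff.mp h2]), if_pos h, notMem_support_iff.mp h2]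
  · rw [if_neg (by simp [h]), if_neg h]

lemma mem_support_ini {n : ℕ} {ω : Fin n → ℕ} {W : ℕ} {u : MvPolynomial (Fin n) ℂ}
    {d : Fin n →₀ ℕ} : d ∈ (ini ω W u).support ↔ wt ω d = W ∧ d ∈ u.support := by
  rw [mem_support_iff, coeff_ini, mem_support_iff]
  by_cases h : wt ω d = W <;> simp [h]

lemma ini_hom {n : ℕ} (ω : Fin n → ℕ) (W : ℕ) {u : MvPolynomial (Fin n) ℂ} {m : ℕ}
    (hu : u.IsHomogeneous m) : (ini ω W u).IsHomogeneous m := by
  intro d hd
  exact hu (mem_support_iff.mp (mem_support_ini.mp (mem_support_iff.mpr hd)).2)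

lemma hom_sum {n : ℕ} {u : MvPolynomial (Fin n) ℂ} {m : ℕ} (hu : u.IsHomogeneous m)
    {d : Fin n →₀ ℕ} (hd : d ∈ u.support) : ∑ i, d i = m := by
  have h := hu (mem_support_iff.mp hd)
  rw [← h, Finsupp.weight_apply, Finsupp.sum_fintype _ _ (by simp)]
  simp

lemma hom_four {u : MvPolynomial (Fin 4) ℂ} {m : ℕ} (hu : u.IsHomogeneous m)
    {d : Fin 4 →₀ ℕ} (hd : d ∈ u.support) : d 0 + d 1 + d 2 + d 3 = m := by
  have h := hom_sum hu hd
  rwa [Fin.sum_univ_four] at h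

/-- the least weight is attained -/
lemma exists_min_wt {n : ℕ} (ω : Fin n → ℕ) {u : MvPolynomial (Fin n) ℂ} (hu : u ≠ 0) :
    ∃ W, (∀ d ∈ u.support, W ≤ wt ω d) ∧ ini ω W u ≠ 0 := by
  obtain ⟨d0, hd0, hmin⟩ := Finset.exists_min_image u.support (fun d => wt ω d)
    (by rwa [support_nonempty])
  refine ⟨wt ω d0, hmin, ?_⟩
  intro h
  have : d0 ∈ (ini ω (wt ω d0) u).support := mem_support_ini.mpr ⟨rfl, hd0⟩
  rw [h] at this
  simp at this

lemma B_Hm (u v : MvPolynomial (Fin 4) ℂ) : B Hm u v =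
    pderiv 0 u * pderiv 1 v + pderiv 1 u * pderiv 0 v + pderiv 2 u * pderiv 3 v +
      pderiv 3 u * pderiv 2 v := by
  unfold B Hm
  simp [Fin.sum_univ_four]
  try ring

lemma L_Hm (u : MvPolynomial (Fin 4) ℂ) : L Hm u =
    2 * (pderiv 0 (pderiv 1 u) + pderiv 2 (pderiv 3 u)) := by
  have h1 := Pool.Agent.Helper43.PLap.pderiv_comm (1 : Fin 4) 0 u
  have h2 := Pool.Agent.Helper43.PLap.pderiv_comm (3 : Fin 4) 2 u
  unfold L Hm
  simp [Fin.sum_univ_four]
  rw [h1, h2]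
  ring

lemma eval_N (u : MvPolynomial (Fin 4) ℂ) (x : Fin 4 → ℂ) : eval x (B Hm u u) =
    2 * (eval x (pderiv 0 u) * eval x (pderiv 1 u) + eval x (pderiv 2 u) * eval x (pderiv 3 u)) := by
  rw [B_Hm]; simp; ring

lemma B_add_right {n : ℕ} (G : Matrix (Fin n) (Fin n) ℂ) (u v v' : MvPolynomial (Fin n) ℂ) :
    B G u (v + v') = B G u v + B G u v' := by
  unfold B
  simp only [map_add, mul_add, Finset.sum_add_distrib]

lemma B_mul_right {n : ℕ} (G : Matrix (Fin n) (Fin n) ℂ) (u v v' : MvPolynomial (Fin n) ℂ) :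
    B G u (v * v') = B G u v * v' + v * B G u v' := by
  unfold B
  simp only [pderiv_mul, Finset.sum_mul, Finset.mul_sum, ← Finset.sum_add_distrib]
  refine Finset.sum_congr rfl (fun i _ => Finset.sum_congr rfl (fun j _ => ?_))
  ring

lemma B_C_right {n : ℕ} (G : Matrix (Fin n) (Fin n) ℂ) (u : MvPolynomial (Fin n) ℂ) (c : ℂ) :
    B G u (C c) = 0 := by
  unfold B
  simp

/-- the six entries of the second derivatives, the operator at a point -/
lemma eval_E (P : ℂ) (u : MvPolynomial (Fin 4) ℂ) (x : Fin 4 → ℂ) : eval x (E Hm P u) =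
    2 * (eval x (pderiv 0 u) * eval x (pderiv 1 u) + eval x (pderiv 2 u) * eval x (pderiv 3 u)) *
      (2 * (eval x (pderiv 0 (pderiv 1 u)) + eval x (pderiv 2 (pderiv 3 u)))) +
    P * ((eval x (pderiv 1 u)) ^ 2 * eval x (pderiv 0 (pderiv 0 u)) +
      (eval x (pderiv 0 u)) ^ 2 * eval x (pderiv 1 (pderiv 1 u)) +
      (eval x (pderiv 3 u)) ^ 2 * eval x (pderiv 2 (pderiv 2 u)) +
      (eval x (pderiv 2 u)) ^ 2 * eval x (pderiv 3 (pderiv 3 u)) +
      2 * (eval x (pderiv 1 u) * eval x (pderiv 0 u) * eval x (pderiv 0 (pderiv 1 u)) +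
        eval x (pderiv 1 u) * eval x (pderiv 3 u) * eval x (pderiv 0 (pderiv 2 u)) +
        eval x (pderiv 1 u) * eval x (pderiv 2 u) * eval x (pderiv 0 (pderiv 3 u)) +
        eval x (pderiv 0 u) * eval x (pderiv 3 u) * eval x (pderiv 1 (pderiv 2 u)) +
        eval x (pderiv 0 u) * eval x (pderiv 2 u) * eval x (pderiv 1 (pderiv 3 u)) +
        eval x (pderiv 3 u) * eval x (pderiv 2 u) * eval x (pderiv 2 (pderiv 3 u)))) := by
  have h := fun i j => Pool.Agent.Helper43.PLap.pderiv_comm (i : Fin 4) j u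
  unfold E
  rw [B_Hm u (B Hm u u), B_Hm u u, L_Hm]
  simp only [map_add, map_mul, pderiv_mul, h 1 0, h 2 0, h 2 1, h 3 0, h 3 1, h 3 2, eval_C,
    map_ofNat]
  ring

end

end Pool.PN4
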