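import Pool.Agent.PN4.Stmts
import Pool.Agent.PN4.Basic

set_option autoImplicit false

open MvPolynomial

namespace Pool.PN4

noncomputable section

/-- the least weight `i + j` is at most `m` for real polynomials -/
lemma Comb_min {m : ℕ} {U : MvPolynomial (Fin 4) ℂ} (hU : U ≠ 0) (hh : U.IsHomogeneous m)
    (hR : IsReal U) : ∃ c ≤ m, (∀ d ∈ U.support, c ≤ 2 * d 1 + d 2 + d 3) ∧
      ∃ d ∈ U.support, 2 * d 1 + d 2 + d 3 = c := by
  obtain ⟨d, hd, hmin⟩ := Finset.exists_min_image U.support (fun d => 2 * d 1 + d 2 + d 3)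
    (by rwa [support_nonempty])
  refine ⟨2 * d 1 + d 2 + d 3, ?_, hmin, d, hd, rfl⟩
  have h1 : mk (d 1) (d 0) (d 3) (d 2) ∈ U.support := by
    rw [mem_support_iff, hR (d 0) (d 1) (d 2) (d 3)]
    intro h
    rw [map_eq_zero, mk_self] at h
    exact (mem_support_iff.1 hd) h
  have h2 := hmin _ h1
  simp only [mk_one, mk_two, mk_three] at h2
  have h3 := hom_four hh hd
  omega

lemma Comb_aux (h2 : St_Rot) (h3 : St_StepA) (h4 : St_StepB) (P : ℝ) (hP1 : -1 < P) (hP0 : P ≠ 0)
    (m : ℕ) (hG : Gen P m) (c : ℕ) (U : MvPolynomial (Fin 4) ℂ) (hm : 2 ≤ m) (hU : U ≠ 0)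
    (hh : U.IsHomogeneous m) (hS : Sol P U) (hR : IsReal U) (hc1 : 1 ≤ c) (hcm : c ≤ m)
    (hmin : ∀ d ∈ U.support, c ≤ 2 * d 1 + d 2 + d 3)
    (hex : ∃ d ∈ U.support, 2 * d 1 + d 2 + d 3 = c)
    (hface : ∀ d ∈ U.support, 2 * d 1 + d 2 + d 3 = c → d = mk (m - c) 0 c 0) : False := by
  obtain ⟨d0, hd0, hd0c⟩ := hex
  have e0 := hface d0 hd0 hd0c
  have hcoef : coeff (mk (m - c) 0 c 0) U ≠ 0 := by
    rw [← e0]
    exact mem_support_iff.1 hd0
  by_cases hlow : ∃ d ∈ U.support, d 1 + d 2 < c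
  · exact h4 P hP1 hP0 m hG c U hc1 hcm hh hS hR hcoef
      (fun d hd hle => hface d hd (le_antisymm hle (hmin d hd))) hlow
  · push Not at hlow
    obtain ⟨V, hV, hVh, hVS, hVR, hVi, ⟨d1, hd1, hd1c⟩, hVc⟩ := h2 P m c U (by omega) hcm hU hh hS
      hR hlow ⟨d0, hd0, by rw [e0]; simp⟩
    obtain ⟨c', hc'm, hmin', d2, hd2, hd2c⟩ := Comb_min hV hVh hVR
    have hlt : c < c' := by
      have hge := hVi d2 hd2
      have hle : c ≤ c' := by omega
      refine lt_of_le_of_ne hle ?_
      rintro rfl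
      have h10 : d2 1 = 0 := by omega
      have h30 : d2 3 = 0 := by omega
      have h20 : d2 2 = c := by omega
      have hs := hom_four hVh hd2
      have h00 : d2 0 = m - c := by omega
      have : d2 = mk (m - c) 0 c 0 := ext4 (by simpa using h00) (by simpa using h10)
        (by simpa using h20) (by simpa using h30)
      rw [this] at hd2
      exact (mem_support_iff.1 hd2) hVc
    have hone : coeff (mk (m - 1) 0 1 0) V = 0 := by
      by_contra hne
      have := hmin' _ (mem_support_iff.2 hne)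
      simp at this
      omega
    rcases h3 P hP1 hP0 m hG c' V (by omega) hc'm hVh hVS hmin' ⟨d2, hd2, hd2c⟩ (Or.inl hone)
      with hf | hf
    · have e2 := hf d2 hd2 hd2c
      exact h4 P hP1 hP0 m hG c' V (by omega) hc'm hVh hVS hVR
        (by rw [← e2]; exact mem_support_iff.1 hd2)
        (fun d hd hle => hf d hd (le_antisymm hle (hmin' d hd))) ⟨d1, hd1, by omega⟩
    · have e2 := hf d2 hd2 hd2c
      have := hVi d2 hd2
      rw [e2] at this
      simp at this
      omega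

/-- module H7 -/
theorem thm_Comb (h1 : St_Swap) (h2 : St_Rot) (h3 : St_StepA) (h4 : St_StepB) : St_Comb := by
  intro P hP1 hP0 m hG U hm hU hh hS hR h0 hlin
  obtain ⟨c, hcm, hmin, hex⟩ := Comb_min hU hh hR
  have hc1 : 1 ≤ c := by
    by_contra hc
    obtain ⟨d, hd, hdc⟩ := hex
    have hs := hom_four hh hd
    have : d = mk m 0 0 0 := ext4 (by simp; omega) (by simp; omega) (by simp; omega)
      (by simp; omega)
    rw [this] at hd
    exact (mem_support_iff.1 hd) h0
  rcases h3 P hP1 hP0 m hG c U hc1 hcm hh hS hmin hex hlin with hf | hf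
  · exact Comb_aux h2 h3 h4 P hP1 hP0 m hG c U hm hU hh hS hR hc1 hcm hmin hex hf
  · obtain ⟨s1, -, s3, s4, -⟩ := h1 P U
    have hmem : ∀ d : Fin 4 →₀ ℕ,
        d ∈ (rename (Equiv.swap (2 : Fin 4) 3) U).support ↔ mk (d 0) (d 1) (d 3) (d 2) ∈ U.support
        := by
      intro d
      rw [mem_support_iff, mem_support_iff, ← s4, mk_self]
    refine Comb_aux h2 h3 h4 P hP1 hP0 m hG c (rename (Equiv.swap (2 : Fin 4) 3) U) hm ?_
      hh.rename_isHomogeneous (s1 hS) (s3 hR) hc1 hcm ?_ ?_ ?_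
    · intro h
      exact hU ((map_eq_zero_iff _ (rename_injective _ (Equiv.injective _))).1 h)
    · intro d hd
      have := hmin _ ((hmem d).1 hd)
      simp at this
      omega
    · obtain ⟨d, hd, hdc⟩ := hex
      refine ⟨mk (d 0) (d 1) (d 3) (d 2), ?_, ?_⟩
      · rw [hmem]
        simp only [mk_zero, mk_one, mk_two, mk_three]
        rwa [mk_self]
      · simp
        omega
    · intro d hd hdc
      have h5 := hf _ ((hmem d).1 hd) (by simp; omega)
      have e0 := congrArg (fun d : Fin 4 →₀ ℕ => d 0) h5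
      have e1 := congrArg (fun d : Fin 4 →₀ ℕ => d 1) h5
      have e2 := congrArg (fun d : Fin 4 →₀ ℕ => d 2) h5
      have e3 := congrArg (fun d : Fin 4 →₀ ℕ => d 3) h5
      simp at e0 e1 e2 e3
      exact ext4 (by simp [e0]) (by simp [e1]) (by simp [e3]) (by simp [e2])

end

end Pool.PN4
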