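import Mathlib
import Pool.Agent.Helper43.PLap.TThree

set_option autoImplicit false

open MvPolynomial

namespace Pool.PN4

noncomputable section

/-- `∑ G i j ∂_i u ∂_j v` -/
def B {n : ℕ} (G : Matrix (Fin n) (Fin n) ℂ) (u v : MvPolynomial (Fin n) ℂ) :
    MvPolynomial (Fin n) ℂ :=
  ∑ i, ∑ j, C (G i j) * (pderiv i u * pderiv j v)

/-- `∑ G i j ∂_i ∂_j u` -/
def L {n : ℕ} (G : Matrix (Fin n) (Fin n) ℂ) (u : MvPolynomial (Fin n) ℂ) :
    MvPolynomial (Fin n) ℂ :=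
  ∑ i, ∑ j, C (G i j) * pderiv i (pderiv j u)

/-- the normalised operator (`P = p - 2`) with inverse Gram matrix `G` -/
def E {n : ℕ} (G : Matrix (Fin n) (Fin n) ℂ) (P : ℂ) (u : MvPolynomial (Fin n) ℂ) :
    MvPolynomial (Fin n) ℂ :=
  B G u u * L G u + C (P / 2) * B G u (B G u u)

/-- Gram matrix of the null coordinates `0 = ξ, 1 = η, 2 = y, 3 = z`,
`|x|² = 2 (ξ η + y z)`; it is its own inverse -/
def Hm : Matrix (Fin 4) (Fin 4) ℂ := !![0, 1, 0, 0; 1, 0, 0, 0; 0, 0, 0, 1; 0, 0, 1, 0]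

/-- the planar one -/
def H2 : Matrix (Fin 2) (Fin 2) ℂ := !![0, 1; 1, 0]

/-- the polynomial solves the equation in null coordinates -/
def Sol (P : ℝ) (u : MvPolynomial (Fin 4) ℂ) : Prop := E Hm (P : ℂ) u = 0

/-- the bilinear form -/
def bil (x y : Fin 4 → ℂ) : ℂ := x 0 * y 1 + x 1 * y 0 + x 2 * y 3 + x 3 * y 2

/-- the quadratic form `q = 2 (ξ η + y z)` as a polynomial -/
def q4 : MvPolynomial (Fin 4) ℂ := C 2 * (X 0 * X 1 + X 2 * X 3)

/-- the infinitesimal isometry `λ` with weights `(A0, -A0, B0, -B0)` -/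
def lamv (A0 B0 : ℂ) (x : Fin 4 → ℂ) : Fin 4 → ℂ :=
  ![A0 * x 0, -(A0 * x 1), B0 * x 2, -(B0 * x 3)]

/-- the derivation of polynomials along `λ` -/
def Dlam (A0 B0 : ℂ) (w : MvPolynomial (Fin 4) ℂ) : MvPolynomial (Fin 4) ℂ :=
  C A0 * (X 0 * pderiv 0 w - X 1 * pderiv 1 w) + C B0 * (X 2 * pderiv 2 w - X 3 * pderiv 3 w)

/-- derivative of `w` at `x` in direction `v` -/
def dir (w : MvPolynomial (Fin 4) ℂ) (x v : Fin 4 → ℂ) : ℂ := ∑ i, v i * eval x (pderiv i w)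

/-- exponent vector -/
def mk (a b c e : ℕ) : Fin 4 →₀ ℕ := Finsupp.equivFunOnFinite.symm ![a, b, c, e]

/-- weight of an exponent -/
def wt {n : ℕ} (ω : Fin n → ℕ) (d : Fin n →₀ ℕ) : ℕ := ∑ i, ω i * d i

/-- the part of weight `W` -/
def ini {n : ℕ} (ω : Fin n → ℕ) (W : ℕ) (u : MvPolynomial (Fin n) ℂ) : MvPolynomial (Fin n) ℂ :=
  ∑ d ∈ u.support.filter (fun d => wt ω d = W), monomial d (coeff d u)

/-- affine substitution `x_i ↦ b_i + ∑ M_ij x_j` -/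
def sub (M : Matrix (Fin 4) (Fin 4) ℂ) (b : Fin 4 → ℂ) (u : MvPolynomial (Fin 4) ℂ) :
    MvPolynomial (Fin 4) ℂ :=
  bind₁ (fun i => C (b i) + ∑ j, C (M i j) * X j) u

/-- Gram matrix of a frame `(x, v, A, B)`: `x² = r`, `v² = s`, `A, B` null, `A·B = 1` -/
def K1 (r s : ℂ) : Matrix (Fin 4) (Fin 4) ℂ := !![r, 0, 0, 0; 0, s, 0, 0; 0, 0, 0, 1; 0, 0, 1, 0]

/-- Gram matrix of a frame `(x, e, v, δ)`: `x, e` null, `x·e = 1`, `v² = R`, `δ² = 1` -/
def K3 (R : ℂ) : Matrix (Fin 4) (Fin 4) ℂ := !![0, 1, 0, 0; 1, 0, 0, 0; 0, 0, R, 0; 0, 0, 0, 1]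

/-- the reality condition in null coordinates (`η = conj ξ`, `z = conj y`) -/
def IsReal (u : MvPolynomial (Fin 4) ℂ) : Prop :=
  ∀ a b c e : ℕ, coeff (mk b a e c) u = (starRingEnd ℂ) (coeff (mk a b c e) u)

/-- the exceptional polynomial, `T = p - 1` -/
def quad (a c T : ℝ) : ℝ :=
  a * (a + 1) * (1 + T * (2 * c + 1)) ^ 2 -
    2 * (a + 1) * (c + 1) * (1 + T * (2 * c + 1)) * (1 + T * (2 * a + 1)) +
    c * (c + 1) * (1 + T * (2 * a + 1)) ^ 2

/-- `p` is not exceptional in degree `m` (`P = p - 2`) -/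
def Gen (P : ℝ) (m : ℕ) : Prop := ∀ a c : ℕ, a + c + 2 = m → quad a c (1 + P) ≠ 0

/-! ### the one variable equation of a weight vector `ξ^a y^c F(ξη, yz)`, `f(x) = F(x, 1)` -/

def vn (a c l : ℕ) (f : Polynomial ℂ) : Polynomial ℂ :=
  Polynomial.X * (1 + Polynomial.X) * Polynomial.derivative f ^ 2 +
    (Polynomial.C (a : ℂ) - Polynomial.C ((c : ℂ) + 2 * l) * Polynomial.X) *
      (f * Polynomial.derivative f) +
    Polynomial.C ((l : ℂ) * (c + l)) * f ^ 2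

def vpsi (a c l : ℕ) (f : Polynomial ℂ) : Polynomial ℂ :=
  (Polynomial.C (a : ℂ) - Polynomial.C ((c : ℂ) + 2 * l) * Polynomial.X) * f +
    2 * (Polynomial.X * (1 + Polynomial.X) * Polynomial.derivative f)

def vD (a c l : ℕ) (f : Polynomial ℂ) : Polynomial ℂ :=
  Polynomial.C ((l : ℂ) * (c + l)) * f +
    (Polynomial.C ((a : ℂ) + 1) - Polynomial.C ((c : ℂ) + 2 * l - 1) * Polynomial.X) *
      Polynomial.derivative f +
    Polynomial.X * (1 + Polynomial.X) * Polynomial.derivative (Polynomial.derivative f)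

def vk (a c l : ℕ) (f : Polynomial ℂ) : Polynomial ℂ :=
  Polynomial.C (4 * (l : ℂ) ^ 2 - 2 * l + 4 * c * l - c) * f +
    (Polynomial.C (2 * (a : ℂ)) - Polynomial.C (2 * (c : ℂ) + 4 * l - 2) * Polynomial.X) *
      Polynomial.derivative f

def vOde (P : ℝ) (a c l : ℕ) (f : Polynomial ℂ) : Prop :=
  vn a c l f * vD a c l f + Polynomial.C ((P : ℂ) / 4) *
    (vn a c l f * vk a c l f + Polynomial.derivative (vn a c l f) * vpsi a c l f) = 0

/-! ### the torus invariants of the last case -/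

/-- the exponents of weight zero -/
def InA (m k : ℕ) (f : MvPolynomial (Fin 4) ℂ) : Prop :=
  ∀ d ∈ f.support, (m - k) * d 1 + k * d 2 = (m - k) * d 0 + k * d 3

end

end Pool.PN4
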