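import Pool.Agent.PN4.Stmts
import Pool.Agent.PN4.Basic

set_option autoImplicit false

open MvPolynomial

namespace Pool.PN4

noncomputable section

/-- restriction to the line `(1, -z, 1, z)` -/
def EdgeA_Phi : MvPolynomial (Fin 4) ℂ →ₐ[ℂ] Polynomial ℂ :=
  aeval (![1, -Polynomial.X, 1, Polynomial.X] : Fin 4 → Polynomial ℂ)

lemma EdgeA_eval (u : MvPolynomial (Fin 4) ℂ) (z : ℂ) :
    Polynomial.eval z (EdgeA_Phi u) = eval ![1, -z, 1, z] u := by
  induction u using MvPolynomial.induction_on with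
  | C a =>
    unfold EdgeA_Phi
    rw [← algebraMap_eq, AlgHom.commutes]
    simp
  | add p q hp hq => rw [map_add, Polynomial.eval_add, hp, hq, map_add]
  | mul_X p i hp =>
    rw [map_mul, Polynomial.eval_mul, hp, map_mul]
    congr 1
    unfold EdgeA_Phi
    rw [aeval_X, eval_X]
    fin_cases i <;> simp

lemma EdgeA_deriv (u : MvPolynomial (Fin 4) ℂ) :
    Polynomial.derivative (EdgeA_Phi u) = EdgeA_Phi (pderiv 3 u) - EdgeA_Phi (pderiv 1 u) := by
  induction u using MvPolynomial.induction_on with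
  | C a =>
    unfold EdgeA_Phi
    rw [← algebraMap_eq, AlgHom.commutes]
    simp
  | add p q hp hq => rw [map_add, map_add, hp, hq, map_add, map_add, map_add, map_add]; ring
  | mul_X p i hp =>
    rw [map_mul, Polynomial.derivative_mul, hp, pderiv_mul, pderiv_mul, map_add, map_add, map_mul,
      map_mul, map_mul, map_mul]
    have h : Polynomial.derivative (EdgeA_Phi (X i)) =
        EdgeA_Phi (pderiv 3 (X i)) - EdgeA_Phi (pderiv 1 (X i)) := by
      unfold EdgeA_Phi
      rw [aeval_X]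
      fin_cases i <;> simp [pderiv_X]
    rw [h]
    ring

lemma EdgeA_monomial (d : Fin 4 →₀ ℕ) (c : ℂ) :
    EdgeA_Phi (monomial d c) = Polynomial.monomial (d 1 + d 3) (c * (-1) ^ d 1) := by
  unfold EdgeA_Phi
  rw [aeval_monomial, Finsupp.prod_fintype _ _ (by simp), Fin.prod_univ_four]
  simp only [Matrix.cons_val_zero, Matrix.cons_val_one, Matrix.cons_val, one_pow, one_mul, mul_one]
  rw [← Polynomial.C_mul_X_pow_eq_monomial, neg_pow, Polynomial.C_mul, Polynomial.C_pow,
    Polynomial.C_neg, Polynomial.C_1, pow_add, Polynomial.algebraMap_eq]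
  ring

lemma EdgeA_coeff (u : MvPolynomial (Fin 4) ℂ) (n : ℕ) :
    (EdgeA_Phi u).coeff n =
      ∑ d ∈ u.support, if d 1 + d 3 = n then coeff d u * (-1) ^ d 1 else 0 := by
  conv_lhs => rw [as_sum u]
  rw [map_sum, Polynomial.finsetSum_coeff]
  refine Finset.sum_congr rfl fun d _ => ?_
  rw [EdgeA_monomial, Polynomial.coeff_monomial]

lemma EdgeA_coeff1 (u : MvPolynomial (Fin 4) ℂ) (n : ℕ) :
    (EdgeA_Phi (pderiv 1 u)).coeff n =
      ∑ d ∈ u.support, if d 1 - 1 + d 3 = n then coeff d u * d 1 * (-1) ^ (d 1 - 1) else 0 := by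
  conv_lhs => rw [as_sum u]
  rw [map_sum, map_sum, Polynomial.finsetSum_coeff]
  refine Finset.sum_congr rfl fun d _ => ?_
  rw [pderiv_monomial, EdgeA_monomial, Polynomial.coeff_monomial]
  have e1 : (d - Finsupp.single (1 : Fin 4) 1 : Fin 4 →₀ ℕ) 1 = d 1 - 1 := by simp
  have e3 : (d - Finsupp.single (1 : Fin 4) 1 : Fin 4 →₀ ℕ) 3 = d 3 := by simp
  rw [e1, e3]

/-- the general statement for both edges -/
theorem EdgeA_gen (h1 : St_EdgeRoot) (h2 : St_EdgeSimple) (P : ℝ) (hP : -1 < P) (hP0 : P ≠ 0)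
    (m J D a : ℕ) (w : MvPolynomial (Fin 4) ℂ) (hJ : 1 ≤ J) (hD : 1 ≤ D)
    (hw : w.IsHomogeneous m) (hs : Sol P w)
    (hsupp : ∀ d ∈ w.support, J * (d 1 + d 2) + D * (d 1 + d 3) = J * a)
    (hle : ∀ d ∈ w.support, d 1 + d 3 ≤ J)
    (h0 : (EdgeA_Phi w).coeff 0 ≠ 0) (hc : (EdgeA_Phi w).coeff J ≠ 0) :
    (2 * (m : ℂ) + P * (2 * m - 1)) * (EdgeA_Phi (pderiv 1 w)).coeff (J - 1) +
    (2 * (1 + P) * ((a : ℂ) - D / J) + P * ((D : ℂ) / (2 * J) - 1 / 2)) *
      (J * (EdgeA_Phi w).coeff J) -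
    2 * (1 + P) * ((D : ℂ) / J) * ((J - 1) * (J * (EdgeA_Phi w).coeff J)) = 0 := by
  have hw0 : w ≠ 0 := by
    rintro rfl
    rw [map_zero, Polynomial.coeff_zero] at h0
    exact h0 rfl
  obtain ⟨φ, hφ⟩ : ∃ φ, φ = EdgeA_Phi w := ⟨_, rfl⟩
  obtain ⟨η, hη⟩ : ∃ η, η = EdgeA_Phi (pderiv 1 w) := ⟨_, rfl⟩
  rw [← hφ] at h0 hc
  rw [← hφ, ← hη]
  have hφ0 : φ ≠ 0 := by
    rintro h
    rw [h, Polynomial.coeff_zero] at h0
    exact h0 rfl
  have hcoef : ∀ n, J < n → φ.coeff n = 0 := by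
    intro n hn
    rw [hφ, EdgeA_coeff]
    refine Finset.sum_eq_zero fun d hd => ?_
    rw [if_neg]
    have := hle d hd
    omega
  have hcoef1 : ∀ n, J - 1 < n → η.coeff n = 0 := by
    intro n hn
    rw [hη, EdgeA_coeff1]
    refine Finset.sum_eq_zero fun d hd => ?_
    by_cases h3 : d 1 - 1 + d 3 = n
    · rw [if_pos h3]
      have := hle d hd
      have h4 : d 1 = 0 := by omega
      rw [h4]
      simp
    · rw [if_neg h3]
  have hdeg : φ.natDegree = J := by
    refine le_antisymm ?_ (Polynomial.le_natDegree_of_ne_zero hc)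
    rw [Polynomial.natDegree_le_iff_coeff_eq_zero]
    exact hcoef
  -- the polynomial beta
  obtain ⟨c1, hc1⟩ : ∃ c1 : ℂ, c1 = 2 * (m : ℂ) + P * (2 * m - 1) := ⟨_, rfl⟩
  obtain ⟨c2, hc2⟩ : ∃ c2 : ℂ, c2 = 2 * (1 + P) * ((a : ℂ) - D / J) +
    P * ((D : ℂ) / (2 * J) - 1 / 2) := ⟨_, rfl⟩
  obtain ⟨c3, hc3⟩ : ∃ c3 : ℂ, c3 = 2 * (1 + P) * ((D : ℂ) / J) := ⟨_, rfl⟩
  rw [← hc1, ← hc2, ← hc3]
  set β : Polynomial ℂ := Polynomial.C c1 * η + Polynomial.C c2 * Polynomial.derivative φ -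
    Polynomial.C c3 * (Polynomial.derivative (Polynomial.derivative φ) * Polynomial.X) with hβ
  have hβcoeff : ∀ n, β.coeff n = c1 * η.coeff n + c2 * (φ.coeff (n + 1) * (n + 1)) -
      c3 * (n * ((n + 1) * φ.coeff (n + 1))) := by
    intro n
    rw [hβ, Polynomial.coeff_sub, Polynomial.coeff_add, Polynomial.coeff_C_mul,
      Polynomial.coeff_C_mul, Polynomial.coeff_C_mul, Polynomial.coeff_derivative]
    rcases n with _ | n
    · simp
    · rw [Polynomial.coeff_mul_X, Polynomial.coeff_derivative, Polynomial.coeff_derivative]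
      push_cast
      ring
  have hβdeg : β.natDegree < J := by
    have h3 : β.natDegree ≤ J - 1 := by
      rw [Polynomial.natDegree_le_iff_coeff_eq_zero]
      intro n hn
      rw [hβcoeff, hcoef1 n hn, hcoef (n + 1) (by omega)]
      ring
    omega
  -- the roots
  have hroot : ∀ z, Polynomial.eval z φ = 0 → z ≠ 0 ∧ eval ![1, -z, 1, z] w = 0 := by
    intro z hz
    refine ⟨?_, ?_⟩
    · rintro rfl
      rw [← Polynomial.coeff_zero_eq_eval_zero] at hz
      exact h0 hz
    · rw [← EdgeA_eval, ← hφ]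
      exact hz
  have hd1 : ∀ z, Polynomial.eval z (Polynomial.derivative φ) =
      eval ![1, -z, 1, z] (pderiv 3 w) - eval ![1, -z, 1, z] (pderiv 1 w) := by
    intro z
    rw [hφ, EdgeA_deriv, Polynomial.eval_sub, EdgeA_eval, EdgeA_eval]
  have hd2 : ∀ z, Polynomial.eval z (Polynomial.derivative (Polynomial.derivative φ)) =
      eval ![1, -z, 1, z] (pderiv 3 (pderiv 3 w)) -
        2 * eval ![1, -z, 1, z] (pderiv 1 (pderiv 3 w)) +
        eval ![1, -z, 1, z] (pderiv 1 (pderiv 1 w)) := by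
    intro z
    have h5 := Pool.Agent.Helper43.PLap.pderiv_comm (3 : Fin 4) 1 w
    rw [hφ, EdgeA_deriv, Polynomial.derivative_sub, EdgeA_deriv, EdgeA_deriv, h5]
    simp only [Polynomial.eval_sub, EdgeA_eval]
    ring
  have hsimple : ∀ z, Polynomial.eval z φ = 0 →
      Polynomial.eval z (Polynomial.derivative φ) ≠ 0 := by
    intro z hz
    obtain ⟨h3, h4⟩ := hroot z hz
    rw [hd1]
    exact h2 P hP hP0 m J D a w hJ hD hw0 hw hs hsupp z h3 h4
  have hβroot : ∀ z, Polynomial.eval z φ = 0 → Polynomial.eval z β = 0 := by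
    intro z hz
    obtain ⟨h3, h4⟩ := hroot z hz
    have h5 := h2 P hP hP0 m J D a w hJ hD hw0 hw hs hsupp z h3 h4
    have h6 := h1 P m J D a w hJ hD hw hs hsupp z h3 h4 h5
    rw [← hc1, ← hc2, ← hc3, ← hd1, ← hd2] at h6
    rw [hβ, Polynomial.eval_sub, Polynomial.eval_add, Polynomial.eval_mul, Polynomial.eval_mul,
      Polynomial.eval_mul, Polynomial.eval_mul, Polynomial.eval_C, Polynomial.eval_C,
      Polynomial.eval_C, Polynomial.eval_X, hη, EdgeA_eval]
    rw [← h6]
    ring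
  have hnodup : φ.roots.Nodup := by
    rw [Multiset.nodup_iff_count_le_one]
    intro z
    rw [Polynomial.count_roots]
    by_contra hcon
    push Not at hcon
    rw [Polynomial.one_lt_rootMultiplicity_iff_isRoot hφ0] at hcon
    exact hsimple z hcon.1 hcon.2
  have hcard : φ.roots.toFinset.card = J := by
    rw [Multiset.toFinset_card_of_nodup hnodup, ← hdeg]
    exact (Polynomial.splits_iff_card_roots.1 (IsAlgClosed.splits φ))
  have hβ0 : β = 0 := by
    refine Polynomial.eq_zero_of_natDegree_lt_card_of_eval_eq_zero' β φ.roots.toFinset ?_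
      (by rw [hcard]; exact hβdeg)
    intro z hz
    rw [Multiset.mem_toFinset, Polynomial.mem_roots hφ0] at hz
    exact hβroot z hz
  have h7 := hβcoeff (J - 1)
  have h8 : J - 1 + 1 = J := by omega
  have h9 : ((J - 1 : ℕ) : ℂ) = (J : ℂ) - 1 := by
    rw [Nat.cast_sub hJ, Nat.cast_one]
  rw [hβ0, Polynomial.coeff_zero, h8, h9] at h7
  rw [h7]
  ring

/-- module E3 -/
theorem thm_EdgeA (h1 : St_EdgeRoot) (h2 : St_EdgeSimple) : St_EdgeA := by
  intro P hP hP0 m J D w hJ hD hJm hDm hw hs hsupp hcD hcJ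
  have hle : ∀ d ∈ w.support, d 1 + d 3 ≤ J := by
    intro d hd
    have h3 := hsupp d hd
    have h4 : D * (d 1 + d 3) ≤ D * J := by nlinarith
    exact Nat.le_of_mul_le_mul_left h4 hD
  have hc0 : (EdgeA_Phi w).coeff 0 = coeff (mk (m - D) 0 D 0) w := by
    rw [EdgeA_coeff, Finset.sum_eq_single (mk (m - D) 0 D 0)]
    · simp
    · intro d hd hne
      rw [if_neg]
      intro h3
      apply hne
      have h4 := hsupp d hd
      have h5 := hom_four hw hd
      have h6 : d 1 = 0 := by omega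
      have h7 : d 3 = 0 := by omega
      rw [h6, h7] at h4
      have h8 : J * d 2 = J * D := by simpa using h4
      have h9 := Nat.eq_of_mul_eq_mul_left hJ h8
      refine ext4 ?_ ?_ ?_ ?_
      · simp; omega
      · simp; omega
      · simp; omega
      · simp; omega
    · intro h3
      rw [notMem_support_iff] at h3
      rw [h3]
      simp
  have hunique : ∀ d ∈ w.support, d 1 + d 3 = J → d = mk (m - J) 0 0 J := by
    intro d hd h3
    have h4 := hsupp d hd
    have h5 := hom_four hw hd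
    rw [h3] at h4
    have h8 : J * (d 1 + d 2) = 0 := by nlinarith
    have h9 : d 1 + d 2 = 0 := by
      rcases Nat.mul_eq_zero.1 h8 with h | h
      · omega
      · exact h
    refine ext4 ?_ ?_ ?_ ?_
    · simp; omega
    · simp; omega
    · simp; omega
    · simp; omega
  have hcJ' : (EdgeA_Phi w).coeff J = coeff (mk (m - J) 0 0 J) w := by
    rw [EdgeA_coeff, Finset.sum_eq_single (mk (m - J) 0 0 J)]
    · simp
    · intro d hd hne
      rw [if_neg]
      intro h3
      exact hne (hunique d hd h3)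
    · intro h3
      rw [notMem_support_iff] at h3
      rw [h3]
      simp
  have hη : (EdgeA_Phi (pderiv 1 w)).coeff (J - 1) = 0 := by
    rw [EdgeA_coeff1]
    refine Finset.sum_eq_zero fun d hd => ?_
    by_cases h3 : d 1 - 1 + d 3 = J - 1
    · rw [if_pos h3]
      have h4 : d 1 = 0 := by
        by_contra hne
        have h5 := hunique d hd (by omega)
        rw [h5] at hne
        exact hne rfl
      rw [h4]
      simp
    · rw [if_neg h3]
  have h := EdgeA_gen h1 h2 P hP hP0 m J D D w hJ hD hw hs hsupp hle (by rw [hc0]; exact hcD)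
    (by rw [hcJ']; exact hcJ)
  rw [hη, hcJ', mul_zero, zero_add] at h
  set c := coeff (mk (m - J) 0 0 J) w with hc
  have hJ0 : (J : ℂ) ≠ 0 := by
    have : J ≠ 0 := by omega
    exact_mod_cast this
  have hPc : (P : ℂ) ≠ 0 := by exact_mod_cast hP0
  have h10 : (P : ℂ) * ((D : ℂ) - J) * c = 0 := by
    have h11 : (2 * (1 + P) * ((D : ℂ) - D / J) + P * ((D : ℂ) / (2 * J) - 1 / 2)) * (J * c) -
        2 * (1 + P) * ((D : ℂ) / J) * ((J - 1) * (J * c)) = (P : ℂ) * ((D : ℂ) - J) * c / 2 := by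
      field_simp
      ring
    rw [h11] at h
    have h12 : (P : ℂ) * ((D : ℂ) - J) * c = 2 * ((P : ℂ) * ((D : ℂ) - J) * c / 2) := by ring
    rw [h12, h, mul_zero]
  have h13 : (D : ℂ) - J = 0 := by
    rcases mul_eq_zero.1 h10 with h14 | h14
    · rcases mul_eq_zero.1 h14 with h15 | h15
      · exact absurd h15 hPc
      · exact h15
    · exact absurd h14 hcJ
  have h16 : (D : ℂ) = J := sub_eq_zero.1 h13
  exact (by exact_mod_cast h16.symm)

end

end Pool.PN4
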