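import Pool.Agent.PN4.Stmts
import Pool.Agent.PN4.Basic
import Pool.Agent.PN4.EdgeA

set_option autoImplicit false

open MvPolynomial

namespace Pool.PN4

noncomputable section

/-- module E4 -/
theorem thm_EdgeB (h1 : St_EdgeRoot) (h2 : St_EdgeSimple) : St_EdgeB := by
  intro P hP hP0 m k D w hD hkD hw hs hsupp hca hck
  have hm1 : 1 ≤ m := by omega
  have hsum : ∀ d ∈ w.support, d 0 + d 1 + d 2 + d 3 = m := fun d hd => hom_four hw hd
  have hle : ∀ d ∈ w.support, d 1 + d 3 ≤ m := by
    intro d hd
    have := hsum d hd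
    omega
  have hc0 : (EdgeA_Phi w).coeff 0 = coeff (mk (m - (k + D)) 0 (k + D) 0) w := by
    rw [EdgeA_coeff, Finset.sum_eq_single (mk (m - (k + D)) 0 (k + D) 0)]
    · simp
    · intro d hd hne
      rw [if_neg]
      intro h3
      apply hne
      have h4 := hsupp d hd
      have h5 := hsum d hd
      have h6 : d 1 = 0 := by omega
      have h7 : d 3 = 0 := by omega
      rw [h6, h7] at h4
      have h8 : m * d 2 = m * (k + D) := by simpa using h4
      have h9 := Nat.eq_of_mul_eq_mul_left hm1 h8
      refine ext4 ?_ ?_ ?_ ?_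
      · simp; omega
      · simp; omega
      · simp; omega
      · simp; omega
    · intro h3
      rw [notMem_support_iff] at h3
      rw [h3]
      simp
  have hunique : ∀ d ∈ w.support, d 1 + d 3 = m → d = mk 0 k 0 (m - k) := by
    intro d hd h3
    have h4 := hsupp d hd
    have h5 := hsum d hd
    rw [h3] at h4
    have h8 : m * (d 1 + d 2) = m * k := by nlinarith
    have h9 := Nat.eq_of_mul_eq_mul_left hm1 h8
    refine ext4 ?_ ?_ ?_ ?_
    · simp; omega
    · simp; omega
    · simp; omega
    · simp; omega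
  have hkm : k ≤ m := by omega
  have hcm : (EdgeA_Phi w).coeff m = coeff (mk 0 k 0 (m - k)) w * (-1) ^ k := by
    rw [EdgeA_coeff, Finset.sum_eq_single (mk 0 k 0 (m - k))]
    · rw [if_pos (by simp; omega)]
      simp
    · intro d hd hne
      rw [if_neg]
      intro h3
      exact hne (hunique d hd h3)
    · intro h3
      rw [notMem_support_iff] at h3
      rw [h3]
      simp
  have hη : (EdgeA_Phi (pderiv 1 w)).coeff (m - 1) =
      -(k * (coeff (mk 0 k 0 (m - k)) w * (-1) ^ k)) := by
    rw [EdgeA_coeff1, Finset.sum_eq_single (mk 0 k 0 (m - k))]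
    · rcases Nat.eq_zero_or_pos k with hk | hk
      · rw [hk]
        simp
      · obtain ⟨q, rfl⟩ : ∃ q, k = q + 1 := ⟨k - 1, by omega⟩
        rw [if_pos (by simp; omega)]
        simp only [mk_one, Nat.add_sub_cancel]
        ring
    · intro d hd hne
      by_cases h3 : d 1 - 1 + d 3 = m - 1
      · rw [if_pos h3]
        have h4 : d 1 = 0 := by
          by_contra hne'
          exact hne (hunique d hd (by omega))
        rw [h4]
        simp
      · rw [if_neg h3]
    · intro h3
      rw [notMem_support_iff] at h3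
      rw [h3]
      simp
  have hck' : coeff (mk 0 k 0 (m - k)) w * (-1) ^ k ≠ 0 :=
    mul_ne_zero hck (pow_ne_zero _ (by norm_num))
  have h := EdgeA_gen h1 h2 P hP hP0 m m D (k + D) w hm1 hD hw hs hsupp hle
    (by rw [hc0]; exact hca) (by rw [hcm]; exact hck')
  rw [hη, hcm] at h
  set c := coeff (mk 0 k 0 (m - k)) w * (-1) ^ k with hc
  have hm0 : (m : ℂ) ≠ 0 := by
    have : m ≠ 0 := by omega
    exact_mod_cast this
  have hPc : (P : ℂ) ≠ 0 := by exact_mod_cast hP0
  have h10 : (P : ℂ) * ((D : ℂ) + 2 * k - m) * c = 0 := by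
    have h11 : (2 * (m : ℂ) + P * (2 * m - 1)) * -(k * c) +
        (2 * (1 + P) * (((k + D : ℕ) : ℂ) - D / m) + P * ((D : ℂ) / (2 * m) - 1 / 2)) * (m * c) -
        2 * (1 + P) * ((D : ℂ) / m) * ((m - 1) * (m * c)) =
          (P : ℂ) * ((D : ℂ) + 2 * k - m) * c / 2 := by
      push_cast
      field_simp
      ring
    rw [h11] at h
    have h12 : (P : ℂ) * ((D : ℂ) + 2 * k - m) * c =
        2 * ((P : ℂ) * ((D : ℂ) + 2 * k - m) * c / 2) := by ring
    rw [h12, h, mul_zero]
  have h13 : (D : ℂ) + 2 * k - m = 0 := by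
    rcases mul_eq_zero.1 h10 with h14 | h14
    · rcases mul_eq_zero.1 h14 with h15 | h15
      · exact absurd h15 hPc
      · exact h15
    · exact absurd h14 hck'
  have h16 : (m : ℂ) = D + 2 * k := (sub_eq_zero.1 h13).symm
  exact_mod_cast h16

end

end Pool.PN4
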