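import Pool.Agent.PN4.Stmts
import Pool.Agent.PN4.Basic

set_option autoImplicit false

open MvPolynomial

namespace Pool.PN4

noncomputable section

/-- the polynomial weight identity -/
lemma edr_weight (ω : Fin 4 → ℕ) (W : ℕ) (w : MvPolynomial (Fin 4) ℂ)
    (h : ∀ d ∈ w.support, ω 0 * d 0 + ω 1 * d 1 + ω 2 * d 2 + ω 3 * d 3 = W) :
    C (ω 0 : ℂ) * (X 0 * pderiv 0 w) + C (ω 1 : ℂ) * (X 1 * pderiv 1 w) +
      C (ω 2 : ℂ) * (X 2 * pderiv 2 w) + C (ω 3 : ℂ) * (X 3 * pderiv 3 w) = C (W : ℂ) * w := by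
  have hw : w.IsWeightedHomogeneous ω W := by
    intro d hd
    have h1 := h d (mem_support_iff.mpr hd)
    rw [Finsupp.weight_apply, Finsupp.sum_fintype _ _ (by simp)]
    rw [Fin.sum_univ_four]
    simp only [smul_eq_mul]
    rw [← h1]
    ring
  have h2 := hw.sum_weight_X_mul_pderiv
  rw [Fin.sum_univ_four] at h2
  simpa [nsmul_eq_mul] using h2

/-- module E1 -/
theorem thm_EdgeRoot : St_EdgeRoot := by
  intro P m J D a w hJ hD hw hS hsup z hz h0 hphi
  set x : Fin 4 → ℂ := ![1, -z, 1, z] with hx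
  have x0 : x 0 = 1 := rfl
  have x1 : x 1 = -z := rfl
  have x2 : x 2 = 1 := rfl
  have x3 : x 3 = z := rfl
  have hEu := edr_weight (fun _ => 1) m w (fun d hd => by
    have := hom_four hw hd
    simpa using this)
  have hWt := edr_weight ![0, J + D, J, D] (J * a) w (fun d hd => by
    have := hsup d hd
    simp
    rw [← this]; ring)
  simp only [Nat.cast_one, map_one, one_mul] at hEu
  simp only [Matrix.cons_val_zero, Matrix.cons_val_one, Matrix.cons_val, Nat.cast_zero, map_zero,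
    zero_mul, zero_add] at hWt
  have hJ0 : (J : ℂ) ≠ 0 := by
    have : J ≠ 0 := by omega
    exact_mod_cast this
  have hD0 : (D : ℂ) ≠ 0 := by
    have : D ≠ 0 := by omega
    exact_mod_cast this
  have hc := fun i j => Pool.Agent.Helper43.PLap.pderiv_comm (i : Fin 4) j w
  have e := congrArg (eval x) hEu
  have g := congrArg (eval x) hWt
  have e0 := congrArg (fun q => eval x (pderiv 0 q)) hEu
  have e1 := congrArg (fun q => eval x (pderiv 1 q)) hEu
  have e2 := congrArg (fun q => eval x (pderiv 2 q)) hEu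
  have e3 := congrArg (fun q => eval x (pderiv 3 q)) hEu
  have g1 := congrArg (fun q => eval x (pderiv 1 q)) hWt
  have g2 := congrArg (fun q => eval x (pderiv 2 q)) hWt
  have g3 := congrArg (fun q => eval x (pderiv 3 q)) hWt
  simp only [map_add, map_mul, pderiv_mul, pderiv_C, pderiv_X, eval_C, eval_X, hc 1 0, hc 2 0,
    hc 2 1, hc 3 0, hc 3 1, hc 3 2, x0, x1, x2, x3, h0] at e g e0 e1 e2 e3 g1 g2 g3
  have hE := congrArg (eval x) hS
  rw [eval_E, map_zero] at hE
  generalize eval x (pderiv 0 (pderiv 0 w)) = h00 at *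
  generalize eval x (pderiv 0 (pderiv 1 w)) = h01 at *
  generalize eval x (pderiv 0 (pderiv 2 w)) = h02 at *
  generalize eval x (pderiv 0 (pderiv 3 w)) = h03 at *
  generalize eval x (pderiv 1 (pderiv 1 w)) = h11 at *
  generalize eval x (pderiv 1 (pderiv 2 w)) = h12 at *
  generalize eval x (pderiv 1 (pderiv 3 w)) = h13 at *
  generalize eval x (pderiv 2 (pderiv 2 w)) = h22 at *
  generalize eval x (pderiv 2 (pderiv 3 w)) = h23 at *
  generalize eval x (pderiv 3 (pderiv 3 w)) = h33 at *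
  generalize eval x (pderiv 0 w) = p0 at *
  generalize eval x (pderiv 1 w) = p1 at *
  generalize eval x (pderiv 2 w) = p2 at *
  generalize eval x (pderiv 3 w) = p3 at *
  have s11 : (Pi.single 1 1 : Fin 4 → MvPolynomial (Fin 4) ℂ) 1 = 1 := by simp
  have s12 : (Pi.single 1 1 : Fin 4 → MvPolynomial (Fin 4) ℂ) 2 = 0 := by simp
  have s13 : (Pi.single 1 1 : Fin 4 → MvPolynomial (Fin 4) ℂ) 3 = 0 := by simp
  have s10 : (Pi.single 1 1 : Fin 4 → MvPolynomial (Fin 4) ℂ) 0 = 0 := by simp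
  have s20 : (Pi.single 2 1 : Fin 4 → MvPolynomial (Fin 4) ℂ) 0 = 0 := by simp
  have s21 : (Pi.single 2 1 : Fin 4 → MvPolynomial (Fin 4) ℂ) 1 = 0 := by simp
  have s22 : (Pi.single 2 1 : Fin 4 → MvPolynomial (Fin 4) ℂ) 2 = 1 := by simp
  have s23 : (Pi.single 2 1 : Fin 4 → MvPolynomial (Fin 4) ℂ) 3 = 0 := by simp
  have s30 : (Pi.single 3 1 : Fin 4 → MvPolynomial (Fin 4) ℂ) 0 = 0 := by simp
  have s31 : (Pi.single 3 1 : Fin 4 → MvPolynomial (Fin 4) ℂ) 1 = 0 := by simp
  have s32 : (Pi.single 3 1 : Fin 4 → MvPolynomial (Fin 4) ℂ) 2 = 0 := by simp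
  have s33 : (Pi.single 3 1 : Fin 4 → MvPolynomial (Fin 4) ℂ) 3 = 1 := by simp
  have s00 : (Pi.single 0 1 : Fin 4 → MvPolynomial (Fin 4) ℂ) 0 = 1 := by simp
  have s01 : (Pi.single 0 1 : Fin 4 → MvPolynomial (Fin 4) ℂ) 1 = 0 := by simp
  have s02 : (Pi.single 0 1 : Fin 4 → MvPolynomial (Fin 4) ℂ) 2 = 0 := by simp
  have s03 : (Pi.single 0 1 : Fin 4 → MvPolynomial (Fin 4) ℂ) 3 = 0 := by simp
  rw [s11, s12, s13] at g1
  rw [s21, s22, s23] at g2
  rw [s31, s32, s33] at g3
  rw [s00, s01, s02, s03] at e0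
  rw [s10, s11, s12, s13] at e1
  rw [s20, s21, s22, s23] at e2
  rw [s30, s31, s32, s33] at e3
  rw [map_zero, map_one] at g1 g2 g3 e0 e1 e2 e3
  push_cast at g g1 g2 g3
  obtain ⟨t, ht⟩ : ∃ t : ℂ, (D : ℂ) = J * t := ⟨(D : ℂ) / J, by field_simp⟩
  have ht0 : t ≠ 0 := by
    intro h
    rw [h, mul_zero] at ht
    exact hD0 ht
  rw [ht] at g g1 g2 g3
  have q2 : p2 = (1 + t) * z * p1 - t * z * p3 := by
    apply mul_left_cancel₀ hJ0
    linear_combination g
  have q12 : h12 = (a - (1 + t)) * p1 + (1 + t) * z * h11 - t * z * h13 := by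
    apply mul_left_cancel₀ hJ0
    linear_combination g1
  have q23 : h23 = (a - t) * p3 + (1 + t) * z * h13 - t * z * h33 := by
    apply mul_left_cancel₀ hJ0
    linear_combination g3
  have q22 : h22 = (a - 1) * p2 + (1 + t) * z * h12 - t * z * h23 := by
    apply mul_left_cancel₀ hJ0
    linear_combination g2
  have q0 : p0 = z * p1 - p2 - z * p3 := by linear_combination e
  have q01 : h01 = (m - 1) * p1 + z * h11 - h12 - z * h13 := by linear_combination e1
  have q03 : h03 = (m - 1) * p3 + z * h13 - h23 - z * h33 := by linear_combination e3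
  have q02 : h02 = (m - 1) * p2 + z * h12 - h22 - z * h23 := by linear_combination e2
  have q00 : h00 = (m - 1) * p0 + z * h01 - h02 - z * h03 := by linear_combination e0
  have hDJ : (D : ℂ) / J = t := by rw [ht]; field_simp
  have hDJ2 : (D : ℂ) / (2 * J) = t / 2 := by rw [ht]; field_simp
  rw [hDJ, hDJ2]
  clear_value x
  clear g g1 g2 g3 e e0 e1 e2 e3 hEu hWt s00 s01 s02 s03 s10 s11 s12 s13 s20 s21 s22 s23 s30 s31
    s32 s33 hc hDJ hDJ2 ht
  have key : (-2 * t * z * (p3 - p1) ^ 2) * ((2 * (m : ℂ) + P * (2 * m - 1)) * p1 +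
      (2 * (1 + P) * ((a : ℂ) - t) + P * (t / 2 - 1 / 2)) * (p3 - p1) -
      2 * (1 + P) * t * z * (h33 - 2 * h13 + h11)) = 0 := by
    rw [← hE, q00, q02, q03, q01, q0, q22, q23, q12, q2]
    ring
  have hne : (-2 * t * z * (p3 - p1) ^ 2) ≠ 0 := by
    refine mul_ne_zero (mul_ne_zero (mul_ne_zero (by norm_num) ht0) hz) (pow_ne_zero _ hphi)
  exact (mul_eq_zero.mp key).resolve_left hne

end

end Pool.PN4
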