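import Pool.Agent.PN4.Stmts
import Pool.Agent.PN4.Basic

set_option autoImplicit false

open MvPolynomial

namespace Pool.PN4

noncomputable section

lemma edgeSimple_coeff {n : ℕ} (w : MvPolynomial (Fin n) ℂ) (i : Fin n) (d : Fin n →₀ ℕ) :
    coeff d (X i * pderiv i w) = (d i : ℂ) * coeff d w := by
  induction w using MvPolynomial.induction_on' with
  | monomial e c =>
    rw [pderiv_monomial, X, monomial_mul, coeff_monomial, coeff_monomial]
    by_cases hi : e i = 0
    · by_cases hd : e = d
      · subst hd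
        rw [hi]
        simp
      · rw [if_neg hd, hi]
        simp
    · have he : Finsupp.single i 1 + (e - Finsupp.single i 1) = e := by
        ext j
        by_cases hj : j = i
        · subst hj
          simp
          omega
        · simp [Ne.symm hj]
      rw [he]
      by_cases hd : e = d
      · subst hd
        simp
        ring
      · rw [if_neg hd, if_neg hd]
        simp
  | add p q hp hq =>
    rw [map_add, mul_add, coeff_add, coeff_add, hp, hq]
    ring

/-- a diagonal first order operator -/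
lemma edgeSimple_op (w : MvPolynomial (Fin 4) ℂ) (c : Fin 4 → ℂ) (μ : ℂ)
    (h : ∀ d ∈ w.support, c 0 * d 0 + c 1 * d 1 + c 2 * d 2 + c 3 * d 3 = μ) :
    C (c 0) * (X 0 * pderiv 0 w) + C (c 1) * (X 1 * pderiv 1 w) +
      C (c 2) * (X 2 * pderiv 2 w) + C (c 3) * (X 3 * pderiv 3 w) = C μ * w := by
  ext d
  simp only [coeff_add, coeff_C_mul, edgeSimple_coeff]
  by_cases hd : d ∈ w.support
  · rw [← h d hd]
    ring
  · rw [notMem_support_iff.mp hd]
    ring

/-- module E2 -/
theorem thm_EdgeSimple (h1 : St_Open) : St_EdgeSimple := by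
  intro P hP hP0 m J D a w hJ hD hw hhom hsol hsupp z hz hw0 heq
  have hJc : (J : ℂ) ≠ 0 := by exact_mod_cast (by omega : J ≠ 0)
  have hDc : (D : ℂ) ≠ 0 := by exact_mod_cast (by omega : D ≠ 0)
  have hcast : ∀ d ∈ w.support, (J : ℂ) * (d 1 + d 2) + D * (d 1 + d 3) = J * a := by
    intro d hd
    exact_mod_cast hsupp d hd
  have hm : ∀ d ∈ w.support, (d 0 : ℂ) + d 1 + d 2 + d 3 = m := by
    intro d hd
    exact_mod_cast hom_four hhom hd
  have hE := edgeSimple_op w ![1, 1, 1, 1] m (by
    intro d hd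
    simpa using hm d hd)
  have hW := edgeSimple_op w ![0, J + D, J, D] (J * a) (by
    intro d hd
    have := hcast d hd
    simp only [Matrix.cons_val]
    linear_combination this)
  have hL : Dlam (-((J : ℂ) + D) / 2) (((J : ℂ) - D) / 2) w =
      C (-((J : ℂ) + D) / 2 * m + J * a) * w := by
    have h := edgeSimple_op w ![-((J : ℂ) + D) / 2, ((J : ℂ) + D) / 2, ((J : ℂ) - D) / 2,
      -(((J : ℂ) - D) / 2)] (-((J : ℂ) + D) / 2 * m + J * a) (by
        intro d hd
        have h1 := hcast d hd
        have h2 := hm d hd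
        simp only [Matrix.cons_val]
        linear_combination h1 - ((J : ℂ) + D) / 2 * h2)
    rw [← h]
    unfold Dlam
    simp only [Matrix.cons_val]
    have e1 : (C (((J : ℂ) + D) / 2) : MvPolynomial (Fin 4) ℂ) = -C (-((J : ℂ) + D) / 2) := by
      rw [← C_neg]
      congr 1
      ring
    have e2 : (C (-(((J : ℂ) - D) / 2)) : MvPolynomial (Fin 4) ℂ) = -C (((J : ℂ) - D) / 2) := by
      rw [← C_neg]
    rw [e1, e2]
    ring
  have hne : (-((J : ℂ) + D) / 2) ^ 2 ≠ (((J : ℂ) - D) / 2) ^ 2 := by
    intro h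
    apply mul_ne_zero hJc hDc
    linear_combination h
  have hx : ∀ i, (![1, -z, 1, z] : Fin 4 → ℂ) i ≠ 0 := by
    intro i
    fin_cases i <;> simp [hz]
  have hbil : bil ![1, -z, 1, z] ![1, -z, 1, z] = 0 := by
    unfold bil
    simp
  refine h1 P hP hP0 m w hw hhom hsol _ _ _ hL hne _ hx hbil hw0 ?_
  rw [eval_N]
  have hE' := congrArg (eval (![1, -z, 1, z] : Fin 4 → ℂ)) hE
  have hW' := congrArg (eval (![1, -z, 1, z] : Fin 4 → ℂ)) hW
  simp only [Matrix.cons_val, map_add, map_mul, eval_C, eval_X, hw0, mul_zero] at hE' hW'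
  generalize eval (![1, -z, 1, z] : Fin 4 → ℂ) (pderiv 0 w) = p0 at *
  generalize eval (![1, -z, 1, z] : Fin 4 → ℂ) (pderiv 1 w) = p1 at *
  generalize eval (![1, -z, 1, z] : Fin 4 → ℂ) (pderiv 2 w) = p2 at *
  generalize eval (![1, -z, 1, z] : Fin 4 → ℂ) (pderiv 3 w) = p3 at *
  have h3 : p3 = p1 := by linear_combination heq
  subst h3
  have h4 : (J : ℂ) * (p2 - z * p3) = 0 := by linear_combination hW'
  have h5 : p2 = z * p3 := by
    rcases mul_eq_zero.mp h4 with h | h
    · exact absurd h hJc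
    · linear_combination h
  subst h5
  linear_combination 2 * p3 * hE'

end

end Pool.PN4
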