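import Pool.Agent.PN4.Stmts
import Pool.Agent.PN4.Basic
import Pool.Agent.Helper43.PLap.CommonZero

set_option autoImplicit false

open MvPolynomial

namespace Pool.PN4

noncomputable section

lemma Equal_eval (w : MvPolynomial (Fin 4) ℂ) (x : Fin 4 → ℂ) :
    eval x w = ∑ d ∈ w.support,
      coeff d w * (x 0 ^ d 0 * x 1 ^ d 1 * x 2 ^ d 2 * x 3 ^ d 3) := by
  rw [eval_eq']
  refine Finset.sum_congr rfl fun d _ => ?_
  rw [Fin.prod_univ_four]

lemma Equal_evalD (w : MvPolynomial (Fin 4) ℂ) (i : Fin 4) (x : Fin 4 → ℂ) :
    eval x (pderiv i w) = ∑ d ∈ w.support, coeff d w * (d i : ℂ) *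
      (∏ j, x j ^ ((d - Finsupp.single i 1 : Fin 4 →₀ ℕ) j)) := by
  conv_lhs => rw [w.as_sum, map_sum, map_sum]
  refine Finset.sum_congr rfl fun d _ => ?_
  rw [pderiv_monomial, eval_monomial, Finsupp.prod_fintype _ _ (by simp)]

lemma Equal_evalD0 (w : MvPolynomial (Fin 4) ℂ) (i : Fin 4)
    (h : ∀ d ∈ w.support, ∃ j : Fin 4, j ≠ 0 ∧ (d - Finsupp.single i 1 : Fin 4 →₀ ℕ) j ≠ 0) :
    eval ![1, 0, 0, 0] (pderiv i w) = 0 := by
  rw [Equal_evalD]
  refine Finset.sum_eq_zero fun d hd => ?_
  obtain ⟨j, hj, hj2⟩ := h d hd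
  rw [Finset.prod_eq_zero (Finset.mem_univ j), mul_zero]
  have : (![1, 0, 0, 0] : Fin 4 → ℂ) j = 0 := by
    fin_cases j <;> simp_all
  rw [this, zero_pow hj2]

/-- the Euler type identity -/
lemma Equal_Dlam (w : MvPolynomial (Fin 4) ℂ) (a : ℕ)
    (h : ∀ d ∈ w.support, d 0 = a + d 1) : Dlam 1 0 w = C (a : ℂ) * w := by
  have hX : ∀ i : Fin 4, X i * pderiv i w =
      ∑ d ∈ w.support, monomial d ((d i : ℂ) * coeff d w) := by
    intro i
    conv_lhs => rw [w.as_sum, map_sum, Finset.mul_sum]
    refine Finset.sum_congr rfl fun d _ => ?_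
    rw [X_mul_pderiv_monomial, ← map_nsmul, nsmul_eq_mul]
  unfold Dlam
  rw [hX 0, hX 1]
  conv_rhs => rw [w.as_sum, Finset.mul_sum]
  simp only [map_one, one_mul, map_zero, zero_mul, add_zero]
  rw [← Finset.sum_sub_distrib]
  refine Finset.sum_congr rfl fun d hd => ?_
  rw [← map_sub, C_mul_monomial, h d hd]
  congr 1
  push_cast
  ring

/-- restriction to a line parallel to an isotropic coordinate axis, `i = 2, 3` -/
lemma Equal_line (w : MvPolynomial (Fin 4) ℂ) (m c : ℕ) (hw : w.IsHomogeneous m)
    (hs : ∀ d ∈ w.support, 2 * d 1 + d 2 + d 3 = c)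
    (hc : coeff (mk (m - c) 0 c 0) w ≠ 0) (t z : ℂ)
    (h : ∀ y : ℂ, eval ![1, t, y, z] w = 0) : False := by
  classical
  set g : Polynomial ℂ := ∑ d ∈ w.support,
    Polynomial.C (coeff d w * (t ^ d 1 * z ^ d 3)) * Polynomial.X ^ d 2 with hg
  have hg0 : g = 0 := by
    apply Polynomial.funext
    intro y
    have h1 := h y
    rw [Equal_eval] at h1
    rw [hg, Polynomial.eval_finsetSum, Polynomial.eval_zero, ← h1]
    refine Finset.sum_congr rfl fun d _ => ?_
    simp
    ring
  have h2 : g.coeff c = coeff (mk (m - c) 0 c 0) w := by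
    rw [hg, Polynomial.finsetSum_coeff]
    rw [Finset.sum_eq_single (mk (m - c) 0 c 0)]
    · simp
    · intro d hd hne
      rw [Polynomial.coeff_C_mul, Polynomial.coeff_X_pow, if_neg, mul_zero]
      intro hdc
      apply hne
      have h3 := hs d hd
      have h4 := hom_four hw hd
      apply ext4
      · rw [mk_zero]; omega
      · rw [mk_one]; omega
      · rw [mk_two]; omega
      · rw [mk_three]; omega
    · intro hn
      rw [notMem_support_iff.mp hn]
      simp
  rw [hg0, Polynomial.coeff_zero] at h2
  exact hc h2.symm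

lemma Equal_line' (w : MvPolynomial (Fin 4) ℂ) (m c : ℕ) (hw : w.IsHomogeneous m)
    (hs : ∀ d ∈ w.support, 2 * d 1 + d 2 + d 3 = c)
    (hc : coeff (mk (m - c) 0 0 c) w ≠ 0) (t z : ℂ)
    (h : ∀ y : ℂ, eval ![1, t, z, y] w = 0) : False := by
  classical
  set g : Polynomial ℂ := ∑ d ∈ w.support,
    Polynomial.C (coeff d w * (t ^ d 1 * z ^ d 2)) * Polynomial.X ^ d 3 with hg
  have hg0 : g = 0 := by
    apply Polynomial.funext
    intro y
    have h1 := h y
    rw [Equal_eval] at h1
    rw [hg, Polynomial.eval_finsetSum, Polynomial.eval_zero, ← h1]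
    refine Finset.sum_congr rfl fun d _ => ?_
    simp
    ring
  have h2 : g.coeff c = coeff (mk (m - c) 0 0 c) w := by
    rw [hg, Polynomial.finsetSum_coeff]
    rw [Finset.sum_eq_single (mk (m - c) 0 0 c)]
    · simp
    · intro d hd hne
      rw [Polynomial.coeff_C_mul, Polynomial.coeff_X_pow, if_neg, mul_zero]
      intro hdc
      apply hne
      have h3 := hs d hd
      have h4 := hom_four hw hd
      apply ext4
      · rw [mk_zero]; omega
      · rw [mk_one]; omega
      · rw [mk_two]; omega
      · rw [mk_three]; omega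
    · intro hn
      rw [notMem_support_iff.mp hn]
      simp
  rw [hg0, Polynomial.coeff_zero] at h2
  exact hc h2.symm

/-- module F4 -/
theorem thm_Equal (h1 : St_LocI) (h2 : St_LocII) (h3 : St_Open) : St_Equal := by
  intro P hP hP0 m c w hc2 hcm hw hsol hs hc0 hc1
  have hd0 : ∀ d ∈ w.support, d 0 = (m - c) + d 1 := by
    intro d hd
    have h4 := hom_four hw hd
    have h5 := hs d hd
    omega
  have hw0 : w ≠ 0 := by
    intro h
    rw [h] at hc0
    simp at hc0
  have hDl := Equal_Dlam w (m - c) hd0
  -- the nonexistence of common zeros with all coordinates nonzero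
  have hopen : ∀ x : Fin 4 → ℂ, (∀ i, x i ≠ 0) → bil x x = 0 → eval x w = 0 →
      eval x (B Hm w w) ≠ 0 :=
    h3 P hP hP0 m w hw0 hw hsol 1 0 _ hDl (by norm_num)
  -- pure powers
  have hpy : ∀ y : ℂ, y ≠ 0 → eval ![1, 0, y, 0] w ≠ 0 := by
    intro y hy
    rw [Equal_eval, Finset.sum_eq_single (mk (m - c) 0 c 0)]
    · simp [hc0, hy]
    · intro d hd hne
      by_cases h11 : d 1 = 0
      · by_cases h13 : d 3 = 0
        · exfalso
          apply hne
          have h5 := hs d hd
          have h4 := hom_four hw hd
          apply ext4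
          · rw [mk_zero]; omega
          · rw [mk_one]; omega
          · rw [mk_two]; omega
          · rw [mk_three]; omega
        · simp [h13]
      · simp [h11]
    · intro hn
      rw [notMem_support_iff.mp hn]
      simp
  have hpz : ∀ z : ℂ, z ≠ 0 → eval ![1, 0, 0, z] w ≠ 0 := by
    intro z hz
    rw [Equal_eval, Finset.sum_eq_single (mk (m - c) 0 0 c)]
    · simp [hc1, hz]
    · intro d hd hne
      by_cases h11 : d 1 = 0
      · by_cases h13 : d 2 = 0
        · exfalso
          apply hne
          have h5 := hs d hd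
          have h4 := hom_four hw hd
          apply ext4
          · rw [mk_zero]; omega
          · rw [mk_one]; omega
          · rw [mk_two]; omega
          · rw [mk_three]; omega
        · simp [h13]
      · simp [h11]
    · intro hn
      rw [notMem_support_iff.mp hn]
      simp
  have hev : ∀ (f : MvPolynomial (Fin 4) ℂ) (p : Fin 3 → ℂ),
      eval p (aeval (![1, X 0 ^ 2, X 1, X 2] : Fin 4 → MvPolynomial (Fin 3) ℂ) f) =
        eval ![1, p 0 ^ 2, p 1, p 2] f := by
    intro f p
    have h : (eval p).comp (aeval (![1, X 0 ^ 2, X 1, X 2] :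
        Fin 4 → MvPolynomial (Fin 3) ℂ)).toRingHom = eval ![1, p 0 ^ 2, p 1, p 2] := by
      apply MvPolynomial.ringHom_ext
      · intro r
        simp
      · intro i
        fin_cases i <;> simp
    exact congrArg (fun F : MvPolynomial (Fin 4) ℂ →+* ℂ => F f) h
  have hz3 : (![1, (0 : Fin 3 → ℂ) 0 ^ 2, (0 : Fin 3 → ℂ) 1, (0 : Fin 3 → ℂ) 2] : Fin 4 → ℂ) =
      ![1, 0, 0, 0] := by
    ext i
    fin_cases i <;> simp
  -- the common zero
  obtain ⟨p, hp, hpf, hpg⟩ := Pool.Agent.Helper43.PLap.common_zero
    (aeval (![1, X 0 ^ 2, X 1, X 2] : Fin 4 → MvPolynomial (Fin 3) ℂ) w)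
    (aeval (![1, X 0 ^ 2, X 1, X 2] : Fin 4 → MvPolynomial (Fin 3) ℂ) (B Hm w w))
    (by
      rw [hev, hz3, Equal_eval]
      refine Finset.sum_eq_zero fun d hd => ?_
      have h5 := hs d hd
      by_cases h11 : d 1 = 0
      · by_cases h12 : d 2 = 0
        · have h13 : d 3 ≠ 0 := by omega
          simp [h13]
        · simp [h12]
      · simp [h11])
    (by
      rw [hev, hz3, eval_N]
      rw [Equal_evalD0 w 0, Equal_evalD0 w 2]
      · ring
      · intro d hd
        have h5 := hs d hd
        by_cases h11 : d 1 = 0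
        · by_cases h13 : d 3 = 0
          · refine ⟨2, by decide, ?_⟩
            rw [Finsupp.tsub_apply, Finsupp.single_eq_same]
            omega
          · refine ⟨3, by decide, ?_⟩
            rw [Finsupp.tsub_apply, Finsupp.single_eq_of_ne (by decide)]
            omega
        · refine ⟨1, by decide, ?_⟩
          rw [Finsupp.tsub_apply, Finsupp.single_eq_of_ne (by decide)]
          omega
      · intro d hd
        have h5 := hs d hd
        by_cases h11 : d 1 = 0
        · by_cases h13 : d 3 = 0
          · refine ⟨2, by decide, ?_⟩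
            rw [Finsupp.tsub_apply, Finsupp.single_eq_of_ne (by decide)]
            omega
          · refine ⟨3, by decide, ?_⟩
            rw [Finsupp.tsub_apply, Finsupp.single_eq_of_ne (by decide)]
            omega
        · refine ⟨1, by decide, ?_⟩
          rw [Finsupp.tsub_apply, Finsupp.single_eq_of_ne (by decide)]
          omega)
  rw [hev] at hpf hpg
  set t : ℂ := p 0 ^ 2 with ht
  set y : ℂ := p 1 with hy
  set z : ℂ := p 2 with hz
  by_cases ht0 : t = 0
  · -- the point lies in the plane
    rw [ht0] at hpf hpg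
    have hy0 : y ≠ 0 := by
      intro h
      by_cases hz0 : z = 0
      · apply hp
        have h0 : p 0 = 0 := by
          rw [ht] at ht0
          exact pow_eq_zero_iff (by norm_num) |>.mp ht0
        ext i
        fin_cases i
        · exact h0
        · exact h
        · exact hz0
      · rw [h] at hpf
        exact hpz z hz0 hpf
    have hz0 : z ≠ 0 := by
      intro h
      rw [h] at hpf
      exact hpy y hy0 hpf
    exact h2 P hP hP0 m (m - c) w hw0 hw hsol hd0 y z hy0 hz0 hpf hpg
  by_cases hq : bil ![1, t, y, z] ![1, t, y, z] = 0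
  · -- a null point off the coordinate planes
    have hyz : y * z = -t := by
      simp only [bil, Matrix.cons_val_zero, Matrix.cons_val_one, Matrix.cons_val] at hq
      linear_combination hq / 2
    have hyz0 : y * z ≠ 0 := by
      rw [hyz]
      exact neg_ne_zero.mpr ht0
    refine hopen ![1, t, y, z] ?_ hq hpf hpg
    intro i
    fin_cases i
    · exact one_ne_zero
    · exact ht0
    · exact left_ne_zero_of_mul hyz0
    · exact right_ne_zero_of_mul hyz0
  · have hlam : bil (lamv 1 0 ![1, t, y, z]) (lamv 1 0 ![1, t, y, z]) ≠ 0 := by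
      simp only [bil, lamv, Matrix.cons_val_zero, Matrix.cons_val_one, Matrix.cons_val]
      intro h
      apply ht0
      linear_combination -h / 2
    obtain ⟨v, hv, hvv, hvx, hvl, hline, hvw, hvN⟩ :=
      h1 P hP hP0 m w hw hsol 1 0 _ hDl ![1, t, y, z] hq hlam hpf hpg
    have hv1 : v 1 = t * v 0 := by
      simp only [bil, lamv, Matrix.cons_val_zero, Matrix.cons_val_one, Matrix.cons_val] at hvl
      linear_combination hvl
    have hvv' : v 2 * v 3 = -(v 0 * v 1) := by
      simp only [bil] at hvv
      linear_combination hvv / 2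
    by_cases hv0 : v 0 = 0
    · have hv10 : v 1 = 0 := by rw [hv1, hv0, mul_zero]
      have h23 : v 2 * v 3 = 0 := by rw [hvv', hv0]; ring
      rcases mul_eq_zero.mp h23 with h20 | h30
      · have hv3 : v 3 ≠ 0 := by
          intro h30
          apply hv
          ext i
          fin_cases i
          · exact hv0
          · exact hv10
          · exact h20
          · exact h30
        refine Equal_line' w m c hw hs hc1 t y ?_
        intro Y
        have h := hline ((Y - z) / v 3)
        rw [← h]
        congr 1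
        apply congrArg
        ext i
        fin_cases i
        · simp [hv0]
        · simp [hv10]
        · simp [h20]
        · simp [div_mul_cancel₀ _ hv3]
      · have hv2 : v 2 ≠ 0 := by
          intro h20
          apply hv
          ext i
          fin_cases i
          · exact hv0
          · exact hv10
          · exact h20
          · exact h30
        refine Equal_line w m c hw hs hc0 t z ?_
        intro Y
        have h := hline ((Y - y) / v 2)
        rw [← h]
        congr 1
        apply congrArg
        ext i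
        fin_cases i
        · simp [hv0]
        · simp [hv10]
        · simp [div_mul_cancel₀ _ hv2]
        · simp [h30]
    · have hv10 : v 1 ≠ 0 := by
        rw [hv1]
        exact mul_ne_zero ht0 hv0
      have h23 : v 2 * v 3 ≠ 0 := by
        rw [hvv']
        exact neg_ne_zero.mpr (mul_ne_zero hv0 hv10)
      refine hopen v ?_ hvv (hvw (by omega)) (hvN (by omega))
      intro i
      fin_cases i
      · exact hv0
      · exact hv10
      · exact left_ne_zero_of_mul h23
      · exact right_ne_zero_of_mul h23

end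

end Pool.PN4
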