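import Pool.Agent.PN4.Stmts
import Pool.Agent.PN4.Basic

set_option autoImplicit false

open MvPolynomial

namespace Pool.PN4

noncomputable section

/-- the linear map `w ↦ (x·w, v·w)` -/
def FrI_phi (x v : Fin 4 → ℂ) : (Fin 4 → ℂ) →ₗ[ℂ] (Fin 2 → ℂ) where
  toFun w := ![bil x w, bil v w]
  map_add' a b := by
    ext i; fin_cases i <;> simp [bil] <;> ring
  map_smul' c a := by
    ext i; fin_cases i <;> simp [bil] <;> ring

lemma FrI_bil_comm (x y : Fin 4 → ℂ) : bil x y = bil y x := by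
  simp only [bil]; ring

lemma FrI_bil_add (x y z : Fin 4 → ℂ) : bil x (y + z) = bil x y + bil x z := by
  simp only [bil, Pi.add_apply]; ring

lemma FrI_bil_smul (c : ℂ) (x y : Fin 4 → ℂ) : bil x (c • y) = c * bil x y := by
  simp only [bil, Pi.smul_apply, smul_eq_mul]; ring

lemma FrI_quad (a b c : ℂ) : ∃ s t : ℂ, (s ≠ 0 ∨ t ≠ 0) ∧ s ^ 2 * a + 2 * s * t * b + t ^ 2 * c = 0 := by
  by_cases hc : c = 0
  · exact ⟨0, 1, Or.inr one_ne_zero, by simp [hc]⟩
  · obtain ⟨z, hz⟩ := IsAlgClosed.exists_pow_nat_eq (b ^ 2 - a * c) (n := 2) (by norm_num)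
    refine ⟨1, (z - b) / c, Or.inl one_ne_zero, ?_⟩
    field_simp
    linear_combination hz

lemma FrI_null (x v : Fin 4 → ℂ) : ∃ A : Fin 4 → ℂ, A ≠ 0 ∧ bil x A = 0 ∧ bil v A = 0 ∧
    bil A A = 0 := by
  have hk : 2 ≤ Module.finrank ℂ (LinearMap.ker (FrI_phi x v)) := by
    have h1 := LinearMap.finrank_range_add_finrank_ker (FrI_phi x v)
    have h2 : Module.finrank ℂ (LinearMap.range (FrI_phi x v)) ≤ 2 := by
      have := Submodule.finrank_le (LinearMap.range (FrI_phi x v))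
      simpa using this
    have h3 : Module.finrank ℂ (Fin 4 → ℂ) = 4 := by simp
    omega
  have hnt : Nontrivial (LinearMap.ker (FrI_phi x v)) := by
    apply Module.nontrivial_of_finrank_pos (R := ℂ)
    omega
  obtain ⟨w1, hw1⟩ := exists_ne (0 : LinearMap.ker (FrI_phi x v))
  obtain ⟨w2, hli⟩ := exists_linearIndependent_pair_of_one_lt_finrank (R := ℂ) (by omega) hw1
  obtain ⟨s, t, hst, h0⟩ := FrI_quad (bil w1.1 w1.1) (bil w1.1 w2.1) (bil w2.1 w2.1)
  have hker : ∀ w : LinearMap.ker (FrI_phi x v), bil x w.1 = 0 ∧ bil v w.1 = 0 := by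
    intro w
    have h : FrI_phi x v w.1 = 0 := w.2
    have h0 : bil x w.1 = 0 := congrFun h 0
    have h1 : bil v w.1 = 0 := congrFun h 1
    exact ⟨h0, h1⟩
  refine ⟨(s • w1 + t • w2 : LinearMap.ker (FrI_phi x v)).1, ?_, (hker _).1, (hker _).2, ?_⟩
  · intro h
    have h' : s • w1 + t • w2 = 0 := Subtype.ext h
    have := LinearIndependent.pair_iff.mp hli s t h'
    rcases hst with hs | ht
    · exact hs this.1
    · exact ht this.2
  · have : bil (s • w1 + t • w2 : LinearMap.ker (FrI_phi x v)).1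
        (s • w1 + t • w2 : LinearMap.ker (FrI_phi x v)).1 =
        s ^ 2 * bil w1.1 w1.1 + 2 * s * t * bil w1.1 w2.1 + t ^ 2 * bil w2.1 w2.1 := by
      simp only [bil, Submodule.coe_add, Submodule.coe_smul, Pi.add_apply, Pi.smul_apply,
        smul_eq_mul]
      ring
    rw [this, h0]

lemma FrI_pair (A : Fin 4 → ℂ) (hA : A ≠ 0) : ∃ y : Fin 4 → ℂ, bil A y = 1 := by
  obtain ⟨i, hi⟩ := Function.ne_iff.mp hA
  have hi' : A i ≠ 0 := by simpa using hi
  fin_cases i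
  · exact ⟨![0, (A 0)⁻¹, 0, 0], by simp [bil]; exact mul_inv_cancel₀ hi'⟩
  · exact ⟨![(A 1)⁻¹, 0, 0, 0], by simp [bil]; exact mul_inv_cancel₀ hi'⟩
  · exact ⟨![0, 0, 0, (A 2)⁻¹], by simp [bil]; exact mul_inv_cancel₀ hi'⟩
  · exact ⟨![0, 0, (A 3)⁻¹, 0], by simp [bil]; exact mul_inv_cancel₀ hi'⟩

/-- module C1 -/
theorem thm_FrI : St_FrI := by
  intro x v hxv hx hv
  obtain ⟨A, hA, hxA, hvA, hAA⟩ := FrI_null x v
  obtain ⟨y, hy⟩ := FrI_pair A hA
  set B0 : Fin 4 → ℂ := y + (-(bil x y / bil x x)) • x + (-(bil v y / bil v v)) • v with hB0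
  have hAx : bil A x = 0 := by rw [FrI_bil_comm]; exact hxA
  have hAv : bil A v = 0 := by rw [FrI_bil_comm]; exact hvA
  have hvx : bil v x = 0 := by rw [FrI_bil_comm]; exact hxv
  have h1 : bil A B0 = 1 := by
    rw [hB0, FrI_bil_add, FrI_bil_add, FrI_bil_smul, FrI_bil_smul, hy, hAx, hAv]; ring
  have h2 : bil x B0 = 0 := by
    rw [hB0, FrI_bil_add, FrI_bil_add, FrI_bil_smul, FrI_bil_smul, hxv]
    field_simp
    ring
  have h3 : bil v B0 = 0 := by
    rw [hB0, FrI_bil_add, FrI_bil_add, FrI_bil_smul, FrI_bil_smul, hvx]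
    field_simp
    ring
  clear_value B0
  set Bv : Fin 4 → ℂ := B0 + (-(bil B0 B0 / 2)) • A with hBv
  have k1 : bil A Bv = 1 := by
    rw [hBv, FrI_bil_add, FrI_bil_smul, h1, hAA]; ring
  have k2 : bil x Bv = 0 := by
    rw [hBv, FrI_bil_add, FrI_bil_smul, h2, hxA]; ring
  have k3 : bil v Bv = 0 := by
    rw [hBv, FrI_bil_add, FrI_bil_smul, h3, hvA]; ring
  have k4 : bil Bv Bv = 0 := by
    have hB0A : bil B0 A = 1 := by rw [FrI_bil_comm]; exact h1
    have : bil Bv Bv = bil B0 B0 + 2 * (-(bil B0 B0 / 2)) * bil B0 A +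
        (-(bil B0 B0 / 2)) ^ 2 * bil A A := by
      rw [hBv]
      generalize (-(bil B0 B0 / 2)) = c
      simp only [bil, Pi.add_apply, Pi.smul_apply, smul_eq_mul]; ring
    rw [this, hB0A, hAA]; ring
  clear_value Bv
  refine ⟨Matrix.of fun i j => (![x i, v i, A i, Bv i] : Fin 4 → ℂ) j, fun i => by simp,
    fun i => by simp, ?_⟩
  have e : ∀ p q : Fin 4 → ℂ, (p 1 * q 0 + p 0 * q 1 + p 3 * q 2 + p 2 * q 3) = bil p q := by
    intro p q; simp only [bil]; ring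
  ext i j
  have key : ∀ i j : Fin 4, ((Matrix.of fun i j => (![x i, v i, A i, Bv i] : Fin 4 → ℂ) j).transpose
      * Hm * (Matrix.of fun i j => (![x i, v i, A i, Bv i] : Fin 4 → ℂ) j)) i j =
      bil ((![x, v, A, Bv] : Fin 4 → (Fin 4 → ℂ)) i) ((![x, v, A, Bv] : Fin 4 → (Fin 4 → ℂ)) j) := by
    intro i j
    rw [← e]
    fin_cases i <;> fin_cases j <;>
      simp [Matrix.mul_apply, Fin.sum_univ_four, Hm, Matrix.transpose_apply] 
  rw [key]
  have hBA : bil Bv A = 1 := by rw [FrI_bil_comm]; exact k1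
  have hBx : bil Bv x = 0 := by rw [FrI_bil_comm]; exact k2
  have hBv' : bil Bv v = 0 := by rw [FrI_bil_comm]; exact k3
  fin_cases i <;> fin_cases j <;>
    simp [K1, hxv, hvx, hxA, hvA, hAx, hAv, hAA, k1, k2, k3, k4, hBA, hBx, hBv']

end

end Pool.PN4
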