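import Pool.Agent.PN4.Stmts
import Pool.Agent.PN4.Basic

set_option autoImplicit false

open MvPolynomial

namespace Pool.PN4

noncomputable section

lemma FrIII_gram (M : Matrix (Fin 4) (Fin 4) ℂ) (i j : Fin 4) :
    (M.transpose * Hm * M) i j = bil (fun k => M k i) (fun k => M k j) := by
  simp only [Matrix.mul_apply, Matrix.transpose_apply, Fin.sum_univ_four, Hm, bil]
  simp
  ring

lemma FrIII_comm (x y : Fin 4 → ℂ) : bil x y = bil y x := by
  unfold bil
  ring

/-- the projection to the complement of `x, e, v` -/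
def FrIII_p (R : ℂ) (x e v z : Fin 4 → ℂ) : Fin 4 → ℂ :=
  fun i => z i - bil z e * x i - bil z x * e i - bil z v / R * v i

lemma FrIII_perp {R : ℂ} (hR : R ≠ 0) {x e v : Fin 4 → ℂ} (hxx : bil x x = 0) (hee : bil e e = 0)
    (hxe : bil x e = 1) (hxv : bil x v = 0) (hev : bil e v = 0) (hvv : bil v v = R)
    (z : Fin 4 → ℂ) : bil x (FrIII_p R x e v z) = 0 ∧ bil e (FrIII_p R x e v z) = 0 ∧
      bil v (FrIII_p R x e v z) = 0 := by
  have key : ∀ y : Fin 4 → ℂ, bil y (FrIII_p R x e v z) =
      bil y z - bil z e * bil y x - bil z x * bil y e - bil z v / R * bil y v := by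
    intro y
    simp only [FrIII_p, bil]
    ring
  refine ⟨?_, ?_, ?_⟩
  · rw [key, hxx, hxe, hxv, FrIII_comm z x]
    ring
  · rw [key, FrIII_comm e x, hee, hxe, hev, FrIII_comm z e]
    ring
  · rw [key, FrIII_comm v x, FrIII_comm v e, hxv, hev, hvv, FrIII_comm z v]
    field_simp
    ring

lemma FrIII_sq {R : ℂ} (hR : R ≠ 0) {x e v : Fin 4 → ℂ} (hxx : bil x x = 0) (hee : bil e e = 0)
    (hxe : bil x e = 1) (hxv : bil x v = 0) (hev : bil e v = 0) (hvv : bil v v = R)
    (z : Fin 4 → ℂ) : bil (FrIII_p R x e v z) (FrIII_p R x e v z) =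
      bil z z - 2 * bil z e * bil z x - bil z v ^ 2 / R := by
  obtain ⟨h1, h2, h3⟩ := FrIII_perp hR hxx hee hxe hxv hev hvv z
  have key : ∀ y : Fin 4 → ℂ, bil (FrIII_p R x e v z) y =
      bil z y - bil z e * bil x y - bil z x * bil e y - bil z v / R * bil v y := by
    intro y
    simp only [FrIII_p, bil]
    ring
  rw [key, h1, h2, h3, FrIII_comm z (FrIII_p R x e v z), key, FrIII_comm x z, FrIII_comm e z,
    FrIII_comm v z]
  ring

lemma FrIII_ex {R : ℂ} (hR : R ≠ 0) {x e v : Fin 4 → ℂ} (hxx : bil x x = 0) (hee : bil e e = 0)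
    (hxe : bil x e = 1) (hxv : bil x v = 0) (hev : bil e v = 0) (hvv : bil v v = R) :
    ∃ z, bil (FrIII_p R x e v z) (FrIII_p R x e v z) ≠ 0 := by
  by_contra hcon
  push Not at hcon
  have h : ∀ z : Fin 4 → ℂ, bil z z - 2 * bil z e * bil z x - bil z v ^ 2 / R = 0 := fun z => by
    rw [← FrIII_sq hR hxx hee hxe hxv hev hvv z]
    exact hcon z
  have a0 := h ![1, 0, 0, 0]
  have a1 := h ![0, 1, 0, 0]
  have a2 := h ![1, 1, 0, 0]
  have b0 := h ![0, 0, 1, 0]
  have b1 := h ![0, 0, 0, 1]
  have b2 := h ![0, 0, 1, 1]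
  have hvv' : bil v v / R = 1 := by rw [hvv]; field_simp
  simp only [bil] at a0 a1 a2 b0 b1 b2 hxe hvv'
  simp at a0 a1 a2 b0 b1 b2
  have : (1 : ℂ) = 0 := by
    linear_combination (-a0) - a1 + a2 - b0 - b1 + b2 + 2 * hxe + hvv'
  exact one_ne_zero this

/-- module C2 -/
theorem thm_FrIII : St_FrIII := by
  intro x v hx hxx hxv hvv
  -- a vector with `bil x y = 1`
  obtain ⟨y, hy⟩ : ∃ y : Fin 4 → ℂ, bil x y = 1 := by
    by_cases h0 : x 0 = 0
    · by_cases h1 : x 1 = 0
      · by_cases h2 : x 2 = 0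
        · by_cases h3 : x 3 = 0
          · exfalso
            apply hx
            funext i
            fin_cases i
            · exact h0
            · exact h1
            · exact h2
            · exact h3
          · exact ⟨![0, 0, (x 3)⁻¹, 0], by simp [bil, h3]⟩
        · exact ⟨![0, 0, 0, (x 2)⁻¹], by simp [bil, h2]⟩
      · exact ⟨![(x 1)⁻¹, 0, 0, 0], by simp [bil, h1]⟩
    · exact ⟨![0, (x 0)⁻¹, 0, 0], by simp [bil, h0]⟩
  set R := bil v v with hRdef
  set e0 : Fin 4 → ℂ := fun i => y i - bil v y / R * v i with he0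
  have hxe0 : bil x e0 = 1 := by
    have : bil x e0 = bil x y - bil v y / R * bil x v := by
      simp only [he0, bil]
      ring
    rw [this, hy, hxv]
    ring
  have hve0 : bil v e0 = 0 := by
    have : bil v e0 = bil v y - bil v y / R * bil v v := by
      simp only [he0, bil]
      ring
    rw [this, ← hRdef]
    field_simp
    ring
  set e : Fin 4 → ℂ := fun i => e0 i - bil e0 e0 / 2 * x i with he
  have hxe : bil x e = 1 := by
    have : bil x e = bil x e0 - bil e0 e0 / 2 * bil x x := by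
      simp only [he, bil]
      ring
    rw [this, hxe0, hxx]
    ring
  have hev : bil e v = 0 := by
    have : bil e v = bil v e0 - bil e0 e0 / 2 * bil x v := by
      simp only [he, bil]
      ring
    rw [this, hve0, hxv]
    ring
  have hee : bil e e = 0 := by
    have : bil e e = bil e0 e0 - bil e0 e0 * bil x e0 + (bil e0 e0 / 2) ^ 2 * bil x x := by
      simp only [he, bil]
      ring
    rw [this, hxe0, hxx]
    ring
  obtain ⟨z, hz⟩ := FrIII_ex hvv hxx hee hxe hxv hev hRdef.symm
  obtain ⟨p1, p2, p3⟩ := FrIII_perp hvv hxx hee hxe hxv hev hRdef.symm z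
  set w := FrIII_p R x e v z with hw
  obtain ⟨c, hc⟩ := IsAlgClosed.exists_pow_nat_eq (bil w w) (n := 2) (by norm_num)
  have hc0 : c ≠ 0 := by
    rintro rfl
    apply hz
    rw [← hc]
    ring
  set δ : Fin 4 → ℂ := fun i => w i / c with hδ
  have hsc : ∀ u : Fin 4 → ℂ, bil u δ = bil u w / c := by
    intro u
    simp only [hδ, bil]
    ring
  have d1 : bil x δ = 0 := by rw [hsc, p1]; simp
  have d2 : bil e δ = 0 := by rw [hsc, p2]; simp
  have d3 : bil v δ = 0 := by rw [hsc, p3]; simp
  have d4 : bil δ δ = 1 := by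
    have : bil δ δ = bil w w / c ^ 2 := by
      simp only [hδ, bil]
      field_simp
    rw [this, hc]
    exact div_self hz
  refine ⟨Matrix.of fun i => ![x i, e i, v i, δ i], fun i => rfl, fun i => rfl, ?_⟩
  ext i j
  refine (FrIII_gram _ i j).trans ?_
  fin_cases i <;> fin_cases j
  · exact hxx
  · exact hxe
  · exact hxv
  · exact d1
  · exact (FrIII_comm e x).trans hxe
  · exact hee
  · exact hev
  · exact d2
  · exact (FrIII_comm v x).trans hxv
  · exact (FrIII_comm v e).trans hev
  · exact hRdef.symm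
  · exact d3
  · exact (FrIII_comm δ x).trans d1
  · exact (FrIII_comm δ e).trans d2
  · exact (FrIII_comm δ v).trans d3
  · exact d4

end

end Pool.PN4
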