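import Pool.Agent.PN4.Stmts
import Pool.Agent.PN4.Basic

set_option autoImplicit false

open MvPolynomial

namespace Pool.PN4

noncomputable section

/-- the columns -/
def frrF (r : ℝ) (p q : Fin 4 → ℝ) (i : Fin 4) : ℂ :=
  (r : ℂ) * ((p i : ℂ) + Complex.I * (q i : ℂ))

/-- the real dot product -/
def frrD (p q : Fin 4 → ℝ) : ℝ := p 0 * q 0 + p 1 * q 1 + p 2 * q 2 + p 3 * q 3

lemma frr_conj (r : ℝ) (p q : Fin 4 → ℝ) (i : Fin 4) :
    (starRingEnd ℂ) (frrF r p q i) = frrF r p (fun i => -q i) i := by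
  unfold frrF
  simp

lemma frr_dot (r : ℝ) (p q u v : Fin 4 → ℝ) : ∑ i, frrF r p q i * frrF r u v i =
    (r : ℂ) ^ 2 * (((frrD p u : ℝ) : ℂ) - ((frrD q v : ℝ) : ℂ) +
      Complex.I * (((frrD p v : ℝ) : ℂ) + ((frrD q u : ℝ) : ℂ))) := by
  unfold frrF frrD
  rw [Fin.sum_univ_four]
  push_cast
  linear_combination (r : ℂ) ^ 2 *
    ((q 0 : ℂ) * v 0 + q 1 * v 1 + q 2 * v 2 + q 3 * v 3) * Complex.I_sq

lemma frr_inner (u v : EuclideanSpace ℝ (Fin 4)) :
    inner ℝ u v = frrD (fun i => u i) (fun i => v i) := by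
  unfold frrD
  rw [PiLp.inner_apply, Fin.sum_univ_four]
  simp only [RCLike.inner_apply, conj_trivial]
  ring

/-- extension of two orthogonal vectors of the same length to an orthonormal basis -/
lemma frr_basis (a b : Fin 4 → ℝ) (n : ℝ) (hn : 0 < n) (ha : frrD a a = n ^ 2)
    (hb : frrD b b = n ^ 2) (hab : frrD a b = 0) :
    ∃ e : Fin 4 → Fin 4 → ℝ, (∀ i j, frrD (e i) (e j) = if i = j then 1 else 0) ∧
      (∀ i, e 0 i = n⁻¹ * a i) ∧ (∀ i, e 1 i = n⁻¹ * b i) := by
  classical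
  set A : EuclideanSpace ℝ (Fin 4) := WithLp.toLp 2 (fun i => n⁻¹ * a i) with hA
  set B' : EuclideanSpace ℝ (Fin 4) := WithLp.toLp 2 (fun i => n⁻¹ * b i) with hB
  set v : Fin 4 → EuclideanSpace ℝ (Fin 4) := ![A, B', 0, 0] with hv
  have hn' : n ≠ 0 := hn.ne'
  have hAA : inner ℝ A A = 1 := by
    rw [frr_inner]
    unfold frrD at ha ⊢
    have : n⁻¹ * a 0 * (n⁻¹ * a 0) + n⁻¹ * a 1 * (n⁻¹ * a 1) + n⁻¹ * a 2 * (n⁻¹ * a 2) +
        n⁻¹ * a 3 * (n⁻¹ * a 3) = n⁻¹ ^ 2 * (a 0 * a 0 + a 1 * a 1 + a 2 * a 2 + a 3 * a 3) := by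
      ring
    refine this.trans ?_
    rw [ha]
    field_simp
  have hBB : inner ℝ B' B' = 1 := by
    rw [frr_inner]
    unfold frrD at hb ⊢
    have : n⁻¹ * b 0 * (n⁻¹ * b 0) + n⁻¹ * b 1 * (n⁻¹ * b 1) + n⁻¹ * b 2 * (n⁻¹ * b 2) +
        n⁻¹ * b 3 * (n⁻¹ * b 3) = n⁻¹ ^ 2 * (b 0 * b 0 + b 1 * b 1 + b 2 * b 2 + b 3 * b 3) := by
      ring
    refine this.trans ?_
    rw [hb]
    field_simp
  have hAB : inner ℝ A B' = 0 := by
    rw [frr_inner]
    unfold frrD at hab ⊢
    have : n⁻¹ * a 0 * (n⁻¹ * b 0) + n⁻¹ * a 1 * (n⁻¹ * b 1) + n⁻¹ * a 2 * (n⁻¹ * b 2) +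
        n⁻¹ * a 3 * (n⁻¹ * b 3) = n⁻¹ ^ 2 * (a 0 * b 0 + a 1 * b 1 + a 2 * b 2 + a 3 * b 3) := by
      ring
    refine this.trans ?_
    rw [hab, mul_zero]
  have hBA : inner ℝ B' A = 0 := by rw [real_inner_comm]; exact hAB
  have ho : Orthonormal ℝ (({0, 1} : Set (Fin 4)).domRestrict v) := by
    rw [orthonormal_iff_ite]
    rintro ⟨i, hi⟩ ⟨j, hj⟩
    have hi' : i = 0 ∨ i = 1 := hi
    have hj' : j = 0 ∨ j = 1 := hj
    have hv0 : v 0 = A := rfl
    have hv1 : v 1 = B' := rfl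
    rcases hi' with rfl | rfl <;> rcases hj' with rfl | rfl
    · rw [if_pos rfl]; exact hAA
    · rw [if_neg (fun h => absurd (congrArg Subtype.val h) zero_ne_one)]; exact hAB
    · rw [if_neg (fun h => absurd (congrArg Subtype.val h) one_ne_zero)]; exact hBA
    · rw [if_pos rfl]; exact hBB
  obtain ⟨e, he⟩ := ho.exists_orthonormalBasis_extension_of_card_eq (by simp)
  refine ⟨fun i j => e i j, fun i j => ?_, fun i => ?_, fun i => ?_⟩
  · have h := orthonormal_iff_ite.mp e.orthonormal i j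
    rw [frr_inner] at h
    exact h
  · have h := he 0 (by simp)
    change e 0 i = _
    rw [h]
    rfl
  · have h := he 1 (by simp)
    change e 1 i = _
    rw [h]
    rfl

/-- module H2 -/
theorem thm_FrR : St_FrR := by
  intro x hx h0
  set a : Fin 4 → ℝ := fun i => (x i).re with ha
  set b : Fin 4 → ℝ := fun i => (x i).im with hb
  rw [Fin.sum_univ_four] at h0
  have hre : frrD a a = frrD b b := by
    have h := congrArg Complex.re h0
    simp [pow_two] at h
    unfold frrD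
    simp only [ha, hb]
    linarith
  have him : frrD a b = 0 := by
    have h := congrArg Complex.im h0
    simp [pow_two] at h
    unfold frrD
    simp only [ha, hb]
    linarith
  have hpos : 0 < frrD a a := by
    have hsum : 0 ≤ frrD a a := by
      unfold frrD
      nlinarith [mul_self_nonneg (a 0), mul_self_nonneg (a 1), mul_self_nonneg (a 2),
        mul_self_nonneg (a 3)]
    rcases hsum.lt_or_eq with h | h
    · exact h
    · exfalso
      apply hx
      have h1 : frrD a a = 0 := h.symm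
      have h2 : frrD b b = 0 := by rw [← hre]; exact h1
      unfold frrD at h1 h2
      have hz : ∀ c : Fin 4 → ℝ, c 0 * c 0 + c 1 * c 1 + c 2 * c 2 + c 3 * c 3 = 0 →
          ∀ i, c i = 0 := by
        intro c hc i
        have h0 : c 0 * c 0 = 0 := by
          nlinarith [mul_self_nonneg (c 0), mul_self_nonneg (c 1), mul_self_nonneg (c 2),
            mul_self_nonneg (c 3)]
        have h1 : c 1 * c 1 = 0 := by
          nlinarith [mul_self_nonneg (c 0), mul_self_nonneg (c 1), mul_self_nonneg (c 2),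
            mul_self_nonneg (c 3)]
        have h2 : c 2 * c 2 = 0 := by
          nlinarith [mul_self_nonneg (c 0), mul_self_nonneg (c 1), mul_self_nonneg (c 2),
            mul_self_nonneg (c 3)]
        have h3 : c 3 * c 3 = 0 := by
          nlinarith [mul_self_nonneg (c 0), mul_self_nonneg (c 1), mul_self_nonneg (c 2),
            mul_self_nonneg (c 3)]
        fin_cases i
        · exact mul_self_eq_zero.1 h0
        · exact mul_self_eq_zero.1 h1
        · exact mul_self_eq_zero.1 h2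
        · exact mul_self_eq_zero.1 h3
      funext i
      exact Complex.ext (hz a h1 i) (hz b h2 i)
  set n : ℝ := Real.sqrt (frrD a a) with hn
  have hn0 : 0 < n := Real.sqrt_pos.2 hpos
  have hn2 : frrD a a = n ^ 2 := (Real.sq_sqrt hpos.le).symm
  obtain ⟨e, he, he0, he1⟩ := frr_basis a b n hn0 hn2 (by rw [← hre]; exact hn2) him
  set r : ℝ := (Real.sqrt 2)⁻¹ with hr
  have hr0 : r ≠ 0 := inv_ne_zero (Real.sqrt_ne_zero'.2 (by norm_num))
  have hr2 : (r : ℂ) ^ 2 = 1 / 2 := by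
    have h : r ^ 2 = 1 / 2 := by
      rw [hr, inv_pow, Real.sq_sqrt (by norm_num)]
      norm_num
    rw [← Complex.ofReal_pow, h]
    norm_num
  set p : Fin 4 → Fin 4 → ℝ := ![e 0, e 0, e 2, e 2] with hp
  set q : Fin 4 → Fin 4 → ℝ := ![e 1, fun i => -e 1 i, e 3, fun i => -e 3 i] with hq
  refine ⟨Matrix.of fun i j => frrF r (p j) (q j) i, ?_, ⟨(r : ℂ) * (n : ℂ)⁻¹, ?_, fun i => ?_⟩,
    fun i => ?_, fun i => ?_⟩
  · have hneg : ∀ u v : Fin 4 → ℝ, frrD (fun i => -u i) v = -frrD u v := by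
      intro u v; unfold frrD; ring
    have hneg' : ∀ u v : Fin 4 → ℝ, frrD u (fun i => -v i) = -frrD u v := by
      intro u v; unfold frrD; ring
    ext j k
    have h1 : (Matrix.transpose (Matrix.of fun i j => frrF r (p j) (q j) i) *
        (Matrix.of fun i j => frrF r (p j) (q j) i)) j k =
        ∑ i, frrF r (p j) (q j) i * frrF r (p k) (q k) i := rfl
    rw [h1, frr_dot, hr2]
    fin_cases j <;> fin_cases k <;>
      simp [hp, hq, Hm, hneg, hneg', he] <;> norm_num
  · exact mul_ne_zero (Complex.ofReal_ne_zero.2 hr0)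
      (inv_ne_zero (Complex.ofReal_ne_zero.2 hn0.ne'))
  · change frrF r (e 0) (e 1) i = _
    unfold frrF
    rw [he0, he1]
    push_cast
    have hxi : x i = (a i : ℂ) + Complex.I * (b i : ℂ) := by
      rw [mul_comm]
      exact (Complex.re_add_im (x i)).symm
    rw [hxi]
    ring
  · change frrF r (e 0) (fun i => -e 1 i) i = (starRingEnd ℂ) (frrF r (e 0) (e 1) i)
    rw [frr_conj]
  · change frrF r (e 2) (fun i => -e 3 i) i = (starRingEnd ℂ) (frrF r (e 2) (e 3) i)
    rw [frr_conj]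

end

end Pool.PN4
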