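import Pool.Agent.PN4.Stmts
import Pool.Agent.PN4.Basic

set_option autoImplicit false

open MvPolynomial

namespace Pool.PN4

noncomputable section

lemma frame4_hom_eval {Q : MvPolynomial (Fin 4) ℂ} {n : ℕ} (hQ : Q.IsHomogeneous n) (l : ℂ)
    (z : Fin 4 → ℂ) : eval (fun i => l * z i) Q = l ^ n * eval z Q := by
  rw [eval_eq', eval_eq', Finset.mul_sum]
  refine Finset.sum_congr rfl (fun d hd => ?_)
  have hdeg' : ∑ j, d j = n := hom_sum hQ hd
  simp only [mul_pow, Finset.prod_mul_distrib]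
  rw [Finset.prod_pow_eq_pow_sum, hdeg']
  ring

lemma frame4_eval_single {Q : MvPolynomial (Fin 4) ℂ} {n : ℕ} (hQ : Q.IsHomogeneous n) :
    eval (Pi.single 0 1) Q = coeff (mk n 0 0 0) Q := by
  classical
  rw [eval_eq']
  have h1 : ∀ d ∈ Q.support, coeff d Q * ∏ j, (Pi.single 0 (1 : ℂ) : Fin 4 → ℂ) j ^ d j =
      if d = mk n 0 0 0 then coeff d Q else 0 := by
    intro d hd
    have hdeg := hom_four hQ hd
    rw [Fin.prod_univ_four]
    by_cases h : d = mk n 0 0 0
    · rw [if_pos h, h]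
      simp
    · rw [if_neg h]
      have : ¬ (d 1 = 0 ∧ d 2 = 0 ∧ d 3 = 0) := by
        rintro ⟨e1, e2, e3⟩
        apply h
        exact ext4 (by simp; omega) (by simp [e1]) (by simp [e2]) (by simp [e3])
      have h10 : (Pi.single 0 (1 : ℂ) : Fin 4 → ℂ) 1 = 0 := by simp
      have h20 : (Pi.single 0 (1 : ℂ) : Fin 4 → ℂ) 2 = 0 := by simp
      have h30 : (Pi.single 0 (1 : ℂ) : Fin 4 → ℂ) 3 = 0 := by simp
      rw [h10, h20, h30]
      by_cases e1 : d 1 = 0
      · by_cases e2 : d 2 = 0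
        · have e3 : d 3 ≠ 0 := fun e3 => this ⟨e1, e2, e3⟩
          rw [zero_pow e3]
          ring
        · rw [zero_pow e2]
          ring
      · rw [zero_pow e1]
        ring
  rw [Finset.sum_congr rfl h1, Finset.sum_ite_eq']
  by_cases h : mk n 0 0 0 ∈ Q.support
  · rw [if_pos h]
  · rw [if_neg h, notMem_support_iff.mp h]

lemma frame4_sub_hom (M : Matrix (Fin 4) (Fin 4) ℂ) {u : MvPolynomial (Fin 4) ℂ} {m : ℕ}
    (hu : u.IsHomogeneous m) : (sub M 0 u).IsHomogeneous m := by
  have h1 : ∀ i, (C ((0 : Fin 4 → ℂ) i) + ∑ j, C (M i j) * X j :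
      MvPolynomial (Fin 4) ℂ).IsHomogeneous 1 := by
    intro i
    rw [Pi.zero_apply, C_0, zero_add]
    apply IsHomogeneous.sum
    intro a _
    exact (isHomogeneous_C_mul_X _ _)
  have := hu.aeval (fun i => C ((0 : Fin 4 → ℂ) i) + ∑ j, C (M i j) * X j) h1
  rw [one_mul] at this
  exact this

lemma frame4_E_one (P : ℝ) (u : MvPolynomial (Fin 4) ℝ)
    (h : ∀ x : Fin 4 → ℝ,
      (∑ i, (eval x (pderiv i u)) ^ 2) * (∑ i, eval x (pderiv i (pderiv i u))) +
        P * ∑ i, ∑ j, eval x (pderiv i u) * eval x (pderiv j u) *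
          eval x (pderiv i (pderiv j u)) = 0) :
    E 1 (P : ℂ) (map (algebraMap ℝ ℂ) u) = 0 := by
  have h1 : (∑ i, (pderiv i u) ^ 2) * (∑ i, pderiv i (pderiv i u)) +
    C P * ∑ i, ∑ j, pderiv i u * pderiv j u * pderiv i (pderiv j u) = 0 := by
    apply MvPolynomial.funext
    intro x
    have := h x
    simpa using this
  have h2 := congrArg (map (algebraMap ℝ ℂ)) h1
  simp only [map_add, map_mul, map_sum, map_pow, map_C, map_zero] at h2
  have hB : ∀ f g : MvPolynomial (Fin 4) ℂ, B 1 f g = ∑ i, pderiv i f * pderiv i g := by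
    intro f g
    unfold B
    refine Finset.sum_congr rfl fun i _ => ?_
    rw [Finset.sum_eq_single i]
    · simp
    · intro j _ hj
      simp [Matrix.one_apply_ne (Ne.symm hj)]
    · simp
  have hL : ∀ f : MvPolynomial (Fin 4) ℂ, L 1 f = ∑ i, pderiv i (pderiv i f) := by
    intro f
    unfold L
    refine Finset.sum_congr rfl fun i _ => ?_
    rw [Finset.sum_eq_single i]
    · simp
    · intro j _ hj
      simp [Matrix.one_apply_ne (Ne.symm hj)]
    · simp
  unfold E
  simp only [hB, hL]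
  rw [← h2]
  simp only [← pderiv_map]
  set v := map (algebraMap ℝ ℂ) u
  have e1 : ∑ i, pderiv i v * pderiv i v = ∑ i, pderiv i v ^ 2 :=
    Finset.sum_congr rfl fun i _ => by ring
  have e2 : ∀ i, pderiv i (∑ j, pderiv j v * pderiv j v) =
      ∑ j, 2 * (pderiv j v * pderiv i (pderiv j v)) := by
    intro i
    rw [map_sum]
    refine Finset.sum_congr rfl fun j _ => ?_
    rw [pderiv_mul]
    ring
  have e3' : ∑ i, pderiv i v * pderiv i (∑ j, pderiv j v * pderiv j v) =
      2 * ∑ i, ∑ j, pderiv i v * pderiv j v * pderiv i (pderiv j v) := by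
    rw [Finset.mul_sum]
    refine Finset.sum_congr rfl fun i _ => ?_
    rw [e2, Finset.mul_sum, Finset.mul_sum]
    refine Finset.sum_congr rfl fun j _ => ?_
    ring
  have hc : (C (P : ℂ) : MvPolynomial (Fin 4) ℂ) = C ((P : ℂ) / 2) * 2 := by
    rw [show (2 : MvPolynomial (Fin 4) ℂ) = C 2 from (map_ofNat C 2).symm, ← C_mul,
      div_mul_cancel₀ _ (two_ne_zero)]
  have e3 : C ((P : ℂ) / 2) * ∑ i, pderiv i v * pderiv i (∑ j, pderiv j v * pderiv j v) =
      C (P : ℂ) * ∑ i, ∑ j, pderiv i v * pderiv j v * pderiv i (pderiv j v) := by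
    rw [e3', hc, mul_assoc]
  rw [e3, e1]
  rfl

/-- module H3 -/
theorem thm_Frame4 (h1 : St_Sub) (h2 : St_Zero3) (h3 : St_FrR) : St_Frame4 := by
  intro P m hm u hu0 hu hpde
  set v := map (algebraMap ℝ ℂ) u with hv
  have hE := frame4_E_one P u hpde
  have hvh : v.IsHomogeneous m := hu.map _
  have hv0 : v ≠ 0 := by
    intro h
    apply hu0
    exact map_injective _ (algebraMap ℝ ℂ).injective (by rw [map_zero]; exact h)
  have hB1 : B 1 v v = ∑ i, pderiv i v ^ 2 := by
    unfold B
    refine Finset.sum_congr rfl fun i _ => ?_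
    rw [Finset.sum_eq_single i]
    · simp [sq]
    · intro j _ hj
      simp [Matrix.one_apply_ne (Ne.symm hj)]
    · simp
  have hBh : (B 1 v v).IsHomogeneous ((m - 1) * 2) := by
    rw [hB1]
    exact IsHomogeneous.sum _ _ _ fun i _ => (hvh.pderiv).pow 2
  have e0 : ∀ (Q : MvPolynomial (Fin 4) ℂ) (k : ℕ), Q.IsHomogeneous k → k ≠ 0 → eval 0 Q = 0 := by
    intro Q k hQ hk
    have h5 := frame4_hom_eval hQ 0 0
    rw [zero_pow hk, zero_mul] at h5
    simpa using h5
  obtain ⟨x, hx0, hx1, hx2, hx3⟩ := h2 v (B 1 v v) (∑ i, X i ^ 2) (e0 v m hvh (by omega))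
    (e0 _ _ hBh (by omega)) (by simp)
  have hx3' : ∑ i, x i ^ 2 = 0 := by simpa using hx3
  obtain ⟨M, hM, ⟨c, hc, hM0⟩, hM1, hM3⟩ := h3 x hx0 hx3'
  have hHm : Hm * Hm = 1 := by
    unfold Hm
    ext i j
    fin_cases i <;> fin_cases j <;> simp [Matrix.mul_apply, Fin.sum_univ_four]
  have hMM : M * Hm * M.transpose = 1 := by
    have : M.transpose * (M * Hm) = 1 := by rw [← Matrix.mul_assoc, hM, hHm]
    exact mul_eq_one_comm.mp this
  have hMM' : M * (Hm * M.transpose) = 1 := by rw [← Matrix.mul_assoc]; exact hMM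
  have hev : ∀ (f : MvPolynomial (Fin 4) ℂ) (y : Fin 4 → ℂ),
      eval y (sub M 0 f) = eval (M.mulVec y) f := by
    intro f y
    rw [(h1 M Hm 0 (P : ℂ) f).2.2.1 y]
    congr 1
    congr 1
    funext i
    simp [Matrix.mulVec, dotProduct]
  have hUh := frame4_sub_hom M hvh
  -- values at the first basis vector
  have hMe : M.mulVec (Pi.single 0 1) = fun i => c * x i := by
    rw [Matrix.mulVec_single_one]
    funext i
    exact hM0 i
  have hc1 : coeff (mk m 0 0 0) (sub M 0 v) = 0 := by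
    rw [← frame4_eval_single hUh, hev, hMe, frame4_hom_eval hvh, hx1, mul_zero]
  have hN : eval (Pi.single 0 1) (B Hm (sub M 0 v) (sub M 0 v)) = 0 := by
    rw [(h1 M Hm 0 (P : ℂ) v).1, hMM, hev, hMe, frame4_hom_eval hBh, hx2, mul_zero]
  have hpd : ∀ j : Fin 4, eval (Pi.single 0 1) (pderiv j (sub M 0 v)) =
      coeff (mk (m - 1) 0 0 0 + Finsupp.single j 1) (sub M 0 v) * ((mk (m - 1) 0 0 0) j + 1) := by
    intro j
    rw [frame4_eval_single hUh.pderiv, coeff_pderiv]
  have hp0 : eval (Pi.single 0 1) (pderiv 0 (sub M 0 v)) = 0 := by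
    rw [hpd]
    have : mk (m - 1) 0 0 0 + Finsupp.single 0 1 = mk m 0 0 0 :=
      ext4 (by simp; omega) (by simp) (by simp) (by simp)
    rw [this, hc1, zero_mul]
  have hp2 : eval (Pi.single 0 1) (pderiv 2 (sub M 0 v)) = coeff (mk (m - 1) 0 1 0) (sub M 0 v) := by
    rw [hpd]
    have : mk (m - 1) 0 0 0 + Finsupp.single 2 1 = mk (m - 1) 0 1 0 :=
      ext4 (by simp) (by simp) (by simp) (by simp)
    rw [this]
    simp
  have hp3 : eval (Pi.single 0 1) (pderiv 3 (sub M 0 v)) = coeff (mk (m - 1) 0 0 1) (sub M 0 v) := by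
    rw [hpd]
    have : mk (m - 1) 0 0 0 + Finsupp.single 3 1 = mk (m - 1) 0 0 1 :=
      ext4 (by simp) (by simp) (by simp) (by simp)
    rw [this]
    simp
  refine ⟨sub M 0 v, ?_, hUh, ?_, ?_, hc1, ?_⟩
  · intro hzero
    apply hv0
    apply MvPolynomial.funext
    intro y
    have h5 := hev v ((Hm * M.transpose).mulVec y)
    rw [hzero, map_zero, Matrix.mulVec_mulVec, hMM', Matrix.one_mulVec] at h5
    rw [map_zero, ← h5]
  · unfold Sol
    rw [(h1 M Hm 0 (P : ℂ) v).2.1, hMM, hE]
    exact map_zero _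
  · -- reality
    let σ : Fin 4 ≃ Fin 4 := (Equiv.swap 0 1).trans (Equiv.swap 2 3)
    have s0 : σ 0 = 1 := by decide
    have s1 : σ 1 = 0 := by decide
    have s2 : σ 2 = 3 := by decide
    have s3 : σ 3 = 2 := by decide
    have hMconj : ∀ i j, (starRingEnd ℂ) (M i j) = M i (σ j) := by
      intro i j
      fin_cases j
      · change (starRingEnd ℂ) (M i 0) = M i (σ 0)
        rw [s0, hM1]
      · change (starRingEnd ℂ) (M i 1) = M i (σ 1)
        rw [s1, hM1, Complex.conj_conj]
      · change (starRingEnd ℂ) (M i 2) = M i (σ 2)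
        rw [s2, hM3]
      · change (starRingEnd ℂ) (M i 3) = M i (σ 3)
        rw [s3, hM3, Complex.conj_conj]
    have hconj : ∀ (f : MvPolynomial (Fin 4) ℂ) (y : Fin 4 → ℂ),
        eval y (map (starRingEnd ℂ) f) =
          (starRingEnd ℂ) (eval (fun i => (starRingEnd ℂ) (y i)) f) := by
      intro f y
      rw [eval_map, eval₂_eq', eval_eq', map_sum]
      refine Finset.sum_congr rfl fun d _ => ?_
      rw [map_mul, map_prod]
      simp
    have hvc : map (starRingEnd ℂ) v = v := by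
      have hcomp : (starRingEnd ℂ).comp (algebraMap ℝ ℂ) = algebraMap ℝ ℂ := by
        ext x
        simp
      rw [hv, map_map, hcomp]
    have hmain : map (starRingEnd ℂ) (sub M 0 v) = rename σ (sub M 0 v) := by
      apply MvPolynomial.funext
      intro y
      rw [hconj, hev, eval_rename, hev]
      have h5 := hconj v (M.mulVec (y ∘ σ))
      rw [hvc] at h5
      rw [h5]
      congr 2
      congr 1
      funext i
      simp only [Matrix.mulVec, dotProduct, map_sum, map_mul, Function.comp]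
      rw [← Equiv.sum_comp σ]
      refine Finset.sum_congr rfl fun j _ => ?_
      rw [hMconj]
    intro a b c' e
    have h5 := congrArg (coeff (mk b a e c')) hmain
    rw [coeff_map] at h5
    have h6 : mk b a e c' = (mk a b c' e).mapDomain σ := by
      ext j
      have hj : j = σ (σ j) := by revert j; decide
      rw [hj, Finsupp.mapDomain_apply σ.injective]
      have : ∀ j : Fin 4, mk b a e c' (σ j) = mk a b c' e j := by
        intro j
        fin_cases j
        · change mk b a e c' (σ 0) = mk a b c' e 0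
          rw [s0]; rfl
        · change mk b a e c' (σ 1) = mk a b c' e 1
          rw [s1]; rfl
        · change mk b a e c' (σ 2) = mk a b c' e 2
          rw [s2]; rfl
        · change mk b a e c' (σ 3) = mk a b c' e 3
          rw [s3]; rfl
      exact this (σ j)
    have h7 : coeff (mk b a e c') (rename σ (sub M 0 v)) = coeff (mk a b c' e) (sub M 0 v) := by
      rw [h6, coeff_rename_mapDomain _ σ.injective]
    rw [h7] at h5
    rw [← h5, Complex.conj_conj]
  · rw [eval_N, hp0, hp2, hp3] at hN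
    have : coeff (mk (m - 1) 0 1 0) (sub M 0 v) * coeff (mk (m - 1) 0 0 1) (sub M 0 v) = 0 := by
      linear_combination hN / 2
    exact mul_eq_zero.mp this

end

end Pool.PN4
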