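import Pool.Agent.PN4.Stmts
import Pool.Agent.PN4.Basic

set_option autoImplicit false

open MvPolynomial

namespace Pool.PN4

noncomputable section

/-- all modules together -/
theorem comb_of (Sub : St_Sub) (Gram : St_Gram) (Init : St_Init) (InitD : St_InitD)
    (Swap : St_Swap) (VRoot : St_VRoot) (VPsi : St_VPsi) (VTop : St_VTop)
    (VOne : St_VRoot → St_VPsi → St_VTop → St_VOne) (VTwo : St_VTwo) (VEval : St_VEval)
    (Vertex : St_Swap → St_VRoot → St_VPsi → St_VTop → St_VOne → St_VTwo → St_VEval → St_Vertex)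
    (FrI : St_FrI) (FrIII : St_FrIII) (TGen : St_TGen) (Strip : St_TGen → St_Strip)
    (LocIII : St_Sub → St_Gram → St_Init → St_InitD → St_FrIII → St_Strip → St_LocIII)
    (LocII : St_Sub → St_Gram → St_Init → St_InitD → St_Strip → St_LocII)
    (Open : St_LocIII → St_Open) (EdgeRoot : St_EdgeRoot) (EdgeSimple : St_Open → St_EdgeSimple)
    (EdgeA : St_EdgeRoot → St_EdgeSimple → St_EdgeA)
    (EdgeB : St_EdgeRoot → St_EdgeSimple → St_EdgeB) (Plane : St_Plane)
    (LocIa : St_Sub → St_Gram → St_Init → St_InitD → St_LocIa)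
    (LocI : St_Sub → St_Gram → St_FrI → St_Plane → St_LocIa → St_LocI)
    (Equal : St_LocI → St_LocII → St_Open → St_Equal)
    (LNull : St_Open → St_LNull) (LGen : St_LGen) (LFlow : St_LFlow) (LEnt : St_LEnt)
    (LDeg : St_LEnt → St_LDeg) (Line : St_LNull → St_LGen → St_LFlow → St_LDeg → St_Line)
    (Rot : St_Sub → St_Rot)
    (StepA : St_Init → St_Vertex → St_Equal → St_StepA)
    (StepB : St_Init → St_Vertex → St_EdgeA → St_EdgeB → St_Line → St_StepB)
    (Comb : St_Swap → St_Rot → St_StepA → St_StepB → St_Comb) : St_Comb := by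
  have hVOne := VOne VRoot VPsi VTop
  have hVertex := Vertex Swap VRoot VPsi VTop hVOne VTwo VEval
  have hStrip := Strip TGen
  have hIII := LocIII Sub Gram Init InitD FrIII hStrip
  have hII := LocII Sub Gram Init InitD hStrip
  have hOpen := Open hIII
  have hES := EdgeSimple hOpen
  have hA := EdgeA EdgeRoot hES
  have hB := EdgeB EdgeRoot hES
  have hI := LocI Sub Gram FrI Plane (LocIa Sub Gram Init InitD)
  have hEq := Equal hI hII hOpen
  have hLine := Line (LNull hOpen) LGen LFlow (LDeg LEnt)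
  exact Comb Swap (Rot Sub) (StepA Init hVertex hEq) (StepB Init hVertex hA hB hLine)

/-- the final statement from the frame and the combinatorial part -/
theorem final_of (hF : St_Frame4) (hC : St_Comb) (hQ : St_QuadNeg) (p : ℝ) (hp : 1 < p)
    (hp2 : p ≠ 2)
    (m : ℕ) (hm : 2 ≤ m)
    (hex : p < 4 / 3 → ∀ a c : ℕ, a + c + 2 = m →
      ((a : ℝ) - c) ^ 2 * (1 + (m - 1) * (p - 1) ^ 2) ≠ m * (1 + (m - 1) * (p - 1)) ^ 2) (u : MvPolynomial (Fin 4) ℝ) (hu0 : u ≠ 0) (hu : u.IsHomogeneous m)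
    (h : ∀ x : Fin 4 → ℝ,
      (∑ i, (eval x (pderiv i u)) ^ 2) * (∑ i, eval x (pderiv i (pderiv i u))) +
        (p - 2) * ∑ i, ∑ j, eval x (pderiv i u) * eval x (pderiv j u) *
          eval x (pderiv i (pderiv j u)) = 0) : False := by
  obtain ⟨U, hU0, hUh, hUS, hUR, h1, h2⟩ := hF (p - 2) m hm u hu0 hu h
  refine hC (p - 2) (by linarith) (sub_ne_zero.mpr hp2) m ?_ U hm hU0 hUh hUS hUR h1 h2
  intro a c hac
  rw [show 1 + (p - 2) = p - 1 by ring]
  by_cases h43 : 4 / 3 ≤ p
  · exact (hQ a c (p - 1) (by linarith)).ne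
  · have h3 := hex (not_le.mp h43) a c hac
    intro h4
    apply h3
    have h5 : (m : ℝ) = a + c + 2 := by rw [← hac]; push_cast; ring
    rw [h5]
    unfold quad at h4
    linear_combination h4

end

end Pool.PN4
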