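import Pool.Agent.PN4.Stmts
import Pool.Agent.PN4.Basic

set_option autoImplicit false

open MvPolynomial

namespace Pool.PN4

noncomputable section

lemma gram_Hm_sq : Hm * Hm = 1 := by
  ext i j
  fin_cases i <;> fin_cases j <;>
    simp [Hm, Matrix.mul_apply, Fin.sum_univ_four]

/-- module A2 -/
theorem thm_Gram : St_Gram := by
  intro M K K' h1 h2
  have h3 : M.transpose * (Hm * M * K') = 1 := by
    rw [← Matrix.mul_assoc, ← Matrix.mul_assoc, h1, h2]
  have h4 : (Hm * M * K') * M.transpose = 1 := mul_eq_one_comm.mp h3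
  calc M * K' * M.transpose = Hm * Hm * (M * K' * M.transpose) := by
        rw [gram_Hm_sq, Matrix.one_mul]
    _ = Hm * ((Hm * M * K') * M.transpose) := by
        simp only [Matrix.mul_assoc]
    _ = Hm := by rw [h4, Matrix.mul_one]

end

end Pool.PN4
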