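import Pool.Agent.PN4.Stmts
import Pool.Agent.PN4.Basic

set_option autoImplicit false

open MvPolynomial

namespace Pool.PN4

noncomputable section

lemma init_wt_add {n : ℕ} (ω : Fin n → ℕ) (d e : Fin n →₀ ℕ) :
    wt ω (d + e) = wt ω d + wt ω e := by
  simp [wt, mul_add, Finset.sum_add_distrib]

lemma init_wt_single {n : ℕ} (ω : Fin n → ℕ) (i : Fin n) :
    wt ω (Finsupp.single i 1) = ω i := by
  simp [wt, Finsupp.single_apply]

/-- all monomials satisfy `wt + s ≥ W` -/
def InitGe {n : ℕ} (ω : Fin n → ℕ) (W s : ℕ) (f : MvPolynomial (Fin n) ℂ) : Prop :=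
  ∀ d, coeff d f ≠ 0 → W ≤ wt ω d + s

/-- all monomials satisfy `wt + s = W` -/
def InitEq {n : ℕ} (ω : Fin n → ℕ) (W s : ℕ) (f : MvPolynomial (Fin n) ℂ) : Prop :=
  ∀ d, coeff d f ≠ 0 → wt ω d + s = W

/-- `g` is the part of `f` of lowest weight -/
def InitR {n : ℕ} (ω : Fin n → ℕ) (W s : ℕ) (f g : MvPolynomial (Fin n) ℂ) : Prop :=
  InitEq ω W s g ∧ InitGe ω (W + 1) s (f - g)

section

variable {n : ℕ} {ω : Fin n → ℕ} {W W' s s' : ℕ} {f f' g g' : MvPolynomial (Fin n) ℂ}

lemma init_mem_mul {d : Fin n →₀ ℕ} (hd : coeff d (f * g) ≠ 0) :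
    ∃ a b, coeff a f ≠ 0 ∧ coeff b g ≠ 0 ∧ a + b = d := by
  classical
  have h := support_mul f g (mem_support_iff.2 hd)
  obtain ⟨a, ha, b, hb, hab⟩ := Finset.mem_add.1 h
  exact ⟨a, b, mem_support_iff.1 ha, mem_support_iff.1 hb, hab⟩

lemma init_mem_add {d : Fin n →₀ ℕ} (hd : coeff d (f + g) ≠ 0) :
    coeff d f ≠ 0 ∨ coeff d g ≠ 0 := by
  by_contra h
  push Not at h
  apply hd
  rw [coeff_add, h.1, h.2, add_zero]

lemma init_mem_pderiv {i : Fin n} {d : Fin n →₀ ℕ} (hd : coeff d (pderiv i f) ≠ 0) :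
    coeff (d + Finsupp.single i 1) f ≠ 0 := by
  intro h
  apply hd
  rw [coeff_pderiv, h, zero_mul]

lemma InitGe.add (h : InitGe ω W s f) (h' : InitGe ω W s g) : InitGe ω W s (f + g) := by
  intro d hd
  rcases init_mem_add hd with h1 | h1
  · exact h d h1
  · exact h' d h1

lemma InitGe.mul (h : InitGe ω W s f) (h' : InitGe ω W' s' g) :
    InitGe ω (W + W') (s + s') (f * g) := by
  intro d hd
  obtain ⟨a, b, ha, hb, rfl⟩ := init_mem_mul hd
  have h1 := h a ha
  have h2 := h' b hb
  rw [init_wt_add]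
  omega

lemma InitGe.pderiv (h : InitGe ω W s f) (i : Fin n) :
    InitGe ω W (s + ω i) (pderiv i f) := by
  intro d hd
  have h1 := h _ (init_mem_pderiv hd)
  rw [init_wt_add, init_wt_single] at h1
  omega

lemma InitEq.ge (h : InitEq ω W s f) : InitGe ω W s f := fun d hd => (h d hd).ge

lemma InitGe.mono (h : InitGe ω W s f) (hW : W' ≤ W) : InitGe ω W' s f :=
  fun d hd => hW.trans (h d hd)

lemma InitEq.add (h : InitEq ω W s f) (h' : InitEq ω W s g) : InitEq ω W s (f + g) := by
  intro d hd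
  rcases init_mem_add hd with h1 | h1
  · exact h d h1
  · exact h' d h1

lemma InitEq.mul (h : InitEq ω W s f) (h' : InitEq ω W' s' g) :
    InitEq ω (W + W') (s + s') (f * g) := by
  intro d hd
  obtain ⟨a, b, ha, hb, rfl⟩ := init_mem_mul hd
  have h1 := h a ha
  have h2 := h' b hb
  rw [init_wt_add]
  omega

lemma InitEq.pderiv (h : InitEq ω W s f) (i : Fin n) :
    InitEq ω W (s + ω i) (pderiv i f) := by
  intro d hd
  have h1 := h _ (init_mem_pderiv hd)
  rw [init_wt_add, init_wt_single] at h1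
  omega

lemma InitR.ge (h : InitR ω W s f g) : InitGe ω W s f := by
  have h1 : f = (f - g) + g := by ring
  rw [h1]
  exact (h.2.mono (Nat.le_succ W)).add h.1.ge

lemma InitR.add (h : InitR ω W s f g) (h' : InitR ω W s f' g') :
    InitR ω W s (f + f') (g + g') := by
  refine ⟨h.1.add h'.1, ?_⟩
  have h1 : f + f' - (g + g') = (f - g) + (f' - g') := by ring
  rw [h1]
  exact h.2.add h'.2

lemma InitR.mul (h : InitR ω W s f g) (h' : InitR ω W' s' f' g') :
    InitR ω (W + W') (s + s') (f * f') (g * g') := by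
  refine ⟨h.1.mul h'.1, ?_⟩
  have h1 : f * f' - g * g' = (f - g) * f' + g * (f' - g') := by ring
  rw [h1]
  refine InitGe.add ?_ ?_
  · exact (h.2.mul h'.ge).mono (by omega)
  · exact (h.1.ge.mul h'.2).mono (by omega)

lemma InitR.pderiv (h : InitR ω W s f g) (i : Fin n) :
    InitR ω W (s + ω i) (pderiv i f) (pderiv i g) := by
  refine ⟨h.1.pderiv i, ?_⟩
  rw [← map_sub]
  exact h.2.pderiv i

lemma InitR.const (c : ℂ) : InitR ω 0 0 (C c : MvPolynomial (Fin n) ℂ) (C c) := by
  classical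
  constructor
  · intro d hd
    rw [coeff_C] at hd
    have : d = 0 := by
      by_contra h
      exact hd (if_neg (Ne.symm h))
    subst this
    simp [wt]
  · rw [sub_self]
    intro d hd
    simp at hd

lemma InitR.zero (W s : ℕ) : InitR ω W s (0 : MvPolynomial (Fin n) ℂ) 0 := by
  constructor
  · intro d hd
    simp at hd
  · intro d hd
    simp at hd

lemma InitR.cmul (h : InitR ω W s f g) (c : ℂ) : InitR ω W s (C c * f) (C c * g) := by
  have h1 := (InitR.const (ω := ω) c).mul h
  simpa only [Nat.zero_add] using h1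

lemma InitR.sum {ι : Type} (S : Finset ι) {F G : ι → MvPolynomial (Fin n) ℂ}
    (h : ∀ i ∈ S, InitR ω W s (F i) (G i)) : InitR ω W s (∑ i ∈ S, F i) (∑ i ∈ S, G i) := by
  classical
  induction S using Finset.induction_on with
  | empty => simpa using InitR.zero W s
  | insert a S ha ih =>
    rw [Finset.sum_insert ha, Finset.sum_insert ha]
    exact (h a (Finset.mem_insert_self _ _)).add
      (ih fun i hi => h i (Finset.mem_insert_of_mem hi))

lemma InitR.shift (a : ℕ) (h : InitR ω (W + a) (s + a) f g) : InitR ω W s f g := by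
  constructor
  · intro d hd
    have := h.1 d hd
    omega
  · intro d hd
    have := h.2 d hd
    omega

lemma InitR.ini (h : ∀ d ∈ f.support, W ≤ wt ω d) : InitR ω W 0 f (ini ω W f) := by
  constructor
  · intro d hd
    exact (mem_support_ini.1 (mem_support_iff.2 hd)).1
  · intro d hd
    rw [coeff_sub, coeff_ini] at hd
    by_cases h1 : wt ω d = W
    · rw [if_pos h1, sub_self] at hd
      exact absurd rfl hd
    · rw [if_neg h1, sub_zero] at hd
      have := h d (mem_support_iff.2 hd)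
      omega

lemma InitR.eq_zero (h : InitR ω W s f g) (hf : InitGe ω (W + 1) s f) : g = 0 := by
  ext d
  rw [coeff_zero]
  by_contra hd
  have h1 := h.1 d hd
  have h2 : coeff d f ≠ 0 ∨ coeff d (f - g) ≠ 0 := by
    by_contra hcon
    push Not at hcon
    apply hd
    have := hcon.2
    rw [coeff_sub, hcon.1] at this
    simpa using this
  rcases h2 with h2 | h2
  · have := hf d h2
    omega
  · have := h.2 d h2
    omega

lemma InitR.B {κ : ℕ} {G : Matrix (Fin n) (Fin n) ℂ} (hG : ∀ i j, G i j ≠ 0 → ω i + ω j = κ)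
    (h : InitR ω W s f g) (h' : InitR ω W' s' f' g') :
    InitR ω (W + W') (s + s' + κ) (B G f f') (B G g g') := by
  refine InitR.sum _ fun i _ => InitR.sum _ fun j _ => ?_
  by_cases hij : G i j = 0
  · rw [hij]
    simpa using InitR.zero _ _
  · have h1 := ((h.pderiv i).mul (h'.pderiv j)).cmul (G i j)
    have h2 : s + s' + κ = s + ω i + (s' + ω j) := by
      have := hG i j hij
      omega
    rw [h2]
    exact h1

lemma InitR.L {κ : ℕ} {G : Matrix (Fin n) (Fin n) ℂ} (hG : ∀ i j, G i j ≠ 0 → ω i + ω j = κ)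
    (h : InitR ω W s f g) : InitR ω W (s + κ) (L G f) (L G g) := by
  refine InitR.sum _ fun i _ => InitR.sum _ fun j _ => ?_
  by_cases hij : G i j = 0
  · rw [hij]
    simpa using InitR.zero _ _
  · have h1 := ((h.pderiv j).pderiv i).cmul (G i j)
    have h2 : s + κ = s + ω j + ω i := by
      have := hG i j hij
      omega
    rw [h2]
    exact h1

lemma InitR.E {κ : ℕ} {G : Matrix (Fin n) (Fin n) ℂ} (hG : ∀ i j, G i j ≠ 0 → ω i + ω j = κ)
    (P : ℂ) (h : InitR ω W 0 f g) : InitR ω (3 * W) (2 * κ) (E G P f) (E G P g) := by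
  have hB := InitR.B hG h h
  have hL := InitR.L hG h
  have h1 := hB.mul hL
  have h2 := (InitR.B hG h hB).cmul (P / 2)
  have e1 : W + W + W = 3 * W := by ring
  have e2 : 0 + 0 + κ + (0 + κ) = 2 * κ := by ring
  have e3 : W + (W + W) = 3 * W := by ring
  have e4 : 0 + (0 + 0 + κ) + κ = 2 * κ := by ring
  rw [e1, e2] at h1
  rw [e3, e4] at h2
  exact h1.add h2

end

/-- module A3 -/
theorem thm_Init : St_Init := by
  intro n ω κ W G P u hG hu hE
  have h := InitR.E hG P (InitR.ini hu)
  apply h.eq_zero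
  rw [hE]
  intro d hd
  simp at hd

end

end Pool.PN4
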