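import Pool.Agent.PN4.Stmts
import Pool.Agent.PN4.Basic
import Pool.Agent.PN4.Init

set_option autoImplicit false

open MvPolynomial

namespace Pool.PN4

noncomputable section

/-- module A4 -/
theorem thm_InitD : St_InitD := by
  intro ω κ W c c0 μ w hκ hw hc hc0 hE
  have h1 : ∀ i, InitR ω W κ (c i * pderiv i w) (c0 i * pderiv i (ini ω W w)) := by
    intro i
    have hci : InitR ω (ω i) κ (c i) (c0 i) := by
      constructor
      · exact fun d hd => hc0 i d (mem_support_iff.2 hd)
      · exact fun d hd => hc i d (mem_support_iff.2 hd)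
    have h2 := hci.mul ((InitR.ini hw).pderiv i)
    apply InitR.shift (ω i)
    have e1 : W + ω i = ω i + W := by ring
    have e2 : κ + ω i = κ + (0 + ω i) := by ring
    rw [e1, e2]
    exact h2
  have h3 := InitR.sum (ω := ω) (W := W) (s := κ) Finset.univ (fun i _ => h1 i)
  apply h3.eq_zero
  rw [hE]
  intro d hd
  have h4 : coeff d w ≠ 0 := by
    intro h0
    apply hd
    rw [coeff_C_mul, h0, mul_zero]
  have := hw d (mem_support_iff.2 h4)
  omega

end

end Pool.PN4
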