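import Pool.Agent.PN4.Stmts
import Pool.Agent.PN4.Basic

set_option autoImplicit false

open MvPolynomial

namespace Pool.PN4

noncomputable section

/-- the weight condition for an exponent -/
def ldeg_z (m k : ℕ) (d : Fin 4 →₀ ℕ) : Prop := (m - k) * d 1 + k * d 2 = (m - k) * d 0 + k * d 3

lemma ldeg_InA_mul {m k : ℕ} {f g : MvPolynomial (Fin 4) ℂ} (hf : InA m k f) (hg : InA m k g) :
    InA m k (f * g) := by
  intro d hd
  have h := support_mul f g hd
  obtain ⟨a, ha, b, hb, rfl⟩ := Finset.mem_add.1 h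
  have h1 := hf a ha
  have h2 := hg b hb
  simp only [Finsupp.add_apply]
  linear_combination h1 + h2

lemma ldeg_InA_pow {m k : ℕ} {f : MvPolynomial (Fin 4) ℂ} (hf : InA m k f) (r : ℕ) :
    InA m k (f ^ r) := by
  induction r with
  | zero =>
    intro d hd
    rw [pow_zero] at hd
    have : d = 0 := by
      by_contra h
      rw [mem_support_iff, coeff_one, if_neg (fun e => h e.symm)] at hd
      exact hd rfl
    rw [this]
    simp
  | succ r ih =>
    rw [pow_succ]
    exact ldeg_InA_mul ih hf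

lemma ldeg_supp_pderiv {f : MvPolynomial (Fin 4) ℂ} {i : Fin 4} {d : Fin 4 →₀ ℕ}
    (hd : d ∈ (pderiv i f).support) : d + Finsupp.single i 1 ∈ f.support := by
  rw [mem_support_iff, coeff_pderiv] at hd
  rw [mem_support_iff]
  intro h
  rw [h, zero_mul] at hd
  exact hd rfl

lemma ldeg_InA_add {m k : ℕ} {f g : MvPolynomial (Fin 4) ℂ} (hf : InA m k f) (hg : InA m k g) :
    InA m k (f + g) := by
  intro d hd
  rcases Finset.mem_union.1 (support_add hd) with h | h
  · exact hf d h
  · exact hg d h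

/-- a product of two derivatives whose weights cancel -/
lemma ldeg_InA_pp {m k : ℕ} {f g : MvPolynomial (Fin 4) ℂ} (hf : InA m k f) (hg : InA m k g)
    {i j : Fin 4} (hij : (i = 0 ∧ j = 1) ∨ (i = 1 ∧ j = 0) ∨ (i = 2 ∧ j = 3) ∨ (i = 3 ∧ j = 2)) :
    InA m k (pderiv i f * pderiv j g) := by
  intro d hd
  have h := support_mul _ _ hd
  obtain ⟨a, ha, b, hb, rfl⟩ := Finset.mem_add.1 h
  have h1 := hf _ (ldeg_supp_pderiv ha)
  have h2 := hg _ (ldeg_supp_pderiv hb)
  rcases hij with ⟨rfl, rfl⟩ | ⟨rfl, rfl⟩ | ⟨rfl, rfl⟩ | ⟨rfl, rfl⟩ <;>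
  · simp only [Finsupp.add_apply, Finsupp.single_apply] at h1 h2 ⊢
    simp at h1 h2
    linear_combination h1 + h2

lemma ldeg_InA_B {m k : ℕ} {f g : MvPolynomial (Fin 4) ℂ} (hf : InA m k f) (hg : InA m k g) :
    InA m k (B Hm f g) := by
  rw [B_Hm]
  refine ldeg_InA_add (ldeg_InA_add (ldeg_InA_add ?_ ?_) ?_) ?_
  · exact ldeg_InA_pp hf hg (by simp)
  · exact ldeg_InA_pp hf hg (by simp)
  · exact ldeg_InA_pp hf hg (by simp)
  · exact ldeg_InA_pp hf hg (by simp)

lemma ldeg_hom_B {m n : ℕ} {f g : MvPolynomial (Fin 4) ℂ} (hf : f.IsHomogeneous m)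
    (hg : g.IsHomogeneous n) : (B Hm f g).IsHomogeneous ((m - 1) + (n - 1)) := by
  rw [B_Hm]
  exact (((hf.pderiv.mul hg.pderiv).add (hf.pderiv.mul hg.pderiv)).add
    (hf.pderiv.mul hg.pderiv)).add (hf.pderiv.mul hg.pderiv)

/-- module G5 -/
theorem thm_LDeg (h1 : St_LEnt) : St_LDeg := by
  classical
  intro m k D w N ev u0 c1 hk hkm hmD hw hA hu0 hevw hevq hevN hevd hgen
  -- the finite set of exponents
  obtain ⟨I, hI⟩ : ∃ I : Finset (Fin 4 →₀ ℕ), ∀ d, d ∈ I ↔
      (d 0 + d 1 + d 2 + d 3 < D ∧ ldeg_z m k d) := by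
    have hfin : Set.Finite {d : Fin 4 →₀ ℕ | d 0 + d 1 + d 2 + d 3 < D ∧ ldeg_z m k d} := by
      refine Set.Finite.subset
        (Set.finite_Iic (mk D D D D)) ?_
      rintro d ⟨hd, _⟩
      intro i
      fin_cases i
      · show d 0 ≤ D
        omega
      · show d 1 ≤ D
        omega
      · show d 2 ≤ D
        omega
      · show d 3 ≤ D
        omega
    exact ⟨hfin.toFinset, fun d => by rw [Set.Finite.mem_toFinset]; rfl⟩
  have hevC : ∀ c : ℂ, ev (C c) = PowerSeries.C c := by
    intro c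
    have := ev.commutes c
    rwa [MvPolynomial.algebraMap_eq] at this
  -- claim 1
  have claim1 : ∀ n, ∀ f : MvPolynomial (Fin 4) ℂ, f.IsHomogeneous n → InA m k f →
      ∃ p : (Fin 4 →₀ ℕ) → Polynomial ℂ, (∀ d, 2 * (p d).natDegree ≤ n) ∧
        ev f = ∑ d ∈ I, (p d : PowerSeries ℂ) * ev (monomial d 1) := by
    intro n
    induction n using Nat.strong_induction_on with
    | _ n ih =>
      intro f hf hfA
      rcases Nat.lt_or_ge n D with hn | hn
      · refine ⟨fun d => Polynomial.C (coeff d f), fun d => by simp, ?_⟩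
        have hsub : f.support ⊆ I := by
          intro d hd
          rw [hI]
          exact ⟨by rw [hom_four hf hd]; exact hn, hfA d hd⟩
        have h5 : f = ∑ d ∈ I, C (coeff d f) * monomial d 1 := by
          conv_lhs => rw [← support_sum_monomial_coeff f]
          rw [Finset.sum_subset hsub]
          · refine Finset.sum_congr rfl fun d _ => ?_
            rw [C_mul_monomial, mul_one]
          · intro d _ hd
            rw [notMem_support_iff.mp hd, monomial_zero]
        conv_lhs => rw [h5]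
        rw [map_sum]
        refine Finset.sum_congr rfl fun d _ => ?_
        rw [map_mul, hevC, Polynomial.coe_C]
      · obtain ⟨a, b, c, haA, hbA, hah, hbh, he⟩ := hgen n hn f hf hfA
        obtain ⟨pa, hpa, ha⟩ := ih (n - m) (by omega) a hah haA
        obtain ⟨pb, hpb, hb⟩ := ih (n - 2) (by omega) b hbh hbA
        refine ⟨fun d => Polynomial.C u0 * pa d + Polynomial.C c1 * (Polynomial.X * pb d), ?_, ?_⟩
        · intro d
          have e1 : (Polynomial.C u0 * pa d).natDegree ≤ (pa d).natDegree :=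
            Polynomial.natDegree_C_mul_le _ _
          have e2 : (Polynomial.C c1 * (Polynomial.X * pb d)).natDegree ≤ (pb d).natDegree + 1 := by
            refine (Polynomial.natDegree_C_mul_le _ _).trans ?_
            refine Polynomial.natDegree_mul_le.trans ?_
            rw [Polynomial.natDegree_X]
            omega
          have e3 := Polynomial.natDegree_add_le (Polynomial.C u0 * pa d)
            (Polynomial.C c1 * (Polynomial.X * pb d))
          have e4 := hpa d
          have e5 := hpb d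
          have e6 : (Polynomial.C u0 * pa d + Polynomial.C c1 * (Polynomial.X * pb d)).natDegree ≤
              max (pa d).natDegree ((pb d).natDegree + 1) :=
            e3.trans (max_le_max e1 e2)
          show 2 * (Polynomial.C u0 * pa d + Polynomial.C c1 * (Polynomial.X * pb d)).natDegree ≤ n
          rcases le_max_iff.1 e6 with e7 | e7 <;> omega
        · rw [he, map_add, map_add, map_mul, map_mul, map_mul, hevw, hevq, hevN, ha, hb, zero_mul,
            add_zero, Finset.mul_sum, Finset.mul_sum, ← Finset.sum_add_distrib]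
          refine Finset.sum_congr rfl fun d _ => ?_
          simp only [Polynomial.coe_add, Polynomial.coe_mul, Polynomial.coe_C, Polynomial.coe_X]
          ring
  -- monomials of the finite set
  have hmonh : ∀ d : Fin 4 →₀ ℕ, (monomial d (1 : ℂ)).IsHomogeneous (d 0 + d 1 + d 2 + d 3) := by
    intro d
    refine isHomogeneous_monomial _ ?_
    rw [Finsupp.degree_eq_sum, Fin.sum_univ_four]
  have hmonA : ∀ d ∈ I, InA m k (monomial d (1 : ℂ)) := by
    intro d hd e he
    have := support_monomial_subset he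
    rw [Finset.mem_singleton] at this
    rw [this]
    exact ((hI d).1 hd).2
  -- the basic power series are polynomials
  have hpoly : ∀ d ∈ I, ∃ p : Polynomial ℂ, ev (monomial d 1) = (p : PowerSeries ℂ) := by
    set e := I.equivFin with he
    have hder : ∀ i : Fin I.card, ∃ q : Fin I.card → Polynomial ℂ,
        PowerSeries.derivative ℂ (ev (monomial ((e.symm i : I) : Fin 4 →₀ ℕ) 1)) =
          ∑ j, (q j : PowerSeries ℂ) * ev (monomial ((e.symm j : I) : Fin 4 →₀ ℕ) 1) := by
      intro i
      have hi := (e.symm i).2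
      obtain ⟨p, _, hp⟩ := claim1 _ _ (ldeg_hom_B hw (hmonh (e.symm i)))
        (ldeg_InA_B hA (hmonA _ hi))
      refine ⟨fun j => p (e.symm j), ?_⟩
      rw [hevd, hp, ← Finset.sum_coe_sort I
        (fun d => (p d : PowerSeries ℂ) * ev (monomial d 1)), ← e.symm.sum_comp]
    have hmul : ∀ i j : Fin I.card, ∃ q : Fin I.card → Polynomial ℂ,
        ev (monomial ((e.symm i : I) : Fin 4 →₀ ℕ) 1) *
          ev (monomial ((e.symm j : I) : Fin 4 →₀ ℕ) 1) =
          ∑ l, (q l : PowerSeries ℂ) * ev (monomial ((e.symm l : I) : Fin 4 →₀ ℕ) 1) := by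
      intro i j
      obtain ⟨p, _, hp⟩ := claim1 _ _ ((hmonh (e.symm i)).mul (hmonh (e.symm j)))
        (ldeg_InA_mul (hmonA _ (e.symm i).2) (hmonA _ (e.symm j).2))
      refine ⟨fun l => p (e.symm l), ?_⟩
      rw [← map_mul, hp, ← Finset.sum_coe_sort I
        (fun d => (p d : PowerSeries ℂ) * ev (monomial d 1)), ← e.symm.sum_comp]
    choose Mx hMx using hder
    choose Cx hCx using hmul
    intro d hd
    obtain ⟨p, hp⟩ := h1 I.card (fun i => ev (monomial ((e.symm i : I) : Fin 4 →₀ ℕ) 1)) Mx Cx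
      hMx hCx (e ⟨d, hd⟩)
    refine ⟨p, ?_⟩
    rw [← hp]
    simp
  choose! b hb using hpoly
  -- a common bound for the degrees
  obtain ⟨D1, hD1⟩ : ∃ D1, ∀ d ∈ I, (b d).natDegree ≤ D1 :=
    ⟨I.sup fun d => (b d).natDegree, fun d hd => Finset.le_sup (f := fun d => (b d).natDegree) hd⟩
  have claim2 : ∀ n, ∀ f : MvPolynomial (Fin 4) ℂ, f.IsHomogeneous n → InA m k f →
      ∃ p : Polynomial ℂ, ev f = (p : PowerSeries ℂ) ∧ 2 * p.natDegree ≤ n + 2 * D1 := by
    intro n f hf hfA
    obtain ⟨q, hq, he⟩ := claim1 n f hf hfA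
    refine ⟨∑ d ∈ I, q d * b d, ?_, ?_⟩
    · rw [he]
      have : ((∑ d ∈ I, q d * b d : Polynomial ℂ) : PowerSeries ℂ) =
          ∑ d ∈ I, (q d : PowerSeries ℂ) * (b d : PowerSeries ℂ) := by
        have h6 := map_sum (Polynomial.coeToPowerSeries.ringHom (R := ℂ)) (fun d => q d * b d) I
        simp only [Polynomial.coeToPowerSeries.ringHom_apply, Polynomial.coe_mul] at h6
        exact h6
      rw [this]
      exact Finset.sum_congr rfl fun d hd => by rw [hb d hd]
    · have h7 : (∑ d ∈ I, q d * b d).natDegree ≤ n / 2 + D1 := by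
        refine Polynomial.natDegree_sum_le_of_forall_le _ _ fun d hd => ?_
        refine Polynomial.natDegree_mul_le.trans ?_
        have h8 := hq d
        have h9 := hD1 d hd
        omega
      omega
  intro n f hf hfA
  obtain ⟨p, hp, _⟩ := claim2 n f hf hfA
  refine ⟨p, hp, ?_⟩
  by_contra hcon
  push Not at hcon
  obtain ⟨p', hp', hpd'⟩ := claim2 _ _ (hf.pow (2 * D1 + 1)) (ldeg_InA_pow hfA (2 * D1 + 1))
  have hpp : p' = p ^ (2 * D1 + 1) := by
    apply Polynomial.coe_injective ℂ
    rw [← hp', map_pow, hp, Polynomial.coe_pow]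
  rw [hpp, Polynomial.natDegree_pow] at hpd'
  have h10 : (2 * D1 + 1) * (n + 1) ≤ (2 * D1 + 1) * (2 * p.natDegree) :=
    Nat.mul_le_mul_left _ hcon
  have h11 : (2 * D1 + 1) * (2 * p.natDegree) = 2 * ((2 * D1 + 1) * p.natDegree) := by ring
  have h12 : n * (2 * D1 + 1) + (2 * D1 + 1) = (2 * D1 + 1) * (n + 1) := by ring
  omega

end

end Pool.PN4
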