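import Pool.Agent.PN4.Stmts
import Pool.Agent.PN4.Basic

set_option autoImplicit false

open MvPolynomial

namespace Pool.PN4

noncomputable section

/-- infinite radius of convergence -/
def lent_Ent (φ : PowerSeries ℂ) : Prop :=
  ∀ R : ℝ, 0 ≤ R → Summable fun n => ‖PowerSeries.coeff n φ‖ * R ^ n

/-- the sum of the series -/
def lent_ev (φ : PowerSeries ℂ) (t : ℂ) : ℂ := ∑' n, PowerSeries.coeff n φ * t ^ n

theorem lent_of_bound {φ : PowerSeries ℂ}
    (h : ∀ R : ℝ, 0 < R → ∃ K : ℝ, ∀ n, ‖PowerSeries.coeff n φ‖ * R ^ n ≤ K) : lent_Ent φ := by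
  intro R hR
  obtain ⟨K, hK⟩ := h (2 * R + 1) (by linarith)
  have hq : R / (2 * R + 1) ≤ 1 / 2 := by
    rw [div_le_div_iff₀ (by linarith) (by norm_num)]
    linarith
  have hq0 : 0 ≤ R / (2 * R + 1) := by positivity
  have hK0 : 0 ≤ K := le_trans (by positivity) (hK 0)
  refine Summable.of_nonneg_of_le (fun n => by positivity) (fun n => ?_)
    ((summable_geometric_of_lt_one hq0 (by linarith)).mul_left K)
  have h1 : R ^ n = (2 * R + 1) ^ n * (R / (2 * R + 1)) ^ n := by
    rw [← mul_pow, mul_div_cancel₀]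
    linarith
  rw [h1, ← mul_assoc]
  exact mul_le_mul_of_nonneg_right (hK n) (by positivity)

theorem lent_summ {φ : PowerSeries ℂ} (h : lent_Ent φ) (t : ℂ) :
    Summable fun n => ‖PowerSeries.coeff n φ * t ^ n‖ := by
  refine (h ‖t‖ (norm_nonneg t)).congr fun n => ?_
  rw [norm_mul, norm_pow]

theorem lent_poly (p : Polynomial ℂ) :
    lent_Ent (p : PowerSeries ℂ) ∧ ∀ t, lent_ev (p : PowerSeries ℂ) t = p.eval t := by
  constructor
  · intro R hR
    refine summable_of_ne_finset_zero (s := p.support) fun n hn => ?_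
    rw [Polynomial.coeff_coe, Polynomial.notMem_support_iff.1 hn, norm_zero, zero_mul]
  · intro t
    unfold lent_ev
    rw [Polynomial.eval_eq_sum, Polynomial.sum, tsum_eq_sum (s := p.support)]
    · exact Finset.sum_congr rfl fun n _ => by rw [Polynomial.coeff_coe]
    · intro n hn
      rw [Polynomial.coeff_coe, Polynomial.notMem_support_iff.1 hn, zero_mul]

theorem lent_mul {φ ψ : PowerSeries ℂ} (hφ : lent_Ent φ) (hψ : lent_Ent ψ) (t : ℂ) :
    Summable (fun n => PowerSeries.coeff n (φ * ψ) * t ^ n) ∧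
      lent_ev (φ * ψ) t = lent_ev φ t * lent_ev ψ t := by
  have h1 := lent_summ hφ t
  have h2 := lent_summ hψ t
  have e : (fun n => PowerSeries.coeff n (φ * ψ) * t ^ n) = fun n =>
      ∑ kl ∈ Finset.HasAntidiagonal.antidiagonal n, (PowerSeries.coeff kl.1 φ * t ^ kl.1) *
        (PowerSeries.coeff kl.2 ψ * t ^ kl.2) := by
    funext n
    rw [PowerSeries.coeff_mul, Finset.sum_mul]
    refine Finset.sum_congr rfl fun x hx => ?_
    rw [Finset.HasAntidiagonal.mem_antidiagonal] at hx
    rw [← hx, pow_add]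
    ring
  constructor
  · rw [e]
    exact (summable_norm_sum_mul_antidiagonal_of_summable_norm h1 h2).of_norm
  · unfold lent_ev
    rw [e]
    exact (tsum_mul_tsum_eq_tsum_sum_antidiagonal_of_summable_norm h1 h2).symm

/-- the shifted series -/
def lent_sh (φ : PowerSeries ℂ) (N : ℕ) : PowerSeries ℂ :=
  PowerSeries.mk fun n => PowerSeries.coeff (n + N) φ

theorem lent_sh_ent {φ : PowerSeries ℂ} (h : lent_Ent φ) (N : ℕ) : lent_Ent (lent_sh φ N) := by
  refine lent_of_bound fun R hR => ?_
  have h1 := h R hR.le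
  refine ⟨(∑' n, ‖PowerSeries.coeff n φ‖ * R ^ n) / R ^ N, fun n => ?_⟩
  rw [le_div_iff₀ (by positivity), lent_sh, PowerSeries.coeff_mk, mul_assoc, ← pow_add]
  exact h1.le_tsum (n + N) fun j _ => by positivity

theorem lent_diff {φ : PowerSeries ℂ} (h : lent_Ent φ) : Differentiable ℂ (lent_ev φ) := by
  intro t
  have h1 : DifferentiableOn ℂ (lent_ev φ) (Metric.ball 0 (‖t‖ + 1)) := by
    refine Complex.differentiableOn_tsum_of_summable_norm (h (‖t‖ + 1) (by positivity)) ?_
      Metric.isOpen_ball ?_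
    · intro n
      exact ((differentiable_id.pow n).const_mul _).differentiableOn
    · intro n w hw
      rw [mem_ball_zero_iff] at hw
      rw [norm_mul, norm_pow]
      exact mul_le_mul_of_nonneg_left (pow_le_pow_left₀ (norm_nonneg _) hw.le n) (norm_nonneg _)
  refine h1.differentiableAt (Metric.isOpen_ball.mem_nhds ?_)
  rw [mem_ball_zero_iff]
  linarith

theorem lent_split {φ : PowerSeries ℂ} (h : lent_Ent φ) (N : ℕ) (t : ℂ) :
    lent_ev φ t = ∑ n ∈ Finset.range N, PowerSeries.coeff n φ * t ^ n +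
      t ^ N * lent_ev (lent_sh φ N) t := by
  have h1 := (lent_summ h t).of_norm.sum_add_tsum_nat_add N
  unfold lent_ev
  rw [← h1, ← tsum_mul_left]
  congr 1
  refine tsum_congr fun n => ?_
  rw [lent_sh, PowerSeries.coeff_mk, pow_add]
  ring

theorem lent_zero (φ : PowerSeries ℂ) : lent_ev φ 0 = PowerSeries.coeff 0 φ := by
  unfold lent_ev
  rw [tsum_eq_single 0]
  · simp
  · intro n hn
    rw [zero_pow hn, mul_zero]

/-- an entire series of polynomial growth is a polynomial -/
theorem lent_liouville {φ : PowerSeries ℂ} (h : lent_Ent φ) {A : ℝ} {K : ℕ}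
    (hb : ∀ t : ℂ, 1 ≤ ‖t‖ → ‖lent_ev φ t‖ ≤ A * ‖t‖ ^ K) :
    ∃ p : Polynomial ℂ, φ = (p : PowerSeries ℂ) := by
  -- the shifted functions are constant
  have key : ∀ N, K ≤ N → ∀ t, lent_ev (lent_sh φ N) t = lent_ev (lent_sh φ N) 0 := by
    intro N hN t
    have hg := lent_diff (lent_sh_ent h N)
    have hA : 0 ≤ A := by
      have h1 := hb 1 (by simp)
      rw [norm_one, one_pow, mul_one] at h1
      exact (norm_nonneg _).trans h1
    refine hg.apply_eq_apply_of_bounded ?_ t 0
    obtain ⟨C, hC⟩ := (isCompact_closedBall (0 : ℂ) 1).exists_bound_of_continuousOn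
      hg.continuous.continuousOn
    rw [isBounded_iff_forall_norm_le]
    refine ⟨max C (A + ∑ n ∈ Finset.range N, ‖PowerSeries.coeff n φ‖), ?_⟩
    rintro _ ⟨w, rfl⟩
    by_cases hw : ‖w‖ ≤ 1
    · exact (hC w (mem_closedBall_zero_iff.2 hw)).trans (le_max_left _ _)
    · rw [not_le] at hw
      refine le_trans ?_ (le_max_right _ _)
      have hw0 : 0 < ‖w‖ ^ N := by positivity
      have h2 : w ^ N * lent_ev (lent_sh φ N) w =
          lent_ev φ w - ∑ n ∈ Finset.range N, PowerSeries.coeff n φ * w ^ n := by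
        rw [lent_split h N w]
        ring
      have h3 : ‖w‖ ^ N * ‖lent_ev (lent_sh φ N) w‖ ≤
          ‖w‖ ^ N * (A + ∑ n ∈ Finset.range N, ‖PowerSeries.coeff n φ‖) := by
        rw [← norm_pow, ← norm_mul, h2, norm_pow]
        refine (norm_sub_le _ _).trans ?_
        rw [mul_add]
        refine add_le_add ?_ ?_
        · refine (hb w hw.le).trans ?_
          rw [mul_comm]
          exact mul_le_mul_of_nonneg_right (pow_le_pow_right₀ hw.le hN) hA
        · refine (norm_sum_le _ _).trans ?_
          rw [Finset.mul_sum]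
          refine Finset.sum_le_sum fun n hn => ?_
          rw [norm_mul, norm_pow, mul_comm]
          exact mul_le_mul_of_nonneg_right
            (pow_le_pow_right₀ hw.le (Finset.mem_range.1 hn).le) (norm_nonneg _)
      exact le_of_mul_le_mul_left h3 hw0
  -- the coefficients vanish
  have hz : ∀ N, K ≤ N → PowerSeries.coeff (N + 1) φ = 0 := by
    intro N hN
    have hs := lent_sh_ent h N
    have h1 : ∀ t : ℂ, t ≠ 0 → lent_ev (lent_sh (lent_sh φ N) 1) t = 0 := by
      intro t ht
      have h2 := lent_split hs 1 t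
      rw [key N hN t, lent_zero, Finset.sum_range_one, pow_zero, mul_one, pow_one] at h2
      have h3 : t * lent_ev (lent_sh (lent_sh φ N) 1) t = 0 := by
        linear_combination -h2
      exact (mul_eq_zero.1 h3).resolve_left ht
    have h4 : lent_ev (lent_sh (lent_sh φ N) 1) 0 = 0 := by
      have hc : Continuous (lent_ev (lent_sh (lent_sh φ N) 1)) :=
        (lent_diff (lent_sh_ent hs 1)).continuous
      have h5 : Filter.Tendsto (lent_ev (lent_sh (lent_sh φ N) 1)) (nhdsWithin 0 {0}ᶜ)
          (nhds (lent_ev (lent_sh (lent_sh φ N) 1) 0)) :=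
        hc.continuousAt.mono_left nhdsWithin_le_nhds
      have h6 : Filter.Tendsto (lent_ev (lent_sh (lent_sh φ N) 1)) (nhdsWithin 0 {0}ᶜ)
          (nhds 0) := by
        refine tendsto_const_nhds.congr' ?_
        filter_upwards [self_mem_nhdsWithin] with t ht
        exact (h1 t ht).symm
      exact tendsto_nhds_unique h5 h6
    rw [lent_zero, lent_sh, PowerSeries.coeff_mk, lent_sh, PowerSeries.coeff_mk] at h4
    rw [← h4]
    congr 2
    omega
  refine ⟨PowerSeries.trunc (K + 1) φ, ?_⟩
  ext n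
  rw [Polynomial.coeff_coe, PowerSeries.coeff_trunc]
  split_ifs with hn
  · rfl
  · have := hz (n - 1) (by omega)
    rwa [Nat.sub_add_cancel (by omega)] at this

/-- solutions of polynomial linear systems are entire -/
theorem lent_ode {s : ℕ} {b : Fin s → PowerSeries ℂ} {Mx : Fin s → Fin s → Polynomial ℂ}
    (hM : ∀ i, PowerSeries.derivative ℂ (b i) = ∑ j, (Mx i j : PowerSeries ℂ) * b j) (i : Fin s) :
    lent_Ent (b i) := by
  refine lent_of_bound fun R hR => ?_
  set σ : Fin s → Fin s → ℝ := fun i j =>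
    ∑ x ∈ (Mx i j).support, ‖(Mx i j).coeff x‖ * R ^ (x + 1) with hσ
  have hσ0 : ∀ i j, 0 ≤ σ i j := fun i j => Finset.sum_nonneg fun x _ => by positivity
  set S : ℝ := ∑ i, ∑ j, σ i j with hS
  have hSi : ∀ i, ∑ j, σ i j ≤ S := fun i =>
    Finset.single_le_sum (f := fun i => ∑ j, σ i j)
      (fun i _ => Finset.sum_nonneg fun j _ => hσ0 i j) (Finset.mem_univ i)
  set N0 : ℕ := ⌈S⌉₊ with hN0
  set K : ℝ := ∑ n ∈ Finset.range (N0 + 1), ∑ i, ‖PowerSeries.coeff n (b i)‖ * R ^ n with hK
  have hK0 : 0 ≤ K := Finset.sum_nonneg fun n _ => Finset.sum_nonneg fun i _ => by positivity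
  have main : ∀ n, ∀ i, ‖PowerSeries.coeff n (b i)‖ * R ^ n ≤ K := by
    intro n
    induction n using Nat.strong_induction_on with
    | _ n ih =>
      intro i
      rcases Nat.lt_or_ge n (N0 + 1) with hn | hn
      · refine le_trans ?_ (Finset.single_le_sum (f := fun n => ∑ i,
          ‖PowerSeries.coeff n (b i)‖ * R ^ n) (fun n _ => Finset.sum_nonneg fun i _ => by
            positivity) (Finset.mem_range.2 hn))
        exact Finset.single_le_sum (f := fun i => ‖PowerSeries.coeff n (b i)‖ * R ^ n)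
          (fun i _ => by positivity) (Finset.mem_univ i)
      · obtain ⟨k, rfl⟩ : ∃ k, n = k + 1 := ⟨n - 1, by omega⟩
        have hk : S ≤ (k : ℝ) + 1 := by
          have h1 : S ≤ (N0 : ℝ) := Nat.le_ceil S
          have h2 : (N0 : ℝ) ≤ k := by exact_mod_cast (by omega : N0 ≤ k)
          linarith
        have h1 := congrArg (PowerSeries.coeff k) (hM i)
        rw [PowerSeries.coeff_derivative, map_sum] at h1
        have h2 : ‖PowerSeries.coeff (k + 1) (b i)‖ * R ^ (k + 1) * ((k : ℝ) + 1) ≤ K * S := by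
          have h3 : ‖PowerSeries.coeff (k + 1) (b i)‖ * ((k : ℝ) + 1) =
              ‖∑ j, PowerSeries.coeff k ((Mx i j : PowerSeries ℂ) * b j)‖ := by
            rw [← h1, norm_mul]
            congr 1
            rw [show ((k : ℂ) + 1) = ((k + 1 : ℕ) : ℂ) by push_cast; ring, Complex.norm_natCast]
            push_cast
            ring
          have h4 : ∀ j, ‖PowerSeries.coeff k ((Mx i j : PowerSeries ℂ) * b j)‖ * R ^ (k + 1) ≤
              K * σ i j := by
            intro j
            rw [PowerSeries.coeff_mul]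
            calc ‖∑ p ∈ Finset.HasAntidiagonal.antidiagonal k, PowerSeries.coeff p.1 (Mx i j : PowerSeries ℂ) *
                  PowerSeries.coeff p.2 (b j)‖ * R ^ (k + 1)
                ≤ (∑ p ∈ Finset.HasAntidiagonal.antidiagonal k, ‖PowerSeries.coeff p.1 (Mx i j : PowerSeries ℂ) *
                  PowerSeries.coeff p.2 (b j)‖) * R ^ (k + 1) :=
                  mul_le_mul_of_nonneg_right (norm_sum_le _ _) (by positivity)
              _ = ∑ p ∈ Finset.HasAntidiagonal.antidiagonal k, (‖(Mx i j).coeff p.1‖ * R ^ (p.1 + 1)) *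
                  (‖PowerSeries.coeff p.2 (b j)‖ * R ^ p.2) := by
                  rw [Finset.sum_mul]
                  refine Finset.sum_congr rfl fun p hp => ?_
                  rw [Finset.HasAntidiagonal.mem_antidiagonal] at hp
                  rw [norm_mul, Polynomial.coeff_coe, ← hp]
                  ring
              _ ≤ ∑ p ∈ Finset.HasAntidiagonal.antidiagonal k, (‖(Mx i j).coeff p.1‖ * R ^ (p.1 + 1)) * K := by
                  refine Finset.sum_le_sum fun p hp => ?_
                  rw [Finset.HasAntidiagonal.mem_antidiagonal] at hp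
                  exact mul_le_mul_of_nonneg_left (ih p.2 (by omega) j) (by positivity)
              _ = K * ∑ x ∈ Finset.range (k + 1), ‖(Mx i j).coeff x‖ * R ^ (x + 1) := by
                  rw [← Finset.sum_mul, mul_comm]
                  congr 1
                  exact Finset.Nat.sum_antidiagonal_eq_sum_range_succ
                    (fun x _ => ‖(Mx i j).coeff x‖ * R ^ (x + 1)) k
              _ ≤ K * σ i j := by
                  refine mul_le_mul_of_nonneg_left ?_ hK0
                  calc ∑ x ∈ Finset.range (k + 1), ‖(Mx i j).coeff x‖ * R ^ (x + 1)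
                      ≤ ∑ x ∈ Finset.range (k + 1) ∪ (Mx i j).support,
                        ‖(Mx i j).coeff x‖ * R ^ (x + 1) :=
                        Finset.sum_le_sum_of_subset_of_nonneg Finset.subset_union_left
                          fun x _ _ => by positivity
                    _ = σ i j := by
                        rw [hσ]
                        refine (Finset.sum_subset Finset.subset_union_right fun x _ hx => ?_).symm
                        rw [Polynomial.notMem_support_iff.1 hx, norm_zero, zero_mul]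
          calc ‖PowerSeries.coeff (k + 1) (b i)‖ * R ^ (k + 1) * ((k : ℝ) + 1)
              = (‖PowerSeries.coeff (k + 1) (b i)‖ * ((k : ℝ) + 1)) * R ^ (k + 1) := by ring
            _ = ‖∑ j, PowerSeries.coeff k ((Mx i j : PowerSeries ℂ) * b j)‖ * R ^ (k + 1) := by
                rw [h3]
            _ ≤ (∑ j, ‖PowerSeries.coeff k ((Mx i j : PowerSeries ℂ) * b j)‖) * R ^ (k + 1) :=
                mul_le_mul_of_nonneg_right (norm_sum_le _ _) (by positivity)
            _ = ∑ j, ‖PowerSeries.coeff k ((Mx i j : PowerSeries ℂ) * b j)‖ * R ^ (k + 1) :=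
                Finset.sum_mul _ _ _
            _ ≤ ∑ j, K * σ i j := Finset.sum_le_sum fun j _ => h4 j
            _ = K * ∑ j, σ i j := (Finset.mul_sum _ _ _).symm
            _ ≤ K * S := mul_le_mul_of_nonneg_left (hSi i) hK0
        have h5 : K * S ≤ K * ((k : ℝ) + 1) := mul_le_mul_of_nonneg_left hk hK0
        exact le_of_mul_le_mul_right (h2.trans h5) (by positivity)
  exact ⟨K, fun n => main n i⟩

theorem lent_eval_bound (p : Polynomial ℂ) {K : ℕ} (hK : p.natDegree ≤ K) (t : ℂ)
    (ht : 1 ≤ ‖t‖) : ‖p.eval t‖ ≤ (∑ n ∈ p.support, ‖p.coeff n‖) * ‖t‖ ^ K := by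
  rw [Polynomial.eval_eq_sum, Polynomial.sum, Finset.sum_mul]
  refine (norm_sum_le _ _).trans (Finset.sum_le_sum fun n hn => ?_)
  rw [norm_mul, norm_pow]
  exact mul_le_mul_of_nonneg_left
    (pow_le_pow_right₀ ht ((Polynomial.le_natDegree_of_mem_supp n hn).trans hK)) (norm_nonneg _)

/-- module G4 -/
theorem thm_LEnt : St_LEnt := by
  intro s b Mx Cx hM hC i
  have hE : ∀ i, lent_Ent (b i) := fun i => lent_ode hM i
  -- the product relation
  have hprod : ∀ i t, lent_ev (b i) t * lent_ev (b i) t =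
      ∑ k, (Cx i i k).eval t * lent_ev (b k) t := by
    intro i t
    rw [← (lent_mul (hE i) (hE i) t).2, hC i i]
    have h1 : ∀ k, Summable (fun n => PowerSeries.coeff n ((Cx i i k : PowerSeries ℂ) * b k) *
        t ^ n) := fun k => (lent_mul (lent_poly (Cx i i k)).1 (hE k) t).1
    have h2 : lent_ev (∑ k, (Cx i i k : PowerSeries ℂ) * b k) t =
        ∑ k, lent_ev ((Cx i i k : PowerSeries ℂ) * b k) t := by
      unfold lent_ev
      rw [← Summable.tsum_finsetSum (fun k _ => h1 k)]
      refine tsum_congr fun n => ?_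
      rw [map_sum, Finset.sum_mul]
    rw [h2]
    refine Finset.sum_congr rfl fun k _ => ?_
    rw [(lent_mul (lent_poly (Cx i i k)).1 (hE k) t).2, (lent_poly (Cx i i k)).2]
  -- the growth
  set K : ℕ := ∑ i, ∑ k, (Cx i i k).natDegree with hK
  have hKk : ∀ i k, (Cx i i k).natDegree ≤ K := fun i k =>
    (Finset.single_le_sum (f := fun k => (Cx i i k).natDegree) (fun _ _ => Nat.zero_le _)
      (Finset.mem_univ k)).trans (Finset.single_le_sum
      (f := fun i => ∑ k, (Cx i i k).natDegree) (fun _ _ => Nat.zero_le _) (Finset.mem_univ i))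
  set a : Fin s → Fin s → ℝ := fun i k => ∑ n ∈ (Cx i i k).support, ‖(Cx i i k).coeff n‖ with ha
  have ha0 : ∀ i k, 0 ≤ a i k := fun i k => Finset.sum_nonneg fun _ _ => norm_nonneg _
  set A : ℝ := ∑ i, ∑ k, a i k with hA
  have hAi : ∀ i, ∑ k, a i k ≤ A := fun i =>
    Finset.single_le_sum (f := fun i => ∑ k, a i k)
      (fun i _ => Finset.sum_nonneg fun k _ => ha0 i k) (Finset.mem_univ i)
  have hA0 : 0 ≤ A := Finset.sum_nonneg fun i _ => Finset.sum_nonneg fun k _ => ha0 i k
  refine lent_liouville (hE i) (A := A) (K := K) fun t ht => ?_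
  obtain ⟨m, _, hm⟩ := Finset.exists_max_image Finset.univ (fun j => ‖lent_ev (b j) t‖)
    ⟨i, Finset.mem_univ i⟩
  have hm' : ∀ j, ‖lent_ev (b j) t‖ ≤ ‖lent_ev (b m) t‖ := fun j => hm j (Finset.mem_univ j)
  refine (hm' i).trans ?_
  have ht0 : 0 < ‖t‖ ^ K := by positivity
  rcases eq_or_lt_of_le (norm_nonneg (lent_ev (b m) t)) with h0 | h0
  · rw [← h0]
    positivity
  · have h1 : ‖lent_ev (b m) t‖ * ‖lent_ev (b m) t‖ ≤ (A * ‖t‖ ^ K) * ‖lent_ev (b m) t‖ := by
      rw [← norm_mul, hprod m t]
      refine (norm_sum_le _ _).trans ?_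
      calc ∑ k, ‖(Cx m m k).eval t * lent_ev (b k) t‖
          ≤ ∑ k, (a m k * ‖t‖ ^ K) * ‖lent_ev (b m) t‖ := by
            refine Finset.sum_le_sum fun k _ => ?_
            rw [norm_mul]
            exact mul_le_mul (lent_eval_bound _ (hKk m k) t ht) (hm' k) (norm_nonneg _)
              (mul_nonneg (ha0 m k) ht0.le)
        _ = ((∑ k, a m k) * ‖t‖ ^ K) * ‖lent_ev (b m) t‖ := by
            rw [Finset.sum_mul, Finset.sum_mul]
        _ ≤ (A * ‖t‖ ^ K) * ‖lent_ev (b m) t‖ := by
            refine mul_le_mul_of_nonneg_right ?_ h0.le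
            exact mul_le_mul_of_nonneg_right (hAi m) ht0.le
    exact le_of_mul_le_mul_right h1 h0

end

end Pool.PN4
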