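import Pool.Agent.PN4.Stmts
import Pool.Agent.PN4.Basic

set_option autoImplicit false

open MvPolynomial

namespace Pool.PN4

noncomputable section

/-- the formal flow -/
def lflowEv (w : MvPolynomial (Fin 4) ℂ) (x : Fin 4 → ℂ) (f : MvPolynomial (Fin 4) ℂ) :
    PowerSeries ℂ :=
  PowerSeries.mk fun n => ((n.factorial : ℂ))⁻¹ * eval x ((fun g => B Hm w g)^[n] f)

lemma lflow_iter_add (w : MvPolynomial (Fin 4) ℂ) (n : ℕ) (f g : MvPolynomial (Fin 4) ℂ) :
    (fun g => B Hm w g)^[n] (f + g) =
      (fun g => B Hm w g)^[n] f + (fun g => B Hm w g)^[n] g := by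
  induction n generalizing f g with
  | zero => rfl
  | succ n ih =>
    rw [Function.iterate_succ_apply, Function.iterate_succ_apply, Function.iterate_succ_apply,
      B_add_right, ih]

lemma lflow_iter_zero (w : MvPolynomial (Fin 4) ℂ) (n : ℕ) :
    (fun g => B Hm w g)^[n] 0 = 0 := by
  induction n with
  | zero => rfl
  | succ n ih =>
    rw [Function.iterate_succ_apply]
    have h : B Hm w 0 = 0 := by
      have := B_C_right Hm w 0
      rwa [map_zero] at this
    rw [h, ih]

lemma lflow_add (w : MvPolynomial (Fin 4) ℂ) (x : Fin 4 → ℂ) (f g : MvPolynomial (Fin 4) ℂ) :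
    lflowEv w x (f + g) = lflowEv w x f + lflowEv w x g := by
  ext n
  rw [map_add]
  unfold lflowEv
  rw [PowerSeries.coeff_mk, PowerSeries.coeff_mk, PowerSeries.coeff_mk, lflow_iter_add, map_add,
    mul_add]

lemma lflow_C (w : MvPolynomial (Fin 4) ℂ) (x : Fin 4 → ℂ) (c : ℂ) :
    lflowEv w x (C c) = PowerSeries.C c := by
  ext n
  unfold lflowEv
  rw [PowerSeries.coeff_mk, PowerSeries.coeff_C]
  cases n with
  | zero => simp
  | succ n =>
    rw [Function.iterate_succ_apply, B_C_right, lflow_iter_zero, map_zero, mul_zero,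
      if_neg (Nat.succ_ne_zero n)]

lemma lflow_const (w : MvPolynomial (Fin 4) ℂ) (x : Fin 4 → ℂ) (f : MvPolynomial (Fin 4) ℂ) :
    PowerSeries.constantCoeff (lflowEv w x f) = eval x f := by
  rw [← PowerSeries.coeff_zero_eq_constantCoeff_apply]
  unfold lflowEv
  rw [PowerSeries.coeff_mk]
  simp

lemma lflow_deriv (w : MvPolynomial (Fin 4) ℂ) (x : Fin 4 → ℂ) (f : MvPolynomial (Fin 4) ℂ) :
    PowerSeries.derivative ℂ (lflowEv w x f) = lflowEv w x (B Hm w f) := by
  ext n
  rw [PowerSeries.coeff_derivative]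
  unfold lflowEv
  rw [PowerSeries.coeff_mk, PowerSeries.coeff_mk, Function.iterate_succ_apply,
    Nat.factorial_succ]
  have h1 : ((n : ℂ) + 1) ≠ 0 := Nat.cast_add_one_ne_zero n
  have h2 : (n.factorial : ℂ) ≠ 0 := Nat.cast_ne_zero.2 n.factorial_ne_zero
  push_cast
  field_simp

lemma lflow_mul (w : MvPolynomial (Fin 4) ℂ) (x : Fin 4 → ℂ) (f g : MvPolynomial (Fin 4) ℂ) :
    lflowEv w x (f * g) = lflowEv w x f * lflowEv w x g := by
  ext n
  induction n generalizing f g with
  | zero =>
    rw [PowerSeries.coeff_zero_eq_constantCoeff_apply,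
      PowerSeries.coeff_zero_eq_constantCoeff_apply, map_mul, lflow_const, lflow_const,
      lflow_const, map_mul]
  | succ n ih =>
    have h1 : ((n : ℂ) + 1) ≠ 0 := Nat.cast_add_one_ne_zero n
    have h2 : PowerSeries.coeff (n + 1) (lflowEv w x (f * g)) * ((n : ℂ) + 1) =
        PowerSeries.coeff (n + 1) (lflowEv w x f * lflowEv w x g) * ((n : ℂ) + 1) := by
      rw [← PowerSeries.coeff_derivative, ← PowerSeries.coeff_derivative, lflow_deriv,
        B_mul_right, lflow_add, map_add, ih, ih, Derivation.leibniz, lflow_deriv, lflow_deriv,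
        map_add, smul_eq_mul, smul_eq_mul, add_comm, mul_comm (lflowEv w x g)]
    exact mul_right_cancel₀ h1 h2

/-- module G3 -/
theorem thm_LFlow : St_LFlow := by
  intro w x
  refine ⟨{ toFun := lflowEv w x
            map_one' := ?_
            map_mul' := lflow_mul w x
            map_zero' := ?_
            map_add' := lflow_add w x
            commutes' := fun c => lflow_C w x c }, fun f => lflow_const w x f,
    fun f => lflow_deriv w x f⟩
  · have h := lflow_C w x 1
    rwa [map_one, map_one] at h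
  · have h := lflow_C w x 0
    rwa [map_zero, map_zero] at h

end

end Pool.PN4
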