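import Pool.Agent.PN4.Stmts
import Pool.Agent.PN4.Basic

set_option autoImplicit false

open MvPolynomial

namespace Pool.PN4

noncomputable section

/-- the torus weight of an exponent -/
def LGen_lam (m k : ℕ) (d : Fin 4 →₀ ℕ) : ℤ :=
  ((m : ℤ) - k) * ((d 0 : ℤ) - d 1) + k * ((d 3 : ℤ) - d 2)

/-- the torus weights of the variables -/
def LGen_w (m k : ℕ) : Fin 4 → ℤ := ![(m : ℤ) - k, -((m : ℤ) - k), -(k : ℤ), (k : ℤ)]

lemma LGen_weight (m k : ℕ) (d : Fin 4 →₀ ℕ) :
    Finsupp.weight (LGen_w m k) d = LGen_lam m k d := by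
  rw [Finsupp.weight_apply, Finsupp.sum_fintype _ _ (by simp), Fin.sum_univ_four]
  simp [LGen_w, LGen_lam]
  ring

lemma LGen_lam_add (m k : ℕ) (x y : Fin 4 →₀ ℕ) :
    LGen_lam m k (x + y) = LGen_lam m k x + LGen_lam m k y := by
  simp only [LGen_lam, Finsupp.add_apply]
  push_cast
  ring

lemma LGen_lam_iff {m k : ℕ} (hk : k ≤ m) (d : Fin 4 →₀ ℕ) :
    LGen_lam m k d = 0 ↔ (m - k) * d 1 + k * d 2 = (m - k) * d 0 + k * d 3 := by
  rw [← @Nat.cast_inj ℤ]
  push_cast [Nat.cast_sub hk]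
  unfold LGen_lam
  constructor
  · intro h; linarith
  · intro h; linarith

lemma LGen_InA {m k : ℕ} (hk : k ≤ m) (f : MvPolynomial (Fin 4) ℂ) :
    InA m k f ↔ ∀ d ∈ f.support, LGen_lam m k d = 0 := by
  unfold InA
  exact forall₂_congr fun d _ => (LGen_lam_iff hk d).symm

/-- projection on the part of degree `j` and weight zero -/
def LGen_pr (m k j : ℕ) (p : MvPolynomial (Fin 4) ℂ) : MvPolynomial (Fin 4) ℂ :=
  ∑ d ∈ p.support.filter (fun d => d 0 + d 1 + d 2 + d 3 = j ∧ LGen_lam m k d = 0),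
    monomial d (coeff d p)

lemma LGen_coeff (m k j : ℕ) (p : MvPolynomial (Fin 4) ℂ) (d : Fin 4 →₀ ℕ) :
    coeff d (LGen_pr m k j p) =
      if d 0 + d 1 + d 2 + d 3 = j ∧ LGen_lam m k d = 0 then coeff d p else 0 := by
  classical
  unfold LGen_pr
  rw [coeff_sum]
  simp only [coeff_monomial]
  rw [Finset.sum_ite_eq']
  by_cases h : d 0 + d 1 + d 2 + d 3 = j ∧ LGen_lam m k d = 0
  · by_cases h2 : d ∈ p.support
    · rw [if_pos (Finset.mem_filter.mpr ⟨h2, h⟩), if_pos h]
    · rw [if_neg (fun h' => h2 (Finset.mem_filter.mp h').1), if_pos h, notMem_support_iff.mp h2]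
  · have hn : d ∉ p.support.filter
        (fun d => d 0 + d 1 + d 2 + d 3 = j ∧ LGen_lam m k d = 0) :=
      fun h' => h (Finset.mem_filter.mp h').2
    rw [if_neg hn, if_neg h]

lemma LGen_pr_mem {m k j : ℕ} {p : MvPolynomial (Fin 4) ℂ} {d : Fin 4 →₀ ℕ}
    (hd : d ∈ (LGen_pr m k j p).support) : d 0 + d 1 + d 2 + d 3 = j ∧ LGen_lam m k d = 0 := by
  rw [mem_support_iff, LGen_coeff] at hd
  by_contra h
  exact hd (if_neg h)

lemma LGen_pr_hom (m k j : ℕ) (p : MvPolynomial (Fin 4) ℂ) :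
    (LGen_pr m k j p).IsHomogeneous j := by
  intro d hd
  have h := (LGen_pr_mem (mem_support_iff.mpr hd)).1
  rw [Finsupp.weight_apply, Finsupp.sum_fintype _ _ (by simp), Fin.sum_univ_four]
  simpa using h

lemma LGen_pr_self {m k j : ℕ} {p : MvPolynomial (Fin 4) ℂ} (hp : p.IsHomogeneous j)
    (hA : ∀ d ∈ p.support, LGen_lam m k d = 0) : LGen_pr m k j p = p := by
  ext d
  rw [LGen_coeff]
  by_cases hd : d ∈ p.support
  · rw [if_pos ⟨hom_four hp hd, hA d hd⟩]
  · rw [notMem_support_iff.mp hd]; simp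

lemma LGen_pr_add (m k j : ℕ) (p p' : MvPolynomial (Fin 4) ℂ) :
    LGen_pr m k j (p + p') = LGen_pr m k j p + LGen_pr m k j p' := by
  ext d
  rw [coeff_add, LGen_coeff, LGen_coeff, LGen_coeff, coeff_add]
  split_ifs <;> simp

lemma LGen_pr_mul {m k l : ℕ} {w : MvPolynomial (Fin 4) ℂ} (hw : w.IsHomogeneous l)
    (hA : ∀ d ∈ w.support, LGen_lam m k d = 0) (j : ℕ) (a : MvPolynomial (Fin 4) ℂ) :
    LGen_pr m k (l + j) (w * a) = w * LGen_pr m k j a := by
  classical
  ext d
  rw [LGen_coeff, coeff_mul, coeff_mul]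
  by_cases h : d 0 + d 1 + d 2 + d 3 = l + j ∧ LGen_lam m k d = 0
  · rw [if_pos h]
    refine Finset.sum_congr rfl fun x hx => ?_
    rw [Finset.HasAntidiagonal.mem_antidiagonal] at hx
    by_cases hx1 : x.1 ∈ w.support
    · have h1 := hom_four hw hx1
      have h2 := hA _ hx1
      have h3 : x.2 0 + x.2 1 + x.2 2 + x.2 3 = j := by
        have h4 := h.1
        rw [← hx] at h4
        simp only [Finsupp.add_apply] at h4
        omega
      have h5 : LGen_lam m k x.2 = 0 := by
        have h6 := h.2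
        rw [← hx, LGen_lam_add, h2, zero_add] at h6
        exact h6
      rw [LGen_coeff, if_pos ⟨h3, h5⟩]
    · rw [notMem_support_iff.mp hx1, zero_mul, zero_mul]
  · rw [if_neg h]
    symm
    refine Finset.sum_eq_zero fun x hx => ?_
    rw [Finset.HasAntidiagonal.mem_antidiagonal] at hx
    by_cases hx1 : x.1 ∈ w.support
    · rw [LGen_coeff, if_neg, mul_zero]
      rintro ⟨h3, h5⟩
      apply h
      have h1 := hom_four hw hx1
      have h2 := hA _ hx1
      refine ⟨?_, ?_⟩
      · rw [← hx]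
        simp only [Finsupp.add_apply]
        omega
      · rw [← hx, LGen_lam_add, h2, h5, add_zero]
    · rw [notMem_support_iff.mp hx1, zero_mul]

lemma LGen_q4_hom : q4.IsHomogeneous 2 := by
  unfold q4
  have h : (X 0 * X 1 + X 2 * X 3 : MvPolynomial (Fin 4) ℂ).IsHomogeneous 2 :=
    ((isHomogeneous_X ℂ 0).mul (isHomogeneous_X ℂ 1)).add
      ((isHomogeneous_X ℂ 2).mul (isHomogeneous_X ℂ 3))
  simpa using (isHomogeneous_C (Fin 4) (2 : ℂ)).mul h

lemma LGen_q4_lam (m k : ℕ) : ∀ d ∈ q4.support, LGen_lam m k d = 0 := by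
  intro d hd
  have hX := fun i => isWeightedHomogeneous_X ℂ (LGen_w m k) i
  have h1 : (X 0 * X 1 : MvPolynomial (Fin 4) ℂ).IsWeightedHomogeneous (LGen_w m k) 0 := by
    have := (hX 0).mul (hX 1)
    simpa [LGen_w] using this
  have h2 : (X 2 * X 3 : MvPolynomial (Fin 4) ℂ).IsWeightedHomogeneous (LGen_w m k) 0 := by
    have := (hX 2).mul (hX 3)
    simpa [LGen_w] using this
  have h3 : (C 2 : MvPolynomial (Fin 4) ℂ).IsWeightedHomogeneous (LGen_w m k) 0 :=
    isWeightedHomogeneous_C _ _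
  have h4 : q4.IsWeightedHomogeneous (LGen_w m k) 0 := by
    have := h3.mul (h1.add h2)
    simpa [q4] using this
  rw [← LGen_weight]
  exact h4 (mem_support_iff.mp hd)

lemma LGen_N_hom {m : ℕ} {w : MvPolynomial (Fin 4) ℂ} (hw : w.IsHomogeneous m) :
    (B Hm w w).IsHomogeneous ((m - 1) + (m - 1)) := by
  rw [B_Hm]
  have h := fun i => IsHomogeneous.pderiv (i := i) hw
  exact ((((h 0).mul (h 1)).add ((h 1).mul (h 0))).add ((h 2).mul (h 3))).add ((h 3).mul (h 2))

lemma LGen_N_lam {m k : ℕ} {w : MvPolynomial (Fin 4) ℂ}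
    (hw : ∀ d ∈ w.support, LGen_lam m k d = 0) :
    ∀ d ∈ (B Hm w w).support, LGen_lam m k d = 0 := by
  have h0 : w.IsWeightedHomogeneous (LGen_w m k) 0 := by
    intro d hd
    rw [LGen_weight]
    exact hw d (mem_support_iff.mpr hd)
  have h := fun i => IsWeightedHomogeneous.pderiv (n' := -(LGen_w m k i)) (i := i) h0 (by ring)
  have e : (B Hm w w).IsWeightedHomogeneous (LGen_w m k) 0 := by
    rw [B_Hm]
    refine IsWeightedHomogeneous.add (IsWeightedHomogeneous.add (IsWeightedHomogeneous.add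
      ?_ ?_) ?_) ?_
    · have := (h 0).mul (h 1)
      simpa [LGen_w] using this
    · have := (h 1).mul (h 0)
      simpa [LGen_w] using this
    · have := (h 2).mul (h 3)
      simpa [LGen_w] using this
    · have := (h 3).mul (h 2)
      simpa [LGen_w] using this
  intro d hd
  rw [← LGen_weight]
  exact e (mem_support_iff.mp hd)

/-- the combinatorial step -/
lemma LGen_comb {m k s : ℕ} (hk : 1 ≤ k) (hm : 2 * k < m) {d : Fin 4 →₀ ℕ}
    (hd : 4 * s + s * m < d 0 + d 1 + d 2 + d 3)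
    (hZ : (m - k) * d 1 + k * d 2 = (m - k) * d 0 + k * d 3) :
    (s ≤ d 0 ∧ s ≤ d 1) ∨ (s ≤ d 2 ∧ s ≤ d 3) ∨ (k * s ≤ d 1 ∧ (m - k) * s ≤ d 3) ∨
      (k * s ≤ d 0 ∧ (m - k) * s ≤ d 2) := by
  by_contra hcon
  push Not at hcon
  obtain ⟨h1, h2, h3, h4⟩ := hcon
  obtain ⟨r, hr⟩ : ∃ r, m = k + r := ⟨m - k, by omega⟩
  subst hr
  have hrk : k + r - k = r := by omega
  rw [hrk] at hZ h3 h4
  have hk0 : 0 < k := hk
  have hr0 : 0 < r := by omega
  generalize d 0 = a at *
  generalize d 1 = b at *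
  generalize d 2 = c at *
  generalize d 3 = e at *
  rcases le_or_gt a b with hab | hab
  · -- b = a + u
    obtain ⟨u, rfl⟩ : ∃ u, b = a + u := ⟨b - a, by omega⟩
    have hce : c ≤ e := by
      by_contra hcon
      have : k * e < k * c := Nat.mul_lt_mul_of_pos_left (by omega) hk0
      nlinarith
    obtain ⟨v, rfl⟩ : ∃ v, e = c + v := ⟨e - c, by omega⟩
    have huv : r * u = k * v := by nlinarith
    have ha : a < s := by
      by_contra hcon
      exact absurd (h1 (by omega)) (by omega)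
    have hc : c < s := by
      by_contra hcon
      exact absurd (h2 (by omega)) (by omega)
    have hu : k * s ≤ u := by
      by_contra hcon
      push Not at hcon
      have e1 : r * u < r * (k * s) := Nat.mul_lt_mul_of_pos_left hcon hr0
      have e2 : k * v < k * (r * s) := by
        calc k * v = r * u := huv.symm
          _ < r * (k * s) := e1
          _ = k * (r * s) := by ring
      have e3 : v < r * s := Nat.lt_of_mul_lt_mul_left e2
      have e4 : s * (k + r) = k * s + r * s := by ring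
      omega
    have hv : r * s ≤ v := by
      have e1 : r * (k * s) ≤ r * u := Nat.mul_le_mul_left r hu
      have e2 : k * (r * s) ≤ k * v := by
        calc k * (r * s) = r * (k * s) := by ring
          _ ≤ r * u := e1
          _ = k * v := huv
      exact Nat.le_of_mul_le_mul_left e2 hk0
    exact absurd (h3 (by omega)) (by omega)
  · obtain ⟨u, rfl⟩ : ∃ u, a = b + u := ⟨a - b, by omega⟩
    have hce : e ≤ c := by
      by_contra hcon
      have : k * c < k * e := Nat.mul_lt_mul_of_pos_left (by omega) hk0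
      nlinarith
    obtain ⟨v, rfl⟩ : ∃ v, c = e + v := ⟨c - e, by omega⟩
    have huv : r * u = k * v := by nlinarith
    have ha : b < s := by
      by_contra hcon
      exact absurd (h1 (by omega)) (by omega)
    have hc : e < s := by
      by_contra hcon
      exact absurd (h2 (by omega)) (by omega)
    have hu : k * s ≤ u := by
      by_contra hcon
      push Not at hcon
      have e1 : r * u < r * (k * s) := Nat.mul_lt_mul_of_pos_left hcon hr0
      have e2 : k * v < k * (r * s) := by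
        calc k * v = r * u := huv.symm
          _ < r * (k * s) := e1
          _ = k * (r * s) := by ring
      have e3 : v < r * s := Nat.lt_of_mul_lt_mul_left e2
      have e4 : s * (k + r) = k * s + r * s := by ring
      omega
    have hv : r * s ≤ v := by
      have e1 : r * (k * s) ≤ r * u := Nat.mul_le_mul_left r hu
      have e2 : k * (r * s) ≤ k * v := by
        calc k * (r * s) = r * (k * s) := by ring
          _ ≤ r * u := e1
          _ = k * v := huv
      exact Nat.le_of_mul_le_mul_left e2 hk0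
    exact absurd (h4 (by omega)) (by omega)

/-- a monomial divisible by the monomial `g` lies in every ideal containing `g` -/
lemma LGen_div {I : Ideal (MvPolynomial (Fin 4) ℂ)} {e0 e1 e2 e3 : ℕ}
    (hg : (X 0 ^ e0 * X 1 ^ e1 * X 2 ^ e2 * X 3 ^ e3 : MvPolynomial (Fin 4) ℂ) ∈ I)
    {d : Fin 4 →₀ ℕ} (h0 : e0 ≤ d 0) (h1 : e1 ≤ d 1) (h2 : e2 ≤ d 2) (h3 : e3 ≤ d 3) (c : ℂ) :
    monomial d c ∈ I := by
  have hd : monomial d c = (X 0 ^ e0 * X 1 ^ e1 * X 2 ^ e2 * X 3 ^ e3) *
      (C c * (X 0 ^ (d 0 - e0) * X 1 ^ (d 1 - e1) * X 2 ^ (d 2 - e2) * X 3 ^ (d 3 - e3))) := by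
    rw [monomial_eq, Finsupp.prod_fintype _ _ (by simp), Fin.prod_univ_four]
    have e : ∀ (i : Fin 4) (a b : ℕ), a ≤ b →
        (X i ^ b : MvPolynomial (Fin 4) ℂ) = X i ^ a * X i ^ (b - a) := by
      intro i a b hab
      rw [← pow_add, Nat.add_sub_cancel' hab]
    rw [e 0 e0 (d 0) h0, e 1 e1 (d 1) h1, e 2 e2 (d 2) h2, e 3 e3 (d 3) h3]
    ring
  rw [hd]
  exact Ideal.mul_mem_right _ _ hg

/-- module G2 -/
theorem thm_LGen : St_LGen := by
  intro m k s w hk hm hw hA hI
  have hkm : k ≤ m := by omega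
  have hA' := (LGen_InA hkm w).mp hA
  refine ⟨4 * s + s * m + 1 + 2 * m, by omega, fun n hn f hf hfA => ?_⟩
  have hfA' := (LGen_InA hkm f).mp hfA
  have g1 := hI (X 0 * X 1) (by simp)
  have g2 := hI (X 2 * X 3) (by simp)
  have g3 := hI (X 1 ^ k * X 3 ^ (m - k)) (by simp)
  have g4 := hI (X 0 ^ k * X 2 ^ (m - k)) (by simp)
  have hmem : f ∈ Ideal.span {w, q4, B Hm w w} := by
    rw [f.as_sum]
    refine Ideal.sum_mem _ fun d hd => ?_
    have h1 := hom_four hf hd
    have h2 := hfA d hd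
    rcases LGen_comb (s := s) hk hm (d := d) (by omega) h2 with h | h | h | h
    · refine LGen_div (e0 := s) (e1 := s) (e2 := 0) (e3 := 0) ?_ h.1 h.2 (Nat.zero_le _)
        (Nat.zero_le _) _
      rw [pow_zero, mul_one, pow_zero, mul_one, ← mul_pow]
      exact g1
    · refine LGen_div (e0 := 0) (e1 := 0) (e2 := s) (e3 := s) ?_ (Nat.zero_le _)
        (Nat.zero_le _) h.1 h.2 _
      rw [pow_zero, one_mul, pow_zero, one_mul, ← mul_pow]
      exact g2
    · refine LGen_div (e0 := 0) (e1 := k * s) (e2 := 0) (e3 := (m - k) * s) ?_ (Nat.zero_le _)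
        h.1 (Nat.zero_le _) h.2 _
      rw [pow_zero, one_mul, pow_zero, mul_one, pow_mul, pow_mul, ← mul_pow]
      exact g3
    · refine LGen_div (e0 := k * s) (e1 := 0) (e2 := (m - k) * s) (e3 := 0) ?_ h.1
        (Nat.zero_le _) h.2 (Nat.zero_le _) _
      rw [pow_zero, mul_one, pow_zero, mul_one, pow_mul, pow_mul, ← mul_pow]
      exact g4
  rw [Submodule.mem_span_triple] at hmem
  obtain ⟨a, b, c, habc⟩ := hmem
  simp only [smul_eq_mul] at habc
  refine ⟨LGen_pr m k (n - m) a, LGen_pr m k (n - 2) b,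
    LGen_pr m k (n - ((m - 1) + (m - 1))) c, ?_, ?_, LGen_pr_hom _ _ _ _,
    LGen_pr_hom _ _ _ _, ?_⟩
  · exact (LGen_InA hkm _).mpr fun d hd => (LGen_pr_mem hd).2
  · exact (LGen_InA hkm _).mpr fun d hd => (LGen_pr_mem hd).2
  · rw [← LGen_pr_mul hw hA', ← LGen_pr_mul LGen_q4_hom (LGen_q4_lam m k),
      ← LGen_pr_mul (LGen_N_hom hw) (LGen_N_lam hA'),
      Nat.add_sub_cancel' (show m ≤ n by omega), Nat.add_sub_cancel' (show 2 ≤ n by omega),
      Nat.add_sub_cancel' (show (m - 1) + (m - 1) ≤ n by omega), ← LGen_pr_add, ← LGen_pr_add,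
      mul_comm w, mul_comm q4, mul_comm (B Hm w w), habc, LGen_pr_self hf hfA']

end

end Pool.PN4
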