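import Pool.Agent.PN4.Stmts
import Pool.Agent.PN4.Basic

set_option autoImplicit false

open MvPolynomial

namespace Pool.PN4

noncomputable section

lemma LNull_coeff_X (i : Fin 4) (w : MvPolynomial (Fin 4) ℂ) (e : Fin 4 →₀ ℕ) :
    coeff e (X i * pderiv i w) = (e i : ℂ) * coeff e w := by
  classical
  induction w using MvPolynomial.induction_on' with
  | monomial d c =>
    rw [X_mul_pderiv_monomial, coeff_smul, coeff_monomial]
    by_cases h : d = e
    · subst h; simp
    · simp [h]
  | add p q hp hq =>
    rw [map_add, mul_add, coeff_add, hp, hq, coeff_add, mul_add]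

lemma LNull_dlam (A0 B0 : ℂ) (w : MvPolynomial (Fin 4) ℂ)
    (h : ∀ d ∈ w.support, A0 * ((d 0 : ℂ) - d 1) + B0 * ((d 2 : ℂ) - d 3) = 0) :
    Dlam A0 B0 w = C 0 * w := by
  ext e
  have : coeff e (Dlam A0 B0 w) =
      (A0 * ((e 0 : ℂ) - e 1) + B0 * ((e 2 : ℂ) - e 3)) * coeff e w := by
    unfold Dlam
    rw [coeff_add, coeff_C_mul, coeff_C_mul, coeff_sub, coeff_sub, LNull_coeff_X, LNull_coeff_X,
      LNull_coeff_X, LNull_coeff_X]
    ring
  rw [this, C_0, zero_mul, coeff_zero]
  by_cases he : e ∈ w.support
  · rw [h e he, zero_mul]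
  · rw [notMem_support_iff.mp he, mul_zero]

lemma LNull_eval (w : MvPolynomial (Fin 4) ℂ) (x : Fin 4 → ℂ) :
    eval x w = ∑ d ∈ w.support, coeff d w * (x 0 ^ d 0 * x 1 ^ d 1 * x 2 ^ d 2 * x 3 ^ d 3) := by
  rw [eval_eq']
  refine Finset.sum_congr rfl (fun d _ => ?_)
  rw [Fin.prod_univ_four]

/-- module G1 -/
theorem thm_LNull (h1 : St_Open) : St_LNull := by
  intro P hP hP0 m k w hk hkm hm hs hw hc1 hc2
  classical
  have hw0 : w ≠ 0 := by
    intro h
    rw [h] at hc1
    exact hc1 (coeff_zero _)
  have hex : ∀ d ∈ w.support, (m - k) * d 1 + k * d 2 = (m - k) * d 0 + k * d 3 := by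
    intro d hd
    have e1 := hw d hd
    have e2 := hom_four hm hd
    zify [(by omega : k ≤ m), (by omega : 2 * k ≤ m)] at e1 e2 ⊢
    linear_combination e1 - ((m : ℤ) - k) * e2
  have hD : Dlam (-((m : ℂ) - k)) (k : ℂ) w = C 0 * w := by
    apply LNull_dlam
    intro d hd
    have e := hex d hd
    have e' : (((m - k) * d 1 + k * d 2 : ℕ) : ℂ) = (((m - k) * d 0 + k * d 3 : ℕ) : ℂ) := by
      rw [e]
    push_cast [Nat.cast_sub (by omega : k ≤ m)] at e'
    linear_combination e'
  have hAB : (-((m : ℂ) - k)) ^ 2 ≠ (k : ℂ) ^ 2 := by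
    intro h
    have h2 : (m : ℂ) * ((m : ℂ) - 2 * k) = 0 := by linear_combination h
    rcases mul_eq_zero.mp h2 with h3 | h3
    · have : m = 0 := by exact_mod_cast h3
      omega
    · have : (m : ℂ) = ((2 * k : ℕ) : ℂ) := by push_cast; linear_combination h3
      have : m = 2 * k := by exact_mod_cast this
      omega
  -- the invariants vanish at the common zeros
  have key : ∀ x : Fin 4 → ℂ, eval x w = 0 → eval x q4 = 0 → eval x (B Hm w w) = 0 →
      x 0 * x 1 = 0 ∧ x 2 * x 3 = 0 ∧ x 1 ^ k * x 3 ^ (m - k) = 0 ∧
        x 0 ^ k * x 2 ^ (m - k) = 0 := by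
    intro x h2 h3 h4
    have hq : x 0 * x 1 + x 2 * x 3 = 0 := by
      unfold q4 at h3
      simp only [map_mul, map_add, eval_X, eval_C] at h3
      rcases mul_eq_zero.mp h3 with h | h
      · norm_num at h
      · exact h
    have h01 : x 0 * x 1 = 0 := by
      by_contra hne
      have h23 : x 2 * x 3 ≠ 0 := by
        intro h
        apply hne
        linear_combination hq - h
      have hx0 : x 0 ≠ 0 := left_ne_zero_of_mul hne
      have hx1 : x 1 ≠ 0 := right_ne_zero_of_mul hne
      have hx2 : x 2 ≠ 0 := left_ne_zero_of_mul h23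
      have hx3 : x 3 ≠ 0 := right_ne_zero_of_mul h23
      refine h1 P hP hP0 m w hw0 hm hs _ _ 0 hD hAB x ?_ ?_ h2 h4
      · intro i
        fin_cases i
        · exact hx0
        · exact hx1
        · exact hx2
        · exact hx3
      · unfold bil
        linear_combination 2 * hq
    have h23 : x 2 * x 3 = 0 := by linear_combination hq - h01
    refine ⟨h01, h23, ?_, ?_⟩
    · by_contra hne
      have hx1 : x 1 ≠ 0 := by
        intro h
        rw [h, zero_pow (by omega), zero_mul] at hne
        exact hne rfl
      have hx3 : x 3 ≠ 0 := by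
        intro h
        rw [h, zero_pow (by omega), mul_zero] at hne
        exact hne rfl
      have hx0 : x 0 = 0 := (mul_eq_zero.mp h01).resolve_right hx1
      have hx2 : x 2 = 0 := (mul_eq_zero.mp h23).resolve_right hx3
      have he : eval x w = coeff (mk 0 k 0 (m - k)) w * (x 1 ^ k * x 3 ^ (m - k)) := by
        rw [LNull_eval, Finset.sum_eq_single (mk 0 k 0 (m - k))]
        · simp
        · intro d hd hdne
          by_cases hd0 : d 0 = 0
          · by_cases hd2 : d 2 = 0
            · exfalso
              apply hdne
              have e1 := hex d hd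
              have e2 := hom_four hm hd
              rw [hd0, hd2] at e1 e2
              have e3 : (m - k) * d 1 = k * d 3 := by simpa using e1
              have e4 : d 1 = k := by
                have : m * d 1 = m * k := by
                  have h5 : m = (m - k) + k := by omega
                  calc m * d 1 = (m - k) * d 1 + k * d 1 := by
                        nth_rewrite 1 [h5]; ring
                    _ = k * (d 1 + d 3) := by rw [e3]; ring
                    _ = m * k := by rw [show d 1 + d 3 = m by omega]; ring
                exact Nat.eq_of_mul_eq_mul_left (by omega) this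
              apply ext4
              · simpa using hd0
              · simpa using e4
              · simpa using hd2
              · simp; omega
            · rw [hx2, zero_pow hd2]; ring
          · rw [hx0, zero_pow hd0]; ring
        · intro hd
          rw [notMem_support_iff.mp hd]; ring
      rw [h2] at he
      exact (mul_ne_zero hc1 hne) he.symm
    · by_contra hne
      have hx0 : x 0 ≠ 0 := by
        intro h
        rw [h, zero_pow (by omega), zero_mul] at hne
        exact hne rfl
      have hx2 : x 2 ≠ 0 := by
        intro h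
        rw [h, zero_pow (by omega), mul_zero] at hne
        exact hne rfl
      have hx1 : x 1 = 0 := (mul_eq_zero.mp h01).resolve_left hx0
      have hx3 : x 3 = 0 := (mul_eq_zero.mp h23).resolve_left hx2
      have he : eval x w = coeff (mk k 0 (m - k) 0) w * (x 0 ^ k * x 2 ^ (m - k)) := by
        rw [LNull_eval, Finset.sum_eq_single (mk k 0 (m - k) 0)]
        · simp
        · intro d hd hdne
          by_cases hd1 : d 1 = 0
          · by_cases hd3 : d 3 = 0
            · exfalso
              apply hdne
              have e1 := hex d hd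
              have e2 := hom_four hm hd
              rw [hd1, hd3] at e1 e2
              have e3 : k * d 2 = (m - k) * d 0 := by simpa using e1
              have e4 : d 0 = k := by
                have : m * d 0 = m * k := by
                  have h5 : m = (m - k) + k := by omega
                  calc m * d 0 = (m - k) * d 0 + k * d 0 := by
                        nth_rewrite 1 [h5]; ring
                    _ = k * (d 0 + d 2) := by rw [← e3]; ring
                    _ = m * k := by rw [show d 0 + d 2 = m by omega]; ring
                exact Nat.eq_of_mul_eq_mul_left (by omega) this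
              apply ext4
              · simpa using e4
              · simpa using hd1
              · simp; omega
              · simpa using hd3
            · rw [hx3, zero_pow hd3]; ring
          · rw [hx1, zero_pow hd1]; ring
        · intro hd
          rw [notMem_support_iff.mp hd]; ring
      rw [h2] at he
      exact (mul_ne_zero hc2 hne) he.symm
  set I : Ideal (MvPolynomial (Fin 4) ℂ) := Ideal.span {w, q4, B Hm w w} with hI
  have hmem : ∀ g : MvPolynomial (Fin 4) ℂ,
      (∀ x : Fin 4 → ℂ, eval x w = 0 → eval x q4 = 0 → eval x (B Hm w w) = 0 → eval x g = 0) →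
      ∃ s : ℕ, g ^ s ∈ I := by
    intro g hg
    have : g ∈ I.radical := by
      rw [← vanishingIdeal_zeroLocus_eq_radical (K := ℂ), mem_vanishingIdeal_iff]
      intro x hx
      rw [hI, zeroLocus_span] at hx
      have e1 := hx w (by simp)
      have e2 := hx q4 (by simp)
      have e3 := hx (B Hm w w) (by simp)
      rw [aeval_eq_eval] at e1 e2 e3 ⊢
      exact hg x e1 e2 e3
    exact this
  obtain ⟨s0, hs0⟩ := hmem (X 0 * X 1) (fun x a b c => by
    simpa using (key x a b c).1)
  obtain ⟨s1, hs1⟩ := hmem (X 2 * X 3) (fun x a b c => by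
    simpa using (key x a b c).2.1)
  obtain ⟨s2, hs2⟩ := hmem (X 1 ^ k * X 3 ^ (m - k)) (fun x a b c => by
    have := (key x a b c).2.2.1
    rw [map_mul, map_pow, map_pow, eval_X, eval_X]
    exact this)
  obtain ⟨s3, hs3⟩ := hmem (X 0 ^ k * X 2 ^ (m - k)) (fun x a b c => by
    have := (key x a b c).2.2.2
    rw [map_mul, map_pow, map_pow, eval_X, eval_X]
    exact this)
  refine ⟨s0 + s1 + s2 + s3, ?_⟩
  intro g hg
  rcases hg with rfl | rfl | rfl | rfl
  · rw [show s0 + s1 + s2 + s3 = s0 + (s1 + s2 + s3) by ring, pow_add]
    exact I.mul_mem_right _ hs0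
  · rw [show s0 + s1 + s2 + s3 = s1 + (s0 + s2 + s3) by ring, pow_add]
    exact I.mul_mem_right _ hs1
  · rw [show s0 + s1 + s2 + s3 = s2 + (s0 + s1 + s3) by ring, pow_add]
    exact I.mul_mem_right _ hs2
  · rw [show s0 + s1 + s2 + s3 = s3 + (s0 + s1 + s2) by ring, pow_add]
    exact I.mul_mem_right _ hs3

end

end Pool.PN4
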