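import Pool.Agent.PN4.Stmts
import Pool.Agent.PN4.Basic

set_option autoImplicit false

open MvPolynomial

namespace Pool.PN4

noncomputable section

/-- the base point -/
def line_x0 : Fin 4 → ℂ := ![0, 1, 0, 1]

lemma line_eval (f : MvPolynomial (Fin 4) ℂ) : eval line_x0 f =
    ∑ d ∈ f.support, coeff d f * (0 ^ d 0 * 0 ^ d 2) := by
  rw [eval_eq']
  refine Finset.sum_congr rfl fun d _ => ?_
  rw [Fin.prod_univ_four]
  simp [line_x0]

/-- only exponents with `d 0 = 0 = d 2` contribute -/
lemma line_eval_one (f : MvPolynomial (Fin 4) ℂ) (e : Fin 4 →₀ ℕ) (he : e 0 = 0) (he2 : e 2 = 0)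
    (h : ∀ d ∈ f.support, d 0 = 0 → d 2 = 0 → d = e) : eval line_x0 f = coeff e f := by
  rw [line_eval, Finset.sum_eq_single e]
  · simp [he, he2]
  · intro d hd hde
    by_cases h0 : d 0 = 0
    · by_cases h2 : d 2 = 0
      · exact absurd (h d hd h0 h2) hde
      · simp [h2]
    · simp [h0]
  · intro he'
    rw [notMem_support_iff.mp he', zero_mul]

lemma line_eval_zero (f : MvPolynomial (Fin 4) ℂ)
    (h : ∀ d ∈ f.support, d 0 = 0 → d 2 = 0 → False) : eval line_x0 f = 0 := by
  rw [line_eval]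
  refine Finset.sum_eq_zero fun d hd => ?_
  by_cases h0 : d 0 = 0
  · by_cases h2 : d 2 = 0
    · exact absurd (h d hd h0 h2) id
    · simp [h2]
  · simp [h0]

lemma line_supp_pderiv {f : MvPolynomial (Fin 4) ℂ} {i : Fin 4} {d : Fin 4 →₀ ℕ}
    (hd : d ∈ (pderiv i f).support) : d + Finsupp.single i 1 ∈ f.support := by
  rw [mem_support_iff, coeff_pderiv] at hd
  rw [mem_support_iff]
  intro h
  rw [h, zero_mul] at hd
  exact hd rfl

/-- uniqueness for linear differential equations in power series -/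
lemma line_ode (y g : PowerSeries ℂ) (h : PowerSeries.derivative ℂ y = g * y)
    (h0 : PowerSeries.constantCoeff y = 0) : y = 0 := by
  have key : ∀ n, ∀ k ≤ n, PowerSeries.coeff k y = 0 := by
    intro n
    induction n with
    | zero =>
      intro k hk
      obtain rfl : k = 0 := by omega
      simpa using h0
    | succ n ih =>
      intro k hk
      rcases Nat.lt_or_ge k (n + 1) with h1 | h1
      · exact ih k (by omega)
      · obtain rfl : k = n + 1 := by omega
        have h2 := congrArg (PowerSeries.coeff n) h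
        have h4 : PowerSeries.coeff n (g * y) = 0 := by
          rw [PowerSeries.coeff_mul]
          refine Finset.sum_eq_zero fun q hq => ?_
          have := Finset.HasAntidiagonal.mem_antidiagonal.1 hq
          rw [ih q.2 (by omega), mul_zero]
        rw [PowerSeries.coeff_derivative, h4] at h2
        rcases mul_eq_zero.1 h2 with h3 | h3
        · exact h3
        · exact absurd h3 (by exact_mod_cast Nat.succ_ne_zero n)
  ext n
  rw [key n n le_rfl, map_zero]

/-- the equation for `N` along the flow -/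
lemma line_BN {P : ℝ} (hP : P ≠ 0) {w : MvPolynomial (Fin 4) ℂ} (hw : Sol P w) :
    B Hm w (B Hm w w) = (C (-(2 / (P : ℂ))) * L Hm w) * B Hm w w := by
  have h : B Hm w w * L Hm w + C ((P : ℂ) / 2) * B Hm w (B Hm w w) = 0 := hw
  have hP' : (P : ℂ) ≠ 0 := by exact_mod_cast hP
  have h2 : C (2 / (P : ℂ)) * (C ((P : ℂ) / 2) * B Hm w (B Hm w w)) = B Hm w (B Hm w w) := by
    rw [← mul_assoc, ← C_mul]
    have : (2 / (P : ℂ)) * ((P : ℂ) / 2) = 1 := by field_simp
    rw [this, C_1, one_mul]
  have h3 : C ((P : ℂ) / 2) * B Hm w (B Hm w w) = -(B Hm w w * L Hm w) := by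
    linear_combination h
  rw [← h2, h3, C_neg]
  ring

lemma line_Bq {m : ℕ} {w : MvPolynomial (Fin 4) ℂ} (hw : w.IsHomogeneous m) :
    B Hm w q4 = C (2 * (m : ℂ)) * w := by
  have hE := hw.sum_X_mul_pderiv
  rw [Fin.sum_univ_four] at hE
  rw [B_Hm]
  have e0 : pderiv (0 : Fin 4) q4 = C 2 * X 1 := by
    simp [q4, pderiv_X]
  have e1 : pderiv (1 : Fin 4) q4 = C 2 * X 0 := by
    simp [q4, pderiv_X]
  have e2 : pderiv (2 : Fin 4) q4 = C 2 * X 3 := by
    simp [q4, pderiv_X]
  have e3 : pderiv (3 : Fin 4) q4 = C 2 * X 2 := by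
    simp [q4, pderiv_X]
  rw [e0, e1, e2, e3]
  have h2 : (C (2 * (m : ℂ)) : MvPolynomial (Fin 4) ℂ) * w = C 2 * (m • w) := by
    rw [nsmul_eq_mul, C_mul, mul_assoc]
    congr 2
  rw [h2, ← hE]
  ring

/-- module G6 -/
theorem thm_Line (h1 : St_LNull) (h2 : St_LGen) (h3 : St_LFlow) (h4 : St_LDeg) : St_Line := by
  intro P hP1 hP0 m k w hk hkm hhom hsol hsup hc1 hc2
  have hmk : k < m := by omega
  -- the weights
  have hA : InA m k w := by
    intro d hd
    have e1 := hsup d hd
    have e2 := hom_four hhom hd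
    zify [hmk.le, hkm.le] at e1 e2 ⊢
    have e3 : (d 0 : ℤ) = m - d 1 - d 2 - d 3 := by linarith
    rw [e3]
    linarith
  obtain ⟨s, hs⟩ := h1 P hP1 hP0 m k w hk hkm hhom hsol hsup hc1 hc2
  obtain ⟨D, hD, hgen⟩ := h2 m k s w hk hkm hhom hA hs
  obtain ⟨ev, hev0, hevd⟩ := h3 w line_x0
  -- exponents
  have hex : ∀ d ∈ w.support, d 0 = 0 → d 2 = 0 → d = mk 0 k 0 (m - k) := by
    intro d hd h0 h2'
    have e1 := hsup d hd
    have e2 := hom_four hhom hd
    rw [h0, h2'] at e2
    rw [h2'] at e1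
    have e3 : d 1 + d 3 = m := by omega
    rw [e3] at e1
    have e4 : d 1 = k := by
      zify [hmk.le, hkm.le] at e1 ⊢
      have hm0 : (m : ℤ) ≠ 0 := by exact_mod_cast (by omega : m ≠ 0)
      have e5 : (m : ℤ) * (d 1 - k) = 0 := by linarith
      rcases mul_eq_zero.1 e5 with h | h
      · exact absurd h hm0
      · linarith
    refine ext4 ?_ ?_ ?_ ?_
    · rw [h0]; rfl
    · rw [e4]; rfl
    · rw [h2']; rfl
    · rw [mk_three]; omega
  have hno : ∀ d ∈ w.support, d 0 + d 2 = 1 → False := by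
    intro d hd h02
    have e1 := hsup d hd
    have e2 := hom_four hhom hd
    have e3 : d 1 + d 3 = m - 1 := by omega
    rw [e3] at e1
    -- `m` divides `2 k`
    have hdvd : (m : ℤ) ∣ 2 * k := by
      have hm1 : 1 ≤ m := by omega
      zify [hmk.le, hkm.le, hm1] at e1
      refine ⟨k + 1 - (d 1 + d 2), ?_⟩
      linarith
    have hdvd' : m ∣ 2 * k := by exact_mod_cast hdvd
    have := Nat.le_of_dvd (by omega) hdvd'
    omega
  set u0 : ℂ := coeff (mk 0 k 0 (m - k)) w with hu0
  have hw0 : eval line_x0 w = u0 := line_eval_one w _ rfl rfl hex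
  have hp0 : eval line_x0 (pderiv 0 w) = 0 := by
    refine line_eval_zero _ fun d hd h0 h2' => ?_
    refine hno _ (line_supp_pderiv hd) ?_
    simp [h0, h2']
  have hp2 : eval line_x0 (pderiv 2 w) = 0 := by
    refine line_eval_zero _ fun d hd h0 h2' => ?_
    refine hno _ (line_supp_pderiv hd) ?_
    simp [h0, h2']
  have hp1 : eval line_x0 (pderiv 1 w) = u0 * k := by
    rw [line_eval_one (pderiv 1 w) (mk 0 (k - 1) 0 (m - k)) rfl rfl ?_]
    · rw [coeff_pderiv]
      have e : mk 0 (k - 1) 0 (m - k) + Finsupp.single 1 1 = mk 0 k 0 (m - k) := by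
        refine ext4 ?_ ?_ ?_ ?_
        · simp
        · simp; omega
        · simp
        · simp
      rw [e, mk_one, ← hu0]
      have : ((k - 1 : ℕ) : ℂ) + 1 = k := by
        have : k - 1 + 1 = k := by omega
        exact_mod_cast this
      rw [this]
    · intro d hd h0 h2'
      have h5 := hex _ (line_supp_pderiv hd) (by simp [h0]) (by simp [h2'])
      have f0 := congrArg (fun e : Fin 4 →₀ ℕ => e 0) h5
      have f1 := congrArg (fun e : Fin 4 →₀ ℕ => e 1) h5
      have f3 := congrArg (fun e : Fin 4 →₀ ℕ => e 3) h5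
      simp at f1 f3
      refine ext4 ?_ ?_ ?_ ?_
      · rw [h0]; rfl
      · rw [mk_one]; omega
      · rw [h2']; rfl
      · rw [mk_three]; omega
  have hp3 : eval line_x0 (pderiv 3 w) = u0 * (m - k : ℕ) := by
    rw [line_eval_one (pderiv 3 w) (mk 0 k 0 (m - k - 1)) rfl rfl ?_]
    · rw [coeff_pderiv]
      have e : mk 0 k 0 (m - k - 1) + Finsupp.single 3 1 = mk 0 k 0 (m - k) := by
        refine ext4 ?_ ?_ ?_ ?_
        · simp
        · simp
        · simp
        · simp; omega
      rw [e, mk_three, ← hu0]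
      have : ((m - k - 1 : ℕ) : ℂ) + 1 = (m - k : ℕ) := by
        have : m - k - 1 + 1 = m - k := by omega
        exact_mod_cast this
      rw [this]
    · intro d hd h0 h2'
      have h5 := hex _ (line_supp_pderiv hd) (by simp [h0]) (by simp [h2'])
      have f1 := congrArg (fun e : Fin 4 →₀ ℕ => e 1) h5
      have f3 := congrArg (fun e : Fin 4 →₀ ℕ => e 3) h5
      simp at f1 f3
      refine ext4 ?_ ?_ ?_ ?_
      · rw [h0]; rfl
      · rw [mk_one]; omega
      · rw [h2']; rfl
      · rw [mk_three]; omega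
  -- the flow
  have hN0 : ev (B Hm w w) = 0 := by
    refine line_ode _ (ev (C (-(2 / (P : ℂ))) * L Hm w)) ?_ ?_
    · rw [hevd, line_BN hP0 hsol, map_mul]
    · rw [hev0, eval_N, hp0, hp2]
      ring
  have hevw : ev w = PowerSeries.C u0 := by
    refine PowerSeries.derivative.ext ?_ ?_
    · rw [hevd, hN0, PowerSeries.derivative_C]
    · rw [hev0, hw0, PowerSeries.constantCoeff_C]
  have hevC : ∀ c : ℂ, ev (C c) = PowerSeries.C c := by
    intro c
    have := ev.commutes c
    rwa [MvPolynomial.algebraMap_eq] at this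
  have hevq : ev q4 = PowerSeries.C (2 * m * u0) * PowerSeries.X := by
    refine PowerSeries.derivative.ext ?_ ?_
    · rw [hevd, line_Bq hhom, map_mul, hevC, hevw, Derivation.leibniz, PowerSeries.derivative_X,
        PowerSeries.derivative_C, ← map_mul]
      simp
    · rw [hev0]
      simp [q4, line_x0]
  have hdeg := h4 m k D w (B Hm w w) ev u0 (2 * m * u0) hk hkm hD hhom hA hc1 hevw hevq hN0 hevd
    hgen
  -- the four invariants
  have hmon : ∀ a b c e : ℕ, (monomial (mk a b c e) (1 : ℂ)).IsHomogeneous (a + b + c + e) := by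
    intro a b c e
    refine isHomogeneous_monomial _ ?_
    rw [Finsupp.degree_eq_sum, Fin.sum_univ_four]
    rfl
  have hmonA : ∀ a b c e : ℕ, (m - k) * b + k * c = (m - k) * a + k * e →
      InA m k (monomial (mk a b c e) (1 : ℂ)) := by
    intro a b c e h d hd
    have := support_monomial_subset hd
    rw [Finset.mem_singleton] at this
    rw [this]
    exact h
  have hlin : ∀ (f : MvPolynomial (Fin 4) ℂ) (c : ℂ), f.IsHomogeneous 2 → InA m k f →
      eval line_x0 f = 0 → eval line_x0 (B Hm w f) = c →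
      ev f = PowerSeries.C c * PowerSeries.X := by
    intro f c hf hfA hf0 hf1
    obtain ⟨p, hp, hpd⟩ := hdeg 2 f hf hfA
    have hpd' : p.natDegree ≤ 1 := by omega
    have hp0 : p.coeff 0 = 0 := by
      have := hev0 f
      rw [hp, hf0] at this
      simpa using this
    have hp1 : p.coeff 1 = c := by
      have h5 := hev0 (B Hm w f)
      rw [← hevd, hp, hf1] at h5
      rw [← PowerSeries.coeff_zero_eq_constantCoeff_apply, PowerSeries.coeff_derivative] at h5
      simpa using h5
    rw [hp]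
    ext n
    rw [Polynomial.coeff_coe, PowerSeries.coeff_C_mul, PowerSeries.coeff_X]
    rcases n with _ | _ | n
    · simp [hp0]
    · simp [hp1]
    · rw [Polynomial.coeff_eq_zero_of_natDegree_lt (by omega), if_neg (by omega), mul_zero]
  have hx01 : ev (X 0 * X 1) = PowerSeries.C (u0 * k) * PowerSeries.X := by
    refine hlin _ _ ((isHomogeneous_X _ _).mul (isHomogeneous_X _ _)) ?_ ?_ ?_
    · have e : (X 0 * X 1 : MvPolynomial (Fin 4) ℂ) = monomial (mk 1 1 0 0) 1 := by
        rw [X, X, monomial_mul, one_mul]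
        exact congrArg (fun d => monomial d (1 : ℂ))
          (ext4 (by simp) (by simp) (by simp) (by simp))
      rw [e]
      exact hmonA 1 1 0 0 (by ring)
    · simp [line_x0]
    · rw [B_Hm]
      simp only [map_add, map_mul, hp0, hp1, hp2, hp3]
      simp [pderiv_X, line_x0]
  have hx23 : ev (X 2 * X 3) = PowerSeries.C (u0 * (m - k : ℕ)) * PowerSeries.X := by
    refine hlin _ _ ((isHomogeneous_X _ _).mul (isHomogeneous_X _ _)) ?_ ?_ ?_
    · have e : (X 2 * X 3 : MvPolynomial (Fin 4) ℂ) = monomial (mk 0 0 1 1) 1 := by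
        rw [X, X, monomial_mul, one_mul]
        exact congrArg (fun d => monomial d (1 : ℂ))
          (ext4 (by simp) (by simp) (by simp) (by simp))
      rw [e]
      exact hmonA 0 0 1 1 (by ring)
    · simp [line_x0]
    · rw [B_Hm]
      simp only [map_add, map_mul, hp0, hp1, hp2, hp3]
      simp [pderiv_X, line_x0]
  -- the last two
  have em : ∀ a b c e : ℕ, (monomial (mk a b c e) (1 : ℂ) : MvPolynomial (Fin 4) ℂ) =
      X 0 ^ a * X 1 ^ b * X 2 ^ c * X 3 ^ e := by
    intro a b c e
    rw [monomial_eq, C_1, one_mul, Finsupp.prod_fintype _ _ (by simp), Fin.prod_univ_four]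
    rfl
  obtain ⟨p, hp, _⟩ := hdeg m (monomial (mk 0 k 0 (m - k)) 1)
    (by
      have := hmon 0 k 0 (m - k)
      rwa [show 0 + k + 0 + (m - k) = m by omega] at this) (hmonA 0 k 0 (m - k) (by ring))
  obtain ⟨p', hp', hpd'⟩ := hdeg m (monomial (mk k 0 (m - k) 0) 1)
    (by
      have := hmon k 0 (m - k) 0
      rwa [show k + 0 + (m - k) + 0 = m by omega] at this) (hmonA k 0 (m - k) 0 (by ring))
  have hprod : ev (monomial (mk 0 k 0 (m - k)) 1) * ev (monomial (mk k 0 (m - k) 0) 1) =
      PowerSeries.C ((u0 * k) ^ k * (u0 * (m - k : ℕ)) ^ (m - k)) * PowerSeries.X ^ m := by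
    have e : (monomial (mk 0 k 0 (m - k)) (1 : ℂ) * monomial (mk k 0 (m - k) 0) (1 : ℂ) :
        MvPolynomial (Fin 4) ℂ) = (X 0 * X 1) ^ k * (X 2 * X 3) ^ (m - k) := by
      rw [em, em]
      ring
    rw [← map_mul, e, map_mul, map_pow, map_pow, hx01, hx23, mul_pow, mul_pow,
      map_mul PowerSeries.C ((u0 * k) ^ k), map_pow, map_pow]
    have : (PowerSeries.X : PowerSeries ℂ) ^ m = PowerSeries.X ^ k * PowerSeries.X ^ (m - k) := by
      rw [← pow_add]
      congr 1
      omega
    rw [this]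
    ring
  set c : ℂ := (u0 * k) ^ k * (u0 * (m - k : ℕ)) ^ (m - k) with hc
  have hc0 : c ≠ 0 := by
    have hk0 : (k : ℂ) ≠ 0 := by exact_mod_cast (by omega : k ≠ 0)
    have hmk0 : ((m - k : ℕ) : ℂ) ≠ 0 := by exact_mod_cast (by omega : m - k ≠ 0)
    exact mul_ne_zero (pow_ne_zero _ (mul_ne_zero hc1 hk0))
      (pow_ne_zero _ (mul_ne_zero hc1 hmk0))
  have hpp : p * p' = Polynomial.C c * Polynomial.X ^ m := by
    apply Polynomial.coe_injective ℂ
    rw [Polynomial.coe_mul, ← hp, ← hp', hprod]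
    simp
  have hp00 : p.coeff 0 = 1 := by
    have h5 := hev0 (monomial (mk 0 k 0 (m - k)) 1)
    rw [hp] at h5
    have h6 : eval line_x0 (monomial (mk 0 k 0 (m - k)) (1 : ℂ)) = 1 := by
      rw [em]
      simp [line_x0]
    rw [h6] at h5
    simpa using h5
  have hp'0 : p' ≠ 0 := by
    intro h
    rw [h, mul_zero] at hpp
    have := mul_ne_zero (Polynomial.C_ne_zero.2 hc0) (pow_ne_zero m Polynomial.X_ne_zero)
    exact this hpp.symm
  have hdvd : Polynomial.X ^ m ∣ p' := by
    have hcop : IsCoprime ((Polynomial.X : Polynomial ℂ) ^ m) p := by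
      refine IsCoprime.pow_left ?_
      refine (Polynomial.irreducible_X.coprime_iff_not_dvd).2 fun hd => ?_
      rw [Polynomial.X_dvd_iff, hp00] at hd
      exact one_ne_zero hd
    refine hcop.dvd_of_dvd_mul_left (Dvd.intro_left (Polynomial.C c) ?_)
    rw [← hpp]
  have hfin := Polynomial.natDegree_le_of_dvd hdvd hp'0
  rw [Polynomial.natDegree_X_pow] at hfin
  omega

end

end Pool.PN4
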