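import Pool.Agent.PN4.Stmts
import Pool.Agent.PN4.Basic

set_option autoImplicit false

open MvPolynomial

namespace Pool.PN4

noncomputable section

/-- entries of the Gram matrix -/
lemma loci_gram (M : Matrix (Fin 4) (Fin 4) ℂ) (i j : Fin 4) :
    (M.transpose * Hm * M) i j = bil (fun k => M k i) (fun k => M k j) := by
  simp [Matrix.mul_apply, Fin.sum_univ_four, Hm, bil]
  ring

/-- the restriction to a line -/
def lociL (w : MvPolynomial (Fin 4) ℂ) (x v : Fin 4 → ℂ) : Polynomial ℂ :=
  aeval (fun i => Polynomial.C (x i) + Polynomial.X * Polynomial.C (v i)) w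

lemma loci_eval (w : MvPolynomial (Fin 4) ℂ) (x v : Fin 4 → ℂ) (t : ℂ) :
    Polynomial.eval t (lociL w x v) = eval (fun i => x i + t * v i) w := by
  unfold lociL
  induction w using MvPolynomial.induction_on with
  | C a => simp
  | add p q hp hq => rw [map_add, Polynomial.eval_add, hp, hq, map_add]
  | mul_X p i hp =>
    rw [map_mul, Polynomial.eval_mul, hp, map_mul, aeval_X, eval_X, Polynomial.eval_add,
      Polynomial.eval_mul, Polynomial.eval_C, Polynomial.eval_C, Polynomial.eval_X]

lemma loci_lam0 (A0 B0 : ℂ) (x : Fin 4 → ℂ) : lamv A0 B0 x 0 = A0 * x 0 := rfl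
lemma loci_lam1 (A0 B0 : ℂ) (x : Fin 4 → ℂ) : lamv A0 B0 x 1 = -(A0 * x 1) := rfl
lemma loci_lam2 (A0 B0 : ℂ) (x : Fin 4 → ℂ) : lamv A0 B0 x 2 = B0 * x 2 := rfl
lemma loci_lam3 (A0 B0 : ℂ) (x : Fin 4 → ℂ) : lamv A0 B0 x 3 = -(B0 * x 3) := rfl

lemma loci_deriv (w : MvPolynomial (Fin 4) ℂ) (x v : Fin 4 → ℂ) :
    Polynomial.derivative (lociL w x v) = ∑ i, Polynomial.C (v i) * lociL (pderiv i w) x v := by
  classical
  unfold lociL
  induction w using MvPolynomial.induction_on with
  | C a => simp
  | add p q hp hq => simp only [map_add, hp, hq, mul_add, Finset.sum_add_distrib]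
  | mul_X p j hp =>
    have h1 : ∀ i : Fin 4, aeval (fun i => Polynomial.C (x i) + Polynomial.X * Polynomial.C (v i))
        (pderiv i (X j : MvPolynomial (Fin 4) ℂ)) = if i = j then (1 : Polynomial ℂ) else 0 := by
      intro i
      rw [pderiv_X]
      by_cases h : i = j
      · subst h
        simp
      · rw [if_neg h, Pi.single_eq_of_ne (fun h' => h h'.symm), map_zero]
    have key : ∀ i, Polynomial.C (v i) *
        aeval (fun i => Polynomial.C (x i) + Polynomial.X * Polynomial.C (v i)) (pderiv i (p * X j)) =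
        (Polynomial.C (v i) * aeval (fun i => Polynomial.C (x i) + Polynomial.X * Polynomial.C (v i))
          (pderiv i p)) * (Polynomial.C (x j) + Polynomial.X * Polynomial.C (v j)) +
        (if i = j then Polynomial.C (v i) *
          aeval (fun i => Polynomial.C (x i) + Polynomial.X * Polynomial.C (v i)) p else 0) := by
      intro i
      rw [pderiv_mul, map_add, map_mul, map_mul, aeval_X, h1]
      split_ifs <;> ring
    rw [Finset.sum_congr rfl fun i _ => key i, Finset.sum_add_distrib, ← Finset.sum_mul, ← hp,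
      Finset.sum_ite_eq', if_pos (Finset.mem_univ j), map_mul, aeval_X, Polynomial.derivative_mul]
    simp only [Polynomial.derivative_add, Polynomial.derivative_mul, Polynomial.derivative_C,
      Polynomial.derivative_X]
    ring

lemma loci_dir {w : MvPolynomial (Fin 4) ℂ} {x v : Fin 4 → ℂ}
    (h : ∀ t : ℂ, eval (fun i => x i + t * v i) w = 0) (t : ℂ) :
    dir w (fun i => x i + t * v i) v = 0 := by
  have h1 : lociL w x v = 0 := by
    apply Polynomial.funext
    intro s
    rw [loci_eval, h s, Polynomial.eval_zero]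
  have h2 := congrArg (Polynomial.eval t) (loci_deriv w x v)
  rw [h1] at h2
  simp only [Polynomial.derivative_zero, Polynomial.eval_zero, Polynomial.eval_finsetSum,
    Polynomial.eval_mul, Polynomial.eval_C, loci_eval] at h2
  unfold dir
  exact h2.symm

lemma loci_smul {Q : MvPolynomial (Fin 4) ℂ} {n : ℕ} (hQ : Q.IsHomogeneous n) (l : ℂ)
    (z : Fin 4 → ℂ) : eval (fun i => l * z i) Q = l ^ n * eval z Q := by
  rw [eval_eq', eval_eq', Finset.mul_sum]
  refine Finset.sum_congr rfl (fun d hd => ?_)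
  have hdeg' : ∑ j, d j = n := hom_sum hQ hd
  simp only [mul_pow, Finset.prod_mul_distrib]
  rw [Finset.prod_pow_eq_pow_sum, hdeg']
  ring

/-- the value at the point at infinity of a line -/
lemma loci_inf {Q : MvPolynomial (Fin 4) ℂ} {n : ℕ} (hQ : Q.IsHomogeneous n) {x v : Fin 4 → ℂ}
    (a : ℂ) (h : ∀ t : ℂ, 1 + t * a ≠ 0 → eval (fun i => x i + t * v i) Q = 0) : eval v Q = 0 := by
  have h1 : lociL Q v x = 0 := by
    apply Polynomial.eq_zero_of_infinite_isRoot
    have hinf : ({0, -a} : Set ℂ)ᶜ.Infinite := (Set.toFinite _).infinite_compl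
    refine hinf.mono ?_
    intro s hs
    have hs0 : s ≠ 0 := fun h0 => hs (by simp [h0])
    have hsa : s ≠ -a := fun h0 => hs (by simp [h0])
    show Polynomial.eval s (lociL Q v x) = 0
    rw [loci_eval]
    have h2 : (fun i => v i + s * x i) = fun i => s * (x i + s⁻¹ * v i) := by
      funext i
      field_simp
      ring
    rw [h2, loci_smul hQ, h s⁻¹, mul_zero]
    intro h3
    apply hsa
    field_simp at h3
    linear_combination h3
  have h3 := loci_eval Q v x 0
  rw [h1] at h3
  simpa using h3.symm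

lemma loci_euler {Q : MvPolynomial (Fin 4) ℂ} {n : ℕ} (hQ : Q.IsHomogeneous n) (y : Fin 4 → ℂ) :
    dir Q y y = n * eval y Q := by
  have h := congrArg (eval y) hQ.sum_X_mul_pderiv
  unfold dir
  simpa using h

lemma loci_lam {w : MvPolynomial (Fin 4) ℂ} {A0 B0 μ : ℂ} (h : Dlam A0 B0 w = C μ * w)
    (y : Fin 4 → ℂ) : dir w y (lamv A0 B0 y) = μ * eval y w := by
  have h1 := congrArg (eval y) h
  unfold Dlam at h1
  simp only [map_add, map_mul, map_sub, eval_C, eval_X] at h1
  unfold dir
  simp only [Fin.sum_univ_four, loci_lam0, loci_lam1, loci_lam2, loci_lam3]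
  linear_combination h1

lemma loci_hom {w : MvPolynomial (Fin 4) ℂ} {m : ℕ} (hw : w.IsHomogeneous m) :
    (B Hm w w).IsHomogeneous ((m - 1) + (m - 1)) := by
  rw [B_Hm]
  exact (((hw.pderiv.mul hw.pderiv).add (hw.pderiv.mul hw.pderiv)).add
    (hw.pderiv.mul hw.pderiv)).add (hw.pderiv.mul hw.pderiv)

/-- the core, for one of the two null vectors of the frame -/
lemma loci_core {m : ℕ} {w : MvPolynomial (Fin 4) ℂ} (hw : w.IsHomogeneous m) {A0 B0 μ : ℂ}
    (hlam : Dlam A0 B0 w = C μ * w) {x a b : Fin 4 → ℂ} {r s : ℂ}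
    (hG : ∀ i j, 1 / r * (x i * x j) + 1 / s * (lamv A0 B0 x i * lamv A0 B0 x j) +
      a i * b j + b i * a j = Hm i j)
    (ha : bil a (lamv A0 B0 x) = 0)
    (hz : ∀ t : ℂ, eval (fun i => x i + t * a i) w = 0) :
    eval a w = 0 ∧ eval a (B Hm w w) = 0 := by
  refine ⟨loci_inf hw 0 fun t _ => hz t, ?_⟩
  set c : ℂ := 1 / s * bil (lamv A0 B0 x) (lamv A0 B0 a) with hc
  refine loci_inf (loci_hom hw) (x := x) c fun t ht => ?_
  set y : Fin 4 → ℂ := fun i => x i + t * a i with hy
  have hya : dir w y a = 0 := loci_dir hz t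
  have hyx : dir w y x = 0 := by
    have h1 := loci_euler hw y
    rw [hz t, mul_zero] at h1
    unfold dir at h1 hya ⊢
    simp only [hy, Fin.sum_univ_four] at h1 hya ⊢
    linear_combination h1 - t * hya
  -- the decomposition of `λ a`
  have hdec : ∀ i, lamv A0 B0 a i = c * lamv A0 B0 x i + bil b (lamv A0 B0 a) * a i := by
    intro i
    have e1 : bil x (lamv A0 B0 a) = 0 := by
      unfold bil at ha ⊢
      simp only [loci_lam0, loci_lam1, loci_lam2, loci_lam3] at ha ⊢
      linear_combination -ha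
    have e2 : bil a (lamv A0 B0 a) = 0 := by
      unfold bil
      simp only [loci_lam0, loci_lam1, loci_lam2, loci_lam3]
      ring
    have e3 : lamv A0 B0 a i = 1 / r * x i * bil x (lamv A0 B0 a) +
        1 / s * lamv A0 B0 x i * bil (lamv A0 B0 x) (lamv A0 B0 a) +
        a i * bil b (lamv A0 B0 a) + b i * bil a (lamv A0 B0 a) := by
      have e4 : lamv A0 B0 a i = Hm i 0 * lamv A0 B0 a 1 + Hm i 1 * lamv A0 B0 a 0 +
          Hm i 2 * lamv A0 B0 a 3 + Hm i 3 * lamv A0 B0 a 2 := by
        fin_cases i <;> simp [Hm]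
      rw [e4, ← hG i 0, ← hG i 1, ← hG i 2, ← hG i 3]
      unfold bil
      ring
    rw [e3, e1, e2, hc]
    ring
  have hyl : dir w y (lamv A0 B0 x) = 0 := by
    have h1 := loci_lam hlam y
    rw [hz t, mul_zero] at h1
    have h2 : ∀ i, lamv A0 B0 y i = (1 + t * c) * lamv A0 B0 x i +
        t * bil b (lamv A0 B0 a) * a i := by
      intro i
      have h3 : lamv A0 B0 y i = lamv A0 B0 x i + t * lamv A0 B0 a i := by
        fin_cases i <;> simp [lamv, hy] <;> ring
      rw [h3, hdec i]
      ring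
    have h4 : (1 + t * c) * dir w y (lamv A0 B0 x) = 0 := by
      unfold dir at h1 hya ⊢
      simp only [h2, Fin.sum_univ_four] at h1
      simp only [Fin.sum_univ_four] at hya ⊢
      linear_combination h1 - t * bil b (lamv A0 B0 a) * hya
    exact (mul_eq_zero.1 h4).resolve_left ht
  rw [eval_N]
  have hN : 2 * (eval y (pderiv 0 w) * eval y (pderiv 1 w) +
      eval y (pderiv 2 w) * eval y (pderiv 3 w)) =
      ∑ i, ∑ j, Hm i j * (eval y (pderiv i w) * eval y (pderiv j w)) := by
    simp [Fin.sum_univ_four, Hm]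
    ring
  rw [hN]
  have hN2 : ∑ i, ∑ j, Hm i j * (eval y (pderiv i w) * eval y (pderiv j w)) =
      1 / r * dir w y x ^ 2 + 1 / s * dir w y (lamv A0 B0 x) ^ 2 +
        2 * dir w y a * dir w y b := by
    unfold dir
    simp only [← hG, Fin.sum_univ_four]
    ring
  rw [hN2, hyx, hyl, hya]
  ring

lemma loci_ev2 (φ : Fin 4 → MvPolynomial (Fin 2) ℂ) (x a b : Fin 4 → ℂ)
    (hφ : ∀ i, φ i = C (x i) + C (a i) * X 0 + C (b i) * X 1) (w : MvPolynomial (Fin 4) ℂ)
    (z : Fin 2 → ℂ) : eval z (aeval φ w) = eval (fun i => x i + a i * z 0 + b i * z 1) w := by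
  induction w using MvPolynomial.induction_on with
  | C a => simp
  | add p q hp hq => rw [map_add, map_add, hp, hq, map_add]
  | mul_X p i hp => rw [map_mul, map_mul, hp, map_mul, aeval_X, eval_X, hφ]; simp

lemma loci_coeff0 (f : MvPolynomial (Fin 2) ℂ) : coeff 0 f = eval 0 f := by
  rw [← constantCoeff_eq, ← eval_zero']
  rfl

/-- module F3 -/
theorem thm_LocI (h1 : St_Sub) (h2 : St_Gram) (h3 : St_FrI) (h4 : St_Plane) (h5 : St_LocIa) : St_LocI := by
  intro P hP hP0 m w hw hsol A0 B0 μ hlam x hxx hll hwx hNx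
  have hxl : bil x (lamv A0 B0 x) = 0 := by
    unfold bil
    simp only [loci_lam0, loci_lam1, loci_lam2, loci_lam3]
    ring
  obtain ⟨M, hM0, hM1, hM⟩ := h3 x (lamv A0 B0 x) hxl hxx hll
  have hMM := h5 P hP hP0 m w hw hsol A0 B0 μ hlam x hxx hll M hM0 hM1 hM
  set r := bil x x with hr
  set s := bil (lamv A0 B0 x) (lamv A0 B0 x) with hs
  have hg : ∀ i j, bil (fun k => M k i) (fun k => M k j) = K1 r s i j := by
    intro i j
    rw [← loci_gram, hM]
  have hK : K1 r s * K1 (1 / r) (1 / s) = 1 := by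
    ext i j
    fin_cases i <;> fin_cases j <;> simp [K1, Matrix.mul_apply, Fin.sum_univ_four, hxx, hll]
  have hG0 := h2 M (K1 r s) (K1 (1 / r) (1 / s)) hM hK
  have hG : ∀ i j, 1 / r * (x i * x j) + 1 / s * (lamv A0 B0 x i * lamv A0 B0 x j) +
      M i 2 * M j 3 + M i 3 * M j 2 = Hm i j := by
    intro i j
    rw [← hG0, ← hM0 i, ← hM0 j, ← hM1 i, ← hM1 j]
    simp [Matrix.mul_apply, Fin.sum_univ_four, K1]
    ring
  have hx0 : (fun k => M k 0) = x := funext hM0
  have hx1 : (fun k => M k 1) = lamv A0 B0 x := funext hM1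
  have g22 : bil (fun k => M k 2) (fun k => M k 2) = 0 := by rw [hg]; simp [K1]
  have g33 : bil (fun k => M k 3) (fun k => M k 3) = 0 := by rw [hg]; simp [K1]
  have g23 : bil (fun k => M k 2) (fun k => M k 3) = 1 := by rw [hg]; simp [K1]
  have g20 : bil (fun k => M k 2) x = 0 := by rw [← hx0, hg]; simp [K1]
  have g21 : bil (fun k => M k 2) (lamv A0 B0 x) = 0 := by rw [← hx1, hg]; simp [K1]
  have g30 : bil (fun k => M k 3) x = 0 := by rw [← hx0, hg]; simp [K1]
  have g31 : bil (fun k => M k 3) (lamv A0 B0 x) = 0 := by rw [← hx1, hg]; simp [K1]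
  set φ : Fin 4 → MvPolynomial (Fin 2) ℂ :=
    fun i => C (x i) + C (M i 2) * X 0 + C (M i 3) * X 1 with hφ
  set f : MvPolynomial (Fin 2) ℂ := aeval φ w with hf
  have hev : ∀ z : Fin 2 → ℂ, eval z f = eval (fun i => x i + M i 2 * z 0 + M i 3 * z 1) w := by
    intro z
    rw [hf]
    exact loci_ev2 φ x (fun i => M i 2) (fun i => M i 3) (fun i => rfl) w z
  have hc0 : coeff 0 f = 0 := by
    rw [loci_coeff0, hev]
    simp only [Pi.zero_apply, mul_zero, add_zero]
    exact hwx
  have hc1 : ∀ j, coeff (Finsupp.single j 1) f = eval 0 (pderiv j f) := by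
    intro j
    have h6 := coeff_pderiv (i := j) f 0
    rw [zero_add] at h6
    have h7 : ((0 : Fin 2 →₀ ℕ) j : ℂ) + 1 = 1 := by simp
    rw [h7, mul_one] at h6
    rw [← h6, loci_coeff0]
  have hd0' : coeff (Finsupp.single 0 1) f = dir w x (fun k => M k 2) := by
    rw [hc1]
    have h6 := Agent.Helper43.PLap.pderiv_bind φ 0 w
    have h7 : f = bind₁ φ w := rfl
    rw [h7, h6, map_sum]
    unfold dir
    refine Finset.sum_congr rfl fun i _ => ?_
    rw [map_mul]
    have h8 : eval 0 (bind₁ φ (pderiv i w)) = eval x (pderiv i w) := by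
      have h9 := loci_ev2 φ x (fun i => M i 2) (fun i => M i 3) (fun i => rfl) (pderiv i w) 0
      simp only [Pi.zero_apply, mul_zero, add_zero] at h9
      exact h9
    rw [h8, hφ]
    simp
    ring
  have hd1 : coeff (Finsupp.single 1 1) f = dir w x (fun k => M k 3) := by
    rw [hc1]
    have h6 := Agent.Helper43.PLap.pderiv_bind φ 1 w
    have h7 : f = bind₁ φ w := rfl
    rw [h7, h6, map_sum]
    unfold dir
    refine Finset.sum_congr rfl fun i _ => ?_
    rw [map_mul]
    have h8 : eval 0 (bind₁ φ (pderiv i w)) = eval x (pderiv i w) := by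
      have h9 := loci_ev2 φ x (fun i => M i 2) (fun i => M i 3) (fun i => rfl) (pderiv i w) 0
      simp only [Pi.zero_apply, mul_zero, add_zero] at h9
      exact h9
    rw [h8, hφ]
    simp
    ring
  -- one of the two linear terms is missing
  have hprod : dir w x (fun k => M k 2) = 0 ∨ dir w x (fun k => M k 3) = 0 := by
    have e1 : dir w x x = 0 := by rw [loci_euler hw, hwx, mul_zero]
    have e2 : dir w x (lamv A0 B0 x) = 0 := by rw [loci_lam hlam, hwx, mul_zero]
    rw [eval_N] at hNx
    have hN : 2 * (eval x (pderiv 0 w) * eval x (pderiv 1 w) +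
        eval x (pderiv 2 w) * eval x (pderiv 3 w)) =
        ∑ i, ∑ j, Hm i j * (eval x (pderiv i w) * eval x (pderiv j w)) := by
      simp [Fin.sum_univ_four, Hm]
      ring
    have hN2 : ∑ i, ∑ j, Hm i j * (eval x (pderiv i w) * eval x (pderiv j w)) =
        1 / r * dir w x x ^ 2 + 1 / s * dir w x (lamv A0 B0 x) ^ 2 +
          2 * dir w x (fun k => M k 2) * dir w x (fun k => M k 3) := by
      unfold dir
      simp only [← hG, Fin.sum_univ_four]
      ring
    rw [hN, hN2, e1, e2] at hNx
    have h6 : dir w x (fun k => M k 2) * dir w x (fun k => M k 3) = 0 := by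
      linear_combination hNx / 2
    exact mul_eq_zero.1 h6
  have hsup : ∀ d ∈ f.support, 1 ≤ d 0 + d 1 := by
    intro d hd
    by_contra hcon
    have hd0 : d = 0 := by
      ext i
      fin_cases i
      · show d 0 = 0
        omega
      · show d 1 = 0
        omega
    rw [mem_support_iff, hd0] at hd
    exact hd hc0
  have hlin : (∀ d ∈ f.support, d 0 + d 1 = 1 → d 0 = 1) ∨
      (∀ d ∈ f.support, d 0 + d 1 = 1 → d 1 = 1) := by
    rcases hprod with h6 | h6
    · right
      intro d hd h7
      by_contra hcon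
      have hd0 : d = Finsupp.single 0 1 := by
        ext i
        fin_cases i
        · show d 0 = (Finsupp.single (0 : Fin 2) 1) 0
          simp
          omega
        · show d 1 = (Finsupp.single (0 : Fin 2) 1) 1
          simp
          omega
      rw [mem_support_iff, hd0, hd0'] at hd
      exact hd h6
    · left
      intro d hd h7
      by_contra hcon
      have hd0 : d = Finsupp.single 1 1 := by
        ext i
        fin_cases i
        · show d 0 = (Finsupp.single (1 : Fin 2) 1) 0
          simp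
          omega
        · show d 1 = (Finsupp.single (1 : Fin 2) 1) 1
          simp
          omega
      rw [mem_support_iff, hd0, hd1] at hd
      exact hd h6
  have hdich : (∀ d ∈ f.support, d 1 ≠ 0) ∨ (∀ d ∈ f.support, d 0 ≠ 0) := by
    by_contra hcon
    push Not at hcon
    exact h4 P hP hP0 f hMM hsup hlin hcon.1 hcon.2
  have hval : ∀ (k : Fin 2), (∀ d ∈ f.support, d k ≠ 0) → ∀ z : Fin 2 → ℂ, z k = 0 →
      eval z f = 0 := by
    intro k hk z hz
    rw [eval_eq']
    refine Finset.sum_eq_zero fun d hd => ?_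
    rw [Finset.prod_eq_zero (Finset.mem_univ k), mul_zero]
    rw [hz, zero_pow (hk d hd)]
  rcases hdich with hk | hk
  · have hz : ∀ t : ℂ, eval (fun i => x i + t * M i 2) w = 0 := by
      intro t
      have h6 := hval 1 hk ![t, 0] rfl
      rw [hev] at h6
      rw [← h6]
      congr 2
      funext i
      simp
      ring
    obtain ⟨c1, c2⟩ := loci_core hw hlam (a := fun k => M k 2) (b := fun k => M k 3) hG g21 hz
    refine ⟨fun k => M k 2, ?_, g22, g20, g21, hz, fun _ => c1, fun _ => c2⟩
    intro h0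
    rw [h0] at g23
    simp [bil] at g23
  · have hz : ∀ t : ℂ, eval (fun i => x i + t * M i 3) w = 0 := by
      intro t
      have h6 := hval 0 hk ![0, t] rfl
      rw [hev] at h6
      rw [← h6]
      congr 2
      funext i
      simp
      ring
    obtain ⟨c1, c2⟩ := loci_core hw hlam (a := fun k => M k 3) (b := fun k => M k 2)
      (r := r) (s := s) (x := x) (fun i j => by rw [← hG i j]; ring) g31 hz
    refine ⟨fun k => M k 3, ?_, g33, g30, g31, hz, fun _ => c1, fun _ => c2⟩
    intro h0
    rw [h0] at g23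
    simp [bil] at g23

end

end Pool.PN4
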