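import Pool.Agent.PN4.Stmts
import Pool.Agent.PN4.Basic

set_option autoImplicit false

open MvPolynomial

namespace Pool.PN4

noncomputable section

lemma LocII_coeff (u : MvPolynomial (Fin 4) ℂ) (i : Fin 4) (d : Fin 4 →₀ ℕ) :
    coeff d (X i * pderiv i u) = (d i : ℂ) * coeff d u := by
  classical
  induction u using MvPolynomial.induction_on' with
  | add p q hp hq => rw [map_add, mul_add, coeff_add, hp, hq, coeff_add, mul_add]
  | monomial n a =>
    rw [X_mul_pderiv_monomial, coeff_smul, coeff_monomial]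
    by_cases h : n = d
    · rw [if_pos h, h, nsmul_eq_mul]
    · rw [if_neg h, smul_zero, mul_zero]

lemma LocII_supp_iff (a : ℕ) (u : MvPolynomial (Fin 4) ℂ) :
    (∀ d ∈ u.support, d 0 = a + d 1) ↔
      X 0 * pderiv 0 u = C (a : ℂ) * u + X 1 * pderiv 1 u := by
  constructor
  · intro h
    ext d
    rw [coeff_add, LocII_coeff, LocII_coeff, coeff_C_mul]
    by_cases hd : d ∈ u.support
    · rw [h d hd]
      push_cast
      ring
    · rw [notMem_support_iff.mp hd]
      ring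
  · intro h d hd
    have h1 := congrArg (coeff d) h
    rw [coeff_add, LocII_coeff, LocII_coeff, coeff_C_mul] at h1
    have h2 : (d 0 : ℂ) = (a : ℂ) + (d 1 : ℂ) := by
      apply mul_right_cancel₀ (mem_support_iff.mp hd)
      rw [h1]
      ring
    exact_mod_cast h2

lemma LocII_eval (a : ℕ) (u : MvPolynomial (Fin 4) ℂ) (h : ∀ d ∈ u.support, d 0 = a + d 1) :
    eval ![1, 0, 0, 0] u = coeff (mk a 0 0 0) u := by
  rw [eval_eq']
  rw [Finset.sum_eq_single (mk a 0 0 0)]
  · rw [Fin.prod_univ_four]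
    simp
  · intro d hd hne
    have h0 := h d hd
    have : d 1 ≠ 0 ∨ d 2 ≠ 0 ∨ d 3 ≠ 0 := by
      by_contra hcon
      push Not at hcon
      obtain ⟨h1, h2, h3⟩ := hcon
      apply hne
      apply ext4
      · rw [h0, h1, mk_zero, add_zero]
      · rw [h1, mk_one]
      · rw [h2, mk_two]
      · rw [h3, mk_three]
    rw [Fin.prod_univ_four]
    rcases this with h1 | h1 | h1
    · simp [h1]
    · simp [h1]
    · simp [h1]
  · intro hd
    rw [notMem_support_iff.mp hd, zero_mul]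

lemma LocII_supp_pderiv {a : ℕ} {u : MvPolynomial (Fin 4) ℂ}
    (h : ∀ d ∈ u.support, d 0 = a + d 1) (i : Fin 4) (h0 : i ≠ 0) (h1 : i ≠ 1) :
    ∀ d ∈ (pderiv i u).support, d 0 = a + d 1 := by
  intro d hd
  rw [mem_support_iff, coeff_pderiv] at hd
  have h2 : d + Finsupp.single i 1 ∈ u.support := by
    rw [mem_support_iff]
    exact left_ne_zero_of_mul hd
  have h3 := h _ h2
  rw [Finsupp.add_apply, Finsupp.add_apply, Finsupp.single_eq_of_ne (by exact fun h => h0 h.symm),
    Finsupp.single_eq_of_ne (by exact fun h => h1 h.symm)] at h3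
  simpa using h3

/-- module D3 -/
theorem thm_LocII (h1 : St_Sub) (h2 : St_Gram) (h3 : St_Init) (h4 : St_InitD) (h5 : St_Strip) : St_LocII := by
  intro P hP hP0 m a w hw hhom hsol hsupp y z hy hz hev hN
  obtain ⟨κ, hκ⟩ : ∃ κ : ℂ, κ ^ 2 = -(2 * y * z)⁻¹ :=
    IsAlgClosed.exists_pow_nat_eq _ (by norm_num)
  have hyz : 2 * y * z ≠ 0 := mul_ne_zero (mul_ne_zero two_ne_zero hy) hz
  have hκ2 : -(2 * κ ^ 2 * y * z) = 1 := by
    rw [hκ]
    field_simp
  have hκ0 : κ ≠ 0 := by
    rintro rfl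
    norm_num at hκ2
  obtain ⟨M, hM⟩ : ∃ M : Matrix (Fin 4) (Fin 4) ℂ,
      M = !![1, 0, 0, 0; 0, 1, 0, 0; 0, 0, y, κ * y; 0, 0, z, -(κ * z)] := ⟨_, rfl⟩
  obtain ⟨b, hb⟩ : ∃ b : Fin 4 → ℂ, b = ![0, 0, y, z] := ⟨_, rfl⟩
  obtain ⟨R, hR⟩ : ∃ R : ℂ, R = 2 * y * z := ⟨_, rfl⟩
  have hR0 : R ≠ 0 := by rw [hR]; exact hyz
  have hMK : M.transpose * Hm * M = K3 R := by
    rw [hM, hR]
    ext i j
    fin_cases i <;> fin_cases j <;>
      simp [Matrix.mul_apply, Fin.sum_univ_four, Hm, K3] <;>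
      first
        | ring1
        | linear_combination hκ2
  have hKK : K3 R * K3 R⁻¹ = 1 := by
    ext i j
    fin_cases i <;> fin_cases j <;>
      simp [Matrix.mul_apply, Fin.sum_univ_four, K3, hR0]
  have hG := h2 M (K3 R) (K3 R⁻¹) hMK hKK
  obtain ⟨U, hU⟩ : ∃ U : MvPolynomial (Fin 4) ℂ, U = sub M b w := ⟨_, rfl⟩
  have hEU : E (K3 R⁻¹) (P : ℂ) U = 0 := by
    have h6 := (h1 M (K3 R⁻¹) b (P : ℂ) w).2.1
    rw [hG] at h6
    rw [hU, h6]
    have h7 : E Hm (P : ℂ) w = 0 := hsol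
    rw [h7]
    exact map_zero _
  have hevs : ∀ (u : MvPolynomial (Fin 4) ℂ) (x : Fin 4 → ℂ), eval x (sub M b u) =
      eval (fun i => b i + ∑ j, M i j * x j) u := fun u x =>
    (h1 M (K3 R⁻¹) b (P : ℂ) u).2.2.1 x
  have hpd : ∀ j, pderiv j U = ∑ i, C (M i j) * sub M b (pderiv i w) := fun j => by
    rw [hU]
    exact (h1 M (K3 R⁻¹) b (P : ℂ) w).2.2.2 j
  have hU0 : U ≠ 0 := by
    intro h0
    apply hw
    apply MvPolynomial.funext
    intro x
    rw [map_zero]
    have h6 := hevs w ![x 0, x 1, (x 2 / y + x 3 / z) / 2 - 1, (x 2 / y - x 3 / z) / (2 * κ)]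
    rw [← hU, h0, map_zero] at h6
    rw [h6]
    congr 1
    apply congrArg
    funext i
    rw [hb, hM]
    fin_cases i <;> simp [Fin.sum_univ_four] <;> field_simp <;> ring
  have s0 : sub M b (X 0) = X 0 := by
    rw [hM, hb]
    simp [sub, Fin.sum_univ_four]
  have s1 : sub M b (X 1) = X 1 := by
    rw [hM, hb]
    simp [sub, Fin.sum_univ_four]
  have s2 : sub M b (X 2) = C y + C y * X 2 + C (κ * y) * X 3 := by
    rw [hM, hb]
    simp [sub, Fin.sum_univ_four]
    try ring
  have s3 : sub M b (X 3) = C z + C z * X 2 - C (κ * z) * X 3 := by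
    rw [hM, hb]
    simp [sub, Fin.sum_univ_four]
    try ring
  have hmulS : ∀ u v, sub M b (u * v) = sub M b u * sub M b v := fun u v => map_mul _ u v
  have haddS : ∀ u v, sub M b (u + v) = sub M b u + sub M b v := fun u v => map_add _ u v
  have hCS : ∀ c : ℂ, sub M b (C c) = C c := fun c => by simp [sub]
  have p0 : pderiv 0 U = sub M b (pderiv 0 w) := by
    rw [hpd, hM]
    simp [Fin.sum_univ_four]
  have p1 : pderiv 1 U = sub M b (pderiv 1 w) := by
    rw [hpd, hM]
    simp [Fin.sum_univ_four]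
  have p2 : pderiv 2 U = C y * sub M b (pderiv 2 w) + C z * sub M b (pderiv 3 w) := by
    rw [hpd, hM]
    simp [Fin.sum_univ_four]
  have p3 : pderiv 3 U = C (κ * y) * sub M b (pderiv 2 w) - C (κ * z) * sub M b (pderiv 3 w) := by
    rw [hpd, hM]
    simp [Fin.sum_univ_four]
    try ring
  have hUs : ∀ d ∈ U.support, d 0 = a + d 1 := by
    rw [LocII_supp_iff, p0, p1]
    have h6 := congrArg (sub M b) ((LocII_supp_iff a w).1 hsupp)
    rw [hmulS, haddS, hmulS, hmulS, hCS, s0, s1, ← hU] at h6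
    exact h6
  have hEuler : X 0 * pderiv 0 U + X 1 * pderiv 1 U + (1 + X 2) * pderiv 2 U +
      X 3 * pderiv 3 U = C (m : ℂ) * U := by
    have h6 := congrArg (sub M b) hhom.sum_X_mul_pderiv
    rw [Fin.sum_univ_four, haddS, haddS, haddS, hmulS, hmulS, hmulS, hmulS, s0, s1, s2, s3,
      nsmul_eq_mul, hmulS, ← hU] at h6
    have h7 : sub M b ((m : MvPolynomial (Fin 4) ℂ)) = C (m : ℂ) := by
      have h8 : (m : MvPolynomial (Fin 4) ℂ) = C (m : ℂ) := by simp
      rw [h8, hCS]
    rw [h7] at h6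
    rw [← h6, p0, p1, p2, p3]
    simp only [C_mul]
    ring
  -- values at the point
  have hx0 : ∀ u : MvPolynomial (Fin 4) ℂ, eval ![1, 0, 0, 0] (sub M b u) =
      eval ![1, 0, y, z] u := by
    intro u
    rw [hevs]
    apply congrArg (fun x => eval x u)
    funext i
    rw [hM, hb]
    fin_cases i <;> simp [Fin.sum_univ_four]
  have hd0 : eval ![1, 0, y, z] (pderiv 0 w) = 0 := by
    have h6 := congrArg (eval ![1, 0, y, z]) ((LocII_supp_iff a w).1 hsupp)
    simpa [hev] using h6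
  have hd23 : y * eval ![1, 0, y, z] (pderiv 2 w) + z * eval ![1, 0, y, z] (pderiv 3 w) = 0 := by
    have h6 := congrArg (eval ![1, 0, y, z]) hhom.sum_X_mul_pderiv
    rw [Fin.sum_univ_four] at h6
    simpa [hev, hd0] using h6
  have hNN : eval ![1, 0, y, z] (pderiv 2 w) * eval ![1, 0, y, z] (pderiv 3 w) = 0 := by
    rw [eval_N, hd0] at hN
    simpa using hN
  have hd2 : eval ![1, 0, y, z] (pderiv 2 w) = 0 := by
    rcases mul_eq_zero.1 hNN with h6 | h6
    · exact h6
    · rw [h6, mul_zero, add_zero] at hd23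
      exact (mul_eq_zero.1 hd23).resolve_left hy
  have hd3 : eval ![1, 0, y, z] (pderiv 3 w) = 0 := by
    rw [hd2, mul_zero, zero_add] at hd23
    exact (mul_eq_zero.1 hd23).resolve_left hz
  have c0 : coeff (mk a 0 0 0) U = 0 := by
    rw [← LocII_eval a U hUs, hU, hx0, hev]
  have c2 : coeff (mk a 0 1 0) U = 0 := by
    have h6 : coeff (mk a 0 0 0) (pderiv 2 U) = 0 := by
      rw [← LocII_eval a _ (LocII_supp_pderiv hUs 2 (by decide) (by decide)), p2]
      simp only [map_add, map_mul, eval_C, hx0, hd2, hd3]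
      ring
    rw [coeff_pderiv] at h6
    have h7 : mk a 0 0 0 + Finsupp.single 2 1 = mk a 0 1 0 := by
      apply ext4 <;> simp
    rw [h7] at h6
    simpa using h6
  have c3 : coeff (mk a 0 0 1) U = 0 := by
    have h6 : coeff (mk a 0 0 0) (pderiv 3 U) = 0 := by
      rw [← LocII_eval a _ (LocII_supp_pderiv hUs 3 (by decide) (by decide)), p3]
      simp only [map_sub, map_mul, eval_C, hx0, hd2, hd3]
      ring
    rw [coeff_pderiv] at h6
    have h7 : mk a 0 0 0 + Finsupp.single 3 1 = mk a 0 0 1 := by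
      apply ext4 <;> simp
    rw [h7] at h6
    simpa using h6
  -- the initial form
  obtain ⟨W, hW, hWne⟩ := exists_min_wt ![0, 2, 1, 1] hU0
  have hwt : ∀ d : Fin 4 →₀ ℕ, wt ![0, 2, 1, 1] d = 2 * d 1 + d 2 + d 3 := by
    intro d
    rw [wt_four]
    simp
  have hW2 : 2 ≤ W := by
    by_contra hlt
    obtain ⟨d, hd⟩ := support_nonempty.2 hWne
    rw [mem_support_ini, hwt] at hd
    obtain ⟨hd1, hd⟩ := hd
    have h6 := hUs d hd
    have h7 : d = mk a 0 0 0 ∨ d = mk a 0 1 0 ∨ d = mk a 0 0 1 := by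
      have h8 : d 1 = 0 := by omega
      have h9 : (d 2 = 0 ∧ d 3 = 0) ∨ (d 2 = 1 ∧ d 3 = 0) ∨ (d 2 = 0 ∧ d 3 = 1) := by omega
      rcases h9 with ⟨h10, h11⟩ | ⟨h10, h11⟩ | ⟨h10, h11⟩
      · left
        apply ext4 <;> simp [h6, h8, h10, h11]
      · right; left
        apply ext4 <;> simp [h6, h8, h10, h11]
      · right; right
        apply ext4 <;> simp [h6, h8, h10, h11]
    rw [mem_support_iff] at hd
    rcases h7 with h7 | h7 | h7
    · rw [h7] at hd
      exact hd c0
    · rw [h7] at hd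
      exact hd c2
    · rw [h7] at hd
      exact hd c3
  have hE0 : E (K3 R⁻¹) (P : ℂ) (ini ![0, 2, 1, 1] W U) = 0 := by
    apply h3 4 ![0, 2, 1, 1] 2 W (K3 R⁻¹) (P : ℂ) U _ hW hEU
    intro i j hij
    fin_cases i <;> fin_cases j <;> simp [K3] at hij ⊢
  have hD0 : pderiv 2 (ini ![0, 2, 1, 1] W U) = 0 := by
    have h6 := h4 ![0, 2, 1, 1] 1 W ![X 0, X 1, 1 + X 2, X 3] ![0, 0, 1, 0] (m : ℂ) U
      (by norm_num) hW
      (by
        intro i d hd
        have h7 : (![X 0, X 1, 1 + X 2, X 3] : Fin 4 → MvPolynomial (Fin 4) ℂ) i -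
            (![0, 0, 1, 0] : Fin 4 → MvPolynomial (Fin 4) ℂ) i = X i := by
          fin_cases i <;> simp
        rw [h7, support_X, Finset.mem_singleton] at hd
        rw [hd, hwt]
        fin_cases i <;> simp)
      (by
        intro i d hd
        fin_cases i
        · simp at hd
        · simp at hd
        · have h7 : d = 0 := by
            by_contra hne
            rw [mem_support_iff] at hd
            apply hd
            have h8 : (![0, 0, 1, 0] : Fin 4 → MvPolynomial (Fin 4) ℂ) 2 = C 1 := by simp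
            change coeff d ((![0, 0, 1, 0] : Fin 4 → MvPolynomial (Fin 4) ℂ) 2) = 0
            rw [h8, coeff_C, if_neg (fun h => hne h.symm)]
          rw [h7, hwt]
          simp
        · simp at hd)
      (by
        rw [Fin.sum_univ_four, ← hEuler]
        simp)
    rw [Fin.sum_univ_four] at h6
    simpa using h6
  refine h5 P hP hP0 R hR0 0 a W hW2 _ hWne hE0 ?_ ?_
  · intro d hd
    rw [mem_support_ini, hwt] at hd
    exact ⟨hUs d hd.2, hd.1⟩
  · rw [hD0]
    simp

end

end Pool.PN4
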