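import Pool.Agent.PN4.Stmts
import Pool.Agent.PN4.Basic

set_option autoImplicit false

open MvPolynomial

namespace Pool.PN4

noncomputable section

lemma LocIII_supp (α : ℂ) (β : Fin 4 → ℂ) {d : Fin 4 →₀ ℕ}
    (hd : d ∈ (C α + ∑ j, C (β j) * X j : MvPolynomial (Fin 4) ℂ).support) :
    (d = 0 ∧ α ≠ 0) ∨ ∃ j, β j ≠ 0 ∧ d = Finsupp.single j 1 := by
  classical
  by_contra hcon
  push Not at hcon
  obtain ⟨h1, h2⟩ := hcon
  rw [mem_support_iff] at hd
  apply hd
  rw [coeff_add, coeff_sum, coeff_C]
  have e1 : (if (0 : Fin 4 →₀ ℕ) = d then α else 0) = 0 := by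
    split_ifs with h
    · exact h1 h.symm
    · rfl
  rw [e1, zero_add]
  refine Finset.sum_eq_zero fun j _ => ?_
  rw [coeff_C_mul, coeff_X]
  split_ifs with h
  · by_cases hb : β j = 0
    · rw [hb, zero_mul]
    · exact absurd h.symm (h2 j hb)
  · rw [mul_zero]

lemma LocIII_wt (ω : Fin 4 → ℕ) (j : Fin 4) : wt ω (Finsupp.single j 1) = ω j := by
  unfold wt
  rw [Finset.sum_eq_single j]
  · simp
  · intro i _ hi
    rw [Finsupp.single_eq_of_ne hi, mul_zero]
  · simp

lemma LocIII_wt0 (ω : Fin 4 → ℕ) : wt ω 0 = 0 := by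
  unfold wt
  simp

lemma LocIII_subX (M : Matrix (Fin 4) (Fin 4) ℂ) (b : Fin 4 → ℂ) (k : Fin 4) :
    sub M b (X k) = C (b k) + ∑ j, C (M k j) * X j := by
  unfold sub
  rw [bind₁_X_right]

/-- transport of the diagonal derivation with weights `l` -/
lemma LocIII_transport (h1 : St_Sub) {M N : Matrix (Fin 4) (Fin 4) ℂ} (hMN : M * N = 1)
    (b l : Fin 4 → ℂ) (w : MvPolynomial (Fin 4) ℂ) :
    ∑ i, (C (∑ k, N i k * l k * b k) + ∑ j, C (∑ k, N i k * l k * M k j) * X j) *
      pderiv i (sub M b w) = sub M b (∑ k, C (l k) * (X k * pderiv k w)) := by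
  have hpd : ∀ i, pderiv i (sub M b w) = ∑ k, C (M k i) * sub M b (pderiv k w) :=
    (h1 M 1 b 0 w).2.2.2
  have hc : ∀ i, (C (∑ k, N i k * l k * b k) + ∑ j, C (∑ k, N i k * l k * M k j) * X j :
      MvPolynomial (Fin 4) ℂ) = ∑ k, C (N i k * l k) * sub M b (X k) := by
    intro i
    simp only [LocIII_subX, mul_add, Finset.sum_add_distrib, map_sum, Finset.sum_mul,
      Finset.mul_sum]
    congr 1
    · refine Finset.sum_congr rfl fun k _ => ?_
      rw [C_mul]
    · rw [Finset.sum_comm]
      refine Finset.sum_congr rfl fun k _ => Finset.sum_congr rfl fun j _ => ?_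
      rw [C_mul, mul_assoc]
  have hone : ∀ p k, ∑ i, M p i * N i k = if p = k then 1 else 0 := by
    intro p k
    have := congrFun (congrFun hMN p) k
    rw [Matrix.mul_apply, Matrix.one_apply] at this
    exact this
  calc ∑ i, (C (∑ k, N i k * l k * b k) + ∑ j, C (∑ k, N i k * l k * M k j) * X j) *
      pderiv i (sub M b w)
      = ∑ i, (∑ k, C (N i k * l k) * sub M b (X k)) * (∑ p, C (M p i) * sub M b (pderiv p w)) := by
        refine Finset.sum_congr rfl fun i _ => ?_
        rw [hc, hpd]
    _ = ∑ k, ∑ p, (∑ i, C (M p i * N i k)) * (C (l k) * sub M b (X k) * sub M b (pderiv p w)) := by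
        simp only [Finset.sum_mul_sum]
        rw [Finset.sum_comm]
        refine Finset.sum_congr rfl fun k _ => ?_
        rw [Finset.sum_comm]
        refine Finset.sum_congr rfl fun p _ => ?_
        rw [Finset.sum_mul]
        refine Finset.sum_congr rfl fun i _ => ?_
        rw [C_mul, C_mul]
        ring
    _ = ∑ k, C (l k) * sub M b (X k) * sub M b (pderiv k w) := by
        refine Finset.sum_congr rfl fun k _ => ?_
        rw [Finset.sum_eq_single k]
        · rw [← map_sum, hone, if_pos rfl, C_1, one_mul]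
        · intro p _ hp
          rw [← map_sum, hone, if_neg hp, C_0, zero_mul]
        · simp
    _ = sub M b (∑ k, C (l k) * (X k * pderiv k w)) := by
        unfold sub
        simp only [map_sum, map_mul]
        refine Finset.sum_congr rfl fun k _ => ?_
        rw [bind₁_C_right, mul_assoc]

lemma LocIII_Dlam (A0 B0 : ℂ) (w : MvPolynomial (Fin 4) ℂ) :
    ∑ k, C ((![A0, -A0, B0, -B0] : Fin 4 → ℂ) k) * (X k * pderiv k w) = Dlam A0 B0 w := by
  unfold Dlam
  simp [Fin.sum_univ_four]
  ring

lemma LocIII_Hm2 : Hm * Hm = 1 := by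
  unfold Hm
  ext i j
  fin_cases i <;> fin_cases j <;> simp [Matrix.mul_apply, Fin.sum_univ_four]

lemma LocIII_gram (M : Matrix (Fin 4) (Fin 4) ℂ) (i j : Fin 4) :
    (M.transpose * Hm * M) i j = bil (fun k => M k i) (fun k => M k j) := by
  unfold Hm bil
  simp [Matrix.mul_apply, Fin.sum_univ_four]
  ring

lemma LocIII_row (M : Matrix (Fin 4) (Fin 4) ℂ) (i : Fin 4) (y : Fin 4 → ℂ) :
    ∑ k, (M.transpose * Hm) i k * y k = bil (fun k => M k i) y := by
  unfold Hm bil
  simp [Matrix.mul_apply, Fin.sum_univ_four]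
  ring

lemma LocIII_bil_lam (A0 B0 : ℂ) (x y : Fin 4 → ℂ) :
    bil x (fun k => (![A0, -A0, B0, -B0] : Fin 4 → ℂ) k * y k) = - bil (lamv A0 B0 x) y := by
  unfold bil lamv
  simp
  ring

lemma LocIII_lamv (A0 B0 : ℂ) (x : Fin 4 → ℂ) (k : Fin 4) :
    lamv A0 B0 x k = (![A0, -A0, B0, -B0] : Fin 4 → ℂ) k * x k := by
  unfold lamv
  fin_cases k <;> simp

lemma LocIII_bil_comm (x y : Fin 4 → ℂ) : bil x y = bil y x := by
  unfold bil
  ring

lemma LocIII_bil_lam_self (A0 B0 : ℂ) (x : Fin 4 → ℂ) : bil x (lamv A0 B0 x) = 0 := by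
  unfold bil lamv
  simp
  ring

lemma LocIII_sub_ne {M N : Matrix (Fin 4) (Fin 4) ℂ} (h1 : St_Sub) (hMN : M * N = 1)
    (b : Fin 4 → ℂ) {w : MvPolynomial (Fin 4) ℂ} (hw : w ≠ 0) : sub M b w ≠ 0 := by
  intro h0
  apply hw
  apply MvPolynomial.funext
  intro y
  have hev := (h1 M 1 b 0 w).2.2.1 (fun i => ∑ k, N i k * (y k - b k))
  rw [h0, map_zero] at hev
  have h5 : (fun i => b i + ∑ j, M i j * ∑ k, N j k * (y k - b k)) = y := by
    refine _root_.funext fun i => ?_
    have h2 : ∑ j, M i j * ∑ k, N j k * (y k - b k) = y i - b i := by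
      have h3 : ∀ z : Fin 4 → ℂ, (M * N).mulVec z = z := by
        intro z; rw [hMN, Matrix.one_mulVec]
      have h4 := congrFun (h3 (fun k => y k - b k)) i
      rw [← Matrix.mulVec_mulVec] at h4
      exact h4
    rw [h2]
    ring
  rw [h5] at hev
  rw [map_zero, ← hev]

lemma LocIII_sub_hom {M : Matrix (Fin 4) (Fin 4) ℂ} {w : MvPolynomial (Fin 4) ℂ} {m : ℕ}
    (hw : w.IsHomogeneous m) : (sub M 0 w).IsHomogeneous m := by
  have h := hw.aeval (n := 1) (fun i => C ((0 : Fin 4 → ℂ) i) + ∑ j, C (M i j) * X j :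
    Fin 4 → MvPolynomial (Fin 4) ℂ) (fun i => by
      rw [Pi.zero_apply, C_0, zero_add]
      refine IsHomogeneous.sum _ _ _ fun j _ => ?_
      exact (isHomogeneous_X ℂ j).C_mul _)
  rw [one_mul] at h
  exact h

lemma LocIII_K3 {R : ℂ} (hR : R ≠ 0) : K3 R * K3 R⁻¹ = 1 := by
  unfold K3
  ext i j
  fin_cases i <;> fin_cases j <;> simp [Matrix.mul_apply, Fin.sum_univ_four, hR]

lemma LocIII_inv {M K K' : Matrix (Fin 4) (Fin 4) ℂ} (h2 : St_Gram)
    (hM : M.transpose * Hm * M = K) (hK : K * K' = 1) :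
    M * (K' * M.transpose * Hm) = 1 ∧ M * K' * M.transpose = Hm := by
  have h := h2 M K K' hM hK
  refine ⟨?_, h⟩
  rw [← Matrix.mul_assoc, ← Matrix.mul_assoc, h, LocIII_Hm2]

lemma LocIII_coeff_pderiv (i : Fin 4) (d : Fin 4 →₀ ℕ) (u : MvPolynomial (Fin 4) ℂ) :
    coeff d (pderiv i u) = ((d i : ℂ) + 1) * coeff (d + Finsupp.single i 1) u := by
  rw [coeff_pderiv]
  ring

/-- module D2 -/
theorem thm_LocIII (h1 : St_Sub) (h2 : St_Gram) (h3 : St_Init) (h4 : St_InitD) (h5 : St_FrIII) (h6 : St_Strip) : St_LocIII := by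
  classical
  intro P hP hP0 m w hw hhom hsol A0 B0 μ hD x hx hxx hvv hwx hdir
  set v := lamv A0 B0 x with hv
  set R := bil v v with hRdef
  have hxv : bil x v = 0 := LocIII_bil_lam_self A0 B0 x
  obtain ⟨M, hM0, hM2, hMK⟩ := h5 x v hx hxx hxv hvv
  obtain ⟨hMN, hMG⟩ := LocIII_inv h2 hMK (LocIII_K3 hvv)
  set N := K3 R⁻¹ * M.transpose * Hm with hN
  have hNM : N * M = 1 := mul_eq_one_comm.1 hMN
  set W := sub M 0 w with hW
  have hWne : W ≠ 0 := LocIII_sub_ne h1 hMN 0 hw
  have hWhom : W.IsHomogeneous m := LocIII_sub_hom hhom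
  have hEW : E (K3 R⁻¹) (P : ℂ) W = 0 := by
    have h := (h1 M (K3 R⁻¹) 0 (P : ℂ) w).2.1
    rw [hMG] at h
    unfold Sol at hsol
    rw [hsol] at h
    rw [hW, h]
    unfold sub
    rw [map_zero]
  -- the derivation
  set l : Fin 4 → ℂ := ![A0, -A0, B0, -B0] with hl
  have htr := LocIII_transport h1 hMN 0 l w
  rw [hl, LocIII_Dlam, hD, ← hl] at htr
  have hCμ : sub M 0 (C μ * w) = C μ * W := by
    rw [hW]
    unfold sub
    rw [map_mul, bind₁_C_right]
  rw [hCμ] at htr
  simp only [Pi.zero_apply, mul_zero, Finset.sum_const_zero] at htr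
  set Λ : Fin 4 → Fin 4 → ℂ := fun i j => ∑ k, N i k * l k * M k j with hΛ
  have hΛ0 : ∀ i, Λ i 0 = if i = 2 then 1 else 0 := by
    intro i
    have h7 := congrFun (congrFun hNM i) 2
    rw [Matrix.mul_apply, Matrix.one_apply] at h7
    rw [← h7, hΛ]
    refine Finset.sum_congr rfl fun k _ => ?_
    rw [hM0, hM2, hv, LocIII_lamv, mul_assoc]
  have hΛ1 : ∀ j, Λ 1 j = - K3 R 2 j := by
    intro j
    have h7 : ∀ k, N 1 k = (M.transpose * Hm) 0 k := by
      intro k
      rw [hN, Matrix.mul_assoc, Matrix.mul_apply]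
      simp [K3, Fin.sum_univ_four]
    have h8 : Λ 1 j = ∑ k, (M.transpose * Hm) 0 k * (l k * M k j) := by
      rw [hΛ]
      refine Finset.sum_congr rfl fun k _ => ?_
      rw [h7, mul_assoc]
    rw [h8, LocIII_row, hl, LocIII_bil_lam, ← hMK, LocIII_gram]
    have e1 : (fun k => M k 0) = x := _root_.funext hM0
    have e2 : (fun k => M k 2) = v := _root_.funext hM2
    rw [e1, e2]
  -- the initial form
  set ω : Fin 4 → ℕ := ![0, 2, 1, 1] with hω
  obtain ⟨W0, hmin, hne⟩ := exists_min_wt ω hWne
  set U := ini ω W0 W with hU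
  have hEU : E (K3 R⁻¹) (P : ℂ) U = 0 := by
    refine h3 4 ω 2 W0 (K3 R⁻¹) (P : ℂ) W ?_ hmin hEW
    intro i j hij
    fin_cases i <;> fin_cases j <;> simp [K3, hω] at hij ⊢
  have hUD : X 0 * pderiv 2 U = C (((1 : ℕ) : ℂ) * R) * (X 2 * pderiv 1 U) := by
    have h := h4 ω 1 W0 (fun i => C 0 + ∑ j, C (Λ i j) * X j)
      (fun i => C 0 + ∑ j, C (if ω j + 1 = ω i then Λ i j else 0) * X j) μ W one_pos hmin ?_ ?_ htr
    · have e : ∀ i, (C 0 + ∑ j, C (if ω j + 1 = ω i then Λ i j else 0) * X j :
          MvPolynomial (Fin 4) ℂ) = ![0, C (-R) * X 2, X 0, 0] i := by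
        intro i
        fin_cases i
        · simp [hω]
        · have a1 := hΛ1 2
          have a2 := hΛ1 3
          simp [K3] at a1 a2
          simp [Fin.sum_univ_four, hω, a1, a2]
        · have a1 := hΛ0 2
          simp at a1
          simp [Fin.sum_univ_four, hω, a1]
        · have a1 := hΛ0 3
          simp at a1
          simp [Fin.sum_univ_four, hω, a1]
      simp only [e] at h
      simp only [Fin.sum_univ_four] at h
      simp only [Matrix.cons_val_zero, Matrix.cons_val_one, Matrix.cons_val, zero_mul, zero_add,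
        add_zero] at h
      rw [Nat.cast_one, one_mul]
      rw [C_neg] at h
      linear_combination h
    · intro i d hd
      have e : (C 0 + ∑ j, C (Λ i j) * X j - (C 0 + ∑ j, C (if ω j + 1 = ω i then Λ i j else 0) *
          X j) : MvPolynomial (Fin 4) ℂ) =
          C 0 + ∑ j, C (Λ i j - if ω j + 1 = ω i then Λ i j else 0) * X j := by
        rw [add_sub_add_left_eq_sub, ← Finset.sum_sub_distrib, C_0, zero_add]
        refine Finset.sum_congr rfl fun j _ => ?_
        rw [C_sub, sub_mul]
      rw [e] at hd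
      rcases LocIII_supp _ _ hd with ⟨-, h7⟩ | ⟨j, hj, rfl⟩
      · exact absurd rfl h7
      · rw [LocIII_wt]
        by_cases hij : ω j + 1 = ω i
        · rw [if_pos hij, sub_self] at hj
          exact absurd rfl hj
        · rw [if_neg hij, sub_zero] at hj
          have a0 := hΛ0 i
          fin_cases i <;> fin_cases j <;> simp [hω] at hij hj a0 ⊢
          exact hj a0
    · intro i d hd
      rcases LocIII_supp _ _ hd with ⟨-, h7⟩ | ⟨j, hj, rfl⟩
      · exact absurd rfl h7
      · rw [LocIII_wt]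
        by_contra hij
        rw [if_neg hij] at hj
        exact hj rfl
  -- weights
  have hUhom : U.IsHomogeneous m := ini_hom ω W0 hWhom
  have hsupp : ∀ d ∈ U.support, 2 * d 1 + d 2 + d 3 = W0 := by
    intro d hd
    have h := (mem_support_ini.1 hd).1
    rw [wt_four] at h
    simp [hω] at h
    omega
  have hW02 : 2 ≤ W0 := by
    by_contra hlt
    push Not at hlt
    obtain ⟨d, hd⟩ := support_nonempty.2 hne
    have h7 := hsupp d hd
    have h8 := hom_four hUhom hd
    have hdW : d ∈ W.support := (mem_support_ini.1 hd).2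
    have hev0 : (fun i => (0 : Fin 4 → ℂ) i + ∑ j, M i j * (Pi.single 0 1 : Fin 4 → ℂ) j) = x := by
      refine _root_.funext fun i => ?_
      rw [Pi.zero_apply, zero_add, Finset.sum_eq_single 0]
      · rw [Pi.single_eq_same, mul_one, hM0]
      · intro j _ hj
        rw [Pi.single_eq_of_ne hj, mul_zero]
      · simp
    -- values of the polynomial at the first unit vector
    have hval : ∀ (f : MvPolynomial (Fin 4) ℂ) (n : ℕ), f.IsHomogeneous n →
        eval (Pi.single 0 1 : Fin 4 → ℂ) f = coeff (Finsupp.single 0 n) f := by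
      intro f n hf
      rw [eval_eq']
      by_cases hc : Finsupp.single 0 n ∈ f.support
      · rw [Finset.sum_eq_single (Finsupp.single 0 n)]
        · rw [Finset.prod_eq_one, mul_one]
          intro i _
          by_cases hi : i = 0
          · subst hi; simp
          · rw [Finsupp.single_eq_of_ne hi, pow_zero]
        · intro e he hne'
          have h9 := hom_four hf he
          obtain ⟨i, hi0, hi⟩ : ∃ i : Fin 4, i ≠ 0 ∧ e i ≠ 0 := by
            by_contra hcon
            push Not at hcon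
            apply hne'
            have b1 := hcon 1 (by decide)
            have b2 := hcon 2 (by decide)
            have b3 := hcon 3 (by decide)
            apply ext4
            · rw [Finsupp.single_eq_same]; omega
            · rw [b1]; simp
            · rw [b2]; simp
            · rw [b3]; simp
          rw [Finset.prod_eq_zero (Finset.mem_univ i), mul_zero]
          rw [Pi.single_eq_of_ne hi0, zero_pow hi]
        · intro h; exact absurd hc h
      · rw [notMem_support_iff.1 hc]
        refine Finset.sum_eq_zero fun e he => ?_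
        have h9 := hom_four hf he
        obtain ⟨i, hi0, hi⟩ : ∃ i : Fin 4, i ≠ 0 ∧ e i ≠ 0 := by
          by_contra hcon
          push Not at hcon
          apply hc
          have b1 := hcon 1 (by decide)
          have b2 := hcon 2 (by decide)
          have b3 := hcon 3 (by decide)
          have : e = Finsupp.single 0 n := by
            apply ext4
            · rw [Finsupp.single_eq_same]; omega
            · rw [b1]; simp
            · rw [b2]; simp
            · rw [b3]; simp
          rwa [← this]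
        rw [Finset.prod_eq_zero (Finset.mem_univ i), mul_zero]
        rw [Pi.single_eq_of_ne hi0, zero_pow hi]
    have hWx : eval (Pi.single 0 1 : Fin 4 → ℂ) W = 0 := by
      rw [hW, (h1 M 1 0 0 w).2.2.1, hev0, hwx]
    have hWd : ∀ j, j ≠ 1 → eval (Pi.single 0 1 : Fin 4 → ℂ) (pderiv j W) = 0 := by
      intro j hj
      rw [hW, (h1 M 1 0 0 w).2.2.2 j, map_sum]
      have h9 : bil x (fun k => M k j) = 0 := by
        have e1 : (fun k => M k 0) = x := _root_.funext hM0
        have e3 := LocIII_gram M 0 j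
        rw [e1, hMK] at e3
        rw [← e3]
        fin_cases j <;> simp [K3] at hj ⊢
      have h10 := hdir _ h9
      unfold dir at h10
      rw [← h10]
      refine Finset.sum_congr rfl fun k _ => ?_
      rw [map_mul, eval_C, (h1 M 1 0 0 (pderiv k w)).2.2.1, hev0]
    have hcase : d = Finsupp.single 0 m ∨ ∃ j, j ≠ 0 ∧ j ≠ 1 ∧
        d = Finsupp.single 0 (m - 1) + Finsupp.single j 1 ∧ 1 ≤ m := by
      by_cases c2 : d 2 = 1
      · right
        refine ⟨2, by decide, by decide, ?_, by omega⟩
        apply ext4 <;> simp <;> omega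
      · by_cases c3 : d 3 = 1
        · right
          refine ⟨3, by decide, by decide, ?_, by omega⟩
          apply ext4 <;> simp <;> omega
        · left
          apply ext4 <;> simp <;> omega
    rw [mem_support_iff] at hdW
    rcases hcase with rfl | ⟨j, hj0, hj1, rfl, hm1⟩
    · rw [← hval W m hWhom] at hdW
      exact hdW hWx
    · have h9 := hval (pderiv j W) (m - 1) hWhom.pderiv
      rw [hWd j hj1, LocIII_coeff_pderiv, Finsupp.single_eq_of_ne hj0] at h9
      rw [Nat.cast_zero, zero_add, one_mul] at h9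
      exact hdW h9.symm
  have hle : W0 ≤ m := by
    by_contra hlt
    push Not at hlt
    obtain ⟨d, hd, hdmin⟩ := Finset.exists_min_image U.support (fun d => d 0)
      (support_nonempty.2 hne)
    have h7 := hsupp d hd
    have h8 := hom_four hUhom hd
    have hd1 : 1 ≤ d 1 := by omega
    -- compare coefficients
    obtain ⟨e, he⟩ : ∃ e : Fin 4 →₀ ℕ, d = e + Finsupp.single 1 1 :=
      ⟨d - Finsupp.single 1 1, by
        ext i
        by_cases hi : i = 1
        · subst hi; simp; omega
        · simp [Ne.symm hi]⟩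
    have hco := congrArg (coeff (e + Finsupp.single 2 1)) hUD
    rw [coeff_C_mul, mul_comm (X 2), coeff_mul_X, LocIII_coeff_pderiv, ← he] at hco
    have hne2 : (((1 : ℕ) : ℂ) * R) * (((e 1 : ℂ) + 1) * coeff d U) ≠ 0 := by
      rw [Nat.cast_one, one_mul]
      refine mul_ne_zero hvv (mul_ne_zero ?_ (mem_support_iff.1 hd))
      exact_mod_cast Nat.succ_ne_zero (e 1)
    rw [← hco] at hne2
    apply hne2
    rw [mul_comm, coeff_mul_X']
    split_ifs with h9
    · rw [LocIII_coeff_pderiv]
      have h10 : coeff (e + Finsupp.single 2 1 - Finsupp.single 0 1 + Finsupp.single 2 1) U = 0 := by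
        rw [← notMem_support_iff]
        intro hmem
        have h11 := hdmin _ hmem
        have h12 : e 0 ≠ 0 := by
          rw [Finsupp.mem_support_iff] at h9
          simpa using h9
        have h13 : d 0 = e 0 := by rw [he]; simp
        simp at h11
        omega
      rw [h10, mul_zero]
    · rfl
  refine h6 P hP hP0 R hvv 1 (m - W0) W0 hW02 U hne hEU ?_ hUD
  intro d hd
  have h7 := hsupp d hd
  have h8 := hom_four hUhom hd
  omega

end

end Pool.PN4
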