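import Pool.Agent.PN4.Stmts
import Pool.Agent.PN4.Basic
import Pool.Agent.PN4.LocIII

set_option autoImplicit false

open MvPolynomial

namespace Pool.PN4

noncomputable section

/-- the embedding of the last two coordinates -/
def LocIa_io : Fin 2 → Fin 4 := ![2, 3]

lemma LocIa_io_inj : Function.Injective LocIa_io := by decide

lemma LocIa_pd2 (g : MvPolynomial (Fin 2) ℂ) :
    pderiv 2 (rename LocIa_io g) = rename LocIa_io (pderiv 0 g) :=
  pderiv_rename LocIa_io_inj (x := 0) (p := g)

lemma LocIa_pd3 (g : MvPolynomial (Fin 2) ℂ) :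
    pderiv 3 (rename LocIa_io g) = rename LocIa_io (pderiv 1 g) :=
  pderiv_rename LocIa_io_inj (x := 1) (p := g)

lemma LocIa_pd (i : Fin 4) (hi : ∀ j, LocIa_io j ≠ i) (g : MvPolynomial (Fin 2) ℂ) :
    pderiv i (rename LocIa_io g) = 0 := by
  classical
  apply pderiv_eq_zero_of_notMem_vars
  intro h
  have h1 := vars_rename LocIa_io g h
  rw [Finset.mem_image] at h1
  obtain ⟨j, -, hj⟩ := h1
  exact hi j hj

lemma LocIa_pd0 (g : MvPolynomial (Fin 2) ℂ) : pderiv 0 (rename LocIa_io g) = 0 :=
  LocIa_pd 0 (by decide) g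

lemma LocIa_pd1 (g : MvPolynomial (Fin 2) ℂ) : pderiv 1 (rename LocIa_io g) = 0 :=
  LocIa_pd 1 (by decide) g

lemma LocIa_B (r s : ℂ) (g h : MvPolynomial (Fin 2) ℂ) :
    B (K1 r s) (rename LocIa_io g) (rename LocIa_io h) = rename LocIa_io (B H2 g h) := by
  unfold B
  simp only [Fin.sum_univ_four, Fin.sum_univ_two, LocIa_pd0, LocIa_pd1, LocIa_pd2, LocIa_pd3]
  simp [K1, H2]

lemma LocIa_L (r s : ℂ) (g : MvPolynomial (Fin 2) ℂ) :
    L (K1 r s) (rename LocIa_io g) = rename LocIa_io (L H2 g) := by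
  unfold L
  simp only [Fin.sum_univ_four, Fin.sum_univ_two, LocIa_pd0, LocIa_pd1, LocIa_pd2, LocIa_pd3]
  simp [K1, H2]

lemma LocIa_E (r s P : ℂ) (g : MvPolynomial (Fin 2) ℂ) :
    E (K1 r s) P (rename LocIa_io g) = rename LocIa_io (E H2 P g) := by
  unfold E
  rw [LocIa_B, LocIa_B, LocIa_L, map_add, map_mul, map_mul, rename_C]

/-- setting the first two variables to zero -/
def LocIa_pr : MvPolynomial (Fin 4) ℂ →ₐ[ℂ] MvPolynomial (Fin 2) ℂ :=
  aeval (![0, 0, X 0, X 1] : Fin 4 → MvPolynomial (Fin 2) ℂ)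

lemma LocIa_map (e : Fin 2 →₀ ℕ) : Finsupp.mapDomain LocIa_io e = mk 0 0 (e 0) (e 1) := by
  apply ext4
  · rw [Finsupp.mapDomain_of_notMem_range]
    · rfl
    · rintro ⟨j, hj⟩
      revert hj
      revert j
      decide
  · rw [Finsupp.mapDomain_of_notMem_range]
    · rfl
    · rintro ⟨j, hj⟩
      revert hj
      revert j
      decide
  · exact Finsupp.mapDomain_apply LocIa_io_inj e 0
  · exact Finsupp.mapDomain_apply LocIa_io_inj e 1

lemma LocIa_coeff (Q : MvPolynomial (Fin 4) ℂ) (e : Fin 2 →₀ ℕ) :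
    coeff e (LocIa_pr Q) = coeff (mk 0 0 (e 0) (e 1)) Q := by
  classical
  induction Q using MvPolynomial.induction_on' with
  | monomial d c =>
    unfold LocIa_pr
    rw [aeval_monomial, Finsupp.prod_fintype _ _ (by simp), Fin.prod_univ_four, coeff_monomial]
    simp only [Matrix.cons_val_zero, Matrix.cons_val_one, Matrix.cons_val]
    by_cases h0 : d 0 = 0
    · by_cases h1 : d 1 = 0
      · rw [h0, h1, pow_zero, one_mul, one_mul]
        change coeff e (C c * (X 0 ^ d 2 * X 1 ^ d 3)) = _
        have hm : (X 0 ^ d 2 * X 1 ^ d 3 : MvPolynomial (Fin 2) ℂ) =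
            monomial (Finsupp.single 0 (d 2) + Finsupp.single 1 (d 3)) 1 := by
          rw [X_pow_eq_monomial, X_pow_eq_monomial, monomial_mul, one_mul]
        rw [hm, coeff_C_mul, coeff_monomial, mul_ite, mul_one, mul_zero]
        have hiff : (Finsupp.single 0 (d 2) + Finsupp.single 1 (d 3) = e) ↔
            d = mk 0 0 (e 0) (e 1) := by
          constructor
          · rintro rfl
            apply ext4 <;> simp [h0, h1]
          · intro h
            have h2 : d 2 = e 0 := by rw [h]; rfl
            have h3 : d 3 = e 1 := by rw [h]; rfl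
            ext i
            fin_cases i
            · simp [h2]
            · simp [h3]
        simp only [hiff]
      · rw [zero_pow h1, mul_zero, zero_mul, zero_mul, mul_zero, coeff_zero, if_neg]
        intro h
        apply h1
        rw [h]
        rfl
    · rw [zero_pow h0, zero_mul, zero_mul, zero_mul, mul_zero, coeff_zero, if_neg]
      intro h
      apply h0
      rw [h]
      rfl
  | add p q hp hq => rw [map_add, coeff_add, coeff_add, hp, hq]

lemma LocIa_K1 {r s : ℂ} (hr : r ≠ 0) (hs : s ≠ 0) : K1 r s * K1 r⁻¹ s⁻¹ = 1 := by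
  unfold K1
  ext i j
  fin_cases i <;> fin_cases j <;> simp [Matrix.mul_apply, Fin.sum_univ_four, hr, hs]

/-- a polynomial without derivative in the variable `j` -/
lemma LocIa_pd_zero {u : MvPolynomial (Fin 4) ℂ} {j : Fin 4} (h : pderiv j u = 0)
    {d : Fin 4 →₀ ℕ} (hd : d ∈ u.support) : d j = 0 := by
  by_contra hj
  obtain ⟨e, he⟩ : ∃ e : Fin 4 →₀ ℕ, d = e + Finsupp.single j 1 :=
    ⟨d - Finsupp.single j 1, by
      ext i
      by_cases hi : i = j
      · subst hi; simp; omega
      · simp [Ne.symm hi]⟩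
  have h1 := congrArg (coeff e) h
  rw [LocIII_coeff_pderiv, ← he, coeff_zero] at h1
  rcases mul_eq_zero.1 h1 with h2 | h2
  · have h3 : ((e j + 1 : ℕ) : ℂ) = 0 := by
      push_cast
      exact h2
    exact Nat.succ_ne_zero _ (Nat.cast_eq_zero.1 h3)
  · exact mem_support_iff.1 hd h2

/-- module F2 -/
theorem thm_LocIa (h1 : St_Sub) (h2 : St_Gram) (h3 : St_Init) (h4 : St_InitD) : St_LocIa := by
  classical
  intro P hP hP0 m w hhom hsol A0 B0 μ hD x hxx hvv M hM0 hM1 hMK p q W hp hq hfW
  set v := lamv A0 B0 x with hv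
  set r := bil x x with hr
  set s := bil v v with hs
  obtain ⟨hMN, hMG⟩ := LocIII_inv h2 hMK (LocIa_K1 hxx hvv)
  set N := K1 r⁻¹ s⁻¹ * M.transpose * Hm with hN
  have hNM : N * M = 1 := mul_eq_one_comm.1 hMN
  set Q := sub M x w with hQ
  set f := (aeval (fun i => (C (x i) + C (M i 2) * X 0 + C (M i 3) * X 1 :
    MvPolynomial (Fin 2) ℂ)) w) with hf
  have hfQ : f = LocIa_pr Q := by
    rw [hf, hQ]
    unfold sub
    change _ = LocIa_pr (aeval _ w)
    rw [← AlgHom.comp_apply, comp_aeval]
    congr 2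
    refine _root_.funext fun i => ?_
    unfold LocIa_pr
    rw [map_add, map_sum, Fin.sum_univ_four]
    simp only [map_mul, aeval_X, aeval_C, algebraMap_eq, Matrix.cons_val_zero,
      Matrix.cons_val_one, Matrix.cons_val, mul_zero, zero_add]
    rw [add_assoc]
  have hEQ : E (K1 r⁻¹ s⁻¹) (P : ℂ) Q = 0 := by
    have h := (h1 M (K1 r⁻¹ s⁻¹) x (P : ℂ) w).2.1
    rw [hMG] at h
    unfold Sol at hsol
    rw [hsol] at h
    rw [hQ, h]
    unfold sub
    rw [map_zero]
  set ω : Fin 4 → ℕ := ![p + q, p + q, 2 * p, 2 * q] with hω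
  have hcol : ∀ i j, ∑ k, N i k * M k j = if i = j then 1 else 0 := by
    intro i j
    have h7 := congrFun (congrFun hNM i) j
    rw [Matrix.mul_apply, Matrix.one_apply] at h7
    exact h7
  -- Euler
  have htr1 := LocIII_transport h1 hMN x (fun _ => 1) w
  have hE1 : ∑ k, C ((fun _ => (1 : ℂ)) k) * (X k * pderiv k w) = C (m : ℂ) * w := by
    simp only [C_1, one_mul]
    rw [hhom.sum_X_mul_pderiv, nsmul_eq_mul, map_natCast]
  rw [hE1] at htr1
  have hsC : ∀ c : ℂ, sub M x (C c * w) = C c * Q := by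
    intro c
    rw [hQ]
    unfold sub
    rw [map_mul, bind₁_C_right]
  rw [hsC] at htr1
  have hα1 : ∀ i, ∑ k, N i k * 1 * x k = if i = 0 then 1 else 0 := by
    intro i
    rw [← hcol i 0]
    refine Finset.sum_congr rfl fun k _ => ?_
    rw [hM0, mul_one]
  have hβ1 : ∀ i j, ∑ k, N i k * 1 * M k j = if i = j then 1 else 0 := by
    intro i j
    rw [← hcol i j]
    refine Finset.sum_congr rfl fun k _ => ?_
    rw [mul_one]
  simp only [hα1, hβ1] at htr1
  -- the derivation
  set l : Fin 4 → ℂ := ![A0, -A0, B0, -B0] with hl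
  have htr2 := LocIII_transport h1 hMN x l w
  rw [hl, LocIII_Dlam, hD, ← hl, hsC] at htr2
  have hα2 : ∀ i, ∑ k, N i k * l k * x k = if i = 1 then 1 else 0 := by
    intro i
    rw [← hcol i 1]
    refine Finset.sum_congr rfl fun k _ => ?_
    rw [hM1, hv, LocIII_lamv, mul_assoc]
  simp only [hα2] at htr2
  set Λ : Fin 4 → Fin 4 → ℂ := fun i j => ∑ k, N i k * l k * M k j with hΛ
  have hrow : ∀ i i' : Fin 4, (∀ k, N i k = (M.transpose * Hm) i' k) → Λ i i' = 0 := by
    intro i i' h7
    have h8 : Λ i i' = ∑ k, (M.transpose * Hm) i' k * (l k * M k i') := by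
      rw [hΛ]
      refine Finset.sum_congr rfl fun k _ => ?_
      rw [h7, mul_assoc]
    rw [h8, LocIII_row, hl, LocIII_bil_lam, LocIII_bil_comm, LocIII_bil_lam_self, neg_zero]
  have hΛ23 : Λ 2 3 = 0 := by
    apply hrow
    intro k
    rw [hN, Matrix.mul_assoc, Matrix.mul_apply]
    simp [K1, Fin.sum_univ_four]
  have hΛ32 : Λ 3 2 = 0 := by
    apply hrow
    intro k
    rw [hN, Matrix.mul_assoc, Matrix.mul_apply]
    simp [K1, Fin.sum_univ_four]
  -- the two derivatives of an initial form vanish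
  have hder : ∀ V : ℕ, (∀ d ∈ Q.support, V ≤ wt ω d) →
      pderiv 0 (ini ω V Q) = 0 ∧ pderiv 1 (ini ω V Q) = 0 := by
    intro V hV
    constructor
    · have h := h4 ω (p + q) V _ (fun i => C (if i = 0 then 1 else 0) + ∑ j, C 0 * X j) _ Q
        (by omega) hV ?_ ?_ htr1
      · simp only [C_0, zero_mul, Finset.sum_const_zero, add_zero, Fin.sum_univ_four] at h
        simpa using h
      · intro i d hd
        have e : (C (if i = 0 then 1 else 0) + ∑ j, C (if i = j then 1 else 0) * X j -
            (C (if i = 0 then 1 else 0) + ∑ j, C 0 * X j) : MvPolynomial (Fin 4) ℂ) =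
            C 0 + ∑ j, C (if i = j then 1 else 0) * X j := by
          simp
        rw [e] at hd
        rcases LocIII_supp _ _ hd with ⟨-, h7⟩ | ⟨j, hj, rfl⟩
        · exact absurd rfl h7
        · rw [LocIII_wt]
          by_cases hij : i = j
          · subst hij; omega
          · rw [if_neg hij] at hj
            exact absurd rfl hj
      · intro i d hd
        rcases LocIII_supp _ _ hd with ⟨rfl, h7⟩ | ⟨j, hj, -⟩
        · rw [LocIII_wt0]
          by_cases hi : i = 0
          · subst hi; simp [hω]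
          · rw [if_neg hi] at h7
            exact absurd rfl h7
        · exact absurd rfl hj
    · have h := h4 ω (p + q) V _ (fun i => C (if i = 1 then 1 else 0) + ∑ j, C 0 * X j) _ Q
        (by omega) hV ?_ ?_ htr2
      · simp only [C_0, zero_mul, Finset.sum_const_zero, add_zero, Fin.sum_univ_four] at h
        simpa using h
      · intro i d hd
        have e : (C (if i = 1 then 1 else 0) + ∑ j, C (Λ i j) * X j -
            (C (if i = 1 then 1 else 0) + ∑ j, C 0 * X j) : MvPolynomial (Fin 4) ℂ) =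
            C 0 + ∑ j, C (Λ i j) * X j := by
          simp
        rw [e] at hd
        rcases LocIII_supp _ _ hd with ⟨-, h7⟩ | ⟨j, hj, rfl⟩
        · exact absurd rfl h7
        · rw [LocIII_wt]
          by_cases c1 : i = 2 ∧ j = 3
          · obtain ⟨rfl, rfl⟩ := c1
            exact absurd hΛ23 hj
          · by_cases c2 : i = 3 ∧ j = 2
            · obtain ⟨rfl, rfl⟩ := c2
              exact absurd hΛ32 hj
            · clear hj hd e
              fin_cases i <;> fin_cases j <;> simp [hω] at c1 c2 ⊢ <;> omega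
      · intro i d hd
        rcases LocIII_supp _ _ hd with ⟨rfl, h7⟩ | ⟨j, hj, -⟩
        · rw [LocIII_wt0]
          by_cases hi : i = 1
          · subst hi; simp [hω]
          · rw [if_neg hi] at h7
            exact absurd rfl h7
        · exact absurd rfl hj
  have hshape : ∀ V : ℕ, (∀ d ∈ Q.support, V ≤ wt ω d) → ∀ d ∈ (ini ω V Q).support,
      d = mk 0 0 (d 2) (d 3) := by
    intro V hV d hd
    obtain ⟨a1, a2⟩ := hder V hV
    have b1 := LocIa_pd_zero a1 hd
    have b2 := LocIa_pd_zero a2 hd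
    apply ext4
    · rw [b1]; rfl
    · rw [b2]; rfl
    · rfl
    · rfl
  have hminQ : ∀ d ∈ Q.support, 2 * W ≤ wt ω d := by
    by_cases hQ0 : Q = 0
    · intro d hd
      rw [hQ0] at hd
      simp at hd
    · obtain ⟨V, hV, hne⟩ := exists_min_wt ω hQ0
      obtain ⟨d, hd⟩ := support_nonempty.2 hne
      have h7 := hshape V hV d hd
      obtain ⟨h8, h9⟩ := mem_support_ini.1 hd
      set e : Fin 2 →₀ ℕ := Finsupp.equivFunOnFinite.symm ![d 2, d 3] with he
      have he0 : e 0 = d 2 := rfl
      have he1 : e 1 = d 3 := rfl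
      have h10 : e ∈ f.support := by
        rw [mem_support_iff, hfQ, LocIa_coeff, he0, he1, ← h7]
        exact mem_support_iff.1 h9
      have h11 := hfW e h10
      rw [wt_two, he0, he1] at h11
      simp only [Matrix.cons_val_zero, Matrix.cons_val_one] at h11
      have h12 : 2 * W ≤ V := by
        rw [← h8, wt_four]
        simp only [hω, Matrix.cons_val_zero, Matrix.cons_val_one, Matrix.cons_val]
        nlinarith [Nat.zero_le ((p + q) * d 0), Nat.zero_le ((p + q) * d 1)]
      intro d' hd'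
      exact h12.trans (hV d' hd')
  have hE0 : E (K1 r⁻¹ s⁻¹) (P : ℂ) (ini ω (2 * W) Q) = 0 := by
    refine h3 4 ω (2 * (p + q)) (2 * W) (K1 r⁻¹ s⁻¹) (P : ℂ) Q ?_ hminQ hEQ
    intro i j hij
    fin_cases i <;> fin_cases j <;> simp [K1, hω] at hij ⊢ <;> omega
  have hren : ini ω (2 * W) Q = rename LocIa_io (ini ![p, q] W f) := by
    apply MvPolynomial.ext
    intro d
    by_cases hd : d = mk 0 0 (d 2) (d 3)
    · set e : Fin 2 →₀ ℕ := Finsupp.equivFunOnFinite.symm ![d 2, d 3] with he
      have he0 : e 0 = d 2 := rfl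
      have he1 : e 1 = d 3 := rfl
      have hde : d = Finsupp.mapDomain LocIa_io e := by
        rw [LocIa_map, he0, he1]
        exact hd
      have hd0 : d 0 = 0 := by rw [hd]; rfl
      have hd1 : d 1 = 0 := by rw [hd]; rfl
      conv_rhs => rw [hde]
      rw [coeff_rename_mapDomain _ LocIa_io_inj, coeff_ini, coeff_ini, hfQ, LocIa_coeff, he0, he1,
        ← hd]
      have hw1 : wt ω d = 2 * wt ![p, q] e := by
        rw [wt_four, wt_two, he0, he1, hd0, hd1]
        simp only [hω, Matrix.cons_val_zero, Matrix.cons_val_one, Matrix.cons_val]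
        ring
      rw [hw1]
      by_cases hc : wt ![p, q] e = W
      · rw [if_pos hc, if_pos (by rw [hc])]
      · rw [if_neg hc, if_neg (by omega)]
    · rw [coeff_rename_eq_zero]
      · rw [← notMem_support_iff]
        exact fun h => hd (hshape _ hminQ d h)
      · intro e he
        exfalso
        apply hd
        rw [LocIa_map] at he
        rw [← he]
        rfl
  rw [hren, LocIa_E] at hE0
  exact rename_injective _ LocIa_io_inj (by rw [hE0, map_zero])

end

end Pool.PN4
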