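import Pool.Agent.PN4.Stmts
import Pool.Agent.PN4.Basic

set_option autoImplicit false

open MvPolynomial

namespace Pool.PN4

noncomputable section

lemma Open_alg (A B x0 x1 x2 x3 w0 w1 w2 w3 : ℂ) (hx0 : x0 ≠ 0) (hx1 : x1 ≠ 0) (hx2 : x2 ≠ 0)
    (hx3 : x3 ≠ 0) (hq : x0 * x1 + x2 * x3 = 0) (hAB : A ^ 2 ≠ B ^ 2)
    (he : x0 * w0 + x1 * w1 + x2 * w2 + x3 * w3 = 0)
    (hl : A * (x0 * w0 - x1 * w1) + B * (x2 * w2 - x3 * w3) = 0)
    (hN : w0 * w1 + w2 * w3 = 0) :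
    x1 * w1 = x0 * w0 ∧ x2 * w2 = -(x0 * w0) ∧ x3 * w3 = -(x0 * w0) := by
  have h1 : (x0 * w0) * (x1 * w1) = (x2 * w2) * (x3 * w3) := by
    linear_combination (x0 * x1) * hN - (w2 * w3) * hq
  have h2 : (x0 * w0 - x1 * w1) ^ 2 = (x2 * w2 - x3 * w3) ^ 2 := by
    linear_combination (x0 * w0 + x1 * w1 - x2 * w2 - x3 * w3) * he - 4 * h1
  have h3 : (A ^ 2 - B ^ 2) * (x0 * w0 - x1 * w1) ^ 2 = 0 := by
    linear_combination (A * (x0 * w0 - x1 * w1) - B * (x2 * w2 - x3 * w3)) * hl - B ^ 2 * h2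
  have h4 : x0 * w0 - x1 * w1 = 0 := by
    rcases mul_eq_zero.mp h3 with h | h
    · exact absurd (sub_eq_zero.mp h) hAB
    · exact pow_eq_zero_iff (two_ne_zero) |>.mp h
  have h5 : x2 * w2 - x3 * w3 = 0 := by
    have : (x2 * w2 - x3 * w3) ^ 2 = 0 := by rw [← h2, h4]; ring
    exact pow_eq_zero_iff (two_ne_zero) |>.mp this
  refine ⟨by linear_combination -h4, ?_, ?_⟩
  · linear_combination (1 / 2) * he + (1 / 2) * h4 + (1 / 2) * h5
  · linear_combination (1 / 2) * he + (1 / 2) * h4 - (1 / 2) * h5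

/-- module D4 -/
theorem thm_Open (h1 : St_LocIII) : St_Open := by
  intro P hP hP0 m w hw hm hs A0 B0 μ hl hAB x hx hb he hN
  have hq : x 0 * x 1 + x 2 * x 3 = 0 := by
    unfold bil at hb
    linear_combination (1 / 2) * hb
  have hE := hm.sum_X_mul_pderiv
  have hE2 := congrArg (eval x) hE
  rw [Fin.sum_univ_four] at hE2
  simp only [map_add, map_mul, eval_X, map_nsmul, he, smul_zero] at hE2
  have hl2 := congrArg (eval x) hl
  unfold Dlam at hl2
  simp only [map_add, map_sub, map_mul, eval_X, eval_C, he, mul_zero] at hl2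
  have hN2 : eval x (pderiv 0 w) * eval x (pderiv 1 w) +
      eval x (pderiv 2 w) * eval x (pderiv 3 w) = 0 := by
    rw [eval_N] at hN
    linear_combination (1 / 2) * hN
  obtain ⟨k1, k2, k3⟩ := Open_alg A0 B0 (x 0) (x 1) (x 2) (x 3) _ _ _ _ (hx 0) (hx 1) (hx 2)
    (hx 3) hq hAB hE2 hl2 hN2
  refine h1 P hP hP0 m w hw hm hs A0 B0 μ hl x (fun h => hx 0 (by rw [h]; rfl)) hb ?_ he ?_
  · have : bil (lamv A0 B0 x) (lamv A0 B0 x) = -2 * (x 0 * x 1) * (A0 ^ 2 - B0 ^ 2) := by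
      unfold bil lamv
      simp
      linear_combination (-2 * B0 ^ 2) * hq
    rw [this]
    exact mul_ne_zero (mul_ne_zero (by norm_num) (mul_ne_zero (hx 0) (hx 1)))
      (sub_ne_zero.mpr hAB)
  · intro v hv
    have hx01 : x 0 * x 1 ≠ 0 := mul_ne_zero (hx 0) (hx 1)
    unfold dir
    rw [Fin.sum_univ_four]
    unfold bil at hv
    have hx0 := hx 0
    have hx1 := hx 1
    have hx2 := hx 2
    have hx3 := hx 3
    apply mul_left_cancel₀ (mul_ne_zero hx01 (mul_ne_zero hx2 hx3))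
    generalize eval x (pderiv 0 w) = w0 at *
    generalize eval x (pderiv 1 w) = w1 at *
    generalize eval x (pderiv 2 w) = w2 at *
    generalize eval x (pderiv 3 w) = w3 at *
    linear_combination (x 2 * x 3 * x 0 * v 1) * k1 + (x 0 * x 1 * x 3 * v 2) * k2 +
      (x 0 * x 1 * x 2 * v 3) * k3 + (x 0 * w0 * x 2 * x 3) * hv -
      (x 0 * w0) * (x 3 * v 2 + x 2 * v 3) * hq
end

end Pool.PN4
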