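import Pool.Agent.PN4.Stmts
import Pool.Agent.PN4.Basic
import Pool.Agent.Helper43.PLap.NonNull

set_option autoImplicit false

open MvPolynomial

namespace Pool.PN4

noncomputable section

/-- restriction to the line `(1, s)` -/
def Plane_ev : MvPolynomial (Fin 2) ℂ →ₐ[ℂ] Polynomial ℂ := aeval ![1, Polynomial.X]

lemma Plane_ev_X (i : Fin 2) :
    Plane_ev (X i) = (![1, Polynomial.X] : Fin 2 → Polynomial ℂ) i := by
  simp [Plane_ev]

lemma Plane_ev_C (a : ℂ) : Plane_ev (C a) = Polynomial.C a := Plane_ev.commutes a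

lemma Plane_deriv_ev (Q : MvPolynomial (Fin 2) ℂ) :
    Polynomial.derivative (Plane_ev Q) = Plane_ev (pderiv 1 Q) := by
  induction Q using MvPolynomial.induction_on with
  | C a => rw [Plane_ev_C]; simp
  | add p q hp hq => simp only [map_add, hp, hq]
  | mul_X p k hp =>
    rw [map_mul, Polynomial.derivative_mul, hp, pderiv_mul, map_add, map_mul, map_mul, pderiv_X,
      Plane_ev_X]
    fin_cases k <;> simp

lemma Plane_weight (ω : Fin 2 → ℕ) (d : Fin 2 →₀ ℕ) : Finsupp.weight ω d = wt ω d := by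
  rw [Finsupp.weight_apply, Finsupp.sum_fintype _ _ (by simp), Fin.sum_univ_two, wt_two]
  simp [mul_comm]

lemma Plane_pc (i j : Fin 2) (f : MvPolynomial (Fin 2) ℂ) :
    pderiv i (pderiv j f) = pderiv j (pderiv i f) :=
  Pool.Agent.Helper43.PLap.pderiv_comm i j f

/-- Euler identities after restriction -/
lemma Plane_euler (ω : Fin 2 → ℕ) (W : ℕ) (F : MvPolynomial (Fin 2) ℂ)
    (hF : F.IsWeightedHomogeneous ω W) :
    (ω 0 : Polynomial ℂ) * Plane_ev (pderiv 0 F) +
      (ω 1 : Polynomial ℂ) * (Polynomial.X * Plane_ev (pderiv 1 F)) =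
        (W : Polynomial ℂ) * Plane_ev F ∧
    (ω 0 : Polynomial ℂ) * Plane_ev (pderiv 0 (pderiv 0 F)) +
      (ω 1 : Polynomial ℂ) * (Polynomial.X * Plane_ev (pderiv 0 (pderiv 1 F))) =
        ((W : Polynomial ℂ) - (ω 0 : Polynomial ℂ)) * Plane_ev (pderiv 0 F) := by
  have h := hF.sum_weight_X_mul_pderiv
  rw [Fin.sum_univ_two] at h
  simp only [nsmul_eq_mul] at h
  constructor
  · have h1 := congrArg Plane_ev h
    simp only [map_add, map_mul, map_natCast, Plane_ev_X] at h1
    simpa using h1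
  · have h1 := congrArg (fun q => Plane_ev (pderiv 0 q)) h
    have hc : ∀ (n : ℕ) (Q : MvPolynomial (Fin 2) ℂ),
        pderiv 0 ((n : MvPolynomial (Fin 2) ℂ) * Q) =
        (n : MvPolynomial (Fin 2) ℂ) * pderiv 0 Q := by
      intro n Q
      rw [← map_natCast (C : ℂ →+* MvPolynomial (Fin 2) ℂ) n, pderiv_C_mul]
    simp only [map_add, hc, pderiv_mul, map_mul, map_natCast, Plane_ev_X, pderiv_X] at h1
    simp at h1 ⊢
    linear_combination h1

lemma Plane_E (P : ℂ) (g : MvPolynomial (Fin 2) ℂ) : E H2 P g =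
    4 * pderiv 0 g * pderiv 1 g * pderiv 0 (pderiv 1 g) +
      C P * (pderiv 1 g ^ 2 * pderiv 0 (pderiv 0 g) + pderiv 0 g ^ 2 * pderiv 1 (pderiv 1 g) +
        2 * pderiv 0 g * pderiv 1 g * pderiv 0 (pderiv 1 g)) := by
  have hB : ∀ u v : MvPolynomial (Fin 2) ℂ, B H2 u v =
      pderiv 0 u * pderiv 1 v + pderiv 1 u * pderiv 0 v := by
    intro u v
    unfold B H2
    simp [Fin.sum_univ_two]
  have hL : L H2 g = 2 * pderiv 0 (pderiv 1 g) := by
    unfold L H2
    simp [Fin.sum_univ_two]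
    rw [Plane_pc 1 0 g]
    ring
  have hC : (C P : MvPolynomial (Fin 2) ℂ) = 2 * C (P / 2) := by
    rw [← map_ofNat (C : ℂ →+* MvPolynomial (Fin 2) ℂ) 2, ← C_mul]
    congr 1; ring
  unfold E
  rw [hB g (B H2 g g), hB g g, hL, hC]
  simp only [map_add, pderiv_mul]
  rw [Plane_pc 1 0 g]
  ring

/-- The one variable equation for an initial form with weights `(p, q)`. -/
lemma Plane_ode (P : ℂ) (p q W : ℕ) (hp : 0 < p) (F : MvPolynomial (Fin 2) ℂ)
    (hF : F.IsWeightedHomogeneous ![p, q] (W * p)) (hE : E H2 P F = 0) :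
    4 * (Polynomial.C (W : ℂ) * Plane_ev F - Polynomial.C ((q : ℂ) / p) * Polynomial.X *
          Polynomial.derivative (Plane_ev F)) * Polynomial.derivative (Plane_ev F) *
        Polynomial.derivative (Polynomial.C (W : ℂ) * Plane_ev F - Polynomial.C ((q : ℂ) / p) *
          Polynomial.X * Polynomial.derivative (Plane_ev F)) +
      Polynomial.C P * (Polynomial.derivative (Plane_ev F) ^ 2 * (Polynomial.C ((W : ℂ) - 1) *
          (Polynomial.C (W : ℂ) * Plane_ev F - Polynomial.C ((q : ℂ) / p) * Polynomial.X *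
            Polynomial.derivative (Plane_ev F)) -
          Polynomial.C ((q : ℂ) / p) * Polynomial.X *
            Polynomial.derivative (Polynomial.C (W : ℂ) * Plane_ev F -
              Polynomial.C ((q : ℂ) / p) *
              Polynomial.X * Polynomial.derivative (Plane_ev F))) +
        (Polynomial.C (W : ℂ) * Plane_ev F - Polynomial.C ((q : ℂ) / p) * Polynomial.X *
          Polynomial.derivative (Plane_ev F)) ^ 2 *
          Polynomial.derivative (Polynomial.derivative (Plane_ev F)) +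
        2 * (Polynomial.C (W : ℂ) * Plane_ev F - Polynomial.C ((q : ℂ) / p) * Polynomial.X *
          Polynomial.derivative (Plane_ev F)) * Polynomial.derivative (Plane_ev F) *
          Polynomial.derivative (Polynomial.C (W : ℂ) * Plane_ev F -
            Polynomial.C ((q : ℂ) / p) *
            Polynomial.X * Polynomial.derivative (Plane_ev F))) = 0 := by
  obtain ⟨h1, h20⟩ := Plane_euler _ _ _ hF
  simp only [Matrix.cons_val_zero, Matrix.cons_val_one] at h1 h20
  have d0 : Plane_ev (pderiv 0 (pderiv 1 F)) =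
      Polynomial.derivative (Plane_ev (pderiv 0 F)) := by
    rw [Plane_deriv_ev, Plane_pc]
  have d2 : Plane_ev (pderiv 1 (pderiv 1 F)) =
      Polynomial.derivative (Plane_ev (pderiv 1 F)) := by
    rw [Plane_deriv_ev]
  have d3 : Plane_ev (pderiv 1 F) = Polynomial.derivative (Plane_ev F) :=
    (Plane_deriv_ev F).symm
  have hpc : (p : ℂ) ≠ 0 := by exact_mod_cast hp.ne'
  have hcp : (p : Polynomial ℂ) ≠ 0 := by exact_mod_cast hp.ne'
  have hq : (q : Polynomial ℂ) = (p : Polynomial ℂ) * Polynomial.C ((q : ℂ) / p) := by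
    rw [← map_natCast (Polynomial.C : ℂ →+* Polynomial ℂ) p, ← Polynomial.C_mul,
      mul_div_cancel₀ _ hpc, map_natCast]
  have f0 : Plane_ev (pderiv 0 F) = Polynomial.C (W : ℂ) * Plane_ev F -
      Polynomial.C ((q : ℂ) / p) *
      Polynomial.X * Polynomial.derivative (Plane_ev F) := by
    rw [d3, hq] at h1
    push_cast at h1
    have h3 : (p : Polynomial ℂ) * (Plane_ev (pderiv 0 F) - (Polynomial.C (W : ℂ) * Plane_ev F -
        Polynomial.C ((q : ℂ) / p) * Polynomial.X *
          Polynomial.derivative (Plane_ev F))) = 0 := by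
      rw [map_natCast]
      linear_combination h1
    exact sub_eq_zero.mp ((mul_eq_zero.mp h3).resolve_left hcp)
  have f00 : Plane_ev (pderiv 0 (pderiv 0 F)) =
      Polynomial.C ((W : ℂ) - 1) * Plane_ev (pderiv 0 F) -
      Polynomial.C ((q : ℂ) / p) * Polynomial.X *
        Polynomial.derivative (Plane_ev (pderiv 0 F)) := by
    rw [d0, hq] at h20
    push_cast at h20
    have h3 : (p : Polynomial ℂ) * (Plane_ev (pderiv 0 (pderiv 0 F)) -
        (Polynomial.C ((W : ℂ) - 1) * Plane_ev (pderiv 0 F) -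
      Polynomial.C ((q : ℂ) / p) * Polynomial.X *
        Polynomial.derivative (Plane_ev (pderiv 0 F)))) = 0 := by
      rw [map_sub, map_natCast, map_one]
      linear_combination h20
    exact sub_eq_zero.mp ((mul_eq_zero.mp h3).resolve_left hcp)
  have hpoly : 4 * Plane_ev (pderiv 0 F) * Plane_ev (pderiv 1 F) *
        Plane_ev (pderiv 0 (pderiv 1 F)) +
      Polynomial.C P * (Plane_ev (pderiv 1 F) ^ 2 * Plane_ev (pderiv 0 (pderiv 0 F)) +
        Plane_ev (pderiv 0 F) ^ 2 * Plane_ev (pderiv 1 (pderiv 1 F)) +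
        2 * Plane_ev (pderiv 0 F) * Plane_ev (pderiv 1 F) *
          Plane_ev (pderiv 0 (pderiv 1 F))) = 0 := by
    rw [Plane_E] at hE
    have h := congrArg Plane_ev hE
    simpa only [map_add, map_mul, map_pow, map_ofNat, map_zero, Plane_ev_C] using h
  rw [f00, d0, d2, d3] at hpoly
  rw [← f0]
  linear_combination hpoly

lemma Plane_ext {d d' : Fin 2 →₀ ℕ} (h0 : d 0 = d' 0) (h1 : d 1 = d' 1) : d = d' := by
  ext i
  fin_cases i
  · exact h0
  · exact h1

lemma Plane_ev_sum (F : MvPolynomial (Fin 2) ℂ) :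
    Plane_ev F = ∑ d ∈ F.support, Polynomial.C (coeff d F) * Polynomial.X ^ (d 1) := by
  conv_lhs => rw [F.as_sum]
  rw [map_sum]
  refine Finset.sum_congr rfl (fun d _ => ?_)
  rw [Plane_ev, aeval_monomial, Finsupp.prod_fintype _ _ (fun i => pow_zero _),
    Fin.prod_univ_two]
  simp

lemma Plane_coeff_ev (F : MvPolynomial (Fin 2) ℂ) (k : ℕ) :
    (Plane_ev F).coeff k = ∑ d ∈ F.support with d 1 = k, coeff d F := by
  rw [Plane_ev_sum, Polynomial.finsetSum_coeff, Finset.sum_filter]
  refine Finset.sum_congr rfl (fun d _ => ?_)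
  rw [Polynomial.coeff_C_mul, Polynomial.coeff_X_pow]
  by_cases h : d 1 = k
  · simp [h]
  · rw [if_neg h, if_neg (Ne.symm h), mul_zero]

lemma Plane_coeff_unique (F : MvPolynomial (Fin 2) ℂ) (d : Fin 2 →₀ ℕ)
    (hd : ∀ d' ∈ F.support, d' 1 = d 1 → d' = d) : (Plane_ev F).coeff (d 1) = coeff d F := by
  rw [Plane_coeff_ev]
  by_cases h : d ∈ F.support
  · rw [Finset.sum_eq_single_of_mem d (by simp [h])]
    intro d' hd' hne
    rw [Finset.mem_filter] at hd'
    exact absurd (hd d' hd'.1 hd'.2) hne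
  · rw [notMem_support_iff.mp h]
    apply Finset.sum_eq_zero
    intro d' hd'
    rw [Finset.mem_filter] at hd'
    have := hd d' hd'.1 hd'.2
    subst this
    exact absurd hd'.1 h

lemma Plane_natDegree (F : MvPolynomial (Fin 2) ℂ) (k : ℕ) (h : ∀ d ∈ F.support, d 1 ≤ k) :
    (Plane_ev F).natDegree ≤ k := by
  rw [Plane_ev_sum]
  apply Polynomial.natDegree_sum_le_of_forall_le
  intro d hd
  exact (Polynomial.natDegree_C_mul_X_pow_le _ _).trans (h d hd)

lemma Plane_ini_weighted (ω : Fin 2 → ℕ) (W : ℕ) (U : MvPolynomial (Fin 2) ℂ) :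
    (ini ω W U).IsWeightedHomogeneous ω W := by
  intro d hd
  rw [Plane_weight]
  exact (mem_support_ini.mp (mem_support_iff.mpr hd)).1

/-- the equation of all the initial forms -/
def Plane_Hyp (P : ℂ) (f : MvPolynomial (Fin 2) ℂ) : Prop :=
  ∀ p q W : ℕ, 1 ≤ p → 1 ≤ q → (∀ d ∈ f.support, W ≤ wt ![p, q] d) →
    E H2 P (ini ![p, q] W f) = 0

/-- the edge argument -/
lemma Plane_edge (p : ℂ) (hp0 : p ≠ 0) (k : ℕ) (hk : 1 ≤ k) (U : MvPolynomial (Fin 2) ℂ)
    (hE : Plane_Hyp p U)
    (hmin : ∀ d ∈ U.support, k ≤ d 0 + d 1)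
    (hk0 : ∀ d ∈ U.support, d 0 + d 1 = k → d 0 = k)
    (hex : ∃ d ∈ U.support, d 0 = k ∧ d 1 = 0)
    (hg : ∃ d ∈ U.support, d 0 = 0) : False := by
  classical
  set S := U.support.filter (fun d => d 0 < k) with hS
  have hSne : S.Nonempty := by
    obtain ⟨d, hd, h⟩ := hg
    exact ⟨d, Finset.mem_filter.mpr ⟨hd, by omega⟩⟩
  have hSprop : ∀ d ∈ S, k - d 0 < d 1 := by
    intro d hd
    rw [hS, Finset.mem_filter] at hd
    have h1 := hmin d hd.1
    have h2 := hk0 d hd.1
    omega
  obtain ⟨d', hd', hmax⟩ := Finset.exists_max_image S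
    (fun d => ((k - d 0 : ℕ) : ℚ) / (d 1 : ℚ)) hSne
  set S' := S.filter (fun d => ((k - d 0 : ℕ) : ℚ) / (d 1 : ℚ) = ((k - d' 0 : ℕ) : ℚ) / (d' 1 : ℚ))
    with hS'
  obtain ⟨d1, hd1, hmin2⟩ := Finset.exists_min_image S' (fun d => d 1)
    ⟨d', Finset.mem_filter.mpr ⟨hd', rfl⟩⟩
  rw [hS', Finset.mem_filter] at hd1
  obtain ⟨hd1S, hd1r⟩ := hd1
  have hd1S' := hd1S
  rw [hS, Finset.mem_filter] at hd1S'
  set P := d1 1 with hP
  set Q := k - d1 0 with hQ
  have hQP : Q < P := hSprop d1 hd1S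
  have hQ0 : 0 < Q := by omega
  have hP0 : 0 < P := by omega
  -- cross multiplied maximality
  have hcross : ∀ d ∈ S, (k - d 0) * P ≤ Q * d 1 := by
    intro d hd
    have h1 := hmax d hd
    rw [← hd1r] at h1
    have h2 : 0 < d 1 := by have := hSprop d hd; omega
    rw [div_le_div_iff₀ (by exact_mod_cast h2) (by exact_mod_cast hP0)] at h1
    exact_mod_cast h1
  have hcross2 : ∀ d ∈ S, (k - d 0) * P = Q * d 1 → P ≤ d 1 := by
    intro d hd h
    apply hmin2 d
    rw [hS', Finset.mem_filter]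
    refine ⟨hd, ?_⟩
    rw [← hd1r]
    have h2 : 0 < d 1 := by have := hSprop d hd; omega
    rw [div_eq_div_iff (by exact_mod_cast h2.ne') (by exact_mod_cast hP0.ne')]
    exact_mod_cast h
  have hwt : ∀ d : Fin 2 →₀ ℕ, wt ![P, Q] d = P * d 0 + Q * d 1 := by
    intro d; rw [wt_two]; simp
  have hW : ∀ d ∈ U.support, k * P ≤ wt ![P, Q] d := by
    intro d hd
    rw [hwt]
    by_cases h : d 0 < k
    · have h1 := hcross d (Finset.mem_filter.mpr ⟨hd, h⟩)
      have h2 : k = (k - d 0) + d 0 := by omega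
      calc k * P = (k - d 0) * P + P * d 0 := by
            conv_lhs => rw [h2]
            ring
        _ ≤ _ := by omega
    · have h1 : k ≤ d 0 := by omega
      calc k * P = P * k := by ring
        _ ≤ P * d 0 := Nat.mul_le_mul_left _ h1
        _ ≤ _ := Nat.le_add_right _ _
  set F := ini ![P, Q] (k * P) U with hF
  have hEF := hE P Q (k * P) hP0 hQ0 hW
  have hode := Plane_ode p P Q k hP0 F (Plane_ini_weighted _ _ _) hEF
  -- coefficients
  obtain ⟨ds, hds, hds0, hds2⟩ := hex
  have hsupp : ∀ d ∈ F.support, (d 1 = 0 ∧ d 0 = k) ∨ P ≤ d 1 := by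
    intro d hd
    obtain ⟨h1, h2⟩ := mem_support_ini.mp hd
    rw [hwt] at h1
    by_cases h3 : d 1 = 0
    · left
      refine ⟨h3, ?_⟩
      rw [h3, mul_zero, add_zero, mul_comm] at h1
      exact Nat.eq_of_mul_eq_mul_right hP0 h1
    · right
      have h4 : d 0 < k := by
        by_contra h5
        have h6 : k ≤ d 0 := by omega
        have h7 : P * k ≤ P * d 0 := Nat.mul_le_mul_left _ h6
        have h8 : 0 < Q * d 1 := Nat.mul_pos hQ0 (by omega)
        have h9 : k * P = P * k := mul_comm _ _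
        omega
      apply hcross2 d (Finset.mem_filter.mpr ⟨h2, h4⟩)
      have h5 : k = (k - d 0) + d 0 := by omega
      have h6 : k * P = (k - d 0) * P + P * d 0 := by
        conv_lhs => rw [h5]
        ring
      omega
  have hc0 : (Plane_ev F).coeff 0 = coeff ds U := by
    have h1 := Plane_coeff_unique F ds (by
      intro d hd h2
      rcases hsupp d hd with h3 | h3
      · apply Plane_ext <;> omega
      · omega)
    rw [hds2] at h1
    rw [h1, hF, coeff_ini, if_pos]
    rw [hwt, hds0, hds2]; ring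
  have hcP : (Plane_ev F).coeff P = coeff d1 U := by
    have h1 := Plane_coeff_unique F d1 (by
      intro d hd h2
      have h3 := (mem_support_ini.mp hd).1
      rw [hwt, h2] at h3
      have h6 : P * (d 0 + Q) = P * k := by
        rw [mul_add, mul_comm P k, ← h3, ← hP]; ring
      have h7 := Nat.eq_of_mul_eq_mul_left hP0 h6
      apply Plane_ext <;> omega)
    rw [← hP] at h1
    rw [h1, hF, coeff_ini, if_pos]
    rw [hwt, ← hP]
    have : k = Q + d1 0 := by omega
    conv_rhs => rw [this]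
    ring
  have hcmid : ∀ i, 0 < i → i < P → (Plane_ev F).coeff i = 0 := by
    intro i hi hiP
    rw [Plane_coeff_ev]
    apply Finset.sum_eq_zero
    intro d hd
    rw [Finset.mem_filter] at hd
    rcases hsupp d hd.1 with h3 | h3
    · omega
    · omega
  -- decomposition
  obtain ⟨j, hj⟩ : ∃ j, P = j + 2 := ⟨P - 2, by omega⟩
  have hdvd : Polynomial.X ^ (j + 2) ∣ Plane_ev F - Polynomial.C ((Plane_ev F).coeff 0) := by
    rw [Polynomial.X_pow_dvd_iff]
    intro i hi
    rcases Nat.eq_zero_or_pos i with h | h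
    · subst h; simp
    · rw [Polynomial.coeff_sub, hcmid i h (by omega), Polynomial.coeff_C, if_neg (by omega),
        sub_zero]
  obtain ⟨g, hg'⟩ := hdvd
  have hg0 : Polynomial.eval 0 g ≠ 0 := by
    have h1 := congrArg (fun q => Polynomial.coeff q (j + 2)) hg'
    simp only [Polynomial.coeff_sub, Polynomial.coeff_C, Polynomial.coeff_X_pow_mul'] at h1
    rw [if_neg (by omega), if_pos le_rfl, Nat.sub_self, sub_zero, ← hj, hcP] at h1
    rw [← Polynomial.coeff_zero_eq_eval_zero, ← h1]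
    exact mem_support_iff.mp hd1S'.1
  refine Pool.Agent.Helper43.PLap.edge j k ((Q : ℂ) / P) ((Plane_ev F).coeff 0) p ?_ ?_ hp0 g
    (Plane_ev F) hg0 ?_ hode
  · exact_mod_cast (show k ≠ 0 by omega)
  · rw [hc0]; exact mem_support_iff.mp hds
  · rw [← hg']; ring

/-- exchanging the two null coordinates -/
def Plane_sw : Equiv.Perm (Fin 2) := Equiv.swap 0 1

lemma Plane_sw0 : Plane_sw 0 = 1 := by decide
lemma Plane_sw1 : Plane_sw 1 = 0 := by decide

lemma Plane_E_swap (P : ℂ) (U : MvPolynomial (Fin 2) ℂ) :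
    E H2 P (rename Plane_sw U) = rename Plane_sw (E H2 P U) := by
  have hi := Plane_sw.injective
  have h0 : ∀ Q : MvPolynomial (Fin 2) ℂ,
      pderiv 0 (rename Plane_sw Q) = rename Plane_sw (pderiv 1 Q) := by
    intro Q; have := pderiv_rename hi 1 Q; rwa [Plane_sw1] at this
  have h1 : ∀ Q : MvPolynomial (Fin 2) ℂ,
      pderiv 1 (rename Plane_sw Q) = rename Plane_sw (pderiv 0 Q) := by
    intro Q; have := pderiv_rename hi 0 Q; rwa [Plane_sw0] at this
  rw [Plane_E, Plane_E]
  simp only [h0, h1, map_add, map_mul, map_pow, map_ofNat, rename_C]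
  rw [Plane_pc 1 0 U]
  ring

lemma Plane_coeff_swap (U : MvPolynomial (Fin 2) ℂ) (d : Fin 2 →₀ ℕ) :
    coeff (Finsupp.mapDomain Plane_sw d) (rename Plane_sw U) = coeff d U :=
  coeff_rename_mapDomain _ Plane_sw.injective _ _

lemma Plane_mapDomain (d : Fin 2 →₀ ℕ) : Finsupp.mapDomain Plane_sw d 0 = d 1 ∧
    Finsupp.mapDomain Plane_sw d 1 = d 0 := by
  have hi := Plane_sw.injective
  refine ⟨?_, ?_⟩
  · have := Finsupp.mapDomain_apply hi d 1; rwa [Plane_sw1] at this
  · have := Finsupp.mapDomain_apply hi d 0; rwa [Plane_sw0] at this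

lemma Plane_mapDomain2 (d : Fin 2 →₀ ℕ) :
    Finsupp.mapDomain Plane_sw (Finsupp.mapDomain Plane_sw d) = d := by
  obtain ⟨h0, h1⟩ := Plane_mapDomain d
  obtain ⟨g0, g1⟩ := Plane_mapDomain (Finsupp.mapDomain Plane_sw d)
  apply Plane_ext
  · rw [g0, h1]
  · rw [g1, h0]

lemma Plane_coeff_swap' (U : MvPolynomial (Fin 2) ℂ) (d : Fin 2 →₀ ℕ) :
    coeff d (rename Plane_sw U) = coeff (Finsupp.mapDomain Plane_sw d) U := by
  rw [← Plane_coeff_swap U (Finsupp.mapDomain Plane_sw d), Plane_mapDomain2]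

lemma Plane_mem_swap (U : MvPolynomial (Fin 2) ℂ) (d : Fin 2 →₀ ℕ) :
    d ∈ (rename Plane_sw U).support ↔ Finsupp.mapDomain Plane_sw d ∈ U.support := by
  rw [mem_support_iff, mem_support_iff, Plane_coeff_swap']

lemma Plane_wt_swap (p q : ℕ) (d : Fin 2 →₀ ℕ) :
    wt ![q, p] (Finsupp.mapDomain Plane_sw d) = wt ![p, q] d := by
  obtain ⟨e0, e1⟩ := Plane_mapDomain d
  rw [wt_two, wt_two, e0, e1]
  simp
  ring

lemma Plane_ini_swap (p q W : ℕ) (U : MvPolynomial (Fin 2) ℂ) :
    ini ![p, q] W (rename Plane_sw U) = rename Plane_sw (ini ![q, p] W U) := by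
  ext d
  rw [coeff_ini, Plane_coeff_swap', Plane_coeff_swap', coeff_ini, Plane_wt_swap]

lemma Plane_hyp_swap {P : ℂ} {U : MvPolynomial (Fin 2) ℂ} (h : Plane_Hyp P U) :
    Plane_Hyp P (rename Plane_sw U) := by
  intro p q W hp hq hW
  rw [Plane_ini_swap, Plane_E_swap, h q p W hq hp, map_zero]
  intro d hd
  have h1 := hW (Finsupp.mapDomain Plane_sw d) (by rw [Plane_mem_swap, Plane_mapDomain2]; exact hd)
  rwa [← Plane_wt_swap, Plane_mapDomain2] at h1

/-- module F1 -/
theorem thm_Plane : St_Plane := by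
  intro p hp hp0 U hE hb hN hα hγ
  have hpc : (p : ℂ) ≠ 0 := Complex.ofReal_ne_zero.mpr hp0
  obtain ⟨d0, hd0, hmin⟩ := Finset.exists_min_image U.support (fun d => d 0 + d 1)
    (by obtain ⟨d, hd, _⟩ := hα; exact ⟨d, hd⟩)
  set k := d0 0 + d0 1 with hk
  have hk1 : 1 ≤ k := hb d0 hd0
  have hcases : (∀ d ∈ U.support, d 0 + d 1 = k → d 0 = k) ∨
      (∀ d ∈ U.support, d 0 + d 1 = k → d 1 = k) := by
    by_cases hk2 : 2 ≤ k
    · have hwt : ∀ d : Fin 2 →₀ ℕ, wt ![1, 1] d = d 0 + d 1 := by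
        intro d; rw [wt_two]; simp
      have hW : ∀ d ∈ U.support, k * 1 ≤ wt ![1, 1] d := by
        intro d hd; rw [hwt, mul_one]; exact hmin d hd
      set F := ini ![1, 1] (k * 1) U with hF
      have hEF := hE 1 1 (k * 1) le_rfl le_rfl hW
      have hode := Plane_ode p 1 1 k one_pos F (Plane_ini_weighted _ _ _) hEF
      have hdeg : (Plane_ev F).natDegree ≤ k := by
        apply Plane_natDegree
        intro d hd
        have h3 := (mem_support_ini.mp hd).1
        rw [hwt] at h3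
        omega
      have h1 : ((1 : ℕ) : ℂ) / ((1 : ℕ) : ℂ) = 1 := by simp
      rw [h1, Polynomial.C_1] at hode
      simp only [one_mul] at hode
      have hcoef : ∀ d ∈ U.support, d 0 + d 1 = k → (Plane_ev F).coeff (d 1) ≠ 0 := by
        intro d hd hdk
        have h2 := Plane_coeff_unique F d (by
          intro d' hd' h2
          have h3 := (mem_support_ini.mp hd').1
          rw [hwt, mul_one] at h3
          apply Plane_ext <;> omega)
        rw [h2, hF, coeff_ini, if_pos (by rw [hwt, mul_one, hdk])]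
        exact mem_support_iff.mp hd
      rcases Pool.Agent.Helper43.PLap.twoD k hk2 p hp hp0 (Plane_ev F) hdeg hode with
        ⟨c, hc⟩ | ⟨c, hc⟩
      · left
        intro d hd hdk
        have h2 := hcoef d hd hdk
        rw [hc, Polynomial.coeff_C] at h2
        by_cases h3 : d 1 = 0
        · omega
        · rw [if_neg h3] at h2; exact absurd rfl h2
      · right
        intro d hd hdk
        have h2 := hcoef d hd hdk
        rw [hc, Polynomial.coeff_C_mul, Polynomial.coeff_X_pow] at h2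
        by_cases h3 : d 1 = k
        · exact h3
        · rw [if_neg h3, mul_zero] at h2; exact absurd rfl h2
    · have hk' : k = 1 := by omega
      rw [hk']
      exact hN
  rcases hcases with h | h
  · refine Plane_edge p hpc k hk1 U hE hmin h ⟨d0, hd0, h d0 hd0 rfl, ?_⟩ hγ
    have := h d0 hd0 rfl
    omega
  · refine Plane_edge p hpc k hk1 (rename Plane_sw U) (Plane_hyp_swap hE) ?_ ?_ ?_ ?_
    · intro d hd
      rw [Plane_mem_swap] at hd
      have h1 := hmin _ hd
      obtain ⟨e0, e1⟩ := Plane_mapDomain d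
      simp only [e0, e1] at h1
      omega
    · intro d hd hdk
      rw [Plane_mem_swap] at hd
      have h1 := h _ hd
      obtain ⟨e0, e1⟩ := Plane_mapDomain d
      rw [e0, e1] at h1
      exact h1 (by omega)
    · obtain ⟨e0, e1⟩ := Plane_mapDomain d0
      have h1 := h d0 hd0 rfl
      refine ⟨Finsupp.mapDomain Plane_sw d0, ?_, ?_, ?_⟩
      · rw [Plane_mem_swap, Plane_mapDomain2]; exact hd0
      · rw [e0]; exact h1
      · rw [e1]; omega
    · obtain ⟨d, hd, hd2⟩ := hα
      obtain ⟨e0, e1⟩ := Plane_mapDomain d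
      refine ⟨Finsupp.mapDomain Plane_sw d, ?_, ?_⟩
      · rw [Plane_mem_swap, Plane_mapDomain2]; exact hd
      · rw [e0]; exact hd2

end

end Pool.PN4
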