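import Pool.Agent.PN4.Stmts
import Pool.Agent.PN4.Basic

set_option autoImplicit false

open MvPolynomial

namespace Pool.PN4

noncomputable section

/-- module B7 -/
theorem thm_QuadNeg : St_QuadNeg := by
  intro a' c' T hT
  have ha : (0 : ℝ) ≤ (a' : ℝ) := Nat.cast_nonneg _
  have hc : (0 : ℝ) ≤ (c' : ℝ) := Nat.cast_nonneg _
  generalize (a' : ℝ) = a at ha
  generalize (c' : ℝ) = c at hc
  have hT0 : 0 < T := by linarith
  have hu : 0 < 1 + T := by linarith
  have key : quad a c T = (1 + T) * ((1 - T) * (a - c) ^ 2) - (1 + T) ^ 2 * (a + c + 2) -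
      2 * T * (1 + T) * (2 * (a * c) + a + c) - 2 * T * (1 + T) * (a ^ 2 + a + c ^ 2 + c) -
      4 * T ^ 2 * (a * c) * (a + c + 2) := by
    unfold quad
    ring
  have hac : 0 ≤ a * c := mul_nonneg ha hc
  have h1 : (1 - T) * (a - c) ^ 2 ≤ 2 * T * (a ^ 2 + c ^ 2) := by
    calc (1 - T) * (a - c) ^ 2 ≤ (2 * T) * (a - c) ^ 2 :=
          mul_le_mul_of_nonneg_right (by linarith) (sq_nonneg _)
      _ ≤ 2 * T * (a ^ 2 + c ^ 2) :=
          mul_le_mul_of_nonneg_left (by nlinarith) (by linarith)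
  have h2 : (1 + T) * ((1 - T) * (a - c) ^ 2) ≤ (1 + T) * (2 * T * (a ^ 2 + c ^ 2)) :=
    mul_le_mul_of_nonneg_left h1 hu.le
  have h3 : 0 ≤ 2 * T * (1 + T) * (2 * (a * c) + a + c) := by positivity
  have h4 : 0 ≤ 4 * T ^ 2 * (a * c) * (a + c + 2) := by positivity
  have h5 : 0 ≤ 2 * T * (1 + T) * (a + c) := by positivity
  have h6 : 0 ≤ (1 + T) ^ 2 * (a + c) := by positivity
  have h7 : 0 < (1 + T) ^ 2 := by positivity
  rw [key]
  nlinarith

end

end Pool.PN4
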