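import Pool.Agent.PN4.Stmts
import Pool.Agent.PN4.Basic

set_option autoImplicit false

open MvPolynomial

namespace Pool.PN4

noncomputable section

private theorem rot_weight (ω : Fin 4 → ℕ) (d : Fin 4 →₀ ℕ) :
    Finsupp.weight ω d = d 0 * ω 0 + d 1 * ω 1 + d 2 * ω 2 + d 3 * ω 3 := by
  rw [Finsupp.weight_apply, Finsupp.sum_fintype _ _ (fun i => by simp), Fin.sum_univ_four]
  simp [smul_eq_mul]

/-- the substituted forms -/
private def rotF (M : Matrix (Fin 4) (Fin 4) ℂ) (i : Fin 4) : MvPolynomial (Fin 4) ℂ :=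
  C ((0 : Fin 4 → ℂ) i) + ∑ j, C (M i j) * X j

private theorem rot_sub_eq (M : Matrix (Fin 4) (Fin 4) ℂ) (u : MvPolynomial (Fin 4) ℂ) :
    sub M 0 u = bind₁ (rotF M) u := rfl

private theorem rotF_wh (ω : Fin 4 → ℕ) (M : Matrix (Fin 4) (Fin 4) ℂ)
    (hM : ∀ i j, M i j ≠ 0 → ω j = ω i) (i : Fin 4) :
    IsWeightedHomogeneous ω (rotF M i) (ω i) := by
  unfold rotF
  refine IsWeightedHomogeneous.add ?_ (IsWeightedHomogeneous.sum _ _ _ fun j _ => ?_)
  · simpa using isWeightedHomogeneous_zero ℂ ω (ω i)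
  · by_cases h : M i j = 0
    · rw [h]
      simpa using isWeightedHomogeneous_zero ℂ ω (ω i)
    · rw [← hM i j h]
      exact (isWeightedHomogeneous_X ℂ ω j).C_mul _

private theorem rot_wh_monomial (ω : Fin 4 → ℕ) (M : Matrix (Fin 4) (Fin 4) ℂ)
    (hM : ∀ i j, M i j ≠ 0 → ω j = ω i) (d : Fin 4 →₀ ℕ) (r : ℂ) :
    IsWeightedHomogeneous ω (sub M 0 (monomial d r)) (Finsupp.weight ω d) := by
  rw [rot_sub_eq, bind₁_monomial]
  refine IsWeightedHomogeneous.C_mul ?_ r
  rw [Finsupp.weight_apply]
  exact IsWeightedHomogeneous.prod d.support (fun i => rotF M i ^ d i) (fun i => d i • ω i)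
    fun i _ => (rotF_wh ω M hM i).pow (d i)

private theorem rot_wh (ω : Fin 4 → ℕ) (M : Matrix (Fin 4) (Fin 4) ℂ)
    (hM : ∀ i j, M i j ≠ 0 → ω j = ω i) {u : MvPolynomial (Fin 4) ℂ} {n : ℕ}
    (hu : IsWeightedHomogeneous ω u n) : IsWeightedHomogeneous ω (sub M 0 u) n := by
  have e : sub M 0 u = ∑ d ∈ u.support, sub M 0 (monomial d (coeff d u)) := by
    conv_lhs => rw [u.as_sum]
    simp only [rot_sub_eq, map_sum]
  rw [e]
  refine IsWeightedHomogeneous.sum _ _ _ fun d hd => ?_
  have h := hu (mem_support_iff.1 hd)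
  rw [← h]
  exact rot_wh_monomial ω M hM d _

private theorem rot_comp (ω : Fin 4 → ℕ) (M : Matrix (Fin 4) (Fin 4) ℂ)
    (hM : ∀ i j, M i j ≠ 0 → ω j = ω i) (n : ℕ) (u : MvPolynomial (Fin 4) ℂ) :
    weightedHomogeneousComponent ω n (sub M 0 u) =
      sub M 0 (weightedHomogeneousComponent ω n u) := by
  induction u using MvPolynomial.induction_on' with
  | monomial d r =>
    by_cases h : Finsupp.weight ω d = n
    · have h1 := rot_wh_monomial ω M hM d r
      have h2 := isWeightedHomogeneous_monomial ω d r h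
      rw [h] at h1
      rw [h1.weightedHomogeneousComponent_same, h2.weightedHomogeneousComponent_same]
    · have h1 := rot_wh_monomial ω M hM d r
      have h2 := isWeightedHomogeneous_monomial ω d r (rfl : Finsupp.weight ω d = _)
      rw [h1.weightedHomogeneousComponent_ne n (Ne.symm h),
        h2.weightedHomogeneousComponent_ne n (Ne.symm h), rot_sub_eq, map_zero]
  | add p q hp hq =>
    simp only [rot_sub_eq, map_add] at hp hq ⊢
    rw [hp, hq]

/-- exchange of `ξ, η` and of `y, z` -/
private def rotS : Equiv.Perm (Fin 4) := Equiv.swap 0 1 * Equiv.swap 2 3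

private theorem rotS_0 : rotS 0 = 1 := by decide
private theorem rotS_1 : rotS 1 = 0 := by decide
private theorem rotS_2 : rotS 2 = 3 := by decide
private theorem rotS_3 : rotS 3 = 2 := by decide

private theorem rot_map (a b c e : ℕ) : (mk b a e c).mapDomain rotS = mk a b c e := by
  ext i
  rw [Finsupp.mapDomain_equiv_apply]
  have h0 : rotS.symm 0 = 1 := by rw [Equiv.symm_apply_eq]; exact rotS_1.symm
  have h1 : rotS.symm 1 = 0 := by rw [Equiv.symm_apply_eq]; exact rotS_0.symm
  have h2 : rotS.symm 2 = 3 := by rw [Equiv.symm_apply_eq]; exact rotS_3.symm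
  have h3 : rotS.symm 3 = 2 := by rw [Equiv.symm_apply_eq]; exact rotS_2.symm
  fin_cases i
  · simp [h0]
  · simp [h1]
  · simp [h2]
  · simp [h3]

private theorem rot_coeff_rename (u : MvPolynomial (Fin 4) ℂ) (a b c e : ℕ) :
    coeff (mk a b c e) (rename rotS u) = coeff (mk b a e c) u := by
  rw [← rot_map a b c e]
  exact coeff_rename_mapDomain _ rotS.injective _ _

private theorem rot_real (u : MvPolynomial (Fin 4) ℂ) :
    IsReal u ↔ map (starRingEnd ℂ) u = rename rotS u := by
  constructor
  · intro h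
    ext d
    rw [← mk_self d, rot_coeff_rename, coeff_map]
    exact (h _ _ _ _).symm
  · intro h a b c e
    have := congrArg (coeff (mk a b c e)) h
    rw [rot_coeff_rename, coeff_map] at this
    exact this.symm

/-- the rotation -/
private def rotM (α β : ℂ) : Matrix (Fin 4) (Fin 4) ℂ :=
  !![α, 0, 0, -(starRingEnd ℂ) β; 0, (starRingEnd ℂ) α, -β, 0;
    0, (starRingEnd ℂ) β, α, 0; β, 0, 0, (starRingEnd ℂ) α]

private theorem rotM_real (α β : ℂ) (i j : Fin 4) :
    (starRingEnd ℂ) (rotM α β (rotS i) (rotS j)) = rotM α β i j := by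
  fin_cases i <;> fin_cases j <;>
    simp [rotM, rotS_0, rotS_1, rotS_2, rotS_3]

private theorem rot_sub_real (α β : ℂ) {u : MvPolynomial (Fin 4) ℂ} (hu : IsReal u) :
    IsReal (sub (rotM α β) 0 u) := by
  rw [rot_real] at hu ⊢
  rw [rot_sub_eq, map_bind₁, hu, bind₁_rename, rename_bind₁]
  congr 1
  apply congrArg
  funext i
  simp only [Function.comp_apply, rotF, map_add, map_sum, map_mul, map_C, map_X, rename_C,
    rename_X, Pi.zero_apply, map_zero]
  congr 1
  rw [← Equiv.sum_comp rotS]
  refine Finset.sum_congr rfl fun j _ => ?_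
  rw [rotM_real]

private theorem rotM_gram (α β : ℂ)
    (h : α * (starRingEnd ℂ) α + β * (starRingEnd ℂ) β = 1) :
    rotM α β * Hm * (rotM α β).transpose = Hm := by
  ext i j
  fin_cases i <;> fin_cases j <;>
    simp [rotM, Hm, Matrix.mul_apply, Fin.sum_univ_four] <;>
    first | ring1 | linear_combination h

private theorem rot_Hm_sq : Hm * Hm = 1 := by
  ext i j
  fin_cases i <;> fin_cases j <;> simp [Hm, Matrix.mul_apply, Fin.sum_univ_four]

/-- the substitution is injective -/
private theorem rot_inj (h1 : St_Sub) {M : Matrix (Fin 4) (Fin 4) ℂ}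
    (hM : M * Hm * M.transpose = Hm) {w : MvPolynomial (Fin 4) ℂ} (hw : sub M 0 w = 0) : w = 0 := by
  refine MvPolynomial.funext fun y => ?_
  obtain ⟨-, -, he, -⟩ := h1 M Hm 0 0 w
  have h2 := he ((Hm * M.transpose * Hm).mulVec y)
  rw [hw, map_zero] at h2
  have h3 : M.mulVec ((Hm * M.transpose * Hm).mulVec y) = y := by
    rw [Matrix.mulVec_mulVec]
    have : M * (Hm * M.transpose * Hm) = 1 := by
      rw [← Matrix.mul_assoc, ← Matrix.mul_assoc, hM, rot_Hm_sq]
    rw [this, Matrix.one_mulVec]
  have h4 : (fun i => (0 : Fin 4 → ℂ) i + ∑ j, M i j * (Hm * M.transpose * Hm).mulVec y j) = y := by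
    funext i
    have := congrFun h3 i
    simpa [Matrix.mulVec, dotProduct] using this
  rw [h4] at h2
  rw [← h2, map_zero]

/-- homogeneous polynomials scale -/
private theorem rot_scale {u : MvPolynomial (Fin 4) ℂ} {m : ℕ} (hu : u.IsHomogeneous m) (c : ℂ)
    (x : Fin 4 → ℂ) : eval (fun i => c * x i) u = c ^ m * eval x u := by
  rw [eval_eq', eval_eq', Finset.mul_sum]
  refine Finset.sum_congr rfl fun d hd => ?_
  have h : ∑ i, d i = m := hom_sum hu hd
  simp only [mul_pow, Finset.prod_mul_distrib, Finset.prod_pow_eq_pow_sum, h]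
  ring

private theorem rot_eval (g : Fin 4 → Polynomial ℂ) (u : MvPolynomial (Fin 4) ℂ) (t : ℂ) :
    (aeval g u).eval t = eval (fun i => (g i).eval t) u := by
  induction u using MvPolynomial.induction_on with
  | C a => simp
  | add p q hp hq => simp [hp, hq]
  | mul_X p i hp => simp [hp]

/-- a nontrivial zero of the binary form -/
private theorem rot_zero0 {u : MvPolynomial (Fin 4) ℂ} {m : ℕ} (hm : 1 ≤ m)
    (hu : u.IsHomogeneous m) : ∃ s t : ℂ, (s ≠ 0 ∨ t ≠ 0) ∧ eval ![s, -t, s, t] u = 0 := by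
  by_contra hne
  push Not at hne
  set p : Polynomial ℂ := aeval ![Polynomial.C 1, -Polynomial.X, Polynomial.C 1, Polynomial.X] u
    with hp
  set r : Polynomial ℂ := aeval ![Polynomial.X, -Polynomial.C 1, Polynomial.X, Polynomial.C 1] u
    with hr
  have hpe : ∀ t : ℂ, p.eval t = eval ![1, -t, 1, t] u := by
    intro t
    rw [hp, rot_eval]
    congr 1
    congr 1
    funext i
    fin_cases i <;> simp
  have hre : ∀ s : ℂ, r.eval s = eval ![s, -1, s, 1] u := by
    intro s
    rw [hr, rot_eval]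
    congr 1
    congr 1
    funext i
    fin_cases i <;> simp
  have hdeg : p.degree ≤ 0 := by
    by_contra h
    obtain ⟨z, hz⟩ := Complex.exists_root (not_le.1 h)
    have h1 : p.eval z = 0 := hz
    rw [hpe] at h1
    exact hne 1 z (Or.inl one_ne_zero) h1
  obtain ⟨c, hc⟩ : ∃ c, p = Polynomial.C c := ⟨_, Polynomial.eq_C_of_degree_le_zero hdeg⟩
  have hrs : ∀ s : ℂ, s ≠ 0 → r.eval s = c * s ^ m := by
    intro s hs
    have h1 := rot_scale hu s ![1, -(1 / s), 1, 1 / s]
    have h2 : (fun i => s * (![1, -(1 / s), 1, 1 / s] : Fin 4 → ℂ) i) = ![s, -1, s, 1] := by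
      funext i
      fin_cases i
      · simp
      · simp [hs]
      · simp
      · simp [hs]
    rw [h2, ← hpe, hc, Polynomial.eval_C] at h1
    rw [hre, h1]
    ring
  have heq : r = Polynomial.C c * Polynomial.X ^ m := by
    refine Polynomial.eq_of_infinite_eval_eq _ _ ?_
    refine Set.Infinite.mono ?_ (Set.Finite.infinite_compl (Set.finite_singleton (0 : ℂ)))
    intro s hs
    have hs' : s ≠ 0 := hs
    change r.eval s = (Polynomial.C c * Polynomial.X ^ m).eval s
    rw [hrs s hs']
    simp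
  have h0 : r.eval 0 = 0 := by
    rw [heq]
    simp [show m ≠ 0 by omega]
  rw [hre] at h0
  exact hne 0 1 (Or.inr one_ne_zero) h0

private theorem rot_zero {u : MvPolynomial (Fin 4) ℂ} {m : ℕ} (hm : 1 ≤ m)
    (hu : u.IsHomogeneous m) : ∃ α β : ℂ, α * (starRingEnd ℂ) α + β * (starRingEnd ℂ) β = 1 ∧
      eval ![α, -β, α, β] u = 0 := by
  obtain ⟨s, t, hst, hz⟩ := rot_zero0 hm hu
  have hpos : 0 < Complex.normSq s + Complex.normSq t := by
    rcases hst with h | h
    · have := Complex.normSq_pos.2 h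
      have := Complex.normSq_nonneg t
      linarith
    · have := Complex.normSq_pos.2 h
      have := Complex.normSq_nonneg s
      linarith
  set k : ℝ := (Real.sqrt (Complex.normSq s + Complex.normSq t))⁻¹ with hk
  have hk2 : k ^ 2 * (Complex.normSq s + Complex.normSq t) = 1 := by
    rw [hk, inv_pow, Real.sq_sqrt hpos.le, inv_mul_cancel₀ hpos.ne']
  refine ⟨k * s, k * t, ?_, ?_⟩
  · have h1 : s * (starRingEnd ℂ) s = (Complex.normSq s : ℂ) := Complex.mul_conj s
    have h2 : t * (starRingEnd ℂ) t = (Complex.normSq t : ℂ) := Complex.mul_conj t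
    have h3 : ((k : ℂ)) ^ 2 * ((Complex.normSq s : ℂ) + (Complex.normSq t : ℂ)) = 1 := by
      exact_mod_cast hk2
    rw [map_mul, map_mul, Complex.conj_ofReal]
    rw [← h3, ← h1, ← h2]
    ring
  · have h1 := rot_scale hu (k : ℂ) ![s, -t, s, t]
    have h2 : (fun i => (k : ℂ) * (![s, -t, s, t] : Fin 4 → ℂ) i) =
        ![k * s, -(k * t), k * s, k * t] := by
      funext i
      fin_cases i <;> simp
    rw [h2, hz, mul_zero] at h1
    exact h1

/-- the weights -/
private def rotW : Fin 4 → ℕ := ![0, 1, 1, 0]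

private theorem rotW_weight (d : Fin 4 →₀ ℕ) : Finsupp.weight rotW d = d 1 + d 2 := by
  rw [rot_weight]
  simp [rotW]

private theorem rotM_wt (α β : ℂ) (i j : Fin 4) (h : rotM α β i j ≠ 0) : rotW j = rotW i := by
  revert h
  fin_cases i <;> fin_cases j <;> simp [rotM, rotW]

/-- module H4 -/
theorem thm_Rot (h1 : St_Sub) : St_Rot := by
  intro P m a U hm ham hU0 hUh hS hR hsup hex
  set Ua := weightedHomogeneousComponent rotW a U with hUa
  have hUah : Ua.IsHomogeneous m := by
    intro d hd
    rw [hUa, coeff_weightedHomogeneousComponent] at hd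
    split_ifs at hd with h
    · exact hUh hd
    · exact absurd rfl hd
  obtain ⟨α, β, hab, hz⟩ := rot_zero hm hUah
  have hg := rotM_gram α β hab
  have hVh : (sub (rotM α β) 0 U).IsHomogeneous m :=
    rot_wh 1 (rotM α β) (fun i j _ => rfl) hUh
  have hcomp := rot_comp rotW (rotM α β) (rotM_wt α β)
  have hVa : weightedHomogeneousComponent rotW a (sub (rotM α β) 0 U) = sub (rotM α β) 0 Ua :=
    hcomp a U
  have hUa0 : Ua ≠ 0 := by
    obtain ⟨d, hd, hd'⟩ := hex
    intro h
    have := congrArg (coeff d) h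
    rw [hUa, coeff_weightedHomogeneousComponent, if_pos (by rw [rotW_weight, hd']), coeff_zero]
      at this
    exact mem_support_iff.1 hd this
  have hVa0 : sub (rotM α β) 0 Ua ≠ 0 := fun h => hUa0 (rot_inj h1 hg h)
  refine ⟨sub (rotM α β) 0 U, fun h => hU0 (rot_inj h1 hg h), hVh, ?_, rot_sub_real α β hR,
    ?_, ?_, ?_⟩
  · unfold Sol at hS ⊢
    rw [(h1 (rotM α β) Hm 0 (P : ℂ) U).2.1, hg, hS, rot_sub_eq, map_zero]
  · intro d hd
    by_contra hlt
    have h2 := congrArg (coeff d) (hcomp (d 1 + d 2) U)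
    rw [coeff_weightedHomogeneousComponent, if_pos (rotW_weight d)] at h2
    have h3 : weightedHomogeneousComponent rotW (d 1 + d 2) U = 0 := by
      ext d'
      rw [coeff_weightedHomogeneousComponent, rotW_weight, coeff_zero]
      split_ifs with h
      · by_contra hne
        have := hsup d' (mem_support_iff.2 hne)
        omega
      · rfl
    rw [h3, rot_sub_eq (rotM α β) 0, map_zero, coeff_zero] at h2
    exact mem_support_iff.1 hd h2
  · obtain ⟨d, hd⟩ := ne_zero_iff.1 hVa0
    rw [← hVa, coeff_weightedHomogeneousComponent] at hd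
    split_ifs at hd with h
    · exact ⟨d, mem_support_iff.2 hd, by rw [← rotW_weight, h]⟩
    · exact absurd rfl hd
  · have h2 : coeff (mk (m - a) 0 a 0) (sub (rotM α β) 0 U) =
        coeff (mk (m - a) 0 a 0) (sub (rotM α β) 0 Ua) := by
      rw [← hVa, coeff_weightedHomogeneousComponent, if_pos (by rw [rotW_weight]; simp)]
    rw [h2]
    have hVah : (sub (rotM α β) 0 Ua).IsHomogeneous m :=
      rot_wh 1 (rotM α β) (fun i j _ => rfl) hUah
    have h3 : eval ![1, 0, 1, 0] (sub (rotM α β) 0 Ua) =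
        coeff (mk (m - a) 0 a 0) (sub (rotM α β) 0 Ua) := by
      rw [eval_eq', Finset.sum_eq_single (mk (m - a) 0 a 0)]
      · simp [Fin.prod_univ_four]
      · intro d hd hne
        have hsum := hom_four hVah hd
        have hwt : d 1 + d 2 = a := by
          rw [mem_support_iff, ← hVa, coeff_weightedHomogeneousComponent] at hd
          split_ifs at hd with h
          · rw [← rotW_weight, h]
          · exact absurd rfl hd
        have h4 : d 1 ≠ 0 ∨ d 3 ≠ 0 := by
          by_contra hc
          push Not at hc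
          apply hne
          apply ext4
          · simp; omega
          · simp; omega
          · simp; omega
          · simp; omega
        rw [Fin.prod_univ_four]
        rcases h4 with h | h
        · simp [h]
        · simp [h]
      · intro h
        rw [notMem_support_iff.1 h, zero_mul]
    rw [← h3, (h1 (rotM α β) Hm 0 (P : ℂ) Ua).2.2.1]
    have h5 : (fun i => (0 : Fin 4 → ℂ) i + ∑ j, rotM α β i j * (![1, 0, 1, 0] : Fin 4 → ℂ) j) =
        ![α, -β, α, β] := by
      funext i
      fin_cases i <;> simp [rotM, Fin.sum_univ_four]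
    rw [h5]
    exact hz

end

end Pool.PN4
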