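import Pool.Agent.PN4.Stmts
import Pool.Agent.PN4.Basic

set_option autoImplicit false

open MvPolynomial

namespace Pool.PN4

noncomputable section

/-- the gradings compatible with the form -/
lemma StepA_gr (ω : Fin 4 → ℕ) (κ : ℕ) (h01 : ω 0 + ω 1 = κ) (h23 : ω 2 + ω 3 = κ) :
    ∀ i j, Hm i j ≠ 0 → ω i + ω j = κ := by
  intro i j
  fin_cases i <;> fin_cases j <;> intro hne <;> first
    | exact h01
    | exact h23
    | exact (add_comm _ _).trans h01
    | exact (add_comm _ _).trans h23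
    | exact absurd (by simp [Hm]) hne

/-- module H5 -/
theorem thm_StepA (h1 : St_Init) (h2 : St_Vertex) (h3 : St_Equal) : St_StepA := by
  intro P hP hP0 m hG c U hc hcm hU hS hmin hex hor
  have hSolIni : ∀ (ω : Fin 4 → ℕ) (κ W : ℕ) (u : MvPolynomial (Fin 4) ℂ),
      ω 0 + ω 1 = κ → ω 2 + ω 3 = κ → (∀ d ∈ u.support, W ≤ wt ω d) → Sol P u →
      Sol P (ini ω W u) := by
    intro ω κ W u ha hb hW hu
    exact h1 4 ω κ W Hm (P : ℂ) u (StepA_gr ω κ ha hb) hW hu
  -- the tangent cone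
  set F := ini ![0, 2, 1, 1] c U with hF
  have hw : ∀ d : Fin 4 →₀ ℕ, wt ![0, 2, 1, 1] d = 2 * d 1 + d 2 + d 3 := by
    intro d
    rw [wt_four]
    simp
  have hFS : Sol P F := hSolIni _ 2 c U rfl rfl (fun d hd => by rw [hw]; exact hmin d hd) hS
  have hFm : ∀ d, d ∈ F.support ↔ (2 * d 1 + d 2 + d 3 = c ∧ d ∈ U.support) := by
    intro d
    rw [hF, mem_support_ini, hw]
  have hFh : F.IsHomogeneous m := ini_hom _ _ hU
  have hF0 : F ≠ 0 := by
    obtain ⟨d, hd, hdc⟩ := hex
    intro h0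
    have h4 : d ∈ F.support := (hFm d).2 ⟨hdc, hd⟩
    rw [h0] at h4
    simp at h4
  -- the part with the least i
  have hwa : ∀ d : Fin 4 →₀ ℕ, wt ![0, 1, 1, 0] d = d 1 + d 2 := by
    intro d
    rw [wt_four]
    simp
  have hwb : ∀ d : Fin 4 →₀ ℕ, wt ![0, 1, 0, 1] d = d 1 + d 3 := by
    intro d
    rw [wt_four]
    simp
  obtain ⟨i, hi, hi0⟩ := exists_min_wt ![0, 1, 1, 0] hF0
  obtain ⟨j, hj, hj0⟩ := exists_min_wt ![0, 1, 0, 1] hF0
  have hSi := hSolIni ![0, 1, 1, 0] 1 i F rfl rfl hi hFS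
  have hSj := hSolIni ![0, 1, 0, 1] 1 j F rfl rfl hj hFS
  have hi' : ∀ d ∈ (ini ![0, 1, 1, 0] i F).support,
      d 1 + d 2 = i ∧ 2 * d 1 + d 2 + d 3 = c ∧ d ∈ U.support := by
    intro d hd
    rw [mem_support_ini, hwa, hFm] at hd
    exact hd
  have hj' : ∀ d ∈ (ini ![0, 1, 0, 1] j F).support,
      d 1 + d 3 = j ∧ 2 * d 1 + d 2 + d 3 = c ∧ d ∈ U.support := by
    intro d hd
    rw [mem_support_ini, hwb, hFm] at hd
    exact hd
  obtain ⟨di, hdi⟩ := support_nonempty.2 hi0
  obtain ⟨dj, hdj⟩ := support_nonempty.2 hj0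
  obtain ⟨hdi1, hdi2, hdi3⟩ := hi' di hdi
  obtain ⟨hdj1, hdj2, hdj3⟩ := hj' dj hdj
  have hci : i = 0 ∨ i = c := by
    by_contra hcon
    push Not at hcon
    exact h2 P hP hP0 m hG i (c - i) _ hi0 (ini_hom _ _ hFh) hSi
      (fun d hd => by
        obtain ⟨ha, hb, -⟩ := hi' d hd
        exact ⟨ha, by omega⟩) (by omega) (by omega) (by omega) (by omega)
  have hcj : j = 0 ∨ j = c := by
    by_contra hcon
    push Not at hcon
    exact h2 P hP hP0 m hG (c - j) j _ hj0 (ini_hom _ _ hFh) hSj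
      (fun d hd => by
        obtain ⟨ha, hb, -⟩ := hj' d hd
        exact ⟨by omega, ha⟩) (by omega) (by omega) (by omega) (by omega)
  rcases hci with hci | hci
  · rcases hcj with hcj | hcj
    · -- both pure powers occur
      exfalso
      have hmi := hom_four hU hdi3
      have hmj := hom_four hU hdj3
      have e1 : di = mk (m - c) 0 0 c := by
        refine ext4 ?_ ?_ ?_ ?_
        · rw [mk_zero]; omega
        · rw [mk_one]; omega
        · rw [mk_two]; omega
        · rw [mk_three]; omega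
      have e2 : dj = mk (m - c) 0 c 0 := by
        refine ext4 ?_ ?_ ?_ ?_
        · rw [mk_zero]; omega
        · rw [mk_one]; omega
        · rw [mk_two]; omega
        · rw [mk_three]; omega
      have hFi : di ∈ F.support := (hFm di).2 ⟨hdi2, hdi3⟩
      have hFj : dj ∈ F.support := (hFm dj).2 ⟨hdj2, hdj3⟩
      rw [e1, mem_support_iff] at hFi hdi3
      rw [e2, mem_support_iff] at hFj hdj3
      rcases Nat.lt_or_ge c 2 with h5 | h5
      · have hc1 : c = 1 := by omega
        rw [hc1] at hdi3 hdj3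
        rcases hor with h6 | h6
        · exact hdj3 h6
        · exact hdi3 h6
      · exact h3 P hP hP0 m c F h5 hcm hFh hFS (fun d hd => ((hFm d).1 hd).1) hFj hFi
    · right
      intro d hd hdc
      have h4 := hj d ((hFm d).2 ⟨hdc, hd⟩)
      rw [hwb] at h4
      have hmd := hom_four hU hd
      refine ext4 ?_ ?_ ?_ ?_
      · rw [mk_zero]; omega
      · rw [mk_one]; omega
      · rw [mk_two]; omega
      · rw [mk_three]; omega
  · left
    intro d hd hdc
    have h4 := hi d ((hFm d).2 ⟨hdc, hd⟩)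
    rw [hwa] at h4
    have hmd := hom_four hU hd
    refine ext4 ?_ ?_ ?_ ?_
    · rw [mk_zero]; omega
    · rw [mk_one]; omega
    · rw [mk_two]; omega
    · rw [mk_three]; omega

end

end Pool.PN4
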