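import Pool.Agent.PN4.Stmts
import Pool.Agent.PN4.Basic

set_option autoImplicit false

open MvPolynomial

namespace Pool.PN4

noncomputable section

lemma StepB_kappa (J D : ℕ) (i j : Fin 4) (h : Hm i j ≠ 0) :
    (![0, J + D, J, D] : Fin 4 → ℕ) i + (![0, J + D, J, D] : Fin 4 → ℕ) j = J + D := by
  fin_cases i <;> fin_cases j <;> simp [Hm] at h ⊢
  all_goals try omega

lemma StepB_kappa1 (i j : Fin 4) (h : Hm i j ≠ 0) :
    (![0, 1, 1, 0] : Fin 4 → ℕ) i + (![0, 1, 1, 0] : Fin 4 → ℕ) j = 1 := by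
  fin_cases i <;> fin_cases j <;> simp [Hm] at h ⊢

lemma StepB_wt (J D : ℕ) (d : Fin 4 →₀ ℕ) :
    wt ![0, J + D, J, D] d = J * (d 1 + d 2) + D * (d 1 + d 3) := by
  rw [wt_four]
  show 0 * d 0 + (J + D) * d 1 + J * d 2 + D * d 3 = _
  ring

lemma StepB_wt1 (d : Fin 4 →₀ ℕ) : wt ![0, 1, 1, 0] d = d 1 + d 2 := by
  rw [wt_four]
  show 0 * d 0 + 1 * d 1 + 1 * d 2 + 0 * d 3 = _
  ring

/-- the choice of the edge -/
lemma StepB_choice (a : ℕ) (S : Finset (Fin 4 →₀ ℕ)) (hS : S.Nonempty)
    (hlt : ∀ d ∈ S, d 1 + d 2 < a) :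
    ∃ e ∈ S, (∀ d ∈ S, (d 1 + d 2) < a →
        (e 1 + e 3) * (a - (d 1 + d 2)) ≤ (d 1 + d 3) * (a - (e 1 + e 2))) ∧
      (∀ d ∈ S, (e 1 + e 3) * (a - (d 1 + d 2)) = (d 1 + d 3) * (a - (e 1 + e 2)) →
        e 1 + e 2 ≤ d 1 + d 2) := by
  classical
  set r : (Fin 4 →₀ ℕ) → ℚ := fun d => ((d 1 + d 3 : ℕ) : ℚ) / ((a - (d 1 + d 2) : ℕ) : ℚ) with hr
  obtain ⟨e0, he0, hmin0⟩ := S.exists_min_image r hS
  have hS' : (S.filter (fun d => r d = r e0)).Nonempty := ⟨e0, by simp [he0]⟩
  obtain ⟨e, he, hmin⟩ := (S.filter (fun d => r d = r e0)).exists_min_image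
    (fun d => d 1 + d 2) hS'
  rw [Finset.mem_filter] at he
  have hpos : ∀ d ∈ S, (0 : ℚ) < ((a - (d 1 + d 2) : ℕ) : ℚ) := by
    intro d hd
    have := hlt d hd
    exact_mod_cast Nat.sub_pos_of_lt this
  refine ⟨e, he.1, ?_, ?_⟩
  · intro d hd _
    have h1 : r e ≤ r d := by rw [he.2]; exact hmin0 d hd
    rw [hr] at h1
    simp only at h1
    rw [div_le_div_iff₀ (hpos e he.1) (hpos d hd)] at h1
    exact_mod_cast h1
  · intro d hd h1
    refine hmin d ?_
    rw [Finset.mem_filter]
    refine ⟨hd, ?_⟩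
    rw [← he.2, hr]
    simp only
    rw [div_eq_div_iff (hpos d hd).ne' (hpos e he.1).ne']
    exact_mod_cast h1.symm

/-- module H6 -/
theorem thm_StepB (h1 : St_Init) (h2 : St_Vertex) (h3 : St_EdgeA) (h4 : St_EdgeB) (h5 : St_Line) : St_StepB := by
  classical
  intro P hP hP0 m hgen a U ha1 ham hU hsol hreal hca hface hex
  set S : Finset (Fin 4 →₀ ℕ) := U.support.filter (fun d => d 1 + d 2 < a) with hS
  have hSne : S.Nonempty := by
    obtain ⟨d, hd, hda⟩ := hex
    exact ⟨d, by rw [hS, Finset.mem_filter]; exact ⟨hd, hda⟩⟩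
  have hSlt : ∀ d ∈ S, d 1 + d 2 < a := fun d hd => (Finset.mem_filter.1 hd).2
  have hSU : ∀ d ∈ S, d ∈ U.support := fun d hd => (Finset.mem_filter.1 hd).1
  obtain ⟨e, heS, hemin, hei⟩ := StepB_choice a S hSne hSlt
  obtain ⟨k, hk⟩ : ∃ k, k = e 1 + e 2 := ⟨_, rfl⟩
  obtain ⟨J, hJ⟩ : ∃ J, J = e 1 + e 3 := ⟨_, rfl⟩
  rw [← hk, ← hJ] at hemin hei
  have hka : k < a := by rw [hk]; exact hSlt e heS
  obtain ⟨D, hD⟩ : ∃ D, D = a - k := ⟨_, rfl⟩
  rw [← hD] at hemin hei
  have haD : a = k + D := by omega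
  have hD1 : 1 ≤ D := by omega
  have hesum : e 0 + e 1 + e 2 + e 3 = m := hom_four hU (hSU e heS)
  -- `J > D`
  have hJD : D < J := by
    by_contra hcon
    push Not at hcon
    have h6 := hface e (hSU e heS) (by omega)
    rw [h6] at hk
    simp at hk
    omega
  have hJm : J ≤ m := by omega
  -- the weights
  have hlow : ∀ d ∈ U.support, J * a ≤ J * (d 1 + d 2) + D * (d 1 + d 3) := by
    intro d hd
    by_cases hda : d 1 + d 2 < a
    · have h6 := hemin d (by rw [hS, Finset.mem_filter]; exact ⟨hd, hda⟩) hda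
      obtain ⟨t, ht⟩ : ∃ t, a = d 1 + d 2 + t := ⟨a - (d 1 + d 2), by omega⟩
      have h7 : a - (d 1 + d 2) = t := by omega
      rw [h7] at h6
      rw [ht]
      nlinarith
    · push Not at hda
      have : J * a ≤ J * (d 1 + d 2) := Nat.mul_le_mul_left _ hda
      omega
  set w : MvPolynomial (Fin 4) ℂ := ini ![0, J + D, J, D] (J * a) U with hw
  have hwsol : Sol P w := by
    refine h1 4 ![0, J + D, J, D] (J + D) (J * a) Hm (P : ℂ) U (StepB_kappa J D) ?_ hsol
    intro d hd
    rw [StepB_wt]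
    exact hlow d hd
  have hwhom : w.IsHomogeneous m := ini_hom _ _ hU
  have hwsupp : ∀ d ∈ w.support, J * (d 1 + d 2) + D * (d 1 + d 3) = J * a ∧ d ∈ U.support := by
    intro d hd
    have h6 := mem_support_ini.1 hd
    rw [StepB_wt] at h6
    exact h6
  have hecoeff : coeff e w = coeff e U := by
    rw [hw, coeff_ini, StepB_wt, ← hk, ← hJ, if_pos]
    rw [haD]; ring
  have heU : coeff e U ≠ 0 := mem_support_iff.1 (hSU e heS)
  have hacoeff : coeff (mk (m - a) 0 a 0) w = coeff (mk (m - a) 0 a 0) U := by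
    rw [hw, coeff_ini, StepB_wt, if_pos]
    simp
  -- the vertex
  have hvert : k = 0 ∨ J = m := by
    by_contra hcon
    push Not at hcon
    set v : MvPolynomial (Fin 4) ℂ := ini ![0, 1, 1, 0] k w with hv
    have hki : ∀ d ∈ w.support, k ≤ d 1 + d 2 := by
      intro d hd
      obtain ⟨h6, h7⟩ := hwsupp d hd
      by_cases hda : d 1 + d 2 < a
      · have hdS : d ∈ S := by rw [hS, Finset.mem_filter]; exact ⟨h7, hda⟩
        refine hei d hdS ?_
        obtain ⟨t, ht⟩ : ∃ t, a = d 1 + d 2 + t := ⟨a - (d 1 + d 2), by omega⟩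
        have h8 : a - (d 1 + d 2) = t := by omega
        rw [h8]
        rw [ht] at h6
        nlinarith
      · omega
    have hvsol : Sol P v := by
      refine h1 4 ![0, 1, 1, 0] 1 k Hm (P : ℂ) w StepB_kappa1 ?_ hwsol
      intro d hd
      rw [StepB_wt1]
      exact hki d hd
    have hecoeff2 : coeff e v = coeff e U := by
      rw [hv, coeff_ini, StepB_wt1, ← hk, if_pos rfl, hecoeff]
    have hv0 : v ≠ 0 := by
      intro h6
      rw [h6, coeff_zero] at hecoeff2
      exact heU hecoeff2.symm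
    refine h2 P hP hP0 m hgen k J v hv0 (ini_hom _ _ hwhom) hvsol ?_ (by omega) (by omega)
      (by omega) (by omega)
    intro d hd
    have h6 := mem_support_ini.1 hd
    rw [StepB_wt1] at h6
    refine ⟨h6.1, ?_⟩
    have h7 := (hwsupp d h6.2).1
    rw [h6.1, haD] at h7
    have h8 : D * (d 1 + d 3) = D * J := by nlinarith
    exact Nat.eq_of_mul_eq_mul_left hD1 h8
  rcases Nat.eq_zero_or_pos k with hk0 | hk0
  · -- `k = 0`
    have hDa : D = a := by omega
    have he : e = mk (m - J) 0 0 J := by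
      refine ext4 ?_ ?_ ?_ ?_
      · simp; omega
      · simp; omega
      · simp; omega
      · simp; omega
    have h6 := h3 P hP hP0 m J D w (by omega) hD1 hJm (by omega) hwhom hwsol
      (fun d hd => by rw [(hwsupp d hd).1, hDa]) (by rw [hDa, hacoeff]; exact hca)
      (by rw [← he, hecoeff]; exact heU)
    omega
  · -- `J = m`
    have hJm' : J = m := by
      rcases hvert with h6 | h6
      · omega
      · exact h6
    have he : e = mk 0 k 0 (m - k) := by
      refine ext4 ?_ ?_ ?_ ?_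
      · simp; omega
      · simp; omega
      · simp; omega
      · simp; omega
    have h6 := h4 P hP hP0 m k D w hD1 (by omega) hwhom hwsol
      (fun d hd => by
        have h7 := (hwsupp d hd).1
        rw [hJm', haD] at h7
        exact h7) (by rw [← haD, hacoeff]; exact hca) (by rw [← he, hecoeff]; exact heU)
    have hDk : D = m - 2 * k := by omega
    have hak : a = m - k := by omega
    refine h5 P hP hP0 m k U hk0 (by omega) hU hsol ?_ (by rw [← he]; exact heU) ?_
    · intro d hd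
      have h7 := hlow d hd
      have hsum := hom_four hU hd
      -- the symmetric exponent
      have hd' : mk (d 1) (d 0) (d 3) (d 2) ∈ U.support := by
        rw [mem_support_iff, hreal (d 0) (d 1) (d 2) (d 3), mk_self]
        intro h8
        rw [map_eq_zero] at h8
        exact mem_support_iff.1 hd h8
      have h8 := hlow _ hd'
      simp only [mk_one, mk_two, mk_three] at h8
      rw [hJm', hDk] at h7 h8
      obtain ⟨q, hq⟩ : ∃ q, m = 2 * k + q := ⟨m - 2 * k, by omega⟩
      have h9 : m - 2 * k = q := by omega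
      have h10 : m - k = k + q := by omega
      rw [h9] at h7 h8 ⊢
      rw [hak, h10] at h7 h8
      rw [h10]
      have h11 : d 0 = m - d 1 - d 2 - d 3 := by omega
      have h12 : d 0 + d 3 = m - (d 1 + d 2) := by omega
      have h13 : d 0 + d 2 = m - (d 1 + d 3) := by omega
      refine le_antisymm ?_ h7
      have e1 : m * (d 0 + d 3) + m * (d 1 + d 2) = m * m := by rw [← mul_add]; congr 1; omega
      have e2 : q * (d 0 + d 2) + q * (d 1 + d 3) = q * m := by rw [← mul_add]; congr 1; omega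
      have e3 : m * m + q * m = m * (k + q) + m * (k + q) := by
        rw [← mul_add, mul_comm q m, ← mul_add]
        congr 1
        omega
      omega
    · have h7 : mk k 0 (m - k) 0 = mk (m - a) 0 a 0 := by
        rw [hak]
        congr 1
        omega
      rw [h7]
      exact hca

end

end Pool.PN4
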