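import Pool.Agent.PN4.Stmts
import Pool.Agent.PN4.Basic
import Pool.Agent.Helper43.PLap.Univ

set_option autoImplicit false

open MvPolynomial

namespace Pool.PN4

open Agent.Helper43.PLap (nn DD kap psi bb AA pderiv_comm)

noncomputable section

/-- a linear relation between the exponents is a first order identity -/
lemma strip_euler (ω : Fin 4 → ℂ) (K : ℂ) (U : MvPolynomial (Fin 4) ℂ)
    (h : ∀ d ∈ U.support, ∑ i, ω i * (d i : ℂ) = K) :
    ∑ i, C (ω i) * (X i * pderiv i U) = C K * U := by
  have h1 : ∀ i, X i * pderiv i U = ∑ d ∈ U.support, monomial d ((d i : ℂ) * coeff d U) := by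
    intro i
    conv_lhs => rw [U.as_sum]
    rw [map_sum, Finset.mul_sum]
    refine Finset.sum_congr rfl (fun d _ => ?_)
    rw [X_mul_pderiv_monomial, nsmul_eq_mul, ← map_natCast (C : ℂ →+* MvPolynomial (Fin 4) ℂ),
      C_mul_monomial]
  simp only [h1, Finset.mul_sum, C_mul_monomial]
  rw [Finset.sum_comm]
  conv_rhs => rw [U.as_sum]
  rw [Finset.mul_sum]
  refine Finset.sum_congr rfl (fun d hd => ?_)
  rw [C_mul_monomial, ← map_sum, ← h d hd, Finset.sum_mul]
  congr 1
  refine Finset.sum_congr rfl (fun i _ => ?_)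
  ring

/-- restriction to `(1, x, 0, 1)` -/
def sv : MvPolynomial (Fin 4) ℂ →ₐ[ℂ] Polynomial ℂ := aeval ![1, Polynomial.X, 0, 1]

lemma sv_X (i : Fin 4) : sv (X i) = (![1, Polynomial.X, 0, 1] : Fin 4 → Polynomial ℂ) i := by
  simp [sv]

lemma sv_C (a : ℂ) : sv (C a) = Polynomial.C a := sv.commutes a

lemma sv_deriv (Q : MvPolynomial (Fin 4) ℂ) :
    Polynomial.derivative (sv Q) = sv (pderiv 1 Q) := by
  induction Q using MvPolynomial.induction_on with
  | C a => rw [sv_C]; simp
  | add p q hp hq => simp only [map_add, hp, hq]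
  | mul_X p k hp =>
    rw [map_mul, Polynomial.derivative_mul, hp, pderiv_mul, map_add, map_mul, map_mul, pderiv_X,
      sv_X]
    fin_cases k <;> simp

lemma strip_ode (P : ℂ) (R : ℂ) (hR : R ≠ 0) (ν a w : ℕ) (U : MvPolynomial (Fin 4) ℂ)
    (hE : E (K3 R⁻¹) P U = 0)
    (hs : ∀ d ∈ U.support, d 0 = a + d 1 ∧ 2 * d 1 + d 2 + d 3 = w)
    (hf : X 0 * pderiv 2 U = C ((ν : ℂ) * R) * (X 2 * pderiv 1 U)) :
    nn (a : ℂ) w (sv U) * (DD (a : ℂ) w (sv U) + Polynomial.C (ν : ℂ) *
      Polynomial.derivative (sv U)) +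
    Polynomial.C (P / 2) * (nn (a : ℂ) w (sv U) * kap (a : ℂ) w (sv U) +
      Polynomial.derivative (nn (a : ℂ) w (sv U)) * psi (a : ℂ) w (sv U)) = 0 := by
  have e1 := strip_euler ![1, -1, 0, 0] a U (by
    intro d hd
    have h := (hs d hd).1
    simp [Fin.sum_univ_four]
    rw [h]; push_cast; ring)
  have e2 := strip_euler ![0, 2, 1, 1] w U (by
    intro d hd
    have h := (hs d hd).2
    simp [Fin.sum_univ_four]
    rw [← h]; push_cast; ring)
  simp only [Fin.sum_univ_four, Matrix.cons_val_zero, Matrix.cons_val_one, Matrix.cons_val,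
    map_one, map_zero, map_neg, zero_mul, one_mul, add_zero, zero_add, neg_mul] at e1 e2
  have c10 : pderiv 1 (pderiv 0 U) = pderiv 0 (pderiv 1 U) := pderiv_comm _ _ _
  have c20 : pderiv 2 (pderiv 0 U) = pderiv 0 (pderiv 2 U) := pderiv_comm _ _ _
  have c30 : pderiv 3 (pderiv 0 U) = pderiv 0 (pderiv 3 U) := pderiv_comm _ _ _
  have c21 : pderiv 2 (pderiv 1 U) = pderiv 1 (pderiv 2 U) := pderiv_comm _ _ _
  have c31 : pderiv 3 (pderiv 1 U) = pderiv 1 (pderiv 3 U) := pderiv_comm _ _ _
  have c32 : pderiv 3 (pderiv 2 U) = pderiv 2 (pderiv 3 U) := pderiv_comm _ _ _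
  have hC2 : (Polynomial.C (2 : ℂ)) = (2 : Polynomial ℂ) := rfl
  set φ := sv U with hφ
  set φ1 := Polynomial.derivative φ with hφ1
  set φ2 := Polynomial.derivative φ1 with hφ2
  have u1 : sv (pderiv 1 U) = φ1 := (sv_deriv U).symm
  have u11 : sv (pderiv 1 (pderiv 1 U)) = φ2 := by rw [← sv_deriv, u1]
  have u2 : sv (pderiv 2 U) = 0 := by
    have := congrArg sv hf
    simpa [sv_X, sv_C] using this
  have u22 : sv (pderiv 2 (pderiv 2 U)) = Polynomial.C ((ν : ℂ) * R) * φ1 := by
    have := congrArg (fun q => sv (pderiv 2 q)) hf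
    simp only [pderiv_mul, map_add, map_mul, sv_X, sv_C, pderiv_X, pderiv_C, c21] at this
    simp [sv_C] at this
    rw [this, u1]
    simp
  have u0 : sv (pderiv 0 U) = Polynomial.C (a : ℂ) * φ + Polynomial.X * φ1 := by
    have := congrArg sv e1
    simp only [map_add, map_mul, map_neg, sv_X, sv_C, u1] at this
    simp at this ⊢
    linear_combination this
  have u3 : sv (pderiv 3 U) = Polynomial.C (w : ℂ) * φ - 2 * (Polynomial.X * φ1) := by
    have := congrArg sv e2
    simp only [map_add, map_mul, map_neg, sv_X, sv_C, u1] at this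
    simp at this ⊢
    rw [hC2] at this
    linear_combination this
  have u01 : sv (pderiv 0 (pderiv 1 U)) = Polynomial.C ((a : ℂ) + 1) * φ1 + Polynomial.X * φ2 := by
    rw [← c10, ← sv_deriv, u0]
    simp only [Polynomial.derivative_add, Polynomial.derivative_mul, Polynomial.derivative_X,
      Polynomial.derivative_C]
    rw [← hφ1, ← hφ2]
    simp only [map_add, map_one]
    ring
  have u13 : sv (pderiv 1 (pderiv 3 U)) = Polynomial.C ((w : ℂ) - 2) * φ1 -
      2 * (Polynomial.X * φ2) := by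
    rw [← sv_deriv, u3]
    simp only [Polynomial.derivative_sub, Polynomial.derivative_mul, Polynomial.derivative_X,
      Polynomial.derivative_C, Polynomial.derivative_ofNat]
    rw [← hφ1, ← hφ2]
    simp only [map_sub, map_ofNat]
    ring
  have u03 : sv (pderiv 0 (pderiv 3 U)) = Polynomial.C (a : ℂ) * sv (pderiv 3 U) +
      Polynomial.X * sv (pderiv 1 (pderiv 3 U)) := by
    have := congrArg (fun q => sv (pderiv 3 q)) e1
    simp only [pderiv_mul, map_add, map_mul, map_neg, sv_X, sv_C, pderiv_X, pderiv_C, c30, c31]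
      at this
    simp at this ⊢
    linear_combination this
  have u00 : sv (pderiv 0 (pderiv 0 U)) = Polynomial.C ((a : ℂ) - 1) * sv (pderiv 0 U) +
      Polynomial.X * sv (pderiv 0 (pderiv 1 U)) := by
    have := congrArg (fun q => sv (pderiv 0 q)) e1
    simp only [pderiv_mul, map_add, map_mul, map_neg, sv_X, sv_C, pderiv_X, pderiv_C] at this
    simp at this ⊢
    linear_combination this
  have u33 : sv (pderiv 3 (pderiv 3 U)) = Polynomial.C ((w : ℂ) - 1) * sv (pderiv 3 U) -
      2 * (Polynomial.X * sv (pderiv 1 (pderiv 3 U))) := by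
    have := congrArg (fun q => sv (pderiv 3 q)) e2
    simp only [pderiv_mul, map_add, map_mul, map_neg, sv_X, sv_C, pderiv_X, pderiv_C, c31, c32]
      at this
    simp at this ⊢
    rw [hC2] at this
    linear_combination this
  have hpoly : (2 * sv (pderiv 0 U) * sv (pderiv 1 U) + sv (pderiv 3 U) ^ 2) *
      (2 * sv (pderiv 0 (pderiv 1 U)) + sv (pderiv 3 (pderiv 3 U)) +
        Polynomial.C (ν : ℂ) * φ1) +
      Polynomial.C P * (sv (pderiv 1 U) ^ 2 * sv (pderiv 0 (pderiv 0 U)) +
        sv (pderiv 0 U) ^ 2 * sv (pderiv 1 (pderiv 1 U)) +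
        sv (pderiv 3 U) ^ 2 * sv (pderiv 3 (pderiv 3 U)) +
        2 * sv (pderiv 1 U) * sv (pderiv 0 U) * sv (pderiv 0 (pderiv 1 U)) +
        2 * sv (pderiv 1 U) * sv (pderiv 3 U) * sv (pderiv 0 (pderiv 3 U)) +
        2 * sv (pderiv 0 U) * sv (pderiv 3 U) * sv (pderiv 1 (pderiv 3 U))) = 0 := by
    have h := congrArg sv hE
    have hRR : Polynomial.C R⁻¹ * (Polynomial.C (ν : ℂ) * Polynomial.C R * φ1) =
        Polynomial.C (ν : ℂ) * φ1 := by
      rw [← Polynomial.C_mul, ← mul_assoc, ← Polynomial.C_mul]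
      congr 2
      field_simp
    have hP2 : Polynomial.C P = Polynomial.C (P / 2) * 2 := by
      rw [← map_ofNat (Polynomial.C : ℂ →+* Polynomial ℂ) 2, ← Polynomial.C_mul]
      congr 1; ring
    unfold E B L K3 at h
    simp only [Fin.sum_univ_four, Matrix.of_apply, Matrix.cons_val_zero, Matrix.cons_val_one,
      Matrix.cons_val, Matrix.cons_val', map_one, map_zero, zero_mul, one_mul, add_zero, zero_add,
      pderiv_mul, map_add, map_mul, sv_C, u2, mul_zero, c10, c20, c30, c21, c31, c32, pderiv_C,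
      u22] at h
    simp only [map_mul, hRR, u1] at h
    rw [hP2, u1]
    linear_combination h
  rw [u33, u00, u03, u01, u11, u13, u1, u0, u3] at hpoly
  have hdn : Polynomial.derivative (nn (a : ℂ) w φ) =
      2 * Polynomial.C ((w : ℂ) ^ 2) * φ * φ1 - 2 * Polynomial.C (2 * (w : ℂ)) * φ * φ1 +
      2 * bb a w * φ1 ^ 2 + 2 * bb a w * φ * φ2 + (8 * Polynomial.X + 2) * φ1 ^ 2 +
      2 * AA * φ1 * φ2 := by
    unfold nn bb AA
    simp only [Polynomial.derivative_add, Polynomial.derivative_mul, Polynomial.derivative_X,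
      Polynomial.derivative_C, Polynomial.derivative_pow, Polynomial.derivative_sub,
      Polynomial.derivative_ofNat, map_ofNat]
    rw [← hφ1, ← hφ2]
    simp only [map_ofNat, map_mul, map_pow, map_natCast, Nat.cast_ofNat, map_one, pow_one]
    ring
  rw [hdn]
  have hC : Polynomial.C (P / 2) * 2 = Polynomial.C P := by
    rw [← map_ofNat (Polynomial.C : ℂ →+* Polynomial ℂ) 2, ← Polynomial.C_mul]
    congr 1; ring
  rw [← hC] at hpoly
  unfold nn DD kap psi bb AA
  rw [← hφ1, ← hφ2]
  simp only [map_ofNat, map_mul, map_pow, map_natCast, map_add, map_sub, map_one] at hpoly ⊢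
  linear_combination hpoly

lemma strip_rec (c0 : ℂ) (U : MvPolynomial (Fin 4) ℂ)
    (hf : X 0 * pderiv 2 U = C c0 * (X 2 * pderiv 1 U))
    (h0 : ∀ d : Fin 4 →₀ ℕ, d 2 = 0 → coeff d U = 0) :
    ∀ n : ℕ, ∀ d : Fin 4 →₀ ℕ, d 2 = n → coeff d U = 0 := by
  intro n
  induction n using Nat.strong_induction_on with
  | _ n ih =>
    intro d hd
    rcases Nat.eq_zero_or_pos n with hn | hn
    · exact h0 d (by omega)
    · have h1 := congrArg (coeff (mk (d 0 + 1) (d 1) (d 2 - 1) (d 3))) hf
      rw [coeff_C_mul, coeff_X_mul', coeff_X_mul', coeff_pderiv, coeff_pderiv] at h1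
      rw [if_pos (by rw [Finsupp.mem_support_iff]; simp)] at h1
      have e1 : mk (d 0 + 1) (d 1) (d 2 - 1) (d 3) - Finsupp.single 0 1 + Finsupp.single 2 1 = d := by
        apply ext4
        · simp
        · simp
        · simp; omega
        · simp
      rw [e1] at h1
      have e2 : (if (2 : Fin 4) ∈ (mk (d 0 + 1) (d 1) (d 2 - 1) (d 3)).support then
          coeff (mk (d 0 + 1) (d 1) (d 2 - 1) (d 3) - Finsupp.single 2 1 + Finsupp.single 1 1) U *
            (((mk (d 0 + 1) (d 1) (d 2 - 1) (d 3) - Finsupp.single 2 1 : Fin 4 →₀ ℕ) 1 : ℂ) + 1)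
          else 0) = 0 := by
        split_ifs with h
        · rw [Finsupp.mem_support_iff, mk_two] at h
          rw [ih (n - 2) (by omega) _ (by simp; omega), zero_mul]
        · rfl
      rw [e2, mul_zero] at h1
      have e3 : (((mk (d 0 + 1) (d 1) (d 2 - 1) (d 3) - Finsupp.single 0 1 : Fin 4 →₀ ℕ) 2 : ℂ) + 1) ≠
          0 := by
        exact Nat.cast_add_one_ne_zero _
      exact (mul_eq_zero.mp h1).resolve_right e3

lemma sv_monomial (d : Fin 4 →₀ ℕ) (c : ℂ) :
    sv (monomial d c) = if d 2 = 0 then Polynomial.monomial (d 1) c else 0 := by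
  unfold sv
  rw [aeval_monomial, Finsupp.prod_fintype _ _ (fun i => pow_zero _), Fin.prod_univ_four]
  simp only [Matrix.cons_val_zero, Matrix.cons_val_one, Matrix.cons_val, one_pow, one_mul,
    mul_one]
  split_ifs with h
  · rw [h, pow_zero, mul_one, Polynomial.algebraMap_eq, Polynomial.C_mul_X_pow_eq_monomial]
  · rw [zero_pow h, mul_zero, mul_zero]

lemma sv_sum (U : MvPolynomial (Fin 4) ℂ) :
    sv U = ∑ d ∈ U.support, if d 2 = 0 then Polynomial.monomial (d 1) (coeff d U) else 0 := by
  conv_lhs => rw [U.as_sum]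
  rw [map_sum]
  exact Finset.sum_congr rfl (fun d _ => sv_monomial d _)

/-- module D1 -/
theorem thm_Strip (h1 : St_TGen) : St_Strip := by
  intro P hP hP0 R hR ν a w hw U hU hE hs hf
  have hode := strip_ode P R hR ν a w U hE hs hf
  refine h1 ν a w hw P hP hP0 (sv U) ?_ ?_ hode
  · intro hz
    apply hU
    have h0 : ∀ d : Fin 4 →₀ ℕ, d 2 = 0 → coeff d U = 0 := by
      intro d hd
      by_contra hne
      have hds : d ∈ U.support := mem_support_iff.mpr hne
      have hc := congrArg (fun q => Polynomial.coeff q (d 1)) hz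
      simp only [sv_sum, Polynomial.finsetSum_coeff, Polynomial.coeff_zero] at hc
      rw [Finset.sum_eq_single d] at hc
      · rw [if_pos hd, Polynomial.coeff_monomial, if_pos rfl] at hc
        exact hne hc
      · intro d' hd' hdd
        split_ifs with h2
        · rw [Polynomial.coeff_monomial, if_neg]
          intro h3
          apply hdd
          obtain ⟨a1, a2⟩ := hs d hds
          obtain ⟨b1, b2⟩ := hs d' hd'
          apply ext4 <;> omega
        · rfl
      · intro h; exact absurd hds h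
    ext d
    rw [coeff_zero]
    exact strip_rec _ U hf h0 (d 2) d rfl
  · have : (sv U).natDegree ≤ w / 2 := by
      rw [sv_sum]
      apply Polynomial.natDegree_sum_le_of_forall_le
      intro d hd
      split_ifs with h2
      · refine (Polynomial.natDegree_monomial_le _).trans ?_
        have := (hs d hd).2
        omega
      · simp
    omega

end

end Pool.PN4
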