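import Pool.Agent.PN4.Stmts
import Pool.Agent.PN4.Basic

set_option autoImplicit false

open MvPolynomial

namespace Pool.PN4

noncomputable section

lemma Sub_pd (M : Matrix (Fin 4) (Fin 4) ℂ) (b : Fin 4 → ℂ) (u : MvPolynomial (Fin 4) ℂ)
    (j : Fin 4) : pderiv j (sub M b u) = ∑ i, C (M i j) * sub M b (pderiv i u) := by
  unfold sub
  rw [Pool.Agent.Helper43.PLap.pderiv_bind]
  refine Finset.sum_congr rfl fun i _ => ?_
  have h : pderiv j (C (b i) + ∑ k, C (M i k) * X k : MvPolynomial (Fin 4) ℂ) = C (M i j) := by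
    rw [map_add, pderiv_C, zero_add, map_sum, Finset.sum_eq_single j]
    · rw [pderiv_C_mul, pderiv_X_self, mul_one]
    · intro k _ hk
      rw [pderiv_C_mul, pderiv_X_of_ne hk, mul_zero]
    · intro h
      exact absurd (Finset.mem_univ j) h
  rw [h, mul_comm]

lemma Sub_C (M : Matrix (Fin 4) (Fin 4) ℂ) (b : Fin 4 → ℂ) (a : ℂ) :
    sub M b (C a) = C a := bind₁_C_right _ _

lemma Sub_mul (M : Matrix (Fin 4) (Fin 4) ℂ) (b : Fin 4 → ℂ) (u v : MvPolynomial (Fin 4) ℂ) :
    sub M b (u * v) = sub M b u * sub M b v := map_mul _ _ _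

lemma Sub_add (M : Matrix (Fin 4) (Fin 4) ℂ) (b : Fin 4 → ℂ) (u v : MvPolynomial (Fin 4) ℂ) :
    sub M b (u + v) = sub M b u + sub M b v := map_add _ _ _

lemma Sub_sum (M : Matrix (Fin 4) (Fin 4) ℂ) (b : Fin 4 → ℂ)
    (f : Fin 4 → MvPolynomial (Fin 4) ℂ) :
    sub M b (∑ i, f i) = ∑ i, sub M b (f i) := map_sum _ _ _

/-- congruence of matrices -/
lemma Sub_key (M K : Matrix (Fin 4) (Fin 4) ℂ) (w : Fin 4 → Fin 4 → MvPolynomial (Fin 4) ℂ) :
    ∑ j, ∑ k, C (K j k) * ∑ i, ∑ l, C (M i j) * C (M l k) * w i l =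
      ∑ i, ∑ l, C ((M * K * M.transpose) i l) * w i l := by
  have e1 : ∀ i l, C ((M * K * M.transpose) i l) * w i l =
      ∑ k, ∑ j, C (K j k) * (C (M i j) * C (M l k) * w i l) := by
    intro i l
    rw [Matrix.mul_apply]
    simp only [Matrix.mul_apply, Matrix.transpose_apply, map_sum, map_mul, Finset.sum_mul]
    refine Finset.sum_congr rfl fun k _ => Finset.sum_congr rfl fun j _ => ?_
    ring
  simp only [e1]
  have e2 : ∀ j k, C (K j k) * ∑ i, ∑ l, C (M i j) * C (M l k) * w i l =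
      ∑ i, ∑ l, C (K j k) * (C (M i j) * C (M l k) * w i l) := by
    intro j k
    rw [Finset.mul_sum]
    refine Finset.sum_congr rfl fun i _ => ?_
    rw [Finset.mul_sum]
  simp only [e2]
  calc ∑ j, ∑ k, ∑ i, ∑ l, C (K j k) * (C (M i j) * C (M l k) * w i l)
      = ∑ j, ∑ i, ∑ k, ∑ l, C (K j k) * (C (M i j) * C (M l k) * w i l) :=
        Finset.sum_congr rfl fun j _ => Finset.sum_comm
    _ = ∑ i, ∑ j, ∑ k, ∑ l, C (K j k) * (C (M i j) * C (M l k) * w i l) := Finset.sum_comm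
    _ = ∑ i, ∑ j, ∑ l, ∑ k, C (K j k) * (C (M i j) * C (M l k) * w i l) :=
        Finset.sum_congr rfl fun i _ => Finset.sum_congr rfl fun j _ => Finset.sum_comm
    _ = ∑ i, ∑ l, ∑ j, ∑ k, C (K j k) * (C (M i j) * C (M l k) * w i l) :=
        Finset.sum_congr rfl fun i _ => Finset.sum_comm
    _ = ∑ i, ∑ l, ∑ k, ∑ j, C (K j k) * (C (M i j) * C (M l k) * w i l) :=
        Finset.sum_congr rfl fun i _ => Finset.sum_congr rfl fun l _ => Finset.sum_comm

lemma Sub_B (M K : Matrix (Fin 4) (Fin 4) ℂ) (b : Fin 4 → ℂ) (u v : MvPolynomial (Fin 4) ℂ) :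
    B K (sub M b u) (sub M b v) = sub M b (B (M * K * M.transpose) u v) := by
  unfold B
  have e1 : ∀ j k, C (K j k) * (pderiv j (sub M b u) * pderiv k (sub M b v)) =
      C (K j k) * ∑ i, ∑ l, C (M i j) * C (M l k) *
        (sub M b (pderiv i u) * sub M b (pderiv l v)) := by
    intro j k
    rw [Sub_pd, Sub_pd, Finset.sum_mul_sum]
    refine congrArg (fun z => C (K j k) * z) ?_
    refine Finset.sum_congr rfl fun i _ => Finset.sum_congr rfl fun l _ => ?_
    rw [mul_mul_mul_comm]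
  simp only [e1]
  rw [Sub_key M K (fun i l => sub M b (pderiv i u) * sub M b (pderiv l v))]
  simp only [Sub_sum, Sub_mul, Sub_C]

lemma Sub_L (M K : Matrix (Fin 4) (Fin 4) ℂ) (b : Fin 4 → ℂ) (u : MvPolynomial (Fin 4) ℂ) :
    L K (sub M b u) = sub M b (L (M * K * M.transpose) u) := by
  unfold L
  have e1 : ∀ j k, C (K j k) * pderiv j (pderiv k (sub M b u)) =
      C (K j k) * ∑ i, ∑ l, C (M i j) * C (M l k) * sub M b (pderiv i (pderiv l u)) := by
    intro j k
    refine congrArg (fun z => C (K j k) * z) ?_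
    rw [Sub_pd, map_sum, Finset.sum_comm]
    refine Finset.sum_congr rfl fun l _ => ?_
    rw [pderiv_C_mul, Sub_pd, Finset.mul_sum]
    refine Finset.sum_congr rfl fun i _ => ?_
    rw [← mul_assoc, mul_comm (C (M l k)) (C (M i j))]
  simp only [e1]
  rw [Sub_key M K (fun i l => sub M b (pderiv i (pderiv l u)))]
  simp only [Sub_sum, Sub_mul, Sub_C]

/-- module A1 -/
theorem thm_Sub : St_Sub := by
  intro M K b P u
  refine ⟨Sub_B M K b u u, ?_, ?_, fun j => Sub_pd M b u j⟩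
  · unfold E
    rw [Sub_B M K b u u, Sub_L M K b u, Sub_B M K b u (B (M * K * M.transpose) u u), Sub_add,
      Sub_mul, Sub_mul, Sub_C]
  · intro x
    unfold sub
    rw [eval, eval₂Hom_bind₁]
    simp

end

end Pool.PN4
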