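import Pool.Agent.PN4.Stmts
import Pool.Agent.PN4.Basic

set_option autoImplicit false

open MvPolynomial

namespace Pool.PN4

noncomputable section

lemma swap_coeff (s : Equiv.Perm (Fin 4)) (hs : s * s = 1) (u : MvPolynomial (Fin 4) ℂ)
    (d : Fin 4 →₀ ℕ) : coeff d (rename s u) = coeff (Finsupp.mapDomain s d) u := by
  have h1 : Finsupp.mapDomain (⇑s) (Finsupp.mapDomain (⇑s) d) = d := by
    rw [← Finsupp.mapDomain_comp]
    have : (⇑s ∘ ⇑s) = id := by
      funext i
      have := congrArg (fun t : Equiv.Perm (Fin 4) => t i) hs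
      simpa using this
    rw [this, Finsupp.mapDomain_id]
  conv_lhs => rw [← h1]
  exact coeff_rename_mapDomain _ s.injective _ _

lemma swap_sol (P : ℝ) (s : Equiv.Perm (Fin 4)) (hG : ∀ i j, Hm (s i) (s j) = Hm i j)
    {u : MvPolynomial (Fin 4) ℂ} (hu : Sol P u) : Sol P (rename s u) := by
  have hB : ∀ f g : MvPolynomial (Fin 4) ℂ, B Hm (rename s f) (rename s g) =
      rename s (B Hm f g) := by
    intro f g
    unfold B
    rw [← Equiv.sum_comp s, map_sum]
    refine Finset.sum_congr rfl fun i _ => ?_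
    rw [← Equiv.sum_comp s, map_sum]
    refine Finset.sum_congr rfl fun j _ => ?_
    rw [pderiv_rename s.injective, pderiv_rename s.injective, hG, map_mul, map_mul, rename_C]
  have hL : ∀ f : MvPolynomial (Fin 4) ℂ, L Hm (rename s f) = rename s (L Hm f) := by
    intro f
    unfold L
    rw [← Equiv.sum_comp s, map_sum]
    refine Finset.sum_congr rfl fun i _ => ?_
    rw [← Equiv.sum_comp s, map_sum]
    refine Finset.sum_congr rfl fun j _ => ?_
    rw [pderiv_rename s.injective, pderiv_rename s.injective, hG, map_mul, rename_C]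
  unfold Sol at hu ⊢
  have h : E Hm (P : ℂ) (rename s u) = rename s (E Hm (P : ℂ) u) := by
    unfold E
    rw [hB, hB, hL, map_add, map_mul, map_mul, rename_C]
  rw [h, hu, map_zero]

lemma swap_mk23 (a b c e : ℕ) :
    Finsupp.mapDomain (⇑(Equiv.swap (2 : Fin 4) 3)) (mk a b c e) = mk a b e c := by
  ext i
  have h1 : ∀ j : Fin 4, Finsupp.mapDomain (⇑(Equiv.swap (2 : Fin 4) 3)) (mk a b c e)
      (Equiv.swap (2 : Fin 4) 3 j) = mk a b c e j := fun j =>
    Finsupp.mapDomain_apply (Equiv.swap (2 : Fin 4) 3).injective _ _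
  fin_cases i
  · exact h1 0
  · exact h1 1
  · exact h1 3
  · exact h1 2

lemma swap_mk01 (a b c e : ℕ) :
    Finsupp.mapDomain (⇑(Equiv.swap (0 : Fin 4) 1)) (mk a b c e) = mk b a c e := by
  ext i
  have h1 : ∀ j : Fin 4, Finsupp.mapDomain (⇑(Equiv.swap (0 : Fin 4) 1)) (mk a b c e)
      (Equiv.swap (0 : Fin 4) 1 j) = mk a b c e j := fun j =>
    Finsupp.mapDomain_apply (Equiv.swap (0 : Fin 4) 1).injective _ _
  fin_cases i
  · exact h1 1
  · exact h1 0
  · exact h1 2
  · exact h1 3

lemma swap_hm (s : Equiv.Perm (Fin 4)) (hs : s = Equiv.swap 2 3 ∨ s = Equiv.swap 0 1)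
    (i j : Fin 4) : Hm (s i) (s j) = Hm i j := by
  rcases hs with rfl | rfl <;> fin_cases i <;> fin_cases j <;> rfl

/-- module A5 -/
theorem thm_Swap : St_Swap := by
  intro P u
  have h1 : ∀ a b c e, coeff (mk a b c e) (rename (Equiv.swap (2 : Fin 4) 3) u) =
      coeff (mk a b e c) u := by
    intro a b c e
    rw [swap_coeff _ (Equiv.swap_mul_self _ _), swap_mk23]
  have h2 : ∀ a b c e, coeff (mk a b c e) (rename (Equiv.swap (0 : Fin 4) 1) u) =
      coeff (mk b a c e) u := by
    intro a b c e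
    rw [swap_coeff _ (Equiv.swap_mul_self _ _), swap_mk01]
  refine ⟨fun h => swap_sol P _ (swap_hm _ (Or.inl rfl)) h,
    fun h => swap_sol P _ (swap_hm _ (Or.inr rfl)) h, ?_, h1, h2⟩
  intro h a b c e
  rw [h1, h1]
  exact h a b e c

end

end Pool.PN4
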