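import Pool.Agent.PN4.Stmts
import Pool.Agent.PN4.Basic
import Pool.Agent.Helper43.PLap.TThreeB

set_option autoImplicit false

open Polynomial

namespace Pool.PN4

open Agent.Helper43.PLap

noncomputable section

/-- the Laplacian part with an extra first order term -/
def DN (n0 a w : ℂ) (f : ℂ[X]) : ℂ[X] := DD a w f + C n0 * derivative f

/-- case of a multiple root at a regular point -/
lemma tg_case_reg (n0 a w P : ℂ) (hP : 1 + P ≠ 0) (s : ℂ) (hA : eval s AA ≠ 0) (j : ℕ) (g : ℂ[X])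
    (hg : eval s g ≠ 0)
    (hE : nn a w ((X - C s) ^ (j + 2) * g) * DN n0 a w ((X - C s) ^ (j + 2) * g) +
      C (P / 2) * (nn a w ((X - C s) ^ (j + 2) * g) * kap a w ((X - C s) ^ (j + 2) * g) +
        derivative (nn a w ((X - C s) ^ (j + 2) * g)) * psi a w ((X - C s) ^ (j + 2) * g)) = 0) :
    False := by
  set τ : ℂ[X] := X - C s with hτ
  set f := τ ^ (j + 2) * g with hf
  set g1 : ℂ[X] := C ((j : ℂ) + 2) * g + τ * derivative g with hg1
  set g2 : ℂ[X] := C ((j : ℂ) + 1) * g1 + τ * derivative g1 with hg2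
  have hdτ : ∀ i : ℕ, derivative (τ ^ (i + 1)) = C ((i : ℂ) + 1) * τ ^ i :=
    fun i => derivative_tau_pow s i
  have h1 : derivative f = τ ^ (j + 1) * g1 := by
    rw [hf, derivative_mul, show j + 2 = (j + 1) + 1 from rfl, hdτ, hg1]
    push_cast
    rw [show (j : ℂ) + 1 + 1 = j + 2 by ring]
    ring
  have h2 : derivative (derivative f) = τ ^ j * g2 := by
    rw [h1, derivative_mul, hdτ, hg2]
    ring
  set n1 : ℂ[X] := C (w ^ 2) * τ ^ 2 * g ^ 2 + C 2 * bb a w * τ * g * g1 + AA * g1 ^ 2 with hn1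
  have h3 : nn a w f = τ ^ (2 * j + 2) * n1 := by
    unfold nn
    rw [h1, hf, hn1]
    ring
  have h4 : derivative (nn a w f) = τ ^ (2 * j + 1) *
      (C (2 * (j : ℂ) + 2) * n1 + τ * derivative n1) := by
    rw [h3, derivative_mul, show 2 * j + 2 = (2 * j + 1) + 1 from rfl, hdτ]
    push_cast
    rw [show 2 * (j : ℂ) + 1 + 1 = 2 * j + 2 by ring]
    ring
  set D1 : ℂ[X] := C (w * (w - 1)) * τ ^ 2 * g +
    (C (2 * (a + 1)) - C (2 * (2 * w - 3)) * X) * τ * g1 + AA * g2 + C n0 * τ * g1 with hD1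
  have h5 : DN n0 a w f = τ ^ j * D1 := by
    unfold DN DD
    rw [h2, h1, hf, hD1]
    ring
  set k1 : ℂ[X] := C (2 * w * (w - 1)) * τ * g + (C (2 * a) - C (4 * (w - 1)) * X) * g1 with hk1
  have h6 : kap a w f = τ ^ (j + 1) * k1 := by
    unfold kap
    rw [h1, hf, hk1]
    ring
  set p1 : ℂ[X] := bb a w * τ * g + AA * g1 with hp1
  have h7 : psi a w f = τ ^ (j + 1) * p1 := by
    unfold psi
    rw [h1, hf, hp1]
    ring
  rw [h4, h3, h5, h6, h7] at hE
  have h8 : τ ^ (3 * j + 2) * (n1 * D1 + C (P / 2) * (τ * n1 * k1 +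
      (C (2 * (j : ℂ) + 2) * n1 + τ * derivative n1) * p1)) = 0 := by
    rw [← hE]; ring
  have hτ0 : τ ≠ 0 := X_sub_C_ne_zero s
  have h9 := (mul_eq_zero.mp h8).resolve_left (pow_ne_zero _ hτ0)
  have h10 := congrArg (eval s) h9
  have e0 : eval s τ = 0 := by simp [hτ]
  have eg1 : eval s g1 = ((j : ℂ) + 2) * eval s g := by simp [hg1, e0]
  have eg2 : eval s g2 = ((j : ℂ) + 1) * eval s g1 := by simp [hg2, e0]
  have en1 : eval s n1 = eval s AA * eval s g1 ^ 2 := by simp [hn1, e0]
  have eD1 : eval s D1 = eval s AA * eval s g2 := by simp [hD1, e0]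
  have ep1 : eval s p1 = eval s AA * eval s g1 := by simp [hp1, e0]
  simp only [eval_add, eval_mul, eval_C, e0, zero_mul, zero_add, add_zero, eval_zero] at h10
  rw [en1, eD1, ep1, eg2] at h10
  have h11 : (eval s AA) ^ 2 * (eval s g1) ^ 3 * ((j : ℂ) + 1) * (1 + P) = 0 := by
    rw [← h10]; ring
  have hj1 : (j : ℂ) + 1 ≠ 0 := by exact_mod_cast Nat.succ_ne_zero j
  have hj2 : (j : ℂ) + 2 ≠ 0 := by exact_mod_cast Nat.succ_ne_zero (j + 1)
  have hg1' : eval s g1 ≠ 0 := by rw [eg1]; exact mul_ne_zero hj2 hg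
  exact (mul_ne_zero (mul_ne_zero (mul_ne_zero (pow_ne_zero _ hA) (pow_ne_zero _ hg1')) hj1) hP) h11

/-- case of a root at a zero of `AA` -/
lemma tg_case_sing (n0 a w P : ℂ) (s : ℂ) (A1 : ℂ[X]) (hA : AA = (X - C s) * A1) (j : ℕ) (g : ℂ[X])
    (hg : eval s g ≠ 0)
    (hE : nn a w ((X - C s) ^ (j + 1) * g) * DN n0 a w ((X - C s) ^ (j + 1) * g) +
      C (P / 2) * (nn a w ((X - C s) ^ (j + 1) * g) * kap a w ((X - C s) ^ (j + 1) * g) +
        derivative (nn a w ((X - C s) ^ (j + 1) * g)) * psi a w ((X - C s) ^ (j + 1) * g)) = 0) :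
    (2 * eval s (bb a w) + eval s A1 * (j + 1)) *
      ((j + 1) * ((2 * (a + 1) - 2 * (2 * w - 3) * s) + eval s A1 * j + n0) +
        (P / 2) * ((2 * a - 4 * (w - 1) * s) * (j + 1) +
          (2 * j + 1) * (eval s (bb a w) + eval s A1 * (j + 1)))) = 0 := by
  set τ : ℂ[X] := X - C s with hτ
  set f := τ ^ (j + 1) * g with hf
  set g1 : ℂ[X] := C ((j : ℂ) + 1) * g + τ * derivative g with hg1
  set g2 : ℂ[X] := C (j : ℂ) * g1 + τ * derivative g1 with hg2
  have hdτ : ∀ i : ℕ, derivative (τ ^ (i + 1)) = C ((i : ℂ) + 1) * τ ^ i :=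
    fun i => derivative_tau_pow s i
  have hdτ' : ∀ i : ℕ, τ * derivative (τ ^ i) = C (i : ℂ) * τ ^ i := by
    intro i
    rcases i with _ | i
    · simp
    · rw [hdτ]; push_cast; ring
  have h1 : derivative f = τ ^ j * g1 := by
    rw [hf, derivative_mul, hdτ, hg1]
    ring
  have h2 : τ * derivative (derivative f) = τ ^ j * g2 := by
    rw [h1, derivative_mul, mul_add, ← mul_assoc, hdτ', hg2]
    ring
  set n1 : ℂ[X] := C (w ^ 2) * τ * g ^ 2 + C 2 * bb a w * g * g1 + A1 * g1 ^ 2 with hn1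
  have h3 : nn a w f = τ ^ (2 * j + 1) * n1 := by
    unfold nn
    rw [h1, hf, hn1, hA]
    ring
  have h4 : derivative (nn a w f) = τ ^ (2 * j) *
      (C (2 * (j : ℂ) + 1) * n1 + τ * derivative n1) := by
    rw [h3, derivative_mul, hdτ]
    push_cast
    ring
  set D1 : ℂ[X] := C (w * (w - 1)) * τ * g +
    (C (2 * (a + 1)) - C (2 * (2 * w - 3)) * X) * g1 + A1 * g2 + C n0 * g1 with hD1
  have h5 : DN n0 a w f = τ ^ j * D1 := by
    unfold DN DD
    have : AA * derivative (derivative f) = A1 * (τ * derivative (derivative f)) := by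
      rw [hA]; ring
    rw [this, h2, h1, hf, hD1]
    ring
  set k1 : ℂ[X] := C (2 * w * (w - 1)) * τ * g + (C (2 * a) - C (4 * (w - 1)) * X) * g1 with hk1
  have h6 : kap a w f = τ ^ j * k1 := by
    unfold kap
    rw [h1, hf, hk1]
    ring
  set p1 : ℂ[X] := bb a w * g + A1 * g1 with hp1
  have h7 : psi a w f = τ ^ (j + 1) * p1 := by
    unfold psi
    rw [h1, hf, hp1, hA]
    ring
  rw [h4, h3, h5, h6, h7] at hE
  have h8 : τ ^ (3 * j + 1) * (n1 * D1 + C (P / 2) * (n1 * k1 +
      (C (2 * (j : ℂ) + 1) * n1 + τ * derivative n1) * p1)) = 0 := by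
    rw [← hE]; ring
  have hτ0 : τ ≠ 0 := X_sub_C_ne_zero s
  have h9 := (mul_eq_zero.mp h8).resolve_left (pow_ne_zero _ hτ0)
  have h10 := congrArg (eval s) h9
  have e0 : eval s τ = 0 := by simp [hτ]
  have eg1 : eval s g1 = ((j : ℂ) + 1) * eval s g := by simp [hg1, e0]
  have eg2 : eval s g2 = (j : ℂ) * eval s g1 := by simp [hg2, e0]
  have en1 : eval s n1 = 2 * eval s (bb a w) * eval s g * eval s g1 +
      eval s A1 * eval s g1 ^ 2 := by simp [hn1, e0]
  have eD1 : eval s D1 = (2 * (a + 1) - 2 * (2 * w - 3) * s) * eval s g1 +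
      eval s A1 * eval s g2 + n0 * eval s g1 := by simp [hD1, e0]
  have ek1 : eval s k1 = (2 * a - 4 * (w - 1) * s) * eval s g1 := by simp [hk1, e0]
  have ep1 : eval s p1 = eval s (bb a w) * eval s g + eval s A1 * eval s g1 := by simp [hp1]
  simp only [eval_add, eval_mul, eval_C, e0, zero_mul, add_zero, eval_zero] at h10
  rw [en1, eD1, ep1, ek1, eg2, eg1] at h10
  have hj1 : (j : ℂ) + 1 ≠ 0 := by exact_mod_cast Nat.succ_ne_zero j
  have h11 : ((j : ℂ) + 1) * (eval s g) ^ 3 *
     ((2 * eval s (bb a w) + eval s A1 * (j + 1)) *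
      ((j + 1) * ((2 * (a + 1) - 2 * (2 * w - 3) * s) + eval s A1 * j + n0) +
        (P / 2) * ((2 * a - 4 * (w - 1) * s) * (j + 1) +
          (2 * j + 1) * (eval s (bb a w) + eval s A1 * (j + 1))))) = 0 := by
    rw [← h10]; ring
  exact (mul_eq_zero.mp h11).resolve_left (mul_ne_zero hj1 (pow_ne_zero _ hg))

/-- at a root of `nn` the polynomial `f` does not vanish -/
lemma tg_root_ne (ν a w : ℕ) (P : ℝ) (hP : -1 < P) (f : ℂ[X]) (hf : f ≠ 0)
    (hdeg : 2 * f.natDegree ≤ w)
    (hE : nn a w f * DN ν a w f + C ((P : ℂ) / 2) * (nn a w f * kap a w f +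
        derivative (nn a w f) * psi a w f) = 0) (s : ℂ) (hs : eval s (nn a w f) = 0) :
    eval s f ≠ 0 := by
  intro hfs
  obtain ⟨g, hg, hgd⟩ := exists_eq_pow_rootMultiplicity_mul_and_not_dvd f hf s
  have hgs : eval s g ≠ 0 := fun h => hgd (dvd_iff_isRoot.mpr h)
  have hmul : 0 < rootMultiplicity s f := (rootMultiplicity_pos hf).mpr hfs
  have hmle : rootMultiplicity s f ≤ f.natDegree := by
    have h1 := card_roots' f
    have h2 := Multiset.count_le_card s f.roots
    rw [count_roots] at h2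
    omega
  have hnv : eval s AA * eval s (derivative f) ^ 2 = 0 := by
    have : eval s (nn a w f) = eval s AA * eval s (derivative f) ^ 2 := by
      simp [nn, hfs]
    rw [← this]; exact hs
  by_cases hA : eval s AA = 0
  · have hA' : s = 0 ∨ s = -(1 / 2) := by
      have h1 : s * (2 * s + 1) = 0 := by
        have h2 : eval s AA = 2 * (s * (2 * s + 1)) := by simp [AA]; ring
        rw [h2] at hA
        exact (mul_eq_zero.mp hA).resolve_left two_ne_zero
      rcases mul_eq_zero.mp h1 with h | h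
      · left; exact h
      · right; linear_combination h / 2
    obtain ⟨j, hj⟩ : ∃ j, rootMultiplicity s f = j + 1 := ⟨_, (Nat.succ_pred_eq_of_pos hmul).symm⟩
    rw [hj] at hg hmle
    have he : (2 * ((j : ℝ) + 1)) ≤ w := by exact_mod_cast (show 2 * (j + 1) ≤ w by omega)
    have ha0 : (0 : ℝ) ≤ a := Nat.cast_nonneg a
    have hj0 : (0 : ℝ) ≤ j := Nat.cast_nonneg j
    have hν0 : (0 : ℝ) ≤ (ν : ℝ) * (j + 1) := by positivity
    rw [hg] at hE
    rcases hA' with h0 | h0
    · subst h0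
      have h1 := tg_case_sing ν a w P 0 (C 4 * X + C 2) (by simp [AA]; ring) j g hgs hE
      simp only [bb, eval_add, eval_sub, eval_mul, eval_C, eval_X] at h1
      have h2 : (((2 * (a : ℝ) + 2 * (j + 1)) * ((j + 1) * (2 * (a + 1) + 2 * j + ν) +
        (P / 2) * (2 * a * (j + 1) + (2 * j + 1) * (a + 2 * (j + 1)))) : ℝ) : ℂ) = 0 := by
        push_cast
        linear_combination h1
      rw [Complex.ofReal_eq_zero] at h2
      have h3 : 0 < 2 * (a : ℝ) + 2 * (j + 1) := by positivity
      have h4 : 0 < ((j : ℝ) + 1) * (2 * (a + 1) + 2 * j + ν) +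
        (P / 2) * (2 * a * (j + 1) + (2 * j + 1) * (a + 2 * (j + 1))) := by
        have h5 : 0 < 2 * (a : ℝ) * (j + 1) + (2 * j + 1) * (a + 2 * (j + 1)) := by positivity
        nlinarith [mul_pos (show 0 < P + 1 by linarith) h5, mul_nonneg ha0 hj0, mul_nonneg hj0 hj0]
      exact (mul_pos h3 h4).ne' h2
    · subst h0
      have h1 := tg_case_sing ν a w P (-(1 / 2)) (C 4 * X) (by
        have h12 : (C (-(1 / 2)) : ℂ[X]) * C 4 = -C 2 := by rw [← C_mul, ← C_neg]; norm_num
        unfold AA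
        linear_combination X * h12) j g hgs hE
      simp only [bb, eval_sub, eval_mul, eval_C, eval_X] at h1
      have h2 : (((2 * ((a : ℝ) + w) - 2 * (j + 1)) * ((j + 1) * ((2 * (a + 1) + (2 * w - 3)) - 2 * j + ν) +
        (P / 2) * ((2 * a + 2 * (w - 1)) * (j + 1) + (2 * j + 1) * (a + w - 2 * (j + 1)))) : ℝ) : ℂ)
          = 0 := by
        push_cast
        linear_combination h1
      rw [Complex.ofReal_eq_zero] at h2
      have h3 : 0 < 2 * ((a : ℝ) + w) - 2 * (j + 1) := by linarith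
      have h4 : 0 < ((j : ℝ) + 1) * ((2 * (a + 1) + (2 * w - 3)) - 2 * j + ν) +
        (P / 2) * ((2 * a + 2 * (w - 1)) * (j + 1) + (2 * j + 1) * (a + w - 2 * (j + 1))) := by
        obtain ⟨d, hd⟩ : ∃ d : ℝ, d = (w : ℝ) - 2 * (j + 1) := ⟨_, rfl⟩
        have hd0 : 0 ≤ d := by linarith
        have hw : (w : ℝ) = d + 2 * (j + 1) := by linarith
        rw [hw]
        have h5 : 0 < (2 * (a : ℝ) + 2 * (d + 2 * (j + 1) - 1)) * (j + 1) +
            (2 * j + 1) * (a + (d + 2 * (j + 1)) - 2 * (j + 1)) := by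
          have : 0 ≤ (2 * (j : ℝ) + 1) * (a + (d + 2 * (j + 1)) - 2 * (j + 1)) := by
            apply mul_nonneg (by positivity); linarith
          have h6 : 0 < (2 * (a : ℝ) + 2 * (d + 2 * (j + 1) - 1)) * (j + 1) := by
            apply mul_pos _ (by positivity); linarith
          linarith
        nlinarith [mul_pos (show 0 < P + 1 by linarith) h5, mul_nonneg ha0 hj0,
          mul_nonneg hj0 hj0, mul_nonneg hd0 hj0]
      exact (mul_pos h3 h4).ne' h2
  · have hd : eval s (derivative f) = 0 := by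
      have := (mul_eq_zero.mp hnv).resolve_left hA
      exact pow_eq_zero_iff (two_ne_zero) |>.mp this
    have h2 : 1 < rootMultiplicity s f := (one_lt_rootMultiplicity_iff_isRoot hf).mpr ⟨hfs, hd⟩
    obtain ⟨j, hj⟩ : ∃ j, rootMultiplicity s f = j + 2 := ⟨rootMultiplicity s f - 2, by omega⟩
    rw [hj] at hg
    rw [hg] at hE
    refine tg_case_reg ν a w P ?_ s hA j g hgs hE
    have : ((1 + P : ℝ) : ℂ) ≠ 0 := Complex.ofReal_ne_zero.mpr (by linarith)
    simpa using this

/-- at a root of `nn` the polynomial `psi` vanishes -/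
lemma tg_psi_root (n0 a w P : ℂ) (hP : P ≠ 0) (f : ℂ[X]) (hn : nn a w f ≠ 0)
    (hE : nn a w f * DN n0 a w f + C (P / 2) * (nn a w f * kap a w f +
        derivative (nn a w f) * psi a w f) = 0) (s : ℂ) (hs : eval s (nn a w f) = 0) :
    eval s (psi a w f) = 0 := by
  obtain ⟨n1, hn1, hnd⟩ := exists_eq_pow_rootMultiplicity_mul_and_not_dvd (nn a w f) hn s
  have hns : eval s n1 ≠ 0 := fun h => hnd (dvd_iff_isRoot.mpr h)
  have hmul : 0 < rootMultiplicity s (nn a w f) := (rootMultiplicity_pos hn).mpr hs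
  obtain ⟨j, hj⟩ : ∃ j, rootMultiplicity s (nn a w f) = j + 1 :=
    ⟨_, (Nat.succ_pred_eq_of_pos hmul).symm⟩
  rw [hj] at hn1
  have h1 : derivative (nn a w f) = (X - C s) ^ j * (C ((j : ℂ) + 1) * n1 +
      (X - C s) * derivative n1) := by
    rw [hn1, derivative_mul, derivative_tau_pow]
    ring
  rw [h1] at hE
  have h2 : (X - C s) ^ j * ((X - C s) * n1 * (DN n0 a w f + C (P / 2) * kap a w f) +
      C (P / 2) * (C ((j : ℂ) + 1) * n1 + (X - C s) * derivative n1) * psi a w f) = 0 := by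
    rw [← hE]
    conv_rhs => rw [hn1]
    ring
  have h3 := (mul_eq_zero.mp h2).resolve_left (pow_ne_zero _ (X_sub_C_ne_zero s))
  have h4 := congrArg (eval s) h3
  simp only [eval_add, eval_mul, eval_sub, eval_X, eval_C, sub_self, zero_mul, zero_add, add_zero,
    eval_zero] at h4
  have hj1 : (j : ℂ) + 1 ≠ 0 := by exact_mod_cast Nat.succ_ne_zero j
  have h5 : (P / 2) * (((j : ℂ) + 1) * eval s n1) ≠ 0 :=
    mul_ne_zero (div_ne_zero hP two_ne_zero) (mul_ne_zero hj1 hns)
  exact (mul_eq_zero.mp h4).resolve_left h5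

lemma tg_top_eq (n0 a w P : ℂ) (f : ℂ[X]) (k : ℕ) (c : ℂ) (hf : Top f k c)
    (hE : nn a w f * DN n0 a w f + C (P / 2) * (nn a w f * kap a w f +
        derivative (nn a w f) * psi a w f) = 0) :
    (w - 2 * k) ^ 3 * (w - 2 * k - 1) * (1 + P) * c ^ 3 = 0 := by
  have hG := hf.xderiv
  have hd := hf.deriv
  have hn := top_nn a w f k c hf
  have hxn := hn.xderiv
  have hdn := hn.deriv
  -- second derivatives
  have hH : Top (X * derivative (X * derivative f)) k (k * (k * c)) := hG.xderiv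
  have hxd : Top (X * derivative (derivative f)) k 0 := by
    have := hd.xderiv
    rwa [mul_zero] at this
  have hD : Top (DN n0 a w f) k ((w - 2 * k) * (w - 2 * k - 1) * c) := by
    have h1 := ((((hf.constMul (w * (w - 1))).add (hd.constMul (2 * (a + 1)))).add
      (hG.constMul (-2 * (2 * w - 3)))).add (((hH.constMul 4).add (hG.constMul (-4))).add
        (hxd.constMul 2))).add (hd.constMul n0)
    refine h1.congr ?_ (by ring)
    unfold DN DD AA
    rw [derivative_mul, derivative_X]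
    simp only [C_mul, C_neg, C_sub, C_add, map_ofNat]
    ring
  have hk : Top (kap a w f) k (2 * (w - 1) * (w - 2 * k) * c) := by
    have h1 := ((hf.constMul (2 * w * (w - 1))).add (hd.constMul (2 * a))).add
      (hG.constMul (-4 * (w - 1)))
    refine h1.congr ?_ (by ring)
    unfold kap
    simp only [C_mul, C_neg, C_sub, map_ofNat]
    ring
  have hpa : Top (C (-2 * w) * f + C 4 * (X * derivative f)) k (-2 * (w - 2 * k) * c) :=
    ((hf.constMul (-2 * w)).add (hG.constMul 4)).congr rfl (by ring)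
  have hpb : Top (C a * f + C 2 * (X * derivative f)) k (a * c + 2 * (k * c)) :=
    (hf.constMul a).add (hG.constMul 2)
  have hfin := (hn.mul hD).add ((((hn.mul hk).add ((hxn.mul hpa).add (hdn.mul hpb)))).constMul (P / 2))
  have hzero : Top (0 : ℂ[X]) (2 * k + k) 0 := by simp [Agent.Helper43.PLap.Top]
  have heq := hfin.congr (q := 0) (by
    rw [← hE]
    unfold psi bb AA
    simp only [C_mul, C_neg, map_ofNat]
    ring) rfl
  have := heq.unique hzero
  rw [← this]
  push_cast
  ring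

/-- no weight vector solutions with `w ≥ 2` -/
theorem tg_main (ν a w : ℕ) (hw : 2 ≤ w) (P : ℝ) (hP : -1 < P) (hP0 : P ≠ 0) (f : ℂ[X]) (hf : f ≠ 0)
    (hdeg : 2 * f.natDegree ≤ w)
    (hE : nn a w f * DN ν a w f + C ((P : ℂ) / 2) * (nn a w f * kap a w f +
        derivative (nn a w f) * psi a w f) = 0) : False := by
  have hPc : (P : ℂ) ≠ 0 := Complex.ofReal_ne_zero.mpr hP0
  have hP1 : (1 + (P : ℂ)) ≠ 0 := by
    have : ((1 + P : ℝ) : ℂ) ≠ 0 := Complex.ofReal_ne_zero.mpr (by linarith)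
    simpa using this
  set k := f.natDegree with hk
  have hlc : f.coeff k ≠ 0 := by
    rw [hk]; exact leadingCoeff_ne_zero.mpr hf
  have hTop : Top f k (f.coeff k) := ⟨le_rfl, rfl⟩
  have htop := tg_top_eq ν a w P f k _ hTop hE
  have hwk : w = 2 * k ∨ w = 2 * k + 1 := by
    rcases mul_eq_zero.mp htop with h | h
    · rcases mul_eq_zero.mp h with h | h
      · rcases mul_eq_zero.mp h with h | h
        · left
          have h2 : (w : ℂ) - 2 * k = 0 := pow_eq_zero_iff (by norm_num) |>.mp h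
          have h3 : (w : ℂ) = ((2 * k : ℕ) : ℂ) := by push_cast; linear_combination h2
          exact_mod_cast h3
        · right
          have h3 : (w : ℂ) = ((2 * k + 1 : ℕ) : ℂ) := by push_cast; linear_combination h
          exact_mod_cast h3
      · exact absurd h hP1
    · exact absurd h (pow_ne_zero _ hlc)
  -- the constant and the linear polynomial
  have hw0 : (w : ℂ) ≠ 0 := by exact_mod_cast (show w ≠ 0 by omega)
  have hlin : (2 * (w : ℂ) * (2 * a + w)) ≠ 0 := by
    have : (2 * w * (2 * a + w) : ℕ) ≠ 0 := by positivity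
    exact_mod_cast this
  set L : ℂ := 2 * (w : ℂ) * (2 * a + w) with hL
  set s0 : ℂ := (a : ℂ) ^ 2 / L with hs0
  have hell : (C ((a : ℂ) ^ 2) - C L * X : ℂ[X]) = C (-L) * (X - C s0) := by
    rw [mul_sub, ← C_mul, show -L * s0 = -(a : ℂ) ^ 2 by rw [hs0]; field_simp]
    simp only [C_neg]
    ring
  have hsq := psi_sq (a : ℂ) w f
  rw [hell] at hsq
  -- nn is nonzero
  have hn0 : nn (a : ℂ) w f ≠ 0 := by
    intro h
    rw [h, mul_zero, zero_add] at hsq
    have h1 := congrArg natDegree hsq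
    rw [natDegree_pow, natDegree_mul (mul_ne_zero (C_ne_zero.mpr (neg_ne_zero.mpr hlin))
      (X_sub_C_ne_zero s0)) (pow_ne_zero _ hf), natDegree_C_mul (neg_ne_zero.mpr hlin),
      natDegree_X_sub_C, natDegree_pow] at h1
    omega
  -- every root is s0
  have hroot : ∀ s, eval s (nn (a : ℂ) w f) = 0 → s = s0 := by
    intro s hs
    have h1 := tg_psi_root ν (a : ℂ) w P hPc f hn0 hE s hs
    have h2 := tg_root_ne ν a w P hP f hf hdeg hE s hs
    have h3 := congrArg (eval s) hsq
    simp only [eval_pow, eval_add, eval_mul, eval_sub, eval_X, eval_C, h1, hs, mul_zero,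
      zero_add] at h3
    have h4 : (-L * (s - s0)) * (eval s f) ^ 2 = 0 := by rw [← h3]; ring
    have h5 := (mul_eq_zero.mp h4).resolve_right (pow_ne_zero _ h2)
    have h6 := (mul_eq_zero.mp h5).resolve_left (neg_ne_zero.mpr hlin)
    exact sub_eq_zero.mp h6
  -- the double root is impossible
  have hdouble : ∀ q : ℂ[X], nn (a : ℂ) w f ≠ (X - C s0) ^ 2 * q := by
    intro q hq
    have hs : eval s0 (nn (a : ℂ) w f) = 0 := by rw [hq]; simp
    have h1 := tg_psi_root ν (a : ℂ) w P hPc f hn0 hE s0 hs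
    have h2 := tg_root_ne ν a w P hP f hf hdeg hE s0 hs
    obtain ⟨r, hr⟩ := dvd_iff_isRoot.mpr h1
    rw [hr, hq] at hsq
    have h3 : (X - C s0) * ((X - C s0) * (r ^ 2 - AA * q) - C (-L) * f ^ 2) = 0 := by
      linear_combination hsq
    have h4 := (mul_eq_zero.mp h3).resolve_left (X_sub_C_ne_zero s0)
    have h5 := congrArg (eval s0) h4
    simp only [eval_sub, eval_mul, eval_X, eval_C, eval_pow, sub_self, zero_mul, zero_sub,
      eval_zero, neg_eq_zero] at h5
    exact (mul_ne_zero (neg_ne_zero.mpr hlin) (pow_ne_zero _ h2)) h5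
  -- shape of nn
  have hshape : ∃ c : ℂ, c ≠ 0 ∧ (nn (a : ℂ) w f = C c ∨ nn (a : ℂ) w f = (X - C s0) * C c) := by
    by_cases h0 : (nn (a : ℂ) w f).natDegree = 0
    · obtain ⟨c, hc⟩ := natDegree_eq_zero.mp h0
      refine ⟨c, ?_, Or.inl hc.symm⟩
      rintro rfl
      exact hn0 (by rw [← hc, C_0])
    · obtain ⟨s, hs⟩ := IsAlgClosed.exists_root (nn (a : ℂ) w f) (by
        intro hd
        exact h0 (natDegree_eq_of_degree_eq_some hd))
      have hs' := hroot s hs
      subst hs'
      obtain ⟨q, hq⟩ := dvd_iff_isRoot.mpr hs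
      have hq0 : q ≠ 0 := by rintro rfl; exact hn0 (by rw [hq, mul_zero])
      have hqd : q.natDegree = 0 := by
        by_contra hqn
        obtain ⟨t, ht⟩ := IsAlgClosed.exists_root q (by
          intro hd
          exact hqn (natDegree_eq_of_degree_eq_some hd))
        have ht' : t = s0 := hroot t (by rw [hq, eval_mul, ht, mul_zero])
        subst ht'
        obtain ⟨q', hq'⟩ := dvd_iff_isRoot.mpr ht
        exact hdouble q' (by rw [hq]; conv_lhs => rw [hq']
                             ring)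
      obtain ⟨c, hc⟩ := natDegree_eq_zero.mp hqd
      refine ⟨c, ?_, Or.inr (by rw [hq, hc])⟩
      rintro rfl
      exact hq0 (by rw [← hc, C_0])
  obtain ⟨c, hc, hshape⟩ := hshape
  have hnTop := top_nn (a : ℂ) w f k _ hTop
  have hndeg : (nn (a : ℂ) w f).natDegree ≤ 1 := by
    rcases hshape with h | h
    · rw [h]; simp
    · rw [h]
      refine (natDegree_mul_C_le _ _).trans ?_
      rw [natDegree_X_sub_C]
  have hAAdeg : (AA * C c).natDegree ≤ 2 := by
    refine (natDegree_mul_C_le _ _).trans ?_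
    unfold AA
    compute_degree
  rcases hwk with hwk | hwk
  · -- w = 2k
    have hk1 : 1 ≤ k := by omega
    by_cases hk2 : 2 ≤ k
    · -- parity
      rcases hshape with h | h
      · rw [h] at hsq
        have hd : (C (-L) * (X - C s0) * f ^ 2).natDegree = 2 * k + 1 := by
          rw [natDegree_mul (mul_ne_zero (C_ne_zero.mpr (neg_ne_zero.mpr hlin))
            (X_sub_C_ne_zero s0)) (pow_ne_zero _ hf), natDegree_C_mul (neg_ne_zero.mpr hlin),
            natDegree_X_sub_C, natDegree_pow, ← hk]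
          ring
        have h1 := congrArg natDegree hsq
        rw [natDegree_pow, natDegree_add_eq_right_of_natDegree_lt (by rw [hd]; omega), hd] at h1
        omega
      · rw [h] at hsq
        have hps : eval s0 (psi (a : ℂ) w f) = 0 := by
          have h1 := congrArg (eval s0) hsq
          simp only [eval_pow, eval_add, eval_mul, eval_sub, eval_X, eval_C, sub_self, zero_mul,
            mul_zero, add_zero] at h1
          exact pow_eq_zero_iff (two_ne_zero) |>.mp h1
        obtain ⟨r, hr⟩ := dvd_iff_isRoot.mpr hps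
        rw [hr] at hsq
        have h3 : (X - C s0) * ((X - C s0) * r ^ 2 - (AA * C c + C (-L) * f ^ 2)) = 0 := by
          linear_combination hsq
        have h4 := (mul_eq_zero.mp h3).resolve_left (X_sub_C_ne_zero s0)
        have h5 : (X - C s0) * r ^ 2 = AA * C c + C (-L) * f ^ 2 := sub_eq_zero.mp h4
        have hd : (C (-L) * f ^ 2).natDegree = 2 * k := by
          rw [natDegree_C_mul (neg_ne_zero.mpr hlin), natDegree_pow, ← hk]
        have h6 := congrArg natDegree h5
        rw [natDegree_add_eq_right_of_natDegree_lt (by rw [hd]; omega), hd] at h6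
        have hr0 : r ≠ 0 := by
          rintro rfl
          simp at h6
          omega
        rw [natDegree_mul (X_sub_C_ne_zero s0) (pow_ne_zero _ hr0), natDegree_X_sub_C,
          natDegree_pow] at h6
        omega
    · -- w = 2
      have hk' : k = 1 := by omega
      have hw2 : w = 2 := by omega
      subst hw2
      rw [hk'] at hlc
      obtain ⟨c1, c0, hfc⟩ : ∃ c1 c0 : ℂ, f = C c1 * X + C c0 :=
        exists_eq_X_add_C_of_natDegree_le_one (by rw [← hk, hk'])
      have hc1 : c1 ≠ 0 := by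
        rw [hfc] at hlc
        simpa using hlc
      have hc0 : c0 ≠ 0 := by
        intro h
        have h1 : eval 0 (nn (a : ℂ) (2 : ℕ) f) = 0 := by
          simp [nn, bb, AA, hfc, h]
        exact tg_root_ne ν a 2 P hP f hf (by rw [← hk, hk']) hE 0 h1 (by simp [hfc, h])
      have hd : derivative f = C c1 := by rw [hfc]; simp
      have hnn : nn (a : ℂ) (2 : ℕ) f = C (2 * ((a : ℂ) + 1) * c1 ^ 2) * X +
          C (4 * c0 ^ 2 + 2 * a * c0 * c1) := by
        unfold nn bb AA
        rw [hd, hfc]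
        simp only [C_mul, C_add, C_pow, map_ofNat, C_1, Nat.cast_ofNat]
        ring
      have hDD : DN (ν : ℂ) (a : ℂ) (2 : ℕ) f = C (2 * c0 + 2 * ((a : ℂ) + 1) * c1 + ν * c1) := by
        unfold DN DD AA
        rw [hd, hfc, derivative_C]
        simp only [C_mul, C_add, C_sub, map_ofNat, C_1, Nat.cast_ofNat]
        ring
      have hkk : kap (a : ℂ) (2 : ℕ) f = C (4 * c0 + 2 * (a : ℂ) * c1) := by
        unfold kap
        rw [hd, hfc]
        simp only [C_mul, C_add, C_sub, map_ofNat, C_1, Nat.cast_ofNat]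
        ring
      have hpp : psi (a : ℂ) (2 : ℕ) f = C ((a : ℂ) * c1 - 4 * c0 + 2 * c1) * X + C ((a : ℂ) * c0) := by
        unfold psi bb AA
        rw [hd, hfc]
        simp only [C_mul, C_add, C_sub, map_ofNat, Nat.cast_ofNat]
        ring
      have hdn : derivative (nn (a : ℂ) (2 : ℕ) f) = C (2 * ((a : ℂ) + 1) * c1 ^ 2) := by
        rw [hnn, derivative_add, derivative_C, add_zero, derivative_C_mul, derivative_X, mul_one]
      rw [hdn, hnn, hDD, hkk, hpp] at hE
      have e0 := congrArg (eval 0) hE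
      have e1 := congrArg (eval 1) hE
      simp only [eval_add, eval_mul, eval_C, eval_X, mul_zero, zero_add, mul_one, eval_zero]
        at e0 e1
      have ha1 : ((a : ℂ) + 1) ≠ 0 := by exact_mod_cast Nat.succ_ne_zero a
      have hR : 4 * c0 + 4 * ((a : ℂ) + 1) * c1 + 2 * ν * c1 + P * (3 * a + 2) * c1 = 0 := by
        have h1 : (((a : ℂ) + 1) * c1 ^ 2) *
            (4 * c0 + 4 * ((a : ℂ) + 1) * c1 + 2 * ν * c1 + P * (3 * a + 2) * c1) = 0 := by
          linear_combination e1 - e0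
        exact (mul_eq_zero.mp h1).resolve_left (mul_ne_zero ha1 (pow_ne_zero _ hc1))
      have hc0' : c0 = -c1 * (4 * ((a : ℂ) + 1) + 2 * ν + P * (3 * a + 2)) / 4 := by
        linear_combination hR / 4
      have hfin : c0 * c1 ^ 2 * (P * ((3 * (a : ℂ) + 2) * P + 3 * a + 4 + 2 * ν) *
          ((3 * (a : ℂ) + 2) * P + 4 * a + 6 + 2 * ν)) = 0 := by
        have h2 : c0 * ((2 * c0 + a * c1) * (2 * c0 + 2 * ((a : ℂ) + 1) * c1 + ν * c1) +
          (P / 2) * ((2 * c0 + a * c1) * (4 * c0 + 2 * a * c1) + a * (a + 1) * c1 ^ 2)) = 0 := by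
          linear_combination e0 / 2
        have h3 := (mul_eq_zero.mp h2).resolve_left hc0
        rw [hc0'] at h3
        have h4 : c1 ^ 2 * (P * ((3 * (a : ℂ) + 2) * P + 3 * a + 4 + 2 * ν) *
          ((3 * (a : ℂ) + 2) * P + 4 * a + 6 + 2 * ν)) = 0 := by
          linear_combination 4 * h3
        rw [mul_assoc, h4, mul_zero]
      have h1 : ((3 * (a : ℂ) + 2) * P + 3 * a + 4 + 2 * ν) ≠ 0 := by
        have : (((3 * (a : ℝ) + 2) * P + 3 * a + 4 + 2 * ν : ℝ) : ℂ) ≠ 0 := by
          rw [Complex.ofReal_ne_zero]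
          have : 0 < (3 * (a : ℝ) + 2) * (P + 1) := mul_pos (by positivity) (by linarith)
          have hν0 : (0 : ℝ) ≤ ν := Nat.cast_nonneg ν
          nlinarith
        push_cast at this
        exact this
      have h2 : ((3 * (a : ℂ) + 2) * P + 4 * a + 6 + 2 * ν) ≠ 0 := by
        have : (((3 * (a : ℝ) + 2) * P + 4 * a + 6 + 2 * ν : ℝ) : ℂ) ≠ 0 := by
          rw [Complex.ofReal_ne_zero]
          have : 0 < (3 * (a : ℝ) + 2) * (P + 1) := mul_pos (by positivity) (by linarith)
          have ha0 : (0 : ℝ) ≤ a := Nat.cast_nonneg a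
          have hν0 : (0 : ℝ) ≤ ν := Nat.cast_nonneg ν
          nlinarith
        push_cast at this
        exact this
      exact (mul_ne_zero (mul_ne_zero hc0 (pow_ne_zero _ hc1))
        (mul_ne_zero (mul_ne_zero hPc h1) h2)) hfin
  · -- w = 2k+1
    have hk1 : 1 ≤ k := by omega
    have h1 : (nn (a : ℂ) w f).coeff (2 * k) = 0 :=
      coeff_eq_zero_of_natDegree_lt (by omega)
    rw [hnTop.2] at h1
    have h2 : ((w : ℂ) - 2 * k) = 1 := by
      rw [hwk]; push_cast; ring
    rw [h2] at h1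
    simp only [one_pow, one_mul] at h1
    exact (pow_ne_zero _ hlc) h1


/-- module B1 -/
theorem thm_TGen : St_TGen := by
  intro ν a w hw P hP hP0 f hf hdeg hE
  exact tg_main ν a w hw P hP hP0 f hf hdeg hE

end

end Pool.PN4
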