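import Pool.Agent.PN4.Stmts
import Pool.Agent.PN4.Basic

set_option autoImplicit false

open MvPolynomial

namespace Pool.PN4

noncomputable section

/-- substitution `(1, x, 1, 1)` -/
def veS : MvPolynomial (Fin 4) ℂ →ₐ[ℂ] Polynomial ℂ := aeval ![1, Polynomial.X, 1, 1]

lemma ve_eval (u : MvPolynomial (Fin 4) ℂ) (t : ℂ) :
    (veS u).eval t = eval ![1, t, 1, 1] u := by
  unfold veS
  induction u using MvPolynomial.induction_on with
  | C r => simp
  | add p q hp hq => rw [map_add, map_add, Polynomial.eval_add, hp, hq]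
  | mul_X p i hp =>
    rw [map_mul, map_mul, Polynomial.eval_mul, hp, aeval_X, eval_X]
    fin_cases i <;> simp

lemma ve_der (u : MvPolynomial (Fin 4) ℂ) :
    Polynomial.derivative (veS u) = veS (pderiv 1 u) := by
  unfold veS
  induction u using MvPolynomial.induction_on with
  | C r => simp
  | add p q hp hq => rw [map_add, map_add, map_add, map_add, hp, hq]
  | mul_X p i hp =>
    rw [map_mul, Polynomial.derivative_mul, hp, pderiv_mul, map_add, map_mul, map_mul, aeval_X]
    congr 2
    fin_cases i <;> simp [pderiv_X]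

lemma ve_xd (u : MvPolynomial (Fin 4) ℂ) (i : Fin 4) :
    X i * pderiv i u = ∑ d ∈ u.support, d i • monomial d (coeff d u) := by
  conv_lhs => rw [u.as_sum]
  rw [map_sum, Finset.mul_sum]
  refine Finset.sum_congr rfl fun d _ => ?_
  rw [X_mul_pderiv_monomial]

lemma ve_sum (u : MvPolynomial (Fin 4) ℂ) (k : ℕ) :
    C (k : ℂ) * u = ∑ d ∈ u.support, k • monomial d (coeff d u) := by
  conv_lhs => rw [u.as_sum]
  rw [Finset.mul_sum]
  refine Finset.sum_congr rfl fun d _ => ?_
  rw [nsmul_eq_mul]
  simp

/-- Euler type relations -/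
lemma ve_rel0 (u : MvPolynomial (Fin 4) ℂ) (a : ℕ) (h : ∀ d ∈ u.support, d 0 = a + d 1) :
    X 0 * pderiv 0 u = C (a : ℂ) * u + X 1 * pderiv 1 u := by
  rw [ve_xd, ve_xd, ve_sum, ← Finset.sum_add_distrib]
  refine Finset.sum_congr rfl fun d hd => ?_
  rw [h d hd, add_smul]

lemma ve_rel (u : MvPolynomial (Fin 4) ℂ) (i : Fin 4) (k : ℕ)
    (h : ∀ d ∈ u.support, d i + d 1 = k) :
    X i * pderiv i u + X 1 * pderiv 1 u = C (k : ℂ) * u := by
  rw [ve_xd, ve_xd, ve_sum, ← Finset.sum_add_distrib]
  refine Finset.sum_congr rfl fun d hd => ?_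
  rw [← h d hd, add_smul]

lemma ve_support (u : MvPolynomial (Fin 4) ℂ) :
    veS u = ∑ d ∈ u.support, Polynomial.monomial (d 1) (coeff d u) := by
  conv_lhs => rw [u.as_sum]
  rw [map_sum]
  refine Finset.sum_congr rfl fun d _ => ?_
  unfold veS
  rw [aeval_monomial, Finsupp.prod_fintype _ _ (by simp), Fin.prod_univ_four]
  simp [Polynomial.C_mul_X_pow_eq_monomial]

theorem thm_VEval : St_VEval := by
  intro a c l P u hu hsup hsol
  refine ⟨veS u, ?_, ?_, ?_⟩
  · -- nonzero
    obtain ⟨d0, hd0⟩ := (support_nonempty.mpr hu)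
    intro h0
    have h1 : (veS u).coeff (d0 1) = coeff d0 u := by
      rw [ve_support u, Polynomial.finsetSum_coeff]
      rw [Finset.sum_eq_single d0]
      · rw [Polynomial.coeff_monomial, if_pos rfl]
      · intro d hd hne
        rw [Polynomial.coeff_monomial, if_neg]
        intro h1
        apply hne
        have e1 := hsup d hd
        have e2 := hsup d0 hd0
        exact ext4 (by omega) h1 (by omega) (by omega)
      · intro h; exact absurd hd0 h
    rw [h0, Polynomial.coeff_zero] at h1
    exact (mem_support_iff.mp hd0) h1.symm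
  · rw [ve_support u]
    refine Polynomial.natDegree_sum_le_of_forall_le _ _ fun d hd => ?_
    refine (Polynomial.natDegree_monomial_le _).trans ?_
    have := hsup d hd
    omega
  · -- the equation
    have r0 := ve_rel0 u a fun d hd => (hsup d hd).1
    have r2 := ve_rel u 2 (c + l) fun d hd => (hsup d hd).2.1
    have r3 := ve_rel u 3 l fun d hd => (hsup d hd).2.2
    have hcomm := fun i j => Pool.Agent.Helper43.PLap.pderiv_comm (i : Fin 4) j u
    have r01 := congrArg (pderiv 1) r0
    have r00 := congrArg (pderiv 0) r0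
    have r12 := congrArg (pderiv 1) r2
    have r02 := congrArg (pderiv 0) r2
    have r22 := congrArg (pderiv 2) r2
    have r13 := congrArg (pderiv 1) r3
    have r03 := congrArg (pderiv 0) r3
    have r33 := congrArg (pderiv 3) r3
    have r23 := congrArg (pderiv 2) r3
    unfold vOde
    refine Polynomial.funext fun t => ?_
    have hE := congrArg (eval ![1, t, 1, 1]) hsol
    rw [eval_E, map_zero] at hE
    have f1 : (Polynomial.derivative (veS u)).eval t = eval ![1, t, 1, 1] (pderiv 1 u) := by
      rw [ve_der, ve_eval]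
    have f2 : (Polynomial.derivative (Polynomial.derivative (veS u))).eval t =
        eval ![1, t, 1, 1] (pderiv 1 (pderiv 1 u)) := by
      rw [ve_der, ve_der, ve_eval]
    have f0 := ve_eval u t
    have s0 := congrArg (eval ![1, t, 1, 1]) r0
    have s2 := congrArg (eval ![1, t, 1, 1]) r2
    have s3 := congrArg (eval ![1, t, 1, 1]) r3
    have s01 := congrArg (eval ![1, t, 1, 1]) r01
    have s00 := congrArg (eval ![1, t, 1, 1]) r00
    have s12 := congrArg (eval ![1, t, 1, 1]) r12
    have s02 := congrArg (eval ![1, t, 1, 1]) r02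
    have s22 := congrArg (eval ![1, t, 1, 1]) r22
    have s13 := congrArg (eval ![1, t, 1, 1]) r13
    have s03 := congrArg (eval ![1, t, 1, 1]) r03
    have s33 := congrArg (eval ![1, t, 1, 1]) r33
    have s23 := congrArg (eval ![1, t, 1, 1]) r23
    simp [pderiv_X, hcomm 1 0, hcomm 2 1, hcomm 3 1] at s0 s2 s3 s01 s00 s12 s02 s22 s13 s03 s33 s23
    simp only [vn, vpsi, vD, vk, sq]
    simp
    rw [f0, f1, f2]
    clear r0 r2 r3 r01 r00 r12 r02 r22 r13 r03 r33 r23 f0 f1 f2 hcomm hsol
    generalize eval ![1, t, 1, 1] u = g at *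
    generalize eval ![1, t, 1, 1] (pderiv 1 (pderiv 1 u)) = F2 at *
    generalize eval ![1, t, 1, 1] (pderiv 0 (pderiv 1 u)) = e01 at *
    generalize eval ![1, t, 1, 1] (pderiv 0 (pderiv 0 u)) = e00 at *
    generalize eval ![1, t, 1, 1] (pderiv 1 (pderiv 2 u)) = e12 at *
    generalize eval ![1, t, 1, 1] (pderiv 1 (pderiv 3 u)) = e13 at *
    generalize eval ![1, t, 1, 1] (pderiv 0 (pderiv 2 u)) = e02 at *
    generalize eval ![1, t, 1, 1] (pderiv 0 (pderiv 3 u)) = e03 at *
    generalize eval ![1, t, 1, 1] (pderiv 2 (pderiv 2 u)) = e22 at *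
    generalize eval ![1, t, 1, 1] (pderiv 3 (pderiv 3 u)) = e33 at *
    generalize eval ![1, t, 1, 1] (pderiv 2 (pderiv 3 u)) = e23 at *
    generalize eval ![1, t, 1, 1] (pderiv 1 u) = F1 at *
    generalize eval ![1, t, 1, 1] (pderiv 0 u) = e0 at *
    generalize eval ![1, t, 1, 1] (pderiv 2 u) = e2 at *
    generalize eval ![1, t, 1, 1] (pderiv 3 u) = e3 at *
    have h2 : e2 = (c + l) * g - t * F1 := by linear_combination s2
    have h3 : e3 = l * g - t * F1 := by linear_combination s3
    have h12 : e12 = (c + l) * F1 - (t * F2 + F1) := by linear_combination s12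
    have h13 : e13 = l * F1 - (t * F2 + F1) := by linear_combination s13
    have h00 : e00 = a * e0 + t * e01 - e0 := by linear_combination s00
    have h02 : e02 = (c + l) * e0 - t * e01 := by linear_combination s02
    have h03 : e03 = l * e0 - t * e01 := by linear_combination s03
    have h22 : e22 = (c + l) * e2 - e2 - t * e12 := by linear_combination s22
    have h33 : e33 = l * e3 - e3 - t * e13 := by linear_combination s33
    have h23 : e23 = l * e2 - t * e12 := by linear_combination s23
    rw [h00, h02, h03, h22, h33, h23, h12, h13, h2, h3, s01, s0] at hE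
    linear_combination hE / 4

end

end Pool.PN4
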