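import Pool.Agent.PN4.Stmts
import Pool.Agent.PN4.Basic

set_option autoImplicit false

open MvPolynomial

namespace Pool.PN4

noncomputable section

open Polynomial in
/-- the number `a (c + 2 l) + 2 l (c + l)` -/
def voneK (a c l : ℕ) : ℕ := a * (c + 2 * l) + 2 * l * (c + l)

/-- the polynomial `R` with `psi² = 4 x (1 + x) n + R f²` -/
def voneR (a c l : ℕ) : Polynomial ℂ :=
  Polynomial.C ((c : ℂ) ^ 2) * Polynomial.X ^ 2 -
    Polynomial.C (2 * (voneK a c l : ℂ)) * Polynomial.X + Polynomial.C ((a : ℂ) ^ 2)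

theorem vone_ident (a c l : ℕ) (f : Polynomial ℂ) :
    vpsi a c l f ^ 2 = 4 * (Polynomial.X * (1 + Polynomial.X)) * vn a c l f +
      voneR a c l * f ^ 2 := by
  unfold vpsi vn voneR voneK
  push_cast
  simp only [map_add, map_mul, map_pow, map_natCast, map_ofNat]
  ring

theorem vone_eval (a c l : ℕ) (s : ℂ) : Polynomial.eval s (voneR a c l) =
    (c : ℂ) ^ 2 * s ^ 2 - 2 * (voneK a c l : ℂ) * s + (a : ℂ) ^ 2 := by
  unfold voneR
  simp

theorem vone_coeff_one (a c l : ℕ) : (voneR a c l).coeff 1 = - (2 * (voneK a c l : ℂ)) := by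
  unfold voneR
  rw [Polynomial.coeff_add, Polynomial.coeff_sub, Polynomial.coeff_C_mul, Polynomial.coeff_C_mul,
    Polynomial.coeff_X_pow, Polynomial.coeff_X_one, Polynomial.coeff_C, if_neg (by norm_num),
    if_neg (by norm_num)]
  ring

theorem vone_pos {a c l : ℕ} (hl : 1 ≤ l) : a * c < voneK a c l := by
  unfold voneK
  have h1 : 0 < l * l := Nat.mul_pos hl hl
  nlinarith [Nat.zero_le (a * l), Nat.zero_le (l * c)]

theorem vone_ne {a c l : ℕ} (hl : 1 ≤ l) : voneR a c l ≠ 0 := by
  intro h
  have h1 := vone_coeff_one a c l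
  rw [h, Polynomial.coeff_zero] at h1
  have h2 : (voneK a c l : ℂ) = 0 := by
    linear_combination (1 / 2 : ℂ) * h1
  have h3 : voneK a c l = 0 := by exact_mod_cast h2
  have h4 := vone_pos (a := a) (c := c) hl
  omega

theorem vone_deg_two (a c l : ℕ) : (voneR a c l).natDegree ≤ 2 := by
  unfold voneR
  compute_degree

theorem vone_deg_one (a l : ℕ) : (voneR a 0 l).natDegree ≤ 1 := by
  unfold voneR
  have h : (Polynomial.C (((0 : ℕ) : ℂ) ^ 2) * Polynomial.X ^ 2 : Polynomial ℂ) = 0 := by simp
  rw [h, zero_sub]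
  compute_degree

theorem vone_double {a c l : ℕ} (hl : 1 ≤ l) (s : ℂ)
    (h : (Polynomial.X - Polynomial.C s) ^ 2 ∣ voneR a c l) : False := by
  obtain ⟨g, hg⟩ := h
  have h0 : Polynomial.eval s (voneR a c l) = 0 := by rw [hg]; simp
  have h1 : Polynomial.eval s (Polynomial.derivative (voneR a c l)) = 0 := by
    rw [hg, Polynomial.derivative_mul, Polynomial.derivative_pow]
    simp
  have h2 : Polynomial.eval s (Polynomial.derivative (voneR a c l)) =
      2 * (c : ℂ) ^ 2 * s - 2 * (voneK a c l : ℂ) := by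
    unfold voneR
    rw [Polynomial.derivative_add, Polynomial.derivative_sub, Polynomial.derivative_C_mul,
      Polynomial.derivative_C_mul, Polynomial.derivative_X_pow, Polynomial.derivative_X,
      Polynomial.derivative_C]
    simp only [Polynomial.eval_add, Polynomial.eval_sub, Polynomial.eval_mul, Polynomial.eval_C,
      Polynomial.eval_pow, Polynomial.eval_X, Polynomial.eval_one, Polynomial.eval_zero]
    push_cast
    ring
  rw [h2] at h1
  rw [vone_eval] at h0
  have h3 : (c : ℂ) ^ 2 * s = (voneK a c l : ℂ) := by linear_combination h1 / 2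
  have h4 : ((a : ℂ) * c) ^ 2 = (voneK a c l : ℂ) ^ 2 := by
    linear_combination (c : ℂ) ^ 2 * h0 - ((c : ℂ) ^ 2 * s - (voneK a c l : ℂ)) * h3
  have h5 : (a * c) ^ 2 = voneK a c l ^ 2 := by exact_mod_cast h4
  have h6 := vone_pos (a := a) (c := c) hl
  have h7 : (a * c) ^ 2 < voneK a c l ^ 2 := Nat.pow_lt_pow_left h6 (by norm_num)
  omega

/-- module B5 -/
theorem thm_VOne (h1 : St_VRoot) (h2 : St_VPsi) (h3 : St_VTop) : St_VOne := by
  intro a c l P hl hP hP0 f hf hfd ode
  obtain ⟨hn, hroot⟩ := h2 a c l P hl hP0 f hf ode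
  have hfr := h1 a c l P hl hP f hf hfd ode
  obtain ⟨hfl, htop⟩ := h3 a c l P hl hP hP0 f hf hfd hn ode
  have hid := vone_ident a c l f
  have hR := vone_ne (a := a) (c := c) hl
  -- the roots of `n` are simple
  have hsimple : ∀ s, (vn a c l f).rootMultiplicity s ≤ 1 := by
    intro s
    by_contra hcon
    push Not at hcon
    have hd : (Polynomial.X - Polynomial.C s) ^ 2 ∣ vn a c l f :=
      (pow_dvd_pow _ hcon).trans (Polynomial.pow_rootMultiplicity_dvd _ s)
    have hs0 : Polynomial.eval s (vn a c l f) = 0 := by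
      obtain ⟨g, hg⟩ := hd
      rw [hg]
      simp
    have hpsi : (Polynomial.X - Polynomial.C s) ∣ vpsi a c l f :=
      Polynomial.dvd_iff_isRoot.mpr (hroot s hs0)
    have h4 : (Polynomial.X - Polynomial.C s) ^ 2 ∣ voneR a c l * f ^ 2 := by
      have e : voneR a c l * f ^ 2 = vpsi a c l f ^ 2 -
          4 * (Polynomial.X * (1 + Polynomial.X)) * vn a c l f := by
        rw [hid]
        ring
      rw [e]
      exact dvd_sub (pow_dvd_pow_of_dvd hpsi 2) (Dvd.dvd.mul_left hd _)
    have hcop : IsCoprime ((Polynomial.X - Polynomial.C s) ^ 2) (f ^ 2) := by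
      refine IsCoprime.pow ?_
      exact (Polynomial.irreducible_X_sub_C s).coprime_iff_not_dvd.mpr
        fun h => hfr s hs0 (Polynomial.dvd_iff_isRoot.mp h)
    exact vone_double hl s (hcop.dvd_of_dvd_mul_right h4)
  have hsub : (vn a c l f).roots.toFinset ⊆ (voneR a c l).roots.toFinset := by
    intro s hs
    rw [Multiset.mem_toFinset, Polynomial.mem_roots hn] at hs
    rw [Multiset.mem_toFinset, Polynomial.mem_roots hR]
    have hs' : Polynomial.eval s (vn a c l f) = 0 := hs
    have h4 := congrArg (Polynomial.eval s) hid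
    simp only [Polynomial.eval_pow, Polynomial.eval_add, Polynomial.eval_mul, hroot s hs', hs'] at h4
    have h5 : Polynomial.eval s (voneR a c l) * Polynomial.eval s f ^ 2 = 0 := by
      linear_combination -h4
    rcases mul_eq_zero.mp h5 with h6 | h6
    · exact h6
    · exact absurd (pow_eq_zero_iff (two_ne_zero)|>.mp h6) (hfr s hs')
  have hcard : (vn a c l f).natDegree ≤ (voneR a c l).natDegree := by
    have h5 : (vn a c l f).roots.card = (vn a c l f).natDegree :=
      IsAlgClosed.card_roots_eq_natDegree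
    have h6 : (vn a c l f).roots.Nodup := by
      rw [Multiset.nodup_iff_count_le_one]
      intro s
      rw [Polynomial.count_roots]
      exact hsimple s
    calc (vn a c l f).natDegree = (vn a c l f).roots.card := h5.symm
      _ = (vn a c l f).roots.toFinset.card := (Multiset.toFinset_card_of_nodup h6).symm
      _ ≤ (voneR a c l).roots.toFinset.card := Finset.card_le_card hsub
      _ ≤ (voneR a c l).roots.card := Multiset.toFinset_card_le _
      _ ≤ (voneR a c l).natDegree := Polynomial.card_roots' _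
  rcases htop with hc | hc
  · subst hc
    by_contra hl1
    have hl2 : 2 ≤ l := by omega
    have h7 : (vn a 0 l f).natDegree ≤ 1 := hcard.trans (vone_deg_one a l)
    have h8 : (voneR a 0 l).natDegree = 1 := by
      refine le_antisymm (vone_deg_one a l) ?_
      refine Polynomial.le_natDegree_of_ne_zero ?_
      rw [vone_coeff_one]
      have h9 := vone_pos (a := a) (c := 0) hl
      have h10 : (voneK a 0 l : ℂ) ≠ 0 := by
        have : voneK a 0 l ≠ 0 := by omega
        exact_mod_cast this
      intro h11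
      exact h10 (by linear_combination (-1 / 2 : ℂ) * h11)
    have h9 : (voneR a 0 l * f ^ 2).natDegree = 1 + 2 * l := by
      rw [Polynomial.natDegree_mul hR (pow_ne_zero 2 hf), Polynomial.natDegree_pow, h8, hfl]
    have h10 : (4 * (Polynomial.X * (1 + Polynomial.X)) * vn a 0 l f : Polynomial ℂ).natDegree
        ≤ 3 := by
      refine (Polynomial.natDegree_mul_le).trans ?_
      have h11 : (4 * (Polynomial.X * (1 + Polynomial.X)) : Polynomial ℂ).natDegree ≤ 2 := by
        compute_degree
      omega
    have h12 : (vpsi a 0 l f ^ 2).natDegree = 1 + 2 * l := by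
      rw [hid, Polynomial.natDegree_add_eq_right_of_natDegree_lt (by omega), h9]
    rw [Polynomial.natDegree_pow] at h12
    omega
  · have h7 := hcard.trans (vone_deg_two a c l)
    omega

end

end Pool.PN4
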