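import Pool.Agent.PN4.Stmts
import Pool.Agent.PN4.Basic

set_option autoImplicit false

open MvPolynomial

namespace Pool.PN4

noncomputable section

/-- the discriminant polynomial `R` -/
def vpR (a c l : ℕ) : Polynomial ℂ :=
  Polynomial.C ((c : ℂ) ^ 2) * Polynomial.X ^ 2 -
    Polynomial.C (2 * ((a : ℂ) * (c + 2 * l) + 2 * l * (c + l))) * Polynomial.X +
    Polynomial.C ((a : ℂ) ^ 2)

lemma vp_identity (a c l : ℕ) (f : Polynomial ℂ) :
    vpsi a c l f * vpsi a c l f = 4 * (Polynomial.X * (1 + Polynomial.X)) * vn a c l f +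
      vpR a c l * (f * f) := by
  unfold vpsi vn vpR
  simp only [map_add, map_mul, map_pow, Polynomial.C_ofNat]
  ring

lemma vpR_natDegree_ne (a c l : ℕ) (hl : 1 ≤ l) : (vpR a c l).degree ≠ 0 := by
  intro h
  have hd : (vpR a c l).degree ≤ 0 := le_of_eq h
  have h2 : (vpR a c l).coeff 2 = 0 :=
    Polynomial.coeff_eq_zero_of_degree_lt (lt_of_le_of_lt hd (by norm_num))
  have h1 : (vpR a c l).coeff 1 = 0 :=
    Polynomial.coeff_eq_zero_of_degree_lt (lt_of_le_of_lt hd (by norm_num))
  have e1 : (vpR a c l).coeff 1 = -(2 * ((a : ℂ) * (c + 2 * l) + 2 * l * (c + l))) := by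
    unfold vpR
    simp only [Polynomial.coeff_add, Polynomial.coeff_sub, Polynomial.coeff_C_mul,
      Polynomial.coeff_X_pow, Polynomial.coeff_X_one, Polynomial.coeff_C]
    norm_num
  rw [e1] at h1
  have h3 : ((2 * (a * (c + 2 * l) + 2 * l * (c + l)) : ℕ) : ℂ) = 0 := by
    push_cast
    linear_combination -h1
  have h4 : 2 * (a * (c + 2 * l) + 2 * l * (c + l)) = 0 := by exact_mod_cast h3
  have h5 : 0 < 2 * l * (c + l) := by positivity
  omega

lemma vpR_no_double (a c l : ℕ) (hl : 1 ≤ l) (r : ℂ) (h0 : Polynomial.eval r (vpR a c l) = 0)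
    (h1 : Polynomial.eval r (Polynomial.derivative (vpR a c l)) = 0) : False := by
  unfold vpR at h0 h1
  simp only [Polynomial.derivative_add, Polynomial.derivative_sub, Polynomial.derivative_C_mul,
    Polynomial.derivative_X_pow, Polynomial.derivative_X, Polynomial.derivative_C,
    Polynomial.eval_add, Polynomial.eval_sub, Polynomial.eval_mul, Polynomial.eval_pow,
    Polynomial.eval_X, Polynomial.eval_C,
    Nat.cast_ofNat, Nat.reduceSub, pow_one, mul_one, add_zero] at h0 h1
  have h2 : ((4 * (l * (c + l) * ((a + l) * (a + c + l))) : ℕ) : ℂ) = 0 := by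
    push_cast
    linear_combination ((c : ℂ) ^ 2 * r - ((a : ℂ) * (c + 2 * l) + 2 * l * (c + l))) / 2 * h1 -
      (c : ℂ) ^ 2 * h0
  have h3 : 4 * (l * (c + l) * ((a + l) * (a + c + l))) = 0 := by exact_mod_cast h2
  have h4 : 0 < 4 * (l * (c + l) * ((a + l) * (a + c + l))) := by positivity
  omega

lemma vp_ne (a c l : ℕ) (hl : 1 ≤ l) (f : Polynomial ℂ) (hf : f ≠ 0) : vn a c l f ≠ 0 := by
  intro h
  have h1 := vp_identity a c l f
  rw [h, mul_zero, zero_add] at h1
  obtain ⟨r, hr⟩ := Complex.isAlgClosed.exists_root (vpR a c l) (vpR_natDegree_ne a c l hl)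
  have hR : vpR a c l ≠ 0 := by
    intro h2
    rw [h2] at hr
    exact vpR_no_double a c l hl 0 (by rw [h2]; simp) (by rw [h2]; simp)
  have hff : f * f ≠ 0 := mul_ne_zero hf hf
  have hRf : vpR a c l * (f * f) ≠ 0 := mul_ne_zero hR hff
  have h2 : Polynomial.rootMultiplicity r (vpR a c l) = 1 := by
    have h3 : 0 < Polynomial.rootMultiplicity r (vpR a c l) :=
      (Polynomial.rootMultiplicity_pos hR).mpr hr
    have h4 : ¬ 1 < Polynomial.rootMultiplicity r (vpR a c l) := by
      rw [Polynomial.one_lt_rootMultiplicity_iff_isRoot hR]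
      rintro ⟨h5, h6⟩
      exact vpR_no_double a c l hl r h5 h6
    omega
  have h3 := congrArg (Polynomial.rootMultiplicity r) h1
  rw [Polynomial.rootMultiplicity_mul (by rw [h1]; exact hRf),
    Polynomial.rootMultiplicity_mul hRf, Polynomial.rootMultiplicity_mul hff, h2] at h3
  omega

/-- module B3 -/
theorem thm_VPsi : St_VPsi := by
  intro a c l P hl hP f hf hE
  have hn := vp_ne a c l hl f hf
  refine ⟨hn, fun s hs => ?_⟩
  unfold vOde at hE
  obtain ⟨n1, hn1, hnd⟩ :=
    Polynomial.exists_eq_pow_rootMultiplicity_mul_and_not_dvd (vn a c l f) hn s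
  have hns : Polynomial.eval s n1 ≠ 0 := fun h => hnd (Polynomial.dvd_iff_isRoot.mpr h)
  have hmul : 0 < Polynomial.rootMultiplicity s (vn a c l f) :=
    (Polynomial.rootMultiplicity_pos hn).mpr hs
  obtain ⟨j, hj⟩ : ∃ j, Polynomial.rootMultiplicity s (vn a c l f) = j + 1 :=
    ⟨_, (Nat.succ_pred_eq_of_pos hmul).symm⟩
  rw [hj] at hn1
  have h1 : Polynomial.derivative (vn a c l f) = (Polynomial.X - Polynomial.C s) ^ j *
      (Polynomial.C ((j : ℂ) + 1) * n1 +
      (Polynomial.X - Polynomial.C s) * Polynomial.derivative n1) := by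
    rw [hn1, Polynomial.derivative_mul, Polynomial.derivative_X_sub_C_pow]
    simp only [Nat.add_sub_cancel, map_add, map_one, map_natCast, Nat.cast_add, Nat.cast_one]
    ring
  rw [h1] at hE
  have h2 : (Polynomial.X - Polynomial.C s) ^ j * ((Polynomial.X - Polynomial.C s) * n1 *
      (vD a c l f + Polynomial.C ((P : ℂ) / 4) * vk a c l f) +
      Polynomial.C ((P : ℂ) / 4) * (Polynomial.C ((j : ℂ) + 1) * n1 +
      (Polynomial.X - Polynomial.C s) * Polynomial.derivative n1) * vpsi a c l f) = 0 := by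
    rw [← hE]
    conv_rhs => rw [hn1]
    ring
  have h3 := (mul_eq_zero.mp h2).resolve_left (pow_ne_zero _ (Polynomial.X_sub_C_ne_zero s))
  have h4 := congrArg (Polynomial.eval s) h3
  simp only [Polynomial.eval_add, Polynomial.eval_mul, Polynomial.eval_sub, Polynomial.eval_X,
    Polynomial.eval_C, sub_self, zero_mul, zero_add, add_zero, Polynomial.eval_zero] at h4
  have hj1 : (j : ℂ) + 1 ≠ 0 := by exact_mod_cast Nat.succ_ne_zero j
  have hP' : ((P : ℂ) / 4) ≠ 0 := by
    apply div_ne_zero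
    · exact_mod_cast hP
    · norm_num
  have h5 : ((P : ℂ) / 4) * (((j : ℂ) + 1) * Polynomial.eval s n1) ≠ 0 :=
    mul_ne_zero hP' (mul_ne_zero hj1 hns)
  exact (mul_eq_zero.mp h4).resolve_left h5

end

end Pool.PN4
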