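import Pool.Agent.PN4.Stmts
import Pool.Agent.PN4.Basic

set_option autoImplicit false

open Polynomial

namespace Pool.PN4

noncomputable section

lemma vroot_dtau (s : ℂ) (j : ℕ) :
    derivative ((X - C s) ^ (j + 1) : ℂ[X]) = C ((j : ℂ) + 1) * (X - C s) ^ j := by
  rw [derivative_X_sub_C_pow]
  simp

/-- case of a multiple root at a regular point -/
lemma vroot_reg (a c l : ℕ) (P : ℝ) (hP : 1 + (P : ℂ) ≠ 0) (s : ℂ) (hA : s * (1 + s) ≠ 0) (j : ℕ)
    (g : ℂ[X]) (hg : eval s g ≠ 0) (hE : vOde P a c l ((X - C s) ^ (j + 2) * g)) : False := by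
  unfold vOde at hE
  set τ : ℂ[X] := X - C s with hτ
  set f := τ ^ (j + 2) * g with hf
  set g1 : ℂ[X] := C ((j : ℂ) + 2) * g + τ * derivative g with hg1
  set g2 : ℂ[X] := C ((j : ℂ) + 1) * g1 + τ * derivative g1 with hg2
  have hdτ : ∀ i : ℕ, derivative (τ ^ (i + 1)) = C ((i : ℂ) + 1) * τ ^ i :=
    fun i => vroot_dtau s i
  have h1 : derivative f = τ ^ (j + 1) * g1 := by
    rw [hf, derivative_mul, show j + 2 = (j + 1) + 1 from rfl, hdτ, hg1]
    push_cast
    rw [show (j : ℂ) + 1 + 1 = j + 2 by ring]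
    ring
  have h2 : derivative (derivative f) = τ ^ j * g2 := by
    rw [h1, derivative_mul, hdτ, hg2]
    ring
  set n1 : ℂ[X] := C ((l : ℂ) * (c + l)) * τ ^ 2 * g ^ 2 +
    (C (a : ℂ) - C ((c : ℂ) + 2 * l) * X) * τ * g * g1 + X * (1 + X) * g1 ^ 2 with hn1
  have h3 : vn a c l f = τ ^ (2 * j + 2) * n1 := by
    unfold vn
    rw [h1, hf, hn1]
    ring
  have h4 : derivative (vn a c l f) = τ ^ (2 * j + 1) *
      (C (2 * (j : ℂ) + 2) * n1 + τ * derivative n1) := by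
    rw [h3, derivative_mul, show 2 * j + 2 = (2 * j + 1) + 1 from rfl, hdτ]
    push_cast
    rw [show 2 * (j : ℂ) + 1 + 1 = 2 * j + 2 by ring]
    ring
  set D1 : ℂ[X] := C ((l : ℂ) * (c + l)) * τ ^ 2 * g +
    (C ((a : ℂ) + 1) - C ((c : ℂ) + 2 * l - 1) * X) * τ * g1 + X * (1 + X) * g2 with hD1
  have h5 : vD a c l f = τ ^ j * D1 := by
    unfold vD
    rw [h2, h1, hf, hD1]
    ring
  set k1 : ℂ[X] := C (4 * (l : ℂ) ^ 2 - 2 * l + 4 * c * l - c) * τ * g +
    (C (2 * (a : ℂ)) - C (2 * (c : ℂ) + 4 * l - 2) * X) * g1 with hk1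
  have h6 : vk a c l f = τ ^ (j + 1) * k1 := by
    unfold vk
    rw [h1, hf, hk1]
    ring
  set p1 : ℂ[X] := (C (a : ℂ) - C ((c : ℂ) + 2 * l) * X) * τ * g + 2 * (X * (1 + X) * g1) with hp1
  have h7 : vpsi a c l f = τ ^ (j + 1) * p1 := by
    unfold vpsi
    rw [h1, hf, hp1]
    ring
  rw [h4, h3, h5, h6, h7] at hE
  have h8 : τ ^ (3 * j + 2) * (n1 * D1 + C ((P : ℂ) / 4) * (τ * n1 * k1 +
      (C (2 * (j : ℂ) + 2) * n1 + τ * derivative n1) * p1)) = 0 := by
    rw [← hE]; ring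
  have hτ0 : τ ≠ 0 := X_sub_C_ne_zero s
  have h9 := (mul_eq_zero.mp h8).resolve_left (pow_ne_zero _ hτ0)
  have h10 := congrArg (eval s) h9
  have e0 : eval s τ = 0 := by simp [hτ]
  have eg1 : eval s g1 = ((j : ℂ) + 2) * eval s g := by simp [hg1, e0]
  have eg2 : eval s g2 = ((j : ℂ) + 1) * eval s g1 := by simp [hg2, e0]
  have en1 : eval s n1 = s * (1 + s) * eval s g1 ^ 2 := by simp [hn1, e0]
  have eD1 : eval s D1 = s * (1 + s) * eval s g2 := by simp [hD1, e0]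
  have ep1 : eval s p1 = 2 * (s * (1 + s) * eval s g1) := by simp [hp1, e0]
  simp only [eval_add, eval_mul, eval_C, e0, zero_mul, zero_add, add_zero, eval_zero] at h10
  rw [en1, eD1, ep1, eg2] at h10
  have h11 : (s * (1 + s)) ^ 2 * (eval s g1) ^ 3 * ((j : ℂ) + 1) * (1 + (P : ℂ)) = 0 := by
    rw [← h10]; ring
  have hj1 : (j : ℂ) + 1 ≠ 0 := by exact_mod_cast Nat.succ_ne_zero j
  have hj2 : (j : ℂ) + 2 ≠ 0 := by exact_mod_cast Nat.succ_ne_zero (j + 1)
  have hg1' : eval s g1 ≠ 0 := by rw [eg1]; exact mul_ne_zero hj2 hg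
  exact (mul_ne_zero (mul_ne_zero (mul_ne_zero (pow_ne_zero _ hA) (pow_ne_zero _ hg1')) hj1) hP) h11

/-- case of a root at `0` or `-1` -/
lemma vroot_sing (a c l : ℕ) (P : ℝ) (s A1 : ℂ) (B1 : ℂ[X]) (hB : eval s B1 = A1)
    (hA : (X * (1 + X) : ℂ[X]) = (X - C s) * B1) (j : ℕ)
    (g : ℂ[X]) (hg : eval s g ≠ 0) (hE : vOde P a c l ((X - C s) ^ (j + 1) * g)) :
    (((a : ℂ) - (c + 2 * l) * s) + A1 * (j + 1)) *
      ((j + 1) * (((a : ℂ) + 1 - (c + 2 * l - 1) * s) + A1 * j) +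
        ((P : ℂ) / 4) * ((2 * (a : ℂ) - (2 * c + 4 * l - 2) * s) * (j + 1) +
          (2 * j + 1) * (((a : ℂ) - (c + 2 * l) * s) + 2 * A1 * (j + 1)))) = 0 := by
  unfold vOde at hE
  set τ : ℂ[X] := X - C s with hτ
  set f := τ ^ (j + 1) * g with hf
  set g1 : ℂ[X] := C ((j : ℂ) + 1) * g + τ * derivative g with hg1
  set g2 : ℂ[X] := C (j : ℂ) * g1 + τ * derivative g1 with hg2
  have hdτ : ∀ i : ℕ, derivative (τ ^ (i + 1)) = C ((i : ℂ) + 1) * τ ^ i :=
    fun i => vroot_dtau s i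
  have hdτ' : ∀ i : ℕ, τ * derivative (τ ^ i) = C (i : ℂ) * τ ^ i := by
    intro i
    rcases i with _ | i
    · simp
    · rw [hdτ]; push_cast; ring
  have h1 : derivative f = τ ^ j * g1 := by
    rw [hf, derivative_mul, hdτ, hg1]
    ring
  have h2 : τ * derivative (derivative f) = τ ^ j * g2 := by
    rw [h1, derivative_mul, mul_add, ← mul_assoc, hdτ', hg2]
    ring
  set n1 : ℂ[X] := C ((l : ℂ) * (c + l)) * τ * g ^ 2 +
    (C (a : ℂ) - C ((c : ℂ) + 2 * l) * X) * g * g1 + B1 * g1 ^ 2 with hn1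
  have h3 : vn a c l f = τ ^ (2 * j + 1) * n1 := by
    unfold vn
    rw [h1, hf, hn1, hA]
    ring
  have h4 : derivative (vn a c l f) = τ ^ (2 * j) *
      (C (2 * (j : ℂ) + 1) * n1 + τ * derivative n1) := by
    rw [h3, derivative_mul, hdτ]
    push_cast
    ring
  set D1 : ℂ[X] := C ((l : ℂ) * (c + l)) * τ * g +
    (C ((a : ℂ) + 1) - C ((c : ℂ) + 2 * l - 1) * X) * g1 + B1 * g2 with hD1
  have h5 : vD a c l f = τ ^ j * D1 := by
    unfold vD
    have : X * (1 + X) * derivative (derivative f) = B1 * (τ * derivative (derivative f)) := by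
      rw [hA]; ring
    rw [this, h2, h1, hf, hD1]
    ring
  set k1 : ℂ[X] := C (4 * (l : ℂ) ^ 2 - 2 * l + 4 * c * l - c) * τ * g +
    (C (2 * (a : ℂ)) - C (2 * (c : ℂ) + 4 * l - 2) * X) * g1 with hk1
  have h6 : vk a c l f = τ ^ j * k1 := by
    unfold vk
    rw [h1, hf, hk1]
    ring
  set p1 : ℂ[X] := (C (a : ℂ) - C ((c : ℂ) + 2 * l) * X) * g + 2 * (B1 * g1) with hp1
  have h7 : vpsi a c l f = τ ^ (j + 1) * p1 := by
    unfold vpsi
    rw [h1, hf, hp1, hA]
    ring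
  rw [h4, h3, h5, h6, h7] at hE
  have h8 : τ ^ (3 * j + 1) * (n1 * D1 + C ((P : ℂ) / 4) * (n1 * k1 +
      (C (2 * (j : ℂ) + 1) * n1 + τ * derivative n1) * p1)) = 0 := by
    rw [← hE]; ring
  have hτ0 : τ ≠ 0 := X_sub_C_ne_zero s
  have h9 := (mul_eq_zero.mp h8).resolve_left (pow_ne_zero _ hτ0)
  have h10 := congrArg (eval s) h9
  have e0 : eval s τ = 0 := by simp [hτ]
  have eg1 : eval s g1 = ((j : ℂ) + 1) * eval s g := by simp [hg1, e0]
  have eg2 : eval s g2 = (j : ℂ) * eval s g1 := by simp [hg2, e0]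
  have en1 : eval s n1 = ((a : ℂ) - (c + 2 * l) * s) * eval s g * eval s g1 +
      A1 * eval s g1 ^ 2 := by simp [hn1, e0, hB]
  have eD1 : eval s D1 = ((a : ℂ) + 1 - (c + 2 * l - 1) * s) * eval s g1 +
      A1 * eval s g2 := by simp [hD1, e0, hB]
  have ek1 : eval s k1 = (2 * (a : ℂ) - (2 * c + 4 * l - 2) * s) * eval s g1 := by
    simp [hk1, e0]
  have ep1 : eval s p1 = ((a : ℂ) - (c + 2 * l) * s) * eval s g + 2 * (A1 * eval s g1) := by
    simp [hp1, hB]
  simp only [eval_add, eval_mul, eval_C, e0, zero_mul, add_zero, eval_zero] at h10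
  rw [en1, eD1, ep1, ek1, eg2, eg1] at h10
  have hj1 : (j : ℂ) + 1 ≠ 0 := by exact_mod_cast Nat.succ_ne_zero j
  have h11 : ((j : ℂ) + 1) * (eval s g) ^ 3 *
     ((((a : ℂ) - (c + 2 * l) * s) + A1 * (j + 1)) *
      ((j + 1) * (((a : ℂ) + 1 - (c + 2 * l - 1) * s) + A1 * j) +
        ((P : ℂ) / 4) * ((2 * (a : ℂ) - (2 * c + 4 * l - 2) * s) * (j + 1) +
          (2 * j + 1) * (((a : ℂ) - (c + 2 * l) * s) + 2 * A1 * (j + 1))))) = 0 := by
    rw [← h10]; ring
  exact (mul_eq_zero.mp h11).resolve_left (mul_ne_zero hj1 (pow_ne_zero _ hg))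

/-- module B2 -/
theorem thm_VRoot : St_VRoot := by
  intro a c l P hl hP f hf hdeg hE s hs hfs
  obtain ⟨g, hg, hgd⟩ := exists_eq_pow_rootMultiplicity_mul_and_not_dvd f hf s
  have hgs : eval s g ≠ 0 := fun h => hgd (dvd_iff_isRoot.mpr h)
  have hmul : 0 < rootMultiplicity s f := (rootMultiplicity_pos hf).mpr hfs
  have hmle : rootMultiplicity s f ≤ f.natDegree := by
    have h1 := card_roots' f
    have h2 := Multiset.count_le_card s f.roots
    rw [count_roots] at h2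
    omega
  have hnv : s * (1 + s) * eval s (derivative f) ^ 2 = 0 := by
    have : eval s (vn a c l f) = s * (1 + s) * eval s (derivative f) ^ 2 := by
      simp [vn, hfs]
    rw [← this]; exact hs
  by_cases hA : s * (1 + s) = 0
  · have hA' : s = 0 ∨ s = -1 := by
      rcases mul_eq_zero.mp hA with h | h
      · left; exact h
      · right; linear_combination h
    obtain ⟨j, hj⟩ : ∃ j, rootMultiplicity s f = j + 1 := ⟨_, (Nat.succ_pred_eq_of_pos hmul).symm⟩
    rw [hj] at hg hmle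
    have he : ((j : ℝ) + 1) ≤ l := by exact_mod_cast (show j + 1 ≤ l by omega)
    have ha0 : (0 : ℝ) ≤ a := Nat.cast_nonneg a
    have hc0 : (0 : ℝ) ≤ c := Nat.cast_nonneg c
    have hj0 : (0 : ℝ) ≤ j := Nat.cast_nonneg j
    rw [hg] at hE
    rcases hA' with h0 | h0
    · subst h0
      have h1 := vroot_sing a c l P 0 1 (1 + X) (by simp) (by simp) j g hgs hE
      have h2 : ((((a : ℝ) + (j + 1)) * ((j + 1) * ((a + 1) + j) +
        (P / 4) * (2 * a * (j + 1) + (2 * j + 1) * (a + 2 * (j + 1)))) : ℝ) : ℂ) = 0 := by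
        push_cast
        linear_combination h1
      rw [Complex.ofReal_eq_zero] at h2
      have h3 : 0 < (a : ℝ) + (j + 1) := by positivity
      have h4 : 0 < ((j : ℝ) + 1) * ((a + 1) + j) +
        (P / 4) * (2 * a * (j + 1) + (2 * j + 1) * (a + 2 * (j + 1))) := by
        have h5 : 0 < 2 * (a : ℝ) * (j + 1) + (2 * j + 1) * (a + 2 * (j + 1)) := by positivity
        nlinarith [mul_pos (show 0 < P + 1 by linarith) h5, mul_nonneg ha0 hj0, mul_nonneg hj0 hj0]
      exact (mul_pos h3 h4).ne' h2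
    · subst h0
      have h1 := vroot_sing a c l P (-1) (-1) X (by simp) (by simp; ring) j g hgs hE
      obtain ⟨S, hS⟩ : ∃ S : ℝ, S = (a : ℝ) + c + 2 * l := ⟨_, rfl⟩
      have hSj : 2 * ((j : ℝ) + 1) ≤ S := by rw [hS]; linarith
      have h2 : (((S - (j + 1)) * ((j + 1) * (S - j) +
        (P / 4) * ((2 * S - 2) * (j + 1) + (2 * j + 1) * (S - 2 * (j + 1)))) : ℝ) : ℂ)
          = 0 := by
        rw [hS]
        push_cast
        linear_combination h1
      rw [Complex.ofReal_eq_zero] at h2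
      have h3 : 0 < S - (j + 1) := by linarith
      have h4 : 0 < ((j : ℝ) + 1) * (S - j) +
        (P / 4) * ((2 * S - 2) * (j + 1) + (2 * j + 1) * (S - 2 * (j + 1))) := by
        obtain ⟨d, hd⟩ : ∃ d : ℝ, d = S - 2 * (j + 1) := ⟨_, rfl⟩
        have hd0 : 0 ≤ d := by linarith
        have hw : S = d + 2 * (j + 1) := by linarith
        rw [hw]
        have h5 : 0 ≤ (2 * (d + 2 * ((j : ℝ) + 1)) - 2) * (j + 1) +
            (2 * j + 1) * ((d + 2 * (j + 1)) - 2 * (j + 1)) := by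
          have : 0 ≤ (2 * (j : ℝ) + 1) * ((d + 2 * (j + 1)) - 2 * (j + 1)) := by
            apply mul_nonneg (by positivity); linarith
          have h6 : 0 < (2 * (d + 2 * ((j : ℝ) + 1)) - 2) * (j + 1) := by
            apply mul_pos _ (by positivity); linarith
          linarith
        nlinarith [mul_nonneg (show 0 ≤ P + 1 by linarith) h5,
          mul_nonneg hj0 hj0, mul_nonneg hd0 hj0]
      exact (mul_pos h3 h4).ne' h2
  · have hd : eval s (derivative f) = 0 := by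
      have := (mul_eq_zero.mp hnv).resolve_left hA
      exact pow_eq_zero_iff (two_ne_zero) |>.mp this
    have h2 : 1 < rootMultiplicity s f := (one_lt_rootMultiplicity_iff_isRoot hf).mpr ⟨hfs, hd⟩
    obtain ⟨j, hj⟩ : ∃ j, rootMultiplicity s f = j + 2 := ⟨rootMultiplicity s f - 2, by omega⟩
    rw [hj] at hg
    rw [hg] at hE
    refine vroot_reg a c l P ?_ s hA j g hgs hE
    have : ((1 + P : ℝ) : ℂ) ≠ 0 := Complex.ofReal_ne_zero.mpr (by linarith)
    simpa using this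

end

end Pool.PN4
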