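import Pool.Agent.PN4.Stmts
import Pool.Agent.PN4.Basic
import Pool.Agent.Helper43.PLap.TThreeB

set_option autoImplicit false

open MvPolynomial

namespace Pool.PN4

noncomputable section

open Pool.Agent.Helper43.PLap in
/-- the top coefficient of the equation, with a general top term of `vn` -/
lemma vtop_gen (a c l k e : ℕ) (P : ℝ) (f : Polynomial ℂ) (c0 n0 : ℂ)
    (hf : Top f k c0) (hn : Top (vn a c l f) e n0) (hE : vOde P a c l f) :
    n0 * (((l : ℂ) - k) * (l + c - k) * c0 + (P / 4) *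
      ((4 * (l : ℂ) ^ 2 - 2 * l + 4 * c * l - c - (2 * c + 4 * l - 2) * k) * c0 +
        e * ((2 * k - c - 2 * l) * c0))) = 0 := by
  have hG := hf.xderiv
  have hd := hf.deriv
  have hxn := hn.xderiv
  have hdn := hn.deriv
  have hH : Top (Polynomial.X * Polynomial.derivative (Polynomial.X * Polynomial.derivative f)) k
      (k * (k * c0)) := hG.xderiv
  have hxd : Top (Polynomial.X * Polynomial.derivative (Polynomial.derivative f)) k 0 := by
    have := hd.xderiv
    rwa [mul_zero] at this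
  have hD : Top (vD a c l f) k (((l : ℂ) - k) * (l + c - k) * c0) := by
    have h1 := (((hf.constMul ((l : ℂ) * (c + l))).add (hd.constMul ((a : ℂ) + 1))).add
      (hG.constMul (-((c : ℂ) + 2 * l - 1)))).add ((hH.add (hG.constMul (-1))).add hxd)
    refine h1.congr ?_ (by ring)
    unfold vD
    rw [Polynomial.derivative_mul, Polynomial.derivative_X]
    simp only [map_neg, map_one]
    ring
  have hk : Top (vk a c l f) k
      ((4 * (l : ℂ) ^ 2 - 2 * l + 4 * c * l - c - (2 * c + 4 * l - 2) * k) * c0) := by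
    have h1 := ((hf.constMul (4 * (l : ℂ) ^ 2 - 2 * l + 4 * c * l - c)).add
      (hd.constMul (2 * (a : ℂ)))).add (hG.constMul (-(2 * (c : ℂ) + 4 * l - 2)))
    refine h1.congr ?_ (by ring)
    unfold vk
    simp only [map_neg]
    ring
  have hpa : Top (Polynomial.C (-((c : ℂ) + 2 * l)) * f + Polynomial.C 2 *
      (Polynomial.X * Polynomial.derivative f)) k ((2 * k - c - 2 * l) * c0) :=
    ((hf.constMul (-((c : ℂ) + 2 * l))).add (hG.constMul 2)).congr rfl (by ring)
  have hpb : Top (Polynomial.C (a : ℂ) * f + Polynomial.C 2 *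
      (Polynomial.X * Polynomial.derivative f)) k (a * c0 + 2 * (k * c0)) :=
    (hf.constMul (a : ℂ)).add (hG.constMul 2)
  have hfin := (hn.mul hD).add ((((hn.mul hk).add ((hxn.mul hpa).add (hdn.mul hpb)))).constMul
    ((P : ℂ) / 4))
  have hzero : Top (0 : Polynomial ℂ) (e + k) 0 :=
    ⟨by simp, by simp⟩
  have heq := hfin.congr (q := 0) (by
    unfold vOde at hE
    rw [← hE]
    unfold vpsi
    simp only [map_neg, map_ofNat]
    ring) rfl
  have := heq.unique hzero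
  rw [← this]
  ring

/-- module B4 -/
theorem thm_VTop : St_VTop := by
  intro a c l P hl hP hP0 f hf hdeg hvn hE
  have hPc : (P : ℂ) ≠ 0 := Complex.ofReal_ne_zero.mpr hP0
  set k := f.natDegree with hk
  set c0 := f.coeff k with hc0
  have hlc : c0 ≠ 0 := by
    rw [hc0, hk]; exact Polynomial.leadingCoeff_ne_zero.mpr hf
  have hTop : Pool.Agent.Helper43.PLap.Top f k c0 := ⟨le_rfl, rfl⟩
  have hkl : k = l := by
    by_contra hne
    have hlt : k < l := lt_of_le_of_ne hdeg hne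
    obtain ⟨δ, rfl⟩ : ∃ δ, l = k + (δ + 1) := ⟨l - k - 1, by omega⟩
    have hnTop : Pool.Agent.Helper43.PLap.Top (vn a c (k + (δ + 1)) f) (k + k)
        ((((k + (δ + 1) : ℕ) : ℂ) - k) * (((k + (δ + 1) : ℕ) : ℂ) + c - k) * c0 ^ 2) := by
      have hG := hTop.xderiv
      have hd := hTop.deriv
      have h1 := ((((hTop.mul hTop).constMul (((k + (δ + 1) : ℕ) : ℂ) *
        (c + ((k + (δ + 1) : ℕ) : ℂ)))).add ((hTop.mul hd).constMul (a : ℂ))).add
        ((hTop.mul hG).constMul (-((c : ℂ) + 2 * ((k + (δ + 1) : ℕ) : ℂ))))).add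
          ((hG.mul hG).add (hd.mul hG))
      refine h1.congr ?_ (by ring)
      unfold vn
      simp only [map_neg]
      ring
    have h := vtop_gen a c (k + (δ + 1)) k (k + k) P f c0 _ hTop hnTop hE
    have hB : 0 < ((δ : ℝ) + 1) * (δ + 1 + c) + P / 4 *
        (2 * (δ + 1) * (2 * (δ + 1) - 1) + c * (4 * (δ + 1) - 1)) := by
      have hδ : (0 : ℝ) ≤ δ := Nat.cast_nonneg δ
      have hcc : (0 : ℝ) ≤ c := Nat.cast_nonneg c
      have h1 : 0 < 2 * ((δ : ℝ) + 1) * (2 * (δ + 1) - 1) + c * (4 * (δ + 1) - 1) := by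
        have : 0 ≤ (c : ℝ) * (4 * (δ + 1) - 1) := mul_nonneg hcc (by linarith)
        nlinarith
      have h2 : -(2 * ((δ : ℝ) + 1) * (2 * (δ + 1) - 1) + c * (4 * (δ + 1) - 1)) <
          P * (2 * ((δ : ℝ) + 1) * (2 * (δ + 1) - 1) + c * (4 * (δ + 1) - 1)) := by
        nlinarith
      nlinarith
    have hBc : ((((δ : ℝ) + 1) * (δ + 1 + c) + P / 4 *
        (2 * (δ + 1) * (2 * (δ + 1) - 1) + c * (4 * (δ + 1) - 1)) : ℝ) : ℂ) ≠ 0 :=
      Complex.ofReal_ne_zero.mpr hB.ne'
    have hn1 : (((k + (δ + 1) : ℕ) : ℂ) - k) * (((k + (δ + 1) : ℕ) : ℂ) + c - k) * c0 ^ 2 ≠ 0 := by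
      have e1 : ((k + (δ + 1) : ℕ) : ℂ) - k = ((δ + 1 : ℕ) : ℂ) := by push_cast; ring
      have e2 : ((k + (δ + 1) : ℕ) : ℂ) + c - k = ((δ + 1 + c : ℕ) : ℂ) := by push_cast; ring
      rw [e1, e2]
      refine mul_ne_zero (mul_ne_zero ?_ ?_) (pow_ne_zero _ hlc)
      · exact_mod_cast Nat.succ_ne_zero δ
      · exact_mod_cast (show δ + 1 + c ≠ 0 by omega)
    have h3 := (mul_eq_zero.mp h).resolve_left hn1
    refine hBc ?_
    have h4 : c0 * ((((δ : ℝ) + 1) * (δ + 1 + c) + P / 4 *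
        (2 * (δ + 1) * (2 * (δ + 1) - 1) + c * (4 * (δ + 1) - 1)) : ℝ) : ℂ) = 0 := by
      rw [← h3]
      push_cast
      ring
    exact (mul_eq_zero.mp h4).resolve_left hlc
  refine ⟨hkl, ?_⟩
  by_cases hc : c = 0
  · exact Or.inl hc
  right
  have hnTop : Pool.Agent.Helper43.PLap.Top (vn a c l f) (vn a c l f).natDegree
      (vn a c l f).leadingCoeff := ⟨le_rfl, rfl⟩
  have hnl : (vn a c l f).leadingCoeff ≠ 0 := Polynomial.leadingCoeff_ne_zero.mpr hvn
  have h := vtop_gen a c l k _ P f c0 _ hTop hnTop hE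
  have h3 := (mul_eq_zero.mp h).resolve_left hnl
  rw [hkl] at h3
  have hcc : (c : ℂ) ≠ 0 := by exact_mod_cast hc
  have h4 : ((P : ℂ) / 4 * c0 * c) * (2 * (l : ℂ) - 1 - ((vn a c l f).natDegree : ℂ)) = 0 := by
    rw [← h3]
    ring
  have h5 := (mul_eq_zero.mp h4).resolve_left
    (mul_ne_zero (mul_ne_zero (div_ne_zero hPc (by norm_num)) hlc) hcc)
  have h6 : ((vn a c l f).natDegree : ℂ) = ((2 * l - 1 : ℕ) : ℂ) := by
    rw [Nat.cast_sub (by omega)]
    push_cast
    linear_combination -h5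
  exact_mod_cast h6

end

end Pool.PN4
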