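import Pool.Agent.PN4.Stmts
import Pool.Agent.PN4.Basic

set_option autoImplicit false

open MvPolynomial

namespace Pool.PN4

noncomputable section

theorem vtwo_main (a c : ℕ) (P : ℝ) (hP : -1 < P) (hP0 : P ≠ 0) (c1 c2 : ℂ) (h1 : c1 ≠ 0)
    (h2 : c2 ≠ 0)
    (h : vOde P a c 1 (Polynomial.C c1 * Polynomial.X + Polynomial.C c2)) :
    quad a c (1 + P) = 0 := by
  have hf : Polynomial.derivative (Polynomial.C c1 * Polynomial.X + Polynomial.C c2) =
      Polynomial.C c1 := by simp
  have hn : vn a c 1 (Polynomial.C c1 * Polynomial.X + Polynomial.C c2) =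
      Polynomial.C (c1 * ((a + 1) * c1 + c * c2)) * Polynomial.X +
        Polynomial.C (c2 * (a * c1 + (c + 1) * c2)) := by
    unfold vn
    rw [hf]
    simp only [map_add, map_mul, map_one, map_natCast, Nat.cast_one, map_ofNat]
    ring
  have hn' : Polynomial.derivative
      (Polynomial.C (c1 * ((a + 1) * c1 + c * c2)) * Polynomial.X +
        Polynomial.C (c2 * (a * c1 + (c + 1) * c2))) =
      Polynomial.C (c1 * ((a + 1) * c1 + c * c2)) := by
    rw [Polynomial.derivative_add, Polynomial.derivative_C_mul_X, Polynomial.derivative_C,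
      add_zero]
  have hev : ∀ x : ℂ, (c1 * ((a + 1) * c1 + c * c2) * x + c2 * (a * c1 + (c + 1) * c2)) *
      ((c + 1) * (c1 * x + c2) + ((a + 1) - (c + 2 - 1) * x) * c1) +
      P / 4 * ((c1 * ((a + 1) * c1 + c * c2) * x + c2 * (a * c1 + (c + 1) * c2)) *
        ((4 - 2 + 4 * c - c) * (c1 * x + c2) + (2 * a - (2 * c + 4 - 2) * x) * c1) +
        c1 * ((a + 1) * c1 + c * c2) *
        ((a - (c + 2) * x) * (c1 * x + c2) + 2 * (x * (1 + x) * c1))) = 0 := by
    intro x
    have h3 := h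
    unfold vOde at h3
    rw [hn, hn'] at h3
    unfold vD vk vpsi at h3
    rw [hf, Polynomial.derivative_C] at h3
    have h4 := congrArg (Polynomial.eval x) h3
    simp only [Polynomial.eval_add, Polynomial.eval_mul, Polynomial.eval_sub, Polynomial.eval_C,
      Polynomial.eval_X, Polynomial.eval_one, Polynomial.eval_zero, Polynomial.eval_ofNat,
      Nat.cast_one] at h4
    linear_combination h4
  have e0 := hev 0
  have e1 := hev 1
  have em := hev (-1)
  clear hev hn hn' hf h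
  have E0 : (a * c1 + (c + 1) * c2) * ((a + 1) * c1 + (c + 1) * c2) +
      P / 4 * (a * c1 * ((a + 1) * c1 + c * c2) +
        (a * c1 + (c + 1) * c2) * ((3 * c + 2) * c2 + 2 * a * c1)) = 0 := by
    have h3 : c2 * ((a * c1 + (c + 1) * c2) * ((a + 1) * c1 + (c + 1) * c2) +
      P / 4 * (a * c1 * ((a + 1) * c1 + c * c2) +
        (a * c1 + (c + 1) * c2) * ((3 * c + 2) * c2 + 2 * a * c1))) = 0 := by
      linear_combination e0
    exact (mul_eq_zero.1 h3).resolve_left h2
  have E1 : ((a + 1) * c1 + c * c2) * ((a + 1) * c1 + (c + 1) * c2) +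
      P / 4 * (c * c2 * (a * c1 + (c + 1) * c2) +
        ((a + 1) * c1 + c * c2) * ((3 * a + 2) * c1 + 2 * c * c2)) = 0 := by
    have h3 : c1 * (((a + 1) * c1 + c * c2) * ((a + 1) * c1 + (c + 1) * c2) +
      P / 4 * (c * c2 * (a * c1 + (c + 1) * c2) +
        ((a + 1) * c1 + c * c2) * ((3 * a + 2) * c1 + 2 * c * c2))) = 0 := by
      linear_combination (e1 - em) / 2
    exact (mul_eq_zero.1 h3).resolve_left h1
  have hd : (c1 - c2) * ((a + 1) * c1 + (c + 1) * c2 +
      P / 2 * ((2 * a + 1) * c1 + (2 * c + 1) * c2)) = 0 := by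
    linear_combination E1 - E0
  rcases mul_eq_zero.1 hd with h3 | h3
  · -- equal coefficients
    exfalso
    have h4 : c2 = c1 := (sub_eq_zero.1 h3).symm
    subst h4
    have h5 : c2 ^ 2 * ((((a : ℝ) + c + 1) * ((a + c + 2) + P / 4 * (3 * a + 3 * c + 2)) : ℝ) : ℂ)
        = 0 := by
      push_cast
      linear_combination E1
    have h6 := (mul_eq_zero.1 h5).resolve_left (pow_ne_zero 2 h2)
    have h7 : ((a : ℝ) + c + 1) * ((a + c + 2) + P / 4 * (3 * a + 3 * c + 2)) = 0 := by
      exact_mod_cast h6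
    have ha : (0 : ℝ) ≤ a := Nat.cast_nonneg a
    have hc : (0 : ℝ) ≤ c := Nat.cast_nonneg c
    rcases mul_eq_zero.1 h7 with h8 | h8
    · linarith
    · nlinarith
  · -- the other case
    have h4 : c1 * (1 + (1 + P) * (2 * a + 1)) = -(c2 * (1 + (1 + P) * (2 * c + 1))) := by
      linear_combination 2 * h3
    have hPc : (P : ℂ) ≠ 0 := by exact_mod_cast hP0
    have h5 : a * (a + 1) * c1 ^ 2 + 2 * (a + 1) * (c + 1) * c1 * c2 + c * (c + 1) * c2 ^ 2 = 0 := by
      have h6 : (P : ℂ) / 4 * (a * (a + 1) * c1 ^ 2 + 2 * (a + 1) * (c + 1) * c1 * c2 +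
          c * (c + 1) * c2 ^ 2) = 0 := by
        linear_combination (-1) * E1 + ((a + 1) * c1 + c * c2) * h3
      refine (mul_eq_zero.1 h6).resolve_left ?_
      exact div_ne_zero hPc (by norm_num)
    have h7 : c2 ^ 2 * ((quad a c (1 + P) : ℝ) : ℂ) = 0 := by
      unfold quad
      push_cast
      linear_combination (1 + (1 + P) * (2 * a + 1)) ^ 2 * h5 -
        (a * (a + 1) * (c1 * (1 + (1 + P) * (2 * a + 1)) - c2 * (1 + (1 + P) * (2 * c + 1))) +
          2 * (a + 1) * (c + 1) * (1 + (1 + P) * (2 * a + 1)) * c2) * h4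
    exact_mod_cast (mul_eq_zero.1 h7).resolve_left (pow_ne_zero 2 h2)

/-- module B6 -/
theorem thm_VTwo : St_VTwo := fun a c P hP hP0 c1 c2 h1 h2 h =>
  vtwo_main a c P hP hP0 c1 c2 h1 h2 h

end

end Pool.PN4
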