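import Pool.Agent.PN4.Stmts
import Pool.Agent.PN4.Basic

set_option autoImplicit false

open MvPolynomial

namespace Pool.PN4

noncomputable section

lemma Vertex_ne (s : Equiv.Perm (Fin 4)) {u : MvPolynomial (Fin 4) ℂ} (hu : u ≠ 0) :
    rename s u ≠ 0 := by
  intro h
  apply hu
  have h1 : rename s u = rename s 0 := by rw [h, map_zero]
  exact rename_injective s s.injective h1

lemma Vertex_core (h2 : St_VRoot) (h3 : St_VPsi) (h4 : St_VTop) (h5 : St_VOne) (h6 : St_VTwo)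
    (h7 : St_VEval) (P : ℝ) (hP : -1 < P) (hP0 : P ≠ 0) (m : ℕ) (hG : Gen P m) (i j : ℕ)
    (u : MvPolynomial (Fin 4) ℂ) (hu : u ≠ 0) (hm : u.IsHomogeneous m) (hS : Sol P u)
    (hs : ∀ d ∈ u.support, d 1 + d 2 = i ∧ d 1 + d 3 = j) (hj0 : 0 < j) (hji : j ≤ i)
    (hij : i + j ≤ m) : False := by
  obtain ⟨f, hf0, hfl, hode⟩ := h7 (m - i - j) (i - j) j P u hu (fun d hd => by
    obtain ⟨ha, hb⟩ := hs d hd
    have hd4 := hom_four hm hd
    exact ⟨by omega, by omega, by omega⟩) hS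
  have hj1 : j = 1 := h5 _ _ _ P hj0 hP hP0 f hf0 hfl hode
  subst hj1
  have hn := (h3 _ _ _ P le_rfl hP0 f hf0 hode).1
  have hdeg := (h4 _ _ _ P le_rfl hP hP0 f hf0 hfl hn hode).1
  obtain ⟨c1, hc1, c2, hfe⟩ : ∃ c1 : ℂ, c1 ≠ 0 ∧ ∃ c2 : ℂ,
      f = Polynomial.C c1 * Polynomial.X + Polynomial.C c2 := by
    obtain ⟨c1, hc1, c2, h⟩ := Polynomial.natDegree_eq_one.1 hdeg
    exact ⟨c1, hc1, c2, h.symm⟩
  have hc2 : c2 ≠ 0 := by
    intro h0
    have hf00 : Polynomial.eval 0 f = 0 := by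
      rw [hfe, h0]
      simp
    refine h2 _ _ _ P le_rfl hP f hf0 hfl hode 0 ?_ hf00
    unfold vn
    simp only [Polynomial.eval_add, Polynomial.eval_mul, Polynomial.eval_pow, hf00,
      Polynomial.eval_X]
    ring
  rw [hfe] at hode
  exact hG _ _ (by omega) (h6 _ _ P hP hP0 c1 c2 hc1 hc2 hode)

lemma Vertex_half (h1 : St_Swap) (h2 : St_VRoot) (h3 : St_VPsi) (h4 : St_VTop) (h5 : St_VOne)
    (h6 : St_VTwo) (h7 : St_VEval) (P : ℝ) (hP : -1 < P) (hP0 : P ≠ 0) (m : ℕ) (hG : Gen P m) (i j : ℕ)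
    (u : MvPolynomial (Fin 4) ℂ) (hu : u ≠ 0) (hm : u.IsHomogeneous m) (hS : Sol P u)
    (hs : ∀ d ∈ u.support, d 1 + d 2 = i ∧ d 1 + d 3 = j) (hi0 : 0 < i) (hj0 : 0 < j)
    (hij : i + j ≤ m) : False := by
  rcases le_total j i with hji | hji
  · exact Vertex_core h2 h3 h4 h5 h6 h7 P hP hP0 m hG i j u hu hm hS hs hj0 hji hij
  · obtain ⟨hs1, -, -, hs4, -⟩ := h1 P u
    refine Vertex_core h2 h3 h4 h5 h6 h7 P hP hP0 m hG j i _ (Vertex_ne _ hu)
      (IsHomogeneous.rename_isHomogeneous hm) (hs1 hS) ?_ hi0 hji (by omega)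
    intro d hd
    rw [← mk_self d, mem_support_iff, hs4, ← mem_support_iff] at hd
    obtain ⟨ha, hb⟩ := hs _ hd
    rw [mk_one, mk_two] at ha
    rw [mk_one, mk_three] at hb
    exact ⟨hb, ha⟩

/-- module B9 -/
theorem thm_Vertex (h1 : St_Swap) (h2 : St_VRoot) (h3 : St_VPsi) (h4 : St_VTop) (h5 : St_VOne) (h6 : St_VTwo) (h7 : St_VEval) : St_Vertex := by
  intro P hP hP0 m hG i j u hu hm hS hs hi0 him hj0 hjm
  rcases le_total (i + j) m with hij | hij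
  · exact Vertex_half h1 h2 h3 h4 h5 h6 h7 P hP hP0 m hG i j u hu hm hS hs hi0 hj0 hij
  · obtain ⟨-, hs2, -, -, hs5⟩ := h1 P u
    refine Vertex_half h1 h2 h3 h4 h5 h6 h7 P hP hP0 m hG (m - j) (m - i) _ (Vertex_ne _ hu)
      (IsHomogeneous.rename_isHomogeneous hm) (hs2 hS) ?_ (by omega) (by omega) (by omega)
    intro d hd
    rw [← mk_self d, mem_support_iff, hs5, ← mem_support_iff] at hd
    obtain ⟨ha, hb⟩ := hs _ hd
    have hd4 := hom_four hm hd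
    rw [mk_one, mk_two] at ha
    rw [mk_one, mk_three] at hb
    rw [mk_zero, mk_one, mk_two, mk_three] at hd4
    exact ⟨by omega, by omega⟩

end

end Pool.PN4
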