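import Pool.Agent.PN4.Stmts
import Pool.Agent.PN4.Basic

set_option autoImplicit false

open MvPolynomial

namespace Pool.PN4

noncomputable section

def Zero3_k1 : Ideal (MvPolynomial (Fin 4) ℂ) :=
  RingHom.ker (aeval ![0, X 1, X 2, X 3] : MvPolynomial (Fin 4) ℂ →ₐ[ℂ] MvPolynomial (Fin 4) ℂ)

def Zero3_k2 : Ideal (MvPolynomial (Fin 4) ℂ) :=
  RingHom.ker (aeval ![0, 0, X 2, X 3] : MvPolynomial (Fin 4) ℂ →ₐ[ℂ] MvPolynomial (Fin 4) ℂ)

def Zero3_k3 : Ideal (MvPolynomial (Fin 4) ℂ) :=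
  RingHom.ker (aeval ![0, 0, 0, X 3] : MvPolynomial (Fin 4) ℂ →ₐ[ℂ] MvPolynomial (Fin 4) ℂ)

def Zero3_k4 : Ideal (MvPolynomial (Fin 4) ℂ) :=
  RingHom.ker (aeval ![0, 0, 0, 0] : MvPolynomial (Fin 4) ℂ →ₐ[ℂ] MvPolynomial (Fin 4) ℂ)

instance Zero3_inst1 : Zero3_k1.IsPrime := RingHom.ker_isPrime _
instance Zero3_inst2 : Zero3_k2.IsPrime := RingHom.ker_isPrime _
instance Zero3_inst3 : Zero3_k3.IsPrime := RingHom.ker_isPrime _
instance Zero3_inst4 : Zero3_k4.IsPrime := RingHom.ker_isPrime _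

lemma Zero3_k01 : (⊥ : Ideal (MvPolynomial (Fin 4) ℂ)) < Zero3_k1 := by
  rw [SetLike.lt_iff_le_and_exists]
  refine ⟨bot_le, X 0, ?_, ?_⟩
  · rw [Zero3_k1, RingHom.mem_ker]; simp
  · simp

lemma Zero3_k12 : Zero3_k1 < Zero3_k2 := by
  rw [SetLike.lt_iff_le_and_exists]
  refine ⟨?_, X 1, ?_, ?_⟩
  · intro q hq
    rw [Zero3_k1, RingHom.mem_ker] at hq
    rw [Zero3_k2, RingHom.mem_ker]
    have h := congrArg (aeval ![0, 0, X 2, X 3] : MvPolynomial (Fin 4) ℂ →ₐ[ℂ] MvPolynomial (Fin 4) ℂ) hq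
    have h2 : (aeval ![0, 0, X 2, X 3] : MvPolynomial (Fin 4) ℂ →ₐ[ℂ] MvPolynomial (Fin 4) ℂ)
        ((aeval ![0, X 1, X 2, X 3] : MvPolynomial (Fin 4) ℂ →ₐ[ℂ] MvPolynomial (Fin 4) ℂ) q) =
        (aeval ![0, 0, X 2, X 3] : MvPolynomial (Fin 4) ℂ →ₐ[ℂ] MvPolynomial (Fin 4) ℂ) q := by
      rw [← AlgHom.comp_apply]
      refine congrArg (fun f : MvPolynomial (Fin 4) ℂ →ₐ[ℂ] MvPolynomial (Fin 4) ℂ => f q) ?_
      apply algHom_ext
      intro i
      fin_cases i <;> simp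
    erw [h2] at h
    simpa using h
  · rw [Zero3_k2, RingHom.mem_ker]; simp
  · rw [Zero3_k1, RingHom.mem_ker]; simp

lemma Zero3_k23 : Zero3_k2 < Zero3_k3 := by
  rw [SetLike.lt_iff_le_and_exists]
  refine ⟨?_, X 2, ?_, ?_⟩
  · intro q hq
    rw [Zero3_k2, RingHom.mem_ker] at hq
    rw [Zero3_k3, RingHom.mem_ker]
    have h := congrArg (aeval ![0, 0, 0, X 3] : MvPolynomial (Fin 4) ℂ →ₐ[ℂ] MvPolynomial (Fin 4) ℂ) hq
    have h2 : (aeval ![0, 0, 0, X 3] : MvPolynomial (Fin 4) ℂ →ₐ[ℂ] MvPolynomial (Fin 4) ℂ)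
        ((aeval ![0, 0, X 2, X 3] : MvPolynomial (Fin 4) ℂ →ₐ[ℂ] MvPolynomial (Fin 4) ℂ) q) =
        (aeval ![0, 0, 0, X 3] : MvPolynomial (Fin 4) ℂ →ₐ[ℂ] MvPolynomial (Fin 4) ℂ) q := by
      rw [← AlgHom.comp_apply]
      refine congrArg (fun f : MvPolynomial (Fin 4) ℂ →ₐ[ℂ] MvPolynomial (Fin 4) ℂ => f q) ?_
      apply algHom_ext
      intro i
      fin_cases i <;> simp
    erw [h2] at h
    simpa using h
  · rw [Zero3_k3, RingHom.mem_ker]; simp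
  · rw [Zero3_k2, RingHom.mem_ker]; simp

lemma Zero3_k34 : Zero3_k3 < Zero3_k4 := by
  rw [SetLike.lt_iff_le_and_exists]
  refine ⟨?_, X 3, ?_, ?_⟩
  · intro q hq
    rw [Zero3_k3, RingHom.mem_ker] at hq
    rw [Zero3_k4, RingHom.mem_ker]
    have h := congrArg (aeval ![0, 0, 0, 0] : MvPolynomial (Fin 4) ℂ →ₐ[ℂ] MvPolynomial (Fin 4) ℂ) hq
    have h2 : (aeval ![0, 0, 0, 0] : MvPolynomial (Fin 4) ℂ →ₐ[ℂ] MvPolynomial (Fin 4) ℂ)
        ((aeval ![0, 0, 0, X 3] : MvPolynomial (Fin 4) ℂ →ₐ[ℂ] MvPolynomial (Fin 4) ℂ) q) =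
        (aeval ![0, 0, 0, 0] : MvPolynomial (Fin 4) ℂ →ₐ[ℂ] MvPolynomial (Fin 4) ℂ) q := by
      rw [← AlgHom.comp_apply]
      refine congrArg (fun f : MvPolynomial (Fin 4) ℂ →ₐ[ℂ] MvPolynomial (Fin 4) ℂ => f q) ?_
      apply algHom_ext
      intro i
      fin_cases i <;> simp
    erw [h2] at h
    simpa using h
  · rw [Zero3_k4, RingHom.mem_ker]; simp
  · rw [Zero3_k3, RingHom.mem_ker]; simp

lemma Zero3_height : 4 ≤ Zero3_k4.height := by
  have h0 : (⊥ : Ideal (MvPolynomial (Fin 4) ℂ)).height + 1 ≤ Zero3_k1.height :=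
    Ideal.height_add_one_le_of_lt_of_isPrime Zero3_k01
  have h1 : Zero3_k1.height + 1 ≤ Zero3_k2.height :=
    Ideal.height_add_one_le_of_lt_of_isPrime Zero3_k12
  have h2 : Zero3_k2.height + 1 ≤ Zero3_k3.height :=
    Ideal.height_add_one_le_of_lt_of_isPrime Zero3_k23
  have h3 : Zero3_k3.height + 1 ≤ Zero3_k4.height :=
    Ideal.height_add_one_le_of_lt_of_isPrime Zero3_k34
  rw [Ideal.height_bot] at h0
  calc (4 : ℕ∞) = 0 + 1 + 1 + 1 + 1 := by norm_num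
    _ ≤ Zero3_k1.height + 1 + 1 + 1 := by gcongr
    _ ≤ Zero3_k2.height + 1 + 1 := by gcongr
    _ ≤ Zero3_k3.height + 1 := by gcongr
    _ ≤ Zero3_k4.height := h3

lemma Zero3_mem (q : MvPolynomial (Fin 4) ℂ) : q ∈ Zero3_k4 ↔ eval 0 q = 0 := by
  rw [Zero3_k4, RingHom.mem_ker]
  have : (aeval ![0, 0, 0, 0] : MvPolynomial (Fin 4) ℂ →ₐ[ℂ] MvPolynomial (Fin 4) ℂ) q =
      C (eval 0 q) := by
    have h : (aeval ![0, 0, 0, 0] : MvPolynomial (Fin 4) ℂ →ₐ[ℂ] MvPolynomial (Fin 4) ℂ) =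
        (Algebra.ofId ℂ (MvPolynomial (Fin 4) ℂ)).comp (aeval (0 : Fin 4 → ℂ)) := by
      apply algHom_ext
      intro i
      fin_cases i <;> simp
    rw [h, AlgHom.comp_apply]
    rfl
  rw [this, C_eq_zero]

/-- module H1 -/
theorem thm_Zero3 : St_Zero3 := by
  intro f g h hf hg hh
  classical
  by_contra hcon
  push Not at hcon
  have hx : ∀ x : Fin 4 → ℂ, eval x f = 0 → eval x g = 0 → eval x h = 0 → x = 0 := by
    intro x h1 h2 h3
    by_contra h0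
    exact hcon x h0 h1 h2 h3
  set I : Ideal (MvPolynomial (Fin 4) ℂ) := Ideal.span (({f, g, h} : Finset _) : Set _) with hI
  have hz : zeroLocus ℂ I = {0} := by
    rw [hI, zeroLocus_span]
    ext x
    simp only [Set.mem_ofPred_eq, Set.mem_singleton_iff]
    constructor
    · intro h0
      have h1 := h0 f (by simp)
      have h2 := h0 g (by simp)
      have h3 := h0 h (by simp)
      exact hx x (by simpa [aeval_eq_eval] using h1) (by simpa [aeval_eq_eval] using h2)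
        (by simpa [aeval_eq_eval] using h3)
    · intro h0 q hq
      subst h0
      simp only [Finset.coe_insert, Finset.coe_singleton, Set.mem_insert_iff,
        Set.mem_singleton_iff] at hq
      rcases hq with rfl | rfl | rfl
      · simpa [aeval_eq_eval] using hf
      · simpa [aeval_eq_eval] using hg
      · simpa [aeval_eq_eval] using hh
  have hrad : I.radical = Zero3_k4 := by
    rw [← vanishingIdeal_zeroLocus_eq_radical (K := ℂ), hz]
    ext q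
    rw [mem_vanishingIdeal_singleton_iff, Zero3_mem]
    simp [aeval_eq_eval]
  have hmin : Zero3_k4 ∈ I.minimalPrimes := by
    rw [← Ideal.radical_minimalPrimes, hrad, Ideal.minimalPrimes_eq_subsingleton_self]
    simp
  have h1 := Ideal.height_le_card_of_mem_minimalPrimes_span_finset hmin
  have h2 : (({f, g, h} : Finset (MvPolynomial (Fin 4) ℂ)).card : ℕ∞) ≤ 3 := by
    exact_mod_cast Finset.card_le_three
  have h3 := Zero3_height.trans (h1.trans h2)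
  exact absurd h3 (by norm_num)

end

end Pool.PN4
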