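import Pool.Agent.PN4.Glue
import Pool.Agent.PN4.Sub
import Pool.Agent.PN4.Gram
import Pool.Agent.PN4.Init
import Pool.Agent.PN4.InitD
import Pool.Agent.PN4.Swap
import Pool.Agent.PN4.TGen
import Pool.Agent.PN4.VRoot
import Pool.Agent.PN4.VPsi
import Pool.Agent.PN4.VTop
import Pool.Agent.PN4.VOne
import Pool.Agent.PN4.VTwo
import Pool.Agent.PN4.QuadNeg
import Pool.Agent.PN4.VEval
import Pool.Agent.PN4.Vertex
import Pool.Agent.PN4.FrI
import Pool.Agent.PN4.FrIII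
import Pool.Agent.PN4.Strip
import Pool.Agent.PN4.LocIII
import Pool.Agent.PN4.LocII
import Pool.Agent.PN4.Open
import Pool.Agent.PN4.EdgeRoot
import Pool.Agent.PN4.EdgeSimple
import Pool.Agent.PN4.EdgeA
import Pool.Agent.PN4.EdgeB
import Pool.Agent.PN4.Plane
import Pool.Agent.PN4.LocIa
import Pool.Agent.PN4.LocI
import Pool.Agent.PN4.Equal
import Pool.Agent.PN4.LNull
import Pool.Agent.PN4.LGen
import Pool.Agent.PN4.LFlow
import Pool.Agent.PN4.LEnt
import Pool.Agent.PN4.LDeg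
import Pool.Agent.PN4.Line
import Pool.Agent.PN4.Zero3
import Pool.Agent.PN4.FrR
import Pool.Agent.PN4.Frame4
import Pool.Agent.PN4.Rot
import Pool.Agent.PN4.StepA
import Pool.Agent.PN4.StepB
import Pool.Agent.PN4.Comb

set_option autoImplicit false

open MvPolynomial

namespace Pool.PN4

noncomputable section

/-- the four dimensional theorem -/
theorem dim_four (p : ℝ) (hp : 1 < p) (hp2 : p ≠ 2)
    (m : ℕ) (hm : 2 ≤ m)
    (hex : p < 4 / 3 → ∀ a c : ℕ, a + c + 2 = m →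
      ((a : ℝ) - c) ^ 2 * (1 + (m - 1) * (p - 1) ^ 2) ≠ m * (1 + (m - 1) * (p - 1)) ^ 2) (u : MvPolynomial (Fin 4) ℝ) (hu0 : u ≠ 0) (hu : u.IsHomogeneous m)
    (h : ∀ x : Fin 4 → ℝ,
      (∑ i, (eval x (pderiv i u)) ^ 2) * (∑ i, eval x (pderiv i (pderiv i u))) +
        (p - 2) * ∑ i, ∑ j, eval x (pderiv i u) * eval x (pderiv j u) *
          eval x (pderiv i (pderiv j u)) = 0) : False :=
  final_of (thm_Frame4 thm_Sub thm_Zero3 thm_FrR)
    (comb_of thm_Sub thm_Gram thm_Init thm_InitD thm_Swap thm_VRoot thm_VPsi thm_VTop thm_VOne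
      thm_VTwo thm_VEval thm_Vertex thm_FrI thm_FrIII thm_TGen thm_Strip thm_LocIII thm_LocII
      thm_Open thm_EdgeRoot thm_EdgeSimple thm_EdgeA thm_EdgeB thm_Plane thm_LocIa thm_LocI
      thm_Equal thm_LNull thm_LGen thm_LFlow thm_LEnt thm_LDeg thm_Line thm_Rot thm_StepA
      thm_StepB thm_Comb)
    thm_QuadNeg p hp hp2 m hm hex u hu0 hu h

end

end Pool.PN4
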