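import Pool.Agent.PN4.Defs

set_option autoImplicit false

open MvPolynomial

namespace Pool.PN4

noncomputable section

/-! ### A. substitutions and initial forms -/

/-- affine substitutions -/
def St_Sub : Prop := ∀ (M K : Matrix (Fin 4) (Fin 4) ℂ) (b : Fin 4 → ℂ) (P : ℂ)
    (u : MvPolynomial (Fin 4) ℂ),
  B K (sub M b u) (sub M b u) = sub M b (B (M * K * M.transpose) u u) ∧
  E K P (sub M b u) = sub M b (E (M * K * M.transpose) P u) ∧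
  (∀ x, eval x (sub M b u) = eval (fun i => b i + ∑ j, M i j * x j) u) ∧
  (∀ j, pderiv j (sub M b u) = ∑ i, C (M i j) * sub M b (pderiv i u))

/-- inverse Gram matrices -/
def St_Gram : Prop := ∀ M K K' : Matrix (Fin 4) (Fin 4) ℂ,
  M.transpose * Hm * M = K → K * K' = 1 → M * K' * M.transpose = Hm

/-- initial forms of solutions are solutions -/
def St_Init : Prop := ∀ (n : ℕ) (ω : Fin n → ℕ) (κ W : ℕ) (G : Matrix (Fin n) (Fin n) ℂ) (P : ℂ)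
    (u : MvPolynomial (Fin n) ℂ),
  (∀ i j, G i j ≠ 0 → ω i + ω j = κ) → (∀ d ∈ u.support, W ≤ wt ω d) → E G P u = 0 →
  E G P (ini ω W u) = 0

/-- initial forms and first order operators -/
def St_InitD : Prop := ∀ (ω : Fin 4 → ℕ) (κ W : ℕ) (c c0 : Fin 4 → MvPolynomial (Fin 4) ℂ) (μ : ℂ)
    (w : MvPolynomial (Fin 4) ℂ), 0 < κ →
  (∀ d ∈ w.support, W ≤ wt ω d) →
  (∀ i, ∀ d ∈ (c i - c0 i).support, ω i < wt ω d + κ) →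
  (∀ i, ∀ d ∈ (c0 i).support, wt ω d + κ = ω i) →
  ∑ i, c i * pderiv i w = C μ * w →
  ∑ i, c0 i * pderiv i (ini ω W w) = 0

/-- swapping `y, z` and `ξ, η` -/
def St_Swap : Prop := ∀ (P : ℝ) (u : MvPolynomial (Fin 4) ℂ),
  (Sol P u → Sol P (rename (Equiv.swap (2 : Fin 4) 3) u)) ∧
  (Sol P u → Sol P (rename (Equiv.swap (0 : Fin 4) 1) u)) ∧
  (IsReal u → IsReal (rename (Equiv.swap (2 : Fin 4) 3) u)) ∧
  (∀ a b c e, coeff (mk a b c e) (rename (Equiv.swap (2 : Fin 4) 3) u) = coeff (mk a b e c) u) ∧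
  (∀ a b c e, coeff (mk a b c e) (rename (Equiv.swap (0 : Fin 4) 1) u) = coeff (mk b a c e) u)

/-! ### B. one variable equations -/

/-- the three dimensional classification with an extra `ν f'` in the Laplacian -/
def St_TGen : Prop := ∀ (ν a w : ℕ), 2 ≤ w → ∀ P : ℝ, -1 < P → P ≠ 0 → ∀ f : Polynomial ℂ,
  f ≠ 0 → 2 * f.natDegree ≤ w →
  Agent.Helper43.PLap.nn (a : ℂ) w f *
      (Agent.Helper43.PLap.DD (a : ℂ) w f + Polynomial.C (ν : ℂ) * Polynomial.derivative f) +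
    Polynomial.C ((P : ℂ) / 2) * (Agent.Helper43.PLap.nn (a : ℂ) w f *
        Agent.Helper43.PLap.kap (a : ℂ) w f +
      Polynomial.derivative (Agent.Helper43.PLap.nn (a : ℂ) w f) *
        Agent.Helper43.PLap.psi (a : ℂ) w f) = 0 → False

/-- a root of `n` is not a root of `f` -/
def St_VRoot : Prop := ∀ (a c l : ℕ) (P : ℝ), 1 ≤ l → -1 < P → ∀ f : Polynomial ℂ, f ≠ 0 →
  f.natDegree ≤ l → vOde P a c l f → ∀ s, Polynomial.eval s (vn a c l f) = 0 →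
  Polynomial.eval s f ≠ 0

/-- `n` does not vanish identically, and its roots are roots of `psi` -/
def St_VPsi : Prop := ∀ (a c l : ℕ) (P : ℝ), 1 ≤ l → P ≠ 0 → ∀ f : Polynomial ℂ, f ≠ 0 →
  vOde P a c l f → vn a c l f ≠ 0 ∧ ∀ s, Polynomial.eval s (vn a c l f) = 0 →
  Polynomial.eval s (vpsi a c l f) = 0

/-- the top coefficient -/
def St_VTop : Prop := ∀ (a c l : ℕ) (P : ℝ), 1 ≤ l → -1 < P → P ≠ 0 → ∀ f : Polynomial ℂ,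
  f ≠ 0 → f.natDegree ≤ l → vn a c l f ≠ 0 → vOde P a c l f →
  f.natDegree = l ∧ (c = 0 ∨ (vn a c l f).natDegree = 2 * l - 1)

/-- only `l = 1` is possible -/
def St_VOne : Prop := ∀ (a c l : ℕ) (P : ℝ), 1 ≤ l → -1 < P → P ≠ 0 → ∀ f : Polynomial ℂ,
  f ≠ 0 → f.natDegree ≤ l → vOde P a c l f → l = 1

/-- the case `l = 1` -/
def St_VTwo : Prop := ∀ (a c : ℕ) (P : ℝ), -1 < P → P ≠ 0 → ∀ c1 c2 : ℂ, c1 ≠ 0 → c2 ≠ 0 →
  vOde P a c 1 (Polynomial.C c1 * Polynomial.X + Polynomial.C c2) → quad a c (1 + P) = 0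

/-- `quad` is negative for `T ≥ 1/3` -/
def St_QuadNeg : Prop := ∀ (a c : ℕ) (T : ℝ), 1 / 3 ≤ T → quad a c T < 0

/-- the equation of a weight vector in one variable -/
def St_VEval : Prop := ∀ (a c l : ℕ) (P : ℝ) (u : MvPolynomial (Fin 4) ℂ), u ≠ 0 →
  (∀ d ∈ u.support, d 0 = a + d 1 ∧ d 2 + d 1 = c + l ∧ d 3 + d 1 = l) → Sol P u →
  ∃ f : Polynomial ℂ, f ≠ 0 ∧ f.natDegree ≤ l ∧ vOde P a c l f

/-- the torus weights of a weight vector solution lie on the boundary of the square -/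
def St_Vertex : Prop := ∀ (P : ℝ), -1 < P → P ≠ 0 → ∀ (m : ℕ), Gen P m → ∀ (i j : ℕ)
    (u : MvPolynomial (Fin 4) ℂ), u ≠ 0 → u.IsHomogeneous m → Sol P u →
  (∀ d ∈ u.support, d 1 + d 2 = i ∧ d 1 + d 3 = j) → 0 < i → i < m → 0 < j → j < m → False

/-! ### C. frames -/

def St_FrI : Prop := ∀ x v : Fin 4 → ℂ, bil x v = 0 → bil x x ≠ 0 → bil v v ≠ 0 →
  ∃ M : Matrix (Fin 4) (Fin 4) ℂ, (∀ i, M i 0 = x i) ∧ (∀ i, M i 1 = v i) ∧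
    M.transpose * Hm * M = K1 (bil x x) (bil v v)

def St_FrIII : Prop := ∀ x v : Fin 4 → ℂ, x ≠ 0 → bil x x = 0 → bil x v = 0 → bil v v ≠ 0 →
  ∃ M : Matrix (Fin 4) (Fin 4) ℂ, (∀ i, M i 0 = x i) ∧ (∀ i, M i 2 = v i) ∧
    M.transpose * Hm * M = K3 (bil v v)

/-! ### D. local results at null points -/

/-- weight vectors in the frame `(ξ, η, s, δ)` -/
def St_Strip : Prop := ∀ (P : ℝ), -1 < P → P ≠ 0 → ∀ (R : ℂ), R ≠ 0 → ∀ (ν a w : ℕ), 2 ≤ w →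
  ∀ U : MvPolynomial (Fin 4) ℂ, U ≠ 0 → E (K3 R⁻¹) (P : ℂ) U = 0 →
  (∀ d ∈ U.support, d 0 = a + d 1 ∧ 2 * d 1 + d 2 + d 3 = w) →
  X 0 * pderiv 2 U = C ((ν : ℂ) * R) * (X 2 * pderiv 1 U) → False

def St_LocIII : Prop := ∀ (P : ℝ), -1 < P → P ≠ 0 → ∀ (m : ℕ) (w : MvPolynomial (Fin 4) ℂ),
  w ≠ 0 → w.IsHomogeneous m → Sol P w → ∀ A0 B0 μ : ℂ, Dlam A0 B0 w = C μ * w →
  ∀ x : Fin 4 → ℂ, x ≠ 0 → bil x x = 0 → bil (lamv A0 B0 x) (lamv A0 B0 x) ≠ 0 →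
  eval x w = 0 → (∀ v, bil x v = 0 → dir w x v = 0) → False

def St_LocII : Prop := ∀ (P : ℝ), -1 < P → P ≠ 0 → ∀ (m a : ℕ) (w : MvPolynomial (Fin 4) ℂ),
  w ≠ 0 → w.IsHomogeneous m → Sol P w → (∀ d ∈ w.support, d 0 = a + d 1) →
  ∀ y z : ℂ, y ≠ 0 → z ≠ 0 → eval ![1, 0, y, z] w = 0 → eval ![1, 0, y, z] (B Hm w w) = 0 → False

/-- at a null point off the coordinate planes `N` does not vanish -/
def St_Open : Prop := ∀ (P : ℝ), -1 < P → P ≠ 0 → ∀ (m : ℕ) (w : MvPolynomial (Fin 4) ℂ),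
  w ≠ 0 → w.IsHomogeneous m → Sol P w → ∀ A0 B0 μ : ℂ, Dlam A0 B0 w = C μ * w →
  A0 ^ 2 ≠ B0 ^ 2 → ∀ x : Fin 4 → ℂ, (∀ i, x i ≠ 0) → bil x x = 0 → eval x w = 0 →
  eval x (B Hm w w) ≠ 0

/-! ### E. unequal edges -/

/-- the first order condition at a point of the quadric -/
def St_EdgeRoot : Prop := ∀ (P : ℝ) (m J D a : ℕ) (w : MvPolynomial (Fin 4) ℂ), 1 ≤ J → 1 ≤ D →
  w.IsHomogeneous m → Sol P w → (∀ d ∈ w.support, J * (d 1 + d 2) + D * (d 1 + d 3) = J * a) →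
  ∀ z : ℂ, z ≠ 0 → eval ![1, -z, 1, z] w = 0 →
  eval ![1, -z, 1, z] (pderiv 3 w) - eval ![1, -z, 1, z] (pderiv 1 w) ≠ 0 →
  (2 * (m : ℂ) + P * (2 * m - 1)) * eval ![1, -z, 1, z] (pderiv 1 w) +
    (2 * (1 + P) * ((a : ℂ) - D / J) + P * ((D : ℂ) / (2 * J) - 1 / 2)) *
      (eval ![1, -z, 1, z] (pderiv 3 w) - eval ![1, -z, 1, z] (pderiv 1 w)) -
    2 * (1 + P) * ((D : ℂ) / J) * z *
      (eval ![1, -z, 1, z] (pderiv 3 (pderiv 3 w)) -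
        2 * eval ![1, -z, 1, z] (pderiv 1 (pderiv 3 w)) +
        eval ![1, -z, 1, z] (pderiv 1 (pderiv 1 w))) = 0

/-- the nonzero roots of `φ(z) = w(1,-z,1,z)` are simple -/
def St_EdgeSimple : Prop := ∀ (P : ℝ), -1 < P → P ≠ 0 → ∀ (m J D a : ℕ)
    (w : MvPolynomial (Fin 4) ℂ), 1 ≤ J → 1 ≤ D → w ≠ 0 → w.IsHomogeneous m → Sol P w →
  (∀ d ∈ w.support, J * (d 1 + d 2) + D * (d 1 + d 3) = J * a) →
  ∀ z : ℂ, z ≠ 0 → eval ![1, -z, 1, z] w = 0 →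
  eval ![1, -z, 1, z] (pderiv 3 w) - eval ![1, -z, 1, z] (pderiv 1 w) ≠ 0

def St_EdgeA : Prop := ∀ (P : ℝ), -1 < P → P ≠ 0 → ∀ (m J D : ℕ) (w : MvPolynomial (Fin 4) ℂ),
  1 ≤ J → 1 ≤ D → J ≤ m → D ≤ m → w.IsHomogeneous m → Sol P w →
  (∀ d ∈ w.support, J * (d 1 + d 2) + D * (d 1 + d 3) = J * D) →
  coeff (mk (m - D) 0 D 0) w ≠ 0 → coeff (mk (m - J) 0 0 J) w ≠ 0 → J = D

def St_EdgeB : Prop := ∀ (P : ℝ), -1 < P → P ≠ 0 → ∀ (m k D : ℕ) (w : MvPolynomial (Fin 4) ℂ),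
  1 ≤ D → k + D ≤ m → w.IsHomogeneous m → Sol P w →
  (∀ d ∈ w.support, m * (d 1 + d 2) + D * (d 1 + d 3) = m * (k + D)) →
  coeff (mk (m - (k + D)) 0 (k + D) 0) w ≠ 0 → coeff (mk 0 k 0 (m - k)) w ≠ 0 → m = D + 2 * k

/-! ### F. the equal edge -/

def St_Plane : Prop := ∀ (P : ℝ), -1 < P → P ≠ 0 → ∀ f : MvPolynomial (Fin 2) ℂ,
  (∀ p q W : ℕ, 1 ≤ p → 1 ≤ q → (∀ d ∈ f.support, W ≤ wt ![p, q] d) →
    E H2 (P : ℂ) (ini ![p, q] W f) = 0) →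
  (∀ d ∈ f.support, 1 ≤ d 0 + d 1) →
  ((∀ d ∈ f.support, d 0 + d 1 = 1 → d 0 = 1) ∨ (∀ d ∈ f.support, d 0 + d 1 = 1 → d 1 = 1)) →
  (∃ d ∈ f.support, d 1 = 0) → (∃ d ∈ f.support, d 0 = 0) → False

/-- the restriction to the plane spanned by the two null vectors of a frame -/
def St_LocIa : Prop := ∀ (P : ℝ), -1 < P → P ≠ 0 → ∀ (m : ℕ) (w : MvPolynomial (Fin 4) ℂ),
  w.IsHomogeneous m → Sol P w → ∀ A0 B0 μ : ℂ, Dlam A0 B0 w = C μ * w →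
  ∀ x : Fin 4 → ℂ, bil x x ≠ 0 → bil (lamv A0 B0 x) (lamv A0 B0 x) ≠ 0 →
  ∀ M : Matrix (Fin 4) (Fin 4) ℂ, (∀ i, M i 0 = x i) → (∀ i, M i 1 = lamv A0 B0 x i) →
  M.transpose * Hm * M = K1 (bil x x) (bil (lamv A0 B0 x) (lamv A0 B0 x)) →
  ∀ p q W : ℕ, 1 ≤ p → 1 ≤ q →
  (∀ d ∈ (aeval (fun i => (C (x i) + C (M i 2) * X 0 + C (M i 3) * X 1 : MvPolynomial (Fin 2) ℂ))
    w).support, W ≤ wt ![p, q] d) →
  E H2 (P : ℂ) (ini ![p, q] W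
    (aeval (fun i => (C (x i) + C (M i 2) * X 0 + C (M i 3) * X 1 : MvPolynomial (Fin 2) ℂ)) w)) = 0

def St_LocI : Prop := ∀ (P : ℝ), -1 < P → P ≠ 0 → ∀ (m : ℕ) (w : MvPolynomial (Fin 4) ℂ),
  w.IsHomogeneous m → Sol P w → ∀ A0 B0 μ : ℂ, Dlam A0 B0 w = C μ * w →
  ∀ x : Fin 4 → ℂ, bil x x ≠ 0 → bil (lamv A0 B0 x) (lamv A0 B0 x) ≠ 0 →
  eval x w = 0 → eval x (B Hm w w) = 0 →
  ∃ v : Fin 4 → ℂ, v ≠ 0 ∧ bil v v = 0 ∧ bil v x = 0 ∧ bil v (lamv A0 B0 x) = 0 ∧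
    (∀ t : ℂ, eval (fun i => x i + t * v i) w = 0) ∧ (1 ≤ m → eval v w = 0) ∧
    (2 ≤ m → eval v (B Hm w w) = 0)

def St_Equal : Prop := ∀ (P : ℝ), -1 < P → P ≠ 0 → ∀ (m c : ℕ) (w : MvPolynomial (Fin 4) ℂ),
  2 ≤ c → c ≤ m → w.IsHomogeneous m → Sol P w →
  (∀ d ∈ w.support, 2 * d 1 + d 2 + d 3 = c) →
  coeff (mk (m - c) 0 c 0) w ≠ 0 → coeff (mk (m - c) 0 0 c) w ≠ 0 → False

/-! ### G. the last edge: circle invariant solutions -/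

/-- the ideal of `w, q, N` contains powers of the four basic invariants -/
def St_LNull : Prop := ∀ (P : ℝ), -1 < P → P ≠ 0 → ∀ (m k : ℕ) (w : MvPolynomial (Fin 4) ℂ),
  1 ≤ k → 2 * k < m → w.IsHomogeneous m → Sol P w →
  (∀ d ∈ w.support, m * (d 1 + d 2) + (m - 2 * k) * (d 1 + d 3) = m * (m - k)) →
  coeff (mk 0 k 0 (m - k)) w ≠ 0 → coeff (mk k 0 (m - k) 0) w ≠ 0 →
  ∃ s : ℕ, ∀ g ∈ ({X 0 * X 1, X 2 * X 3, X 1 ^ k * X 3 ^ (m - k), X 0 ^ k * X 2 ^ (m - k)} :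
      Set (MvPolynomial (Fin 4) ℂ)), g ^ s ∈ Ideal.span {w, q4, B Hm w w}

/-- invariants of large degree lie in the ideal, with invariant coefficients -/
def St_LGen : Prop := ∀ (m k s : ℕ) (w : MvPolynomial (Fin 4) ℂ),
  1 ≤ k → 2 * k < m → w.IsHomogeneous m → InA m k w →
  (∀ g ∈ ({X 0 * X 1, X 2 * X 3, X 1 ^ k * X 3 ^ (m - k), X 0 ^ k * X 2 ^ (m - k)} :
      Set (MvPolynomial (Fin 4) ℂ)), g ^ s ∈ Ideal.span {w, q4, B Hm w w}) →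
  ∃ D : ℕ, 2 * m ≤ D ∧ ∀ n, D ≤ n → ∀ f : MvPolynomial (Fin 4) ℂ, f.IsHomogeneous n → InA m k f →
    ∃ a b c : MvPolynomial (Fin 4) ℂ, InA m k a ∧ InA m k b ∧ a.IsHomogeneous (n - m) ∧
      b.IsHomogeneous (n - 2) ∧ f = w * a + q4 * b + B Hm w w * c

/-- the formal flow of `grad w` at a point -/
def St_LFlow : Prop := ∀ (w : MvPolynomial (Fin 4) ℂ) (x : Fin 4 → ℂ),
  ∃ ev : MvPolynomial (Fin 4) ℂ →ₐ[ℂ] PowerSeries ℂ,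
    (∀ f, PowerSeries.constantCoeff (ev f) = eval x f) ∧
    (∀ f, PowerSeries.derivative ℂ (ev f) = ev (B Hm w f))

/-- a finite module of power series closed under products and derivative is polynomial -/
def St_LEnt : Prop := ∀ (s : ℕ) (b : Fin s → PowerSeries ℂ) (Mx : Fin s → Fin s → Polynomial ℂ)
    (Cx : Fin s → Fin s → Fin s → Polynomial ℂ),
  (∀ i, PowerSeries.derivative ℂ (b i) = ∑ j, (Mx i j : PowerSeries ℂ) * b j) →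
  (∀ i j, b i * b j = ∑ k, (Cx i j k : PowerSeries ℂ) * b k) →
  ∀ i, ∃ p : Polynomial ℂ, b i = (p : PowerSeries ℂ)

/-- along the flow the invariants of degree `n` are polynomials of degree at most `n / 2` -/
def St_LDeg : Prop := ∀ (m k D : ℕ) (w N : MvPolynomial (Fin 4) ℂ)
    (ev : MvPolynomial (Fin 4) ℂ →ₐ[ℂ] PowerSeries ℂ) (u0 c1 : ℂ),
  1 ≤ k → 2 * k < m → 2 * m ≤ D → w.IsHomogeneous m → InA m k w → u0 ≠ 0 →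
  ev w = PowerSeries.C u0 → ev q4 = PowerSeries.C c1 * PowerSeries.X → ev N = 0 →
  (∀ f, PowerSeries.derivative ℂ (ev f) = ev (B Hm w f)) →
  (∀ n, D ≤ n → ∀ f : MvPolynomial (Fin 4) ℂ, f.IsHomogeneous n → InA m k f →
    ∃ a b c : MvPolynomial (Fin 4) ℂ, InA m k a ∧ InA m k b ∧ a.IsHomogeneous (n - m) ∧
      b.IsHomogeneous (n - 2) ∧ f = w * a + q4 * b + N * c) →
  ∀ (n : ℕ) (f : MvPolynomial (Fin 4) ℂ), f.IsHomogeneous n → InA m k f →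
    ∃ p : Polynomial ℂ, ev f = (p : PowerSeries ℂ) ∧ 2 * p.natDegree ≤ n

def St_Line : Prop := ∀ (P : ℝ), -1 < P → P ≠ 0 → ∀ (m k : ℕ) (w : MvPolynomial (Fin 4) ℂ),
  1 ≤ k → 2 * k < m → w.IsHomogeneous m → Sol P w →
  (∀ d ∈ w.support, m * (d 1 + d 2) + (m - 2 * k) * (d 1 + d 3) = m * (m - k)) →
  coeff (mk 0 k 0 (m - k)) w ≠ 0 → coeff (mk k 0 (m - k) 0) w ≠ 0 → False

/-! ### H. real solutions -/

def St_Zero3 : Prop := ∀ f g h : MvPolynomial (Fin 4) ℂ, eval 0 f = 0 → eval 0 g = 0 →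
  eval 0 h = 0 → ∃ x : Fin 4 → ℂ, x ≠ 0 ∧ eval x f = 0 ∧ eval x g = 0 ∧ eval x h = 0

/-- a null vector is part of a unitary null frame -/
def St_FrR : Prop := ∀ x : Fin 4 → ℂ, x ≠ 0 → ∑ i, x i ^ 2 = 0 →
  ∃ M : Matrix (Fin 4) (Fin 4) ℂ, M.transpose * M = Hm ∧ (∃ c : ℂ, c ≠ 0 ∧ ∀ i, M i 0 = c * x i) ∧
    (∀ i, M i 1 = (starRingEnd ℂ) (M i 0)) ∧ (∀ i, M i 3 = (starRingEnd ℂ) (M i 2))

def St_Frame4 : Prop := ∀ (P : ℝ) (m : ℕ), 2 ≤ m → ∀ u : MvPolynomial (Fin 4) ℝ, u ≠ 0 →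
  u.IsHomogeneous m →
  (∀ x : Fin 4 → ℝ,
      (∑ i, (eval x (pderiv i u)) ^ 2) * (∑ i, eval x (pderiv i (pderiv i u))) +
        P * ∑ i, ∑ j, eval x (pderiv i u) * eval x (pderiv j u) *
          eval x (pderiv i (pderiv j u)) = 0) →
  ∃ U : MvPolynomial (Fin 4) ℂ, U ≠ 0 ∧ U.IsHomogeneous m ∧ Sol P U ∧ IsReal U ∧
    coeff (mk m 0 0 0) U = 0 ∧
    (coeff (mk (m - 1) 0 1 0) U = 0 ∨ coeff (mk (m - 1) 0 0 1) U = 0)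

/-- moving the null point along its ruling -/
def St_Rot : Prop := ∀ (P : ℝ) (m a : ℕ) (U : MvPolynomial (Fin 4) ℂ), 1 ≤ m → a ≤ m → U ≠ 0 →
  U.IsHomogeneous m → Sol P U → IsReal U → (∀ d ∈ U.support, a ≤ d 1 + d 2) →
  (∃ d ∈ U.support, d 1 + d 2 = a) →
  ∃ V : MvPolynomial (Fin 4) ℂ, V ≠ 0 ∧ V.IsHomogeneous m ∧ Sol P V ∧ IsReal V ∧
    (∀ d ∈ V.support, a ≤ d 1 + d 2) ∧ (∃ d ∈ V.support, d 1 + d 2 = a) ∧
    coeff (mk (m - a) 0 a 0) V = 0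

/-- the tangent cone at the null point is a pure power of one of the two rulings -/
def St_StepA : Prop := ∀ (P : ℝ), -1 < P → P ≠ 0 → ∀ (m : ℕ), Gen P m → ∀ (c : ℕ)
    (U : MvPolynomial (Fin 4) ℂ), 1 ≤ c → c ≤ m → U.IsHomogeneous m → Sol P U →
  (∀ d ∈ U.support, c ≤ 2 * d 1 + d 2 + d 3) → (∃ d ∈ U.support, 2 * d 1 + d 2 + d 3 = c) →
  (coeff (mk (m - 1) 0 1 0) U = 0 ∨ coeff (mk (m - 1) 0 0 1) U = 0) →
  (∀ d ∈ U.support, 2 * d 1 + d 2 + d 3 = c → d = mk (m - c) 0 c 0) ∨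
  (∀ d ∈ U.support, 2 * d 1 + d 2 + d 3 = c → d = mk (m - c) 0 0 c)

/-- the next edge -/
def St_StepB : Prop := ∀ (P : ℝ), -1 < P → P ≠ 0 → ∀ (m : ℕ), Gen P m → ∀ (a : ℕ)
    (U : MvPolynomial (Fin 4) ℂ), 1 ≤ a → a ≤ m → U.IsHomogeneous m → Sol P U → IsReal U →
  coeff (mk (m - a) 0 a 0) U ≠ 0 →
  (∀ d ∈ U.support, 2 * d 1 + d 2 + d 3 ≤ a → d = mk (m - a) 0 a 0) →
  (∃ d ∈ U.support, d 1 + d 2 < a) → False

def St_Comb : Prop := ∀ (P : ℝ), -1 < P → P ≠ 0 → ∀ (m : ℕ), Gen P m → ∀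
    (U : MvPolynomial (Fin 4) ℂ), 2 ≤ m → U ≠ 0 → U.IsHomogeneous m → Sol P U → IsReal U →
  coeff (mk m 0 0 0) U = 0 →
  (coeff (mk (m - 1) 0 1 0) U = 0 ∨ coeff (mk (m - 1) 0 0 1) U = 0) → False

end

end Pool.PN4
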